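import Mathlib

/-! # The asymptotic inequality (module Asymp) -/

set_option autoImplicit false

namespace Pool.TSph

private theorem asymp_fact (N : ℕ) (hN : 0 < N) :
    (N : ℝ) * Real.log N - N ≤ Real.log (N.factorial : ℝ) := by
  have h := Real.pow_div_factorial_le_exp (N : ℝ) (Nat.cast_nonneg N) N
  have hN' : (0 : ℝ) < N := by exact_mod_cast hN
  have hf : (0 : ℝ) < (N.factorial : ℝ) := by exact_mod_cast Nat.factorial_pos N
  have h2 : Real.log ((N : ℝ) ^ N / (N.factorial : ℝ)) ≤ (N : ℝ) := by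
    have := Real.log_le_log (by positivity) h
    rwa [Real.log_exp] at this
  rw [Real.log_div (by positivity) hf.ne', Real.log_pow] at h2
  linarith

/-- For every `ε > 0` there is `s` such that for all large `N` the inequality of `low_count`
implies `n ^ ((1/10 - ε) n) ≤ |S|`. With `V = 9 ^ (s+1) N`, `n = (10 s + 3) V`,
`log N! ≥ N log N - N`: `log |S| ≥ s V (log N - 1) - V log (4 n) - s V log (20 (s+1))`, and
`log N = log n - log (10 s + 3) - (s + 1) log 9`, so `log |S| ≥ (s - 1) V log n - c_s V`, while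
`(1/10 - ε) n log n = (s + 3/10 - ε (10 s + 3)) V log n`. Take `s` with
`ε (10 s + 3) ≥ 3`. -/
theorem asymp (ε : ℝ) (hε : 0 < ε) :
    ∃ s : ℕ, 1 ≤ s ∧ ∃ N₀ : ℕ, ∀ N : ℕ, N₀ ≤ N → 0 < N → ∀ n : ℕ,
      n = (10 * s + 3) * (9 ^ (s + 1) * N) → ∀ T : ℕ,
      N.factorial ^ (s * 9 ^ (s + 1)) ≤
        T * (4 * n) ^ (9 ^ (s + 1) * N) * (20 * (s + 1)) ^ (s * (9 ^ (s + 1) * N)) →
      (n : ℝ) ^ ((1 / 10 - ε) * n) ≤ T := by
  obtain ⟨s, hs⟩ := exists_nat_ge (3 / ε)
  have hs1 : 1 ≤ s := by
    rcases Nat.eq_zero_or_pos s with h | h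
    · subst h
      have : (0 : ℝ) < 3 / ε := by positivity
      simp at hs
      linarith
    · exact h
  have hs3 : 3 ≤ ε * (10 * s + 3) := by
    rw [div_le_iff₀ hε] at hs
    have h0 : (0 : ℝ) ≤ s := Nat.cast_nonneg s
    nlinarith [mul_nonneg hε.le h0]
  refine ⟨s, hs1, ?_⟩
  set c : ℝ := (s : ℝ) + s * Real.log (10 * s + 3) + s * ((s + 1) * Real.log 9) + Real.log 4
    + s * Real.log (20 * (s + 1)) with hc
  obtain ⟨N₀, hN₀⟩ := exists_nat_ge (Real.exp c)
  refine ⟨N₀, ?_⟩
  intro N hN hNpos n hn T hT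
  have hNr : (0 : ℝ) < N := by exact_mod_cast hNpos
  set V : ℕ := 9 ^ (s + 1) * N with hV
  have hVpos : 0 < V := by positivity
  have hVr : (0 : ℝ) < (V : ℝ) := by exact_mod_cast hVpos
  have hnpos : 0 < n := by
    rw [hn]; positivity
  have hnr : (0 : ℝ) < (n : ℝ) := by exact_mod_cast hnpos
  have hTpos : 0 < T := by
    rcases Nat.eq_zero_or_pos T with h | h
    · subst h
      have : 0 < N.factorial ^ (s * 9 ^ (s + 1)) := pow_pos (Nat.factorial_pos N) _
      simp at hT
      exact absurd hT.1 (Nat.factorial_ne_zero N)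
    · exact h
  have hTr : (0 : ℝ) < (T : ℝ) := by exact_mod_cast hTpos
  have hsr : (1 : ℝ) ≤ (s : ℝ) := by exact_mod_cast hs1
  -- the logarithmic inequality
  have hTR : ((N.factorial : ℝ)) ^ (s * 9 ^ (s + 1)) ≤
      (T : ℝ) * (4 * n) ^ V * (20 * (s + 1)) ^ (s * V) := by
    exact_mod_cast hT
  have hf : (0 : ℝ) < (N.factorial : ℝ) := by exact_mod_cast Nat.factorial_pos N
  have hlog := Real.log_le_log (by positivity) hTR
  rw [Real.log_mul (by positivity) (by positivity), Real.log_mul (by positivity) (by positivity),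
    Real.log_pow, Real.log_pow, Real.log_pow, Real.log_mul (by norm_num) hnr.ne'] at hlog
  push_cast at hlog
  -- log n
  have hnlog : Real.log n = Real.log (10 * s + 3) + ((s + 1) * Real.log 9 + Real.log N) := by
    rw [hn, hV]
    push_cast
    rw [Real.log_mul (by positivity) (by positivity), Real.log_mul (by positivity) hNr.ne',
      Real.log_pow]
    push_cast
    ring
  have hfac := asymp_fact N hNpos
  have hVe : (V : ℝ) = 9 ^ (s + 1) * N := by
    rw [hV]; push_cast; ring
  have h1 : (s : ℝ) * V * (Real.log N - 1) ≤ s * 9 ^ (s + 1) * Real.log (N.factorial : ℝ) := by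
    have : (s : ℝ) * V * (Real.log N - 1) = s * 9 ^ (s + 1) * (N * Real.log N - N) := by
      rw [hVe]; ring
    rw [this]
    exact mul_le_mul_of_nonneg_left hfac (by positivity)
  -- log n ≥ c
  have hnge : c ≤ Real.log n := by
    have h2 : Real.exp c ≤ n := by
      calc Real.exp c ≤ N₀ := hN₀
        _ ≤ (N : ℝ) := by exact_mod_cast hN
        _ ≤ (n : ℝ) := by
          have : N ≤ n := by
            rw [hn, hV]
            have h9 : 1 ≤ 9 ^ (s + 1) := Nat.one_le_pow _ _ (by norm_num)
            nlinarith [Nat.zero_le (9 ^ (s + 1) * N), Nat.mul_le_mul_right N h9]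
          exact_mod_cast this
    have := Real.log_le_log (Real.exp_pos c) h2
    rwa [Real.log_exp] at this
  have hc0 : 0 ≤ c := by
    have a1 : 0 ≤ Real.log (10 * (s : ℝ) + 3) := Real.log_nonneg (by linarith)
    have a2 : 0 ≤ Real.log (9 : ℝ) := Real.log_nonneg (by norm_num)
    have a3 : 0 ≤ Real.log (4 : ℝ) := Real.log_nonneg (by norm_num)
    have a4 : 0 ≤ Real.log (20 * ((s : ℝ) + 1)) := Real.log_nonneg (by linarith)
    have : (0 : ℝ) ≤ s := by linarith
    rw [hc]; positivity
  have hln0 : 0 ≤ Real.log n := le_trans hc0 hnge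
  -- conclusion
  have hkey : Real.log n * ((1 / 10 - ε) * n) ≤ Real.log T := by
    have hne : (n : ℝ) = (10 * s + 3) * V := by
      rw [hn]; push_cast; ring
    have hlT : (s - 1 : ℝ) * V * Real.log n - c * V ≤ Real.log T := by
      have hlN : Real.log N = Real.log n - Real.log (10 * s + 3) - (s + 1) * Real.log 9 := by
        linarith
      rw [hlN] at h1
      have : (s - 1 : ℝ) * V * Real.log n - c * V =
          (s : ℝ) * V * (Real.log n - Real.log (10 * s + 3) - (s + 1) * Real.log 9 - 1)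
          - V * (Real.log 4 + Real.log n) - s * V * Real.log (20 * (s + 1)) := by
        rw [hc]; ring
      rw [this]
      linarith
    refine le_trans ?_ hlT
    have h4 : Real.log n * ((1 / 10 - ε) * n) =
        ((s : ℝ) + 3 / 10 - ε * (10 * s + 3)) * V * Real.log n := by
      rw [hne]
      ring
    rw [h4]
    have h5 : ((s : ℝ) + 3 / 10 - ε * (10 * s + 3)) ≤ s - 2 := by linarith
    have h6 : ((s : ℝ) + 3 / 10 - ε * (10 * s + 3)) * (V * Real.log n) ≤
        (s - 2) * (V * Real.log n) :=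
      mul_le_mul_of_nonneg_right h5 (by positivity)
    have h7 : c * V ≤ V * Real.log n := by
      rw [mul_comm]
      exact mul_le_mul_of_nonneg_left hnge hVr.le
    linarith
  rw [Real.rpow_def_of_pos hnr]
  calc Real.exp (Real.log n * ((1 / 10 - ε) * n)) ≤ Real.exp (Real.log T) :=
        Real.exp_le_exp.mpr hkey
    _ = T := Real.exp_log hTr

end Pool.TSph
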