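import Mathlib

/-! # Beta integrals (module BetaInt) -/

set_option autoImplicit false

namespace Pool.TSph

open Finset

/-- `∫ p^a (1-p)^b = a! b! / (a+b+1)!`. -/
theorem integral_beta (a b : ℕ) :
    ∫ p in (0:ℝ)..1, p ^ a * (1 - p) ^ b =
      (a.factorial : ℝ) * b.factorial / (a + b + 1).factorial := by
  induction b generalizing a with
  | zero =>
    have h1 : ∫ p in (0:ℝ)..1, p ^ a * (1 - p) ^ 0 = ∫ p in (0:ℝ)..1, p ^ a := by
      simp only [pow_zero, mul_one]
    rw [h1, integral_pow, Nat.factorial_zero, Nat.cast_one, mul_one, add_zero,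
      Nat.factorial_succ, one_pow, zero_pow (Nat.succ_ne_zero a)]
    push_cast
    have h2 : (a.factorial : ℝ) ≠ 0 := by exact_mod_cast a.factorial_ne_zero
    field_simp
    ring
  | succ b ih =>
    have hd : ∀ p : ℝ, HasDerivAt (fun p : ℝ => p ^ (a + 1) * (1 - p) ^ (b + 1))
        (((a : ℝ) + 1) * (p ^ a * (1 - p) ^ (b + 1)) -
          ((b : ℝ) + 1) * (p ^ (a + 1) * (1 - p) ^ b)) p := by
      intro p
      have h1 : HasDerivAt (fun p : ℝ => p ^ (a + 1)) (((a + 1 : ℕ) : ℝ) * p ^ a) p := by
        have := hasDerivAt_pow (a + 1) p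
        simpa using this
      have h2 : HasDerivAt (fun p : ℝ => (1 - p) ^ (b + 1))
          (((b + 1 : ℕ) : ℝ) * (1 - p) ^ b * (-1)) p := by
        have h := ((hasDerivAt_id' p).const_sub 1).fun_pow (b + 1)
        refine h.congr_deriv ?_
        rw [Nat.add_sub_cancel]
      have h3 := h1.mul h2
      refine h3.congr_deriv ?_
      push_cast
      ring
    have hi1 : IntervalIntegrable (fun p : ℝ => ((a : ℝ) + 1) * (p ^ a * (1 - p) ^ (b + 1)))
        MeasureTheory.volume 0 1 := (by fun_prop : Continuous _).intervalIntegrable _ _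
    have hi2 : IntervalIntegrable (fun p : ℝ => ((b : ℝ) + 1) * (p ^ (a + 1) * (1 - p) ^ b))
        MeasureTheory.volume 0 1 := (by fun_prop : Continuous _).intervalIntegrable _ _
    have h := intervalIntegral.integral_eq_sub_of_hasDerivAt (a := 0) (b := 1)
      (fun p _ => hd p) (hi1.sub hi2)
    rw [intervalIntegral.integral_sub hi1 hi2, intervalIntegral.integral_const_mul,
      intervalIntegral.integral_const_mul, ih (a + 1)] at h
    have e0 : (1 : ℝ) ^ (a + 1) * (1 - 1) ^ (b + 1) - 0 ^ (a + 1) * (1 - 0) ^ (b + 1) = 0 := by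
      rw [sub_self, zero_pow (Nat.succ_ne_zero b), zero_pow (Nat.succ_ne_zero a)]
      ring
    rw [e0, sub_eq_zero] at h
    have ha : (0 : ℝ) < (a : ℝ) + 1 := by positivity
    have h4 : ∫ p in (0:ℝ)..1, p ^ a * (1 - p) ^ (b + 1) =
        ((b : ℝ) + 1) * (((a + 1).factorial : ℝ) * b.factorial / (a + 1 + b + 1).factorial) /
          ((a : ℝ) + 1) := by
      rw [eq_div_iff ha.ne', mul_comm]
      exact h
    rw [h4, show a + (b + 1) + 1 = a + 1 + b + 1 by ring, Nat.factorial_succ a,
      Nat.factorial_succ b]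
    push_cast
    have h5 : ((a + 1 + b + 1).factorial : ℝ) ≠ 0 := by
      exact_mod_cast (a + 1 + b + 1).factorial_ne_zero
    field_simp

end Pool.TSph
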