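import Pool.Agent.Lib.MP_3de3a3_co.Defs

/-! # Marginalisation (module Marg) -/

set_option autoImplicit false

namespace Pool.TSph

open Finset

variable {ι : Type*} [DecidableEq ι]

/-- Separating the element `w`, insert form. -/
theorem Marg_insert (W : Finset ι) {w : ι} (hw : w ∉ W) (f : Finset ι → ℝ) (p : ℝ) :
    ∑ S ∈ (insert w W).powerset, p ^ S.card * (1 - p) ^ ((insert w W).card - S.card) * f S =
      ∑ S ∈ W.powerset, p ^ S.card * (1 - p) ^ (W.card - S.card) *
        (p * f (insert w S) + (1 - p) * f S) := by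
  rw [Finset.sum_powerset_insert hw, ← Finset.sum_add_distrib]
  refine Finset.sum_congr rfl fun S hS => ?_
  have hSW : S ⊆ W := Finset.mem_powerset.1 hS
  have hwS : w ∉ S := fun h => hw (hSW h)
  have hle : S.card ≤ W.card := Finset.card_le_card hSW
  rw [Finset.card_insert_of_notMem hw, Finset.card_insert_of_notMem hwS]
  have h1 : W.card + 1 - S.card = (W.card - S.card) + 1 := by omega
  have h2 : W.card + 1 - (S.card + 1) = W.card - S.card := by omega
  rw [h1, h2]
  ring

/-- Marginalisation. -/
theorem sum_marginal (U N : Finset ι) (hN : N ⊆ U) (f : Finset ι → ℝ) (p : ℝ) :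
    ∑ P ∈ U.powerset, p ^ P.card * (1 - p) ^ (U.card - P.card) * f (P ∩ N) =
      ∑ S ∈ N.powerset, p ^ S.card * (1 - p) ^ (N.card - S.card) * f S := by
  have key : ∀ D : Finset ι, Disjoint D N →
      ∑ P ∈ (D ∪ N).powerset, p ^ P.card * (1 - p) ^ ((D ∪ N).card - P.card) * f (P ∩ N) =
        ∑ S ∈ N.powerset, p ^ S.card * (1 - p) ^ (N.card - S.card) * f S := by
    intro D
    induction D using Finset.induction_on with
    | empty =>
      intro _
      rw [Finset.empty_union]
      refine Finset.sum_congr rfl fun S hS => ?_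
      rw [Finset.inter_eq_left.2 (Finset.mem_powerset.1 hS)]
    | insert w D hwD ih =>
      intro hd
      rw [Finset.disjoint_insert_left] at hd
      have hw : w ∉ D ∪ N := by
        rw [Finset.mem_union]
        exact fun h => h.elim hwD hd.1
      rw [Finset.insert_union, Marg_insert (D ∪ N) hw (fun P => f (P ∩ N)) p, ← ih hd.2]
      refine Finset.sum_congr rfl fun S _ => ?_
      rw [Finset.insert_inter_of_notMem hd.1]
      ring
  have h := key (U \ N) Finset.sdiff_disjoint
  rwa [Finset.sdiff_union_of_subset hN] at h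

/-- Marginalisation to the image of an injective map `a : Fin d → ι`. -/
theorem sum_marginal_fin (U : Finset ι) {d : ℕ} (a : Fin d → ι) (ha : Function.Injective a)
    (haU : ∀ i, a i ∈ U) (f : Finset (Fin d) → ℝ) (p : ℝ) :
    ∑ P ∈ U.powerset, p ^ P.card * (1 - p) ^ (U.card - P.card) *
        f (univ.filter (fun i => a i ∈ P)) =
      ∑ B : Finset (Fin d), p ^ B.card * (1 - p) ^ (d - B.card) * f B := by
  have hN : (univ : Finset (Fin d)).image a ⊆ U := by
    intro x hx
    obtain ⟨i, -, rfl⟩ := Finset.mem_image.1 hx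
    exact haU i
  have hcard : ((univ : Finset (Fin d)).image a).card = d := by
    rw [Finset.card_image_of_injective _ ha, Finset.card_univ, Fintype.card_fin]
  have h := sum_marginal U ((univ : Finset (Fin d)).image a) hN
    (fun S => f (univ.filter (fun i => a i ∈ S))) p
  have h1 : ∑ P ∈ U.powerset, p ^ P.card * (1 - p) ^ (U.card - P.card) *
        f (univ.filter (fun i => a i ∈ P)) =
      ∑ P ∈ U.powerset, p ^ P.card * (1 - p) ^ (U.card - P.card) *
        (fun S => f (univ.filter (fun i => a i ∈ S))) (P ∩ (univ : Finset (Fin d)).image a) := by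
    refine Finset.sum_congr rfl fun P _ => ?_
    have : (univ.filter (fun i => a i ∈ P)) =
        (univ.filter (fun i => a i ∈ P ∩ (univ : Finset (Fin d)).image a)) := by
      ext i
      simp only [Finset.mem_filter, Finset.mem_univ, true_and, Finset.mem_inter]
      exact ⟨fun h => ⟨h, Finset.mem_image_of_mem a (Finset.mem_univ i)⟩, fun h => h.1⟩
    show _ = _ * f (univ.filter (fun i => a i ∈ P ∩ (univ : Finset (Fin d)).image a))
    rw [← this]
  rw [h1, h, hcard]
  symm
  refine Finset.sum_nbij' (fun B => B.image a) (fun S => univ.filter (fun i => a i ∈ S))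
    ?_ ?_ ?_ ?_ ?_
  · intro B _
    rw [Finset.mem_powerset]
    exact Finset.image_subset_image (Finset.subset_univ B)
  · intro S _
    exact Finset.mem_univ _
  · intro B _
    ext i
    simp only [Finset.mem_filter, Finset.mem_univ, true_and, Finset.mem_image]
    exact ⟨fun ⟨j, hj, hji⟩ => ha hji ▸ hj, fun hi => ⟨i, hi, rfl⟩⟩
  · intro S hS
    rw [Finset.mem_powerset] at hS
    ext x
    simp only [Finset.mem_filter, Finset.mem_univ, true_and, Finset.mem_image]
    constructor
    · rintro ⟨j, hj, rfl⟩
      exact hj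
    · intro hx
      obtain ⟨i, -, hi⟩ := Finset.mem_image.1 (hS hx)
      exact ⟨i, by rw [hi]; exact hx, hi⟩
  · intro B _
    have hB : (univ.filter (fun i => a i ∈ B.image a)) = B := by
      ext i
      simp only [Finset.mem_filter, Finset.mem_univ, true_and, Finset.mem_image]
      exact ⟨fun ⟨j, hj, hji⟩ => ha hji ▸ hj, fun hi => ⟨i, hi, rfl⟩⟩
    show _ = p ^ (B.image a).card * (1 - p) ^ (d - (B.image a).card) *
      f (univ.filter (fun i => a i ∈ B.image a))
    rw [hB, Finset.card_image_of_injective _ ha]

/-- Separating the element `w`. -/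
theorem sum_split (W : Finset ι) {w : ι} (hw : w ∈ W) (f : Finset ι → ℝ) (p : ℝ) :
    ∑ S ∈ W.powerset, p ^ S.card * (1 - p) ^ (W.card - S.card) * f S =
      ∑ S ∈ (W.erase w).powerset, p ^ S.card * (1 - p) ^ ((W.erase w).card - S.card) *
        (p * f (insert w S) + (1 - p) * f S) := by
  have h := Marg_insert (W.erase w) (Finset.notMem_erase w W) f p
  rwa [Finset.insert_erase hw] at h

end Pool.TSph
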