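import Pool.Agent.Lib.MP_3de3a3_co.CardPred
import Pool.Agent.Lib.MP_3de3a3_co.Marg
import Pool.Agent.Lib.MP_3de3a3_co.BetaInt

/-! # Averaging over all orders (module AvgPred) -/

set_option autoImplicit false

namespace Pool.TSph

open Finset

variable {ι : Type*} [DecidableEq ι] [Fintype ι]

/-- The average over all numberings of a function of the predecessors of `x`. -/
theorem average_pred (x : ι) (N : Finset ι) (hN : x ∉ N) (f : Finset ι → ℝ) :
    ∑ σ : Numbering ι, f (N.filter (fun y => (σ y : ℕ) < σ x)) =
      (Fintype.card ι).factorial * Phi N f := by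
  have hU : ((univ : Finset ι).erase x).card = Fintype.card ι - 1 := by
    rw [Finset.card_erase_of_mem (Finset.mem_univ x), Finset.card_univ]
  have hm : 0 < Fintype.card ι := Fintype.card_pos_iff.2 ⟨x⟩
  have hNU : N ⊆ (univ : Finset ι).erase x := fun y hy =>
    Finset.mem_erase.2 ⟨fun h => hN (h ▸ hy), Finset.mem_univ y⟩
  -- left side
  have hL : ∑ σ : Numbering ι, f (N.filter (fun y => (σ y : ℕ) < σ x)) =
      ∑ P ∈ ((univ : Finset ι).erase x).powerset,
        (P.card.factorial : ℝ) * (Fintype.card ι - 1 - P.card).factorial * f (P ∩ N) := by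
    rw [← Finset.sum_fiberwise_of_maps_to (s := (univ : Finset (Numbering ι)))
      (t := ((univ : Finset ι).erase x).powerset)
      (g := fun σ : Numbering ι => univ.filter (fun y => (σ y : ℕ) < σ x))]
    · refine Finset.sum_congr rfl fun P hP => ?_
      have hxP : x ∉ P := fun h => Finset.notMem_erase x univ (Finset.mem_powerset.1 hP h)
      have hc := card_pred x P hxP
      have h1 : ∀ σ ∈ univ.filter (fun σ : Numbering ι =>
          univ.filter (fun y => (σ y : ℕ) < σ x) = P),
          f (N.filter (fun y => (σ y : ℕ) < σ x)) = f (P ∩ N) := by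
        intro σ hσ
        have h2 := (Finset.mem_filter.1 hσ).2
        rw [← h2]
        congr 1
        ext y
        simp only [Finset.mem_filter, Finset.mem_inter, Finset.mem_univ, true_and]
        exact And.comm
      rw [Finset.sum_congr rfl h1, Finset.sum_const, hc, nsmul_eq_mul, Nat.cast_mul]
    · intro σ _
      rw [Finset.mem_powerset]
      intro y hy
      have h2 := (Finset.mem_filter.1 hy).2
      refine Finset.mem_erase.2 ⟨fun h => ?_, Finset.mem_univ y⟩
      rw [h] at h2
      exact lt_irrefl _ h2
  -- right side
  have hR : Phi N f = ∑ P ∈ ((univ : Finset ι).erase x).powerset,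
      ((P.card.factorial : ℝ) * (Fintype.card ι - 1 - P.card).factorial /
        (Fintype.card ι).factorial) * f (P ∩ N) := by
    unfold Phi
    have h1 : ∀ p : ℝ, ∑ S ∈ N.powerset, p ^ S.card * (1 - p) ^ (N.card - S.card) * f S =
        ∑ P ∈ ((univ : Finset ι).erase x).powerset,
          p ^ P.card * (1 - p) ^ (Fintype.card ι - 1 - P.card) * f (P ∩ N) := by
      intro p
      rw [← sum_marginal _ N hNU f p, hU]
    simp_rw [h1]
    rw [intervalIntegral.integral_finset_sum]
    · refine Finset.sum_congr rfl fun P hP => ?_
      rw [intervalIntegral.integral_mul_const, integral_beta]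
      have hle : P.card ≤ Fintype.card ι - 1 := by
        rw [← hU]
        exact Finset.card_le_card (Finset.mem_powerset.1 hP)
      have h3 : P.card + (Fintype.card ι - 1 - P.card) + 1 = Fintype.card ι := by omega
      rw [h3]
    · intro P _
      exact Continuous.intervalIntegrable (by fun_prop) _ _
  rw [hL, hR, Finset.mul_sum]
  refine Finset.sum_congr rfl fun P _ => ?_
  have hne : ((Fintype.card ι).factorial : ℝ) ≠ 0 := by
    exact_mod_cast Nat.factorial_ne_zero _
  field_simp

end Pool.TSph
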