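import Mathlib

/-! # The bounds beta (module BetaDef) -/

set_option autoImplicit false

namespace Pool.TSph

open Finset

/-- Bound for the degree 3. -/
noncomputable def beta3 (B : Finset (Fin 3)) (p : ℝ) : ℝ := if B = ∅ then p else 0

/-- Bound for the degree 4. -/
noncomputable def beta4 (B : Finset (Fin 4)) (p : ℝ) : ℝ :=
  (if B = ∅ then p else 0) + (if B = {0, 2} then 1 - p else 0)

/-- Bound for the degree 5, first case. -/
noncomputable def beta5a (B : Finset (Fin 5)) (p : ℝ) : ℝ :=
  (if B = ∅ then p else 0) + (if B = {1, 3} then 1 - p else 0) +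
  (if B = {1, 4} then -p else 0) + (if B = {0, 3} then 1 - p else 0) +
  (if B = {1, 3, 4} then 1 - p else 0) + (if B = {0, 1, 3} then 1 - p else 0)

/-- Bound for the degree 5, second case. -/
noncomputable def beta5b (B : Finset (Fin 5)) (p : ℝ) : ℝ :=
  (if B = ∅ then p else 0) + (if B = {1, 3} then 1 - p else 0) +
  (if B = {1, 4} then 1 - p else 0) + (if B = {2, 4} then -p else 0) +
  (if B = {1, 3, 4} then 1 - p else 0) + (if B = {1, 2, 4} then 1 - p else 0)

/-- Bound for the degree 5, third case. -/
noncomputable def beta5n (B : Finset (Fin 5)) (p : ℝ) : ℝ :=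
  (if B = ∅ then p else 0) +
  ∑ i : Fin 5, (if B = {i, i + 2} then 5 / 8 * (4 / 5 - p) ^ 2 else 0) +
  ∑ m : Fin 5, (if B = {m, m + 2, m + 3} then (1 - p) * (3 - 2 * p) / 5 else 0)

theorem beta3_cont (B : Finset (Fin 3)) : Continuous (beta3 B) := by
  unfold beta3
  split_ifs <;> fun_prop

theorem beta4_cont (B : Finset (Fin 4)) : Continuous (beta4 B) := by
  unfold beta4
  split_ifs <;> fun_prop

theorem beta5a_cont (B : Finset (Fin 5)) : Continuous (beta5a B) := by
  unfold beta5a
  split_ifs <;> fun_prop

theorem beta5b_cont (B : Finset (Fin 5)) : Continuous (beta5b B) := by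
  unfold beta5b
  split_ifs <;> fun_prop

theorem beta5n_cont (B : Finset (Fin 5)) : Continuous (beta5n B) := by
  unfold beta5n
  refine ((Continuous.if_const _ continuous_id continuous_const).add
    (continuous_finsetSum _ fun i _ => ?_)).add (continuous_finsetSum _ fun m _ => ?_)
  · split_ifs <;> fun_prop
  · split_ifs <;> fun_prop

end Pool.TSph
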