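import Mathlib

/-! # Numbering of a connected graph with monotone parent function (module Bfs) -/

set_option autoImplicit false

namespace Pool.TSph

open Finset

/-- partial numberings of length `m` -/
structure BfsGood {α : Type*} (F : Finset α) (R : α → α → Prop) (m : ℕ) (σ : ℕ → α) (p : ℕ → ℕ) :
    Prop where
  mem : ∀ i, i < m → σ i ∈ F
  inj : ∀ i, i < m → ∀ j, j < m → σ i = σ j → i = j
  zero : p 0 = 0
  mono : ∀ i j, i ≤ j → j < m → p i ≤ p j
  par : ∀ i, 0 < i → i < m → p i < i ∧ R (σ (p i)) (σ i)
  full : ∀ j, j < p (m - 1) → ∀ b ∈ F, R (σ j) b → ∃ i, i < m ∧ σ i = b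

theorem Bfs_step {α : Type*} [DecidableEq α] {F : Finset α} {R : α → α → Prop}
    (hconn : ∀ s ∈ F, ∀ t ∈ F, Relation.ReflTransGen (fun a b => b ∈ F ∧ R a b) s t)
    {m : ℕ} (hm : 0 < m) (hmF : m < F.card) {σ : ℕ → α} {p : ℕ → ℕ} (h : BfsGood F R m σ p) :
    ∃ σ' p', BfsGood F R (m + 1) σ' p' := by
  classical
  -- an element which is not numbered
  have h1 : ∃ t ∈ F, ∀ k, k < m → σ k ≠ t := by
    by_contra hcon
    push Not at hcon
    have hsub : F ⊆ (Finset.range m).image σ := by
      intro t ht
      obtain ⟨k, hk, hkt⟩ := hcon t ht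
      exact mem_image.2 ⟨k, mem_range.2 hk, hkt⟩
    have := (card_le_card hsub).trans card_image_le
    rw [card_range] at this
    omega
  -- a numbered element with a neighbour which is not numbered
  have h2 : ∃ i, i < m ∧ ∃ b ∈ F, (∀ k, k < m → σ k ≠ b) ∧ R (σ i) b := by
    by_contra hcon
    push Not at hcon
    obtain ⟨t, ht, hnt⟩ := h1
    have hreach : ∀ c, Relation.ReflTransGen (fun a b => b ∈ F ∧ R a b) (σ 0) c →
        ∃ k, k < m ∧ σ k = c := by
      intro c hc
      induction hc with
      | refl => exact ⟨0, hm, rfl⟩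
      | @tail b c _ hbc ih =>
        obtain ⟨k, hk, hkb⟩ := ih
        by_contra hc'
        push Not at hc'
        exact hcon k hk c hbc.1 hc' (by rw [hkb]; exact hbc.2)
    obtain ⟨k, hk, hkt⟩ := hreach t (hconn _ (h.mem 0 hm) t ht)
    exact hnt k hk hkt
  let i0 := Nat.find h2
  obtain ⟨hi0, b, hbF, hb, hRb⟩ := Nat.find_spec h2
  have hmin : ∀ j, j < i0 → ¬ (j < m ∧ ∃ b ∈ F, (∀ k, k < m → σ k ≠ b) ∧ R (σ j) b) :=
    fun j hj => Nat.find_min h2 hj
  have hi0' : i0 < m := hi0
  have hRb' : R (σ i0) b := hRb
  have hpi0 : p (m - 1) ≤ i0 := by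
    by_contra hcon
    obtain ⟨k, hk, hkb⟩ := h.full i0 (not_le.1 hcon) b hbF hRb'
    exact hb k hk hkb
  refine ⟨Function.update σ m b, Function.update p m i0, ?_, ?_, ?_, ?_, ?_, ?_⟩
  · intro i hi
    by_cases him : i = m
    · subst him; simpa using hbF
    · rw [Function.update_of_ne him]
      exact h.mem i (by omega)
  · intro i hi j hj hij
    by_cases him : i = m
    · by_cases hjm : j = m
      · omega
      · rw [him, Function.update_self, Function.update_of_ne hjm] at hij
        exact absurd hij.symm (hb j (by omega))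
    · by_cases hjm : j = m
      · rw [hjm, Function.update_self, Function.update_of_ne him] at hij
        exact absurd hij (hb i (by omega))
      · rw [Function.update_of_ne him, Function.update_of_ne hjm] at hij
        exact h.inj i (by omega) j (by omega) hij
  · rw [Function.update_of_ne (by omega)]
    exact h.zero
  · intro i j hij hj
    by_cases hjm : j = m
    · subst hjm
      rw [Function.update_self]
      by_cases hij' : i = j
      · subst hij'; rw [Function.update_self]
      · rw [Function.update_of_ne hij']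
        exact (h.mono i (j - 1) (by omega) (by omega)).trans hpi0
    · have him : i ≠ m := by omega
      rw [Function.update_of_ne hjm, Function.update_of_ne him]
      exact h.mono i j hij (by omega)
  · intro i hi him
    by_cases h3 : i = m
    · subst h3
      rw [Function.update_self, Function.update_self, Function.update_of_ne (by omega)]
      exact ⟨hi0', hRb'⟩
    · have h4 := h.par i hi (by omega)
      rw [Function.update_of_ne h3, Function.update_of_ne h3, Function.update_of_ne (by omega)]
      exact h4
  · intro j hj c hc hR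
    rw [Nat.add_sub_cancel, Function.update_self] at hj
    rw [Function.update_of_ne (by omega)] at hR
    by_contra hcon
    push Not at hcon
    refine hmin j hj ⟨by omega, c, hc, fun k hk => ?_, hR⟩
    have h5 := hcon k (by omega)
    rwa [Function.update_of_ne (by omega)] at h5

/-- Breadth first search. Proof: by induction on `m`, `1 ≤ m ≤ F.card`, there is a partial
numbering `σ : ℕ → α`, `p : ℕ → ℕ` of length `m` with the required properties below `m` and such
that for `j < p (m-1)` all `b ∈ F` with `R (σ j) b` are among `σ 0, …, σ (m-1)`; to extend it take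
the smallest `i < m` such that some `b ∈ F`, not yet numbered, has `R (σ i) b`. -/
theorem bfs {α : Type*} [DecidableEq α] (F : Finset α) (R : α → α → Prop) (hF : F.Nonempty)
    (hconn : ∀ s ∈ F, ∀ t ∈ F, Relation.ReflTransGen (fun a b => b ∈ F ∧ R a b) s t) :
    ∃ (σ : Fin F.card → α) (p : Fin F.card → Fin F.card),
      (∀ i, σ i ∈ F) ∧ Function.Injective σ ∧ Monotone p ∧
      ∀ i : Fin F.card, 0 < (i : ℕ) → p i < i ∧ R (σ (p i)) (σ i) := by
  have hpos : 0 < F.card := card_pos.2 hF
  obtain ⟨a, ha⟩ := hF
  have key : ∀ m, 0 < m → m ≤ F.card → ∃ σ p, BfsGood F R m σ p := by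
    intro m hm
    induction m, hm using Nat.le_induction with
    | base =>
      intro _
      refine ⟨fun _ => a, fun _ => 0, ⟨fun _ _ => ha, fun i hi j hj _ => by omega, rfl,
        fun _ _ _ _ => le_rfl, fun i hi hi' => by omega, fun j hj => by omega⟩⟩
    | succ m hm ih =>
      intro hmF
      obtain ⟨σ, p, h⟩ := ih (by omega)
      exact Bfs_step hconn hm (by omega) h
  obtain ⟨σ, p, h⟩ := key F.card hpos le_rfl
  have hp : ∀ i : Fin F.card, p i < F.card := by
    intro i
    rcases Nat.eq_zero_or_pos (i : ℕ) with h0 | h0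
    · rw [h0, h.zero]; exact hpos
    · exact (h.par i h0 i.2).1.trans i.2
  refine ⟨fun i => σ i, fun i => ⟨p i, hp i⟩, fun i => h.mem i i.2, fun i j hij => ?_,
    fun i j hij => ?_, fun i hi => ?_⟩
  · exact Fin.ext (h.inj i i.2 j j.2 hij)
  · exact h.mono i j hij j.2
  · exact h.par i hi i.2

end Pool.TSph
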