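import Pool.Agent.Lib.MP_3de3a3_co.Lab

/-! # Functions with small support (module CardSupp) -/

set_option autoImplicit false

namespace Pool.TSph

open Finset

/-- Functions with small support. -/
theorem card_support_le {X Y : Type*} [Fintype X] [DecidableEq X] [Fintype Y] [DecidableEq Y]
    (hY : 0 < Fintype.card Y) (r : ℕ) :
    (univ.filter (fun D : X → Option Y => (univ.filter (fun x => D x ≠ none)).card ≤ r)).card
      ≤ 2 ^ Fintype.card X * Fintype.card Y ^ r := by
  classical
  set s := univ.filter (fun D : X → Option Y => (univ.filter (fun x => D x ≠ none)).card ≤ r)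
    with hs
  have h := card_le_mul_card_image (f := fun D : X → Option Y => univ.filter (fun x => D x ≠ none))
    s (Fintype.card Y ^ r) ?_
  · have h1 : (s.image (fun D : X → Option Y => univ.filter (fun x => D x ≠ none))).card ≤
        2 ^ Fintype.card X := by
      refine (card_le_univ _).trans ?_
      rw [Fintype.card_finset]
    calc s.card ≤ Fintype.card Y ^ r *
          (s.image (fun D : X → Option Y => univ.filter (fun x => D x ≠ none))).card := h
      _ ≤ Fintype.card Y ^ r * 2 ^ Fintype.card X := Nat.mul_le_mul_left _ h1
      _ = 2 ^ Fintype.card X * Fintype.card Y ^ r := Nat.mul_comm _ _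
  · intro T hT
    rw [mem_image] at hT
    obtain ⟨D₀, hD₀, rfl⟩ := hT
    have hr : (univ.filter (fun x => D₀ x ≠ none)).card ≤ r := by
      rw [hs, mem_filter] at hD₀
      exact hD₀.2
    set T := univ.filter (fun x => D₀ x ≠ none) with hTdef
    obtain ⟨y₀⟩ : Nonempty Y := Fintype.card_pos_iff.mp hY
    have h2 : (s.filter (fun D => univ.filter (fun x => D x ≠ none) = T)).card ≤
        (univ : Finset (T → Y)).card := by
      refine card_le_card_of_injOn (fun D => fun x : T => (D x).getD y₀) (fun _ _ => mem_coe.2
        (mem_univ _)) ?_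
      intro D hD D' hD' hDD
      rw [mem_coe, mem_filter] at hD hD'
      have hnone : ∀ x, D x = none ↔ D' x = none := by
        intro x
        have h3 : x ∈ univ.filter (fun x => D x ≠ none) ↔ x ∈ univ.filter (fun x => D' x ≠ none) := by
          rw [hD.2, hD'.2]
        rw [mem_filter, mem_filter] at h3
        have h4 : D x ≠ none ↔ D' x ≠ none := by
          constructor
          · intro h; exact (h3.1 ⟨mem_univ _, h⟩).2
          · intro h; exact (h3.2 ⟨mem_univ _, h⟩).2
        exact not_iff_not.1 h4
      funext x
      by_cases hx : D x = none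
      · rw [hx, (hnone x).1 hx]
      · have hx' : D' x ≠ none := fun h => hx ((hnone x).2 h)
        have hxT : x ∈ T := by
          rw [← hD.2, mem_filter]
          exact ⟨mem_univ _, hx⟩
        have h5 : (D x).getD y₀ = (D' x).getD y₀ := congrFun hDD ⟨x, hxT⟩
        obtain ⟨y, hy⟩ := Option.ne_none_iff_exists'.1 hx
        obtain ⟨y', hy'⟩ := Option.ne_none_iff_exists'.1 hx'
        rw [hy, hy'] at h5 ⊢
        simp only [Option.getD_some] at h5
        rw [h5]
    refine h2.trans ?_
    rw [card_univ, Fintype.card_fun, Fintype.card_coe]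
    exact Nat.pow_le_pow_right hY hr

end Pool.TSph
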