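import Pool.Agent.Lib.MP_3de3a3_co.CardMono
import Pool.Agent.Lib.MP_3de3a3_co.CardSupp

/-! # The number of codes (module CardCodes) -/

set_option autoImplicit false

namespace Pool.TSph

open Finset

theorem card_Codes_le (n r : ℕ) (hn : 0 < n) :
    (Codes n r).card ≤ 4 ^ n * 4 ^ n * 5 ^ (4 * n) * (2 ^ (4 * n) * (24 * n) ^ r) := by
  classical
  have hY : Fintype.card (Fin n × Equiv.Perm (Fin 4)) = 24 * n := by
    rw [Fintype.card_prod, Fintype.card_perm, Fintype.card_fin, Fintype.card_fin]
    have : Nat.factorial 4 = 24 := rfl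
    rw [this]
    ring
  have hX : Fintype.card (Fin n × Fin 4) = 4 * n := by
    rw [Fintype.card_prod, Fintype.card_fin, Fintype.card_fin]
    ring
  set A := univ.filter (fun p : Fin n → Fin n => Monotone p) with hA
  set D := univ.filter (fun D : Fin n × Fin 4 → Option (Fin n × Equiv.Perm (Fin 4)) =>
    (univ.filter (fun x => D x ≠ none)).card ≤ r) with hD
  have h1 : A.card ≤ 4 ^ n := card_monotone_le n
  have h4 : D.card ≤ 2 ^ (4 * n) * (24 * n) ^ r := by
    have := card_support_le (X := Fin n × Fin 4) (Y := Fin n × Equiv.Perm (Fin 4))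
      (by rw [hY]; omega) r
    rw [hX, hY] at this
    exact this
  have h2 : (univ : Finset (Fin n → Fin 4)).card = 4 ^ n := by
    rw [card_univ, Fintype.card_fun, Fintype.card_fin, Fintype.card_fin]
  have h3 : (univ : Finset (Fin n → Fin 4 → Option (Fin 4))).card = 5 ^ (4 * n) := by
    rw [card_univ, Fintype.card_fun, Fintype.card_fun, Fintype.card_option, Fintype.card_fin,
      Fintype.card_fin, ← pow_mul]
  have hle : (Codes n r).card ≤
      (A ×ˢ (univ : Finset (Fin n → Fin 4)) ×ˢ
        (univ : Finset (Fin n → Fin 4 → Option (Fin 4))) ×ˢ D).card := by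
    refine card_le_card_of_injOn (fun c => (c.1, c.2.1, c.2.2.1, fun q => c.2.2.2 q.1 q.2)) ?_ ?_
    · intro c hc
      have hc' : Monotone c.1 ∧
          (univ.filter (fun q : Fin n × Fin 4 => c.2.2.2 q.1 q.2 ≠ none)).card ≤ r := by
        have := mem_coe.1 hc
        unfold Codes at this
        rw [mem_filter] at this
        exact this.2
      simp only [coe_product, Set.mem_prod, mem_coe, mem_univ, true_and, hA, hD, mem_filter]
      exact hc'
    · intro c _ c' _ h
      simp only [Prod.mk.injEq] at h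
      obtain ⟨h1, h2, h3, h4⟩ := h
      refine Prod.ext h1 (Prod.ext h2 (Prod.ext h3 ?_))
      funext i a
      exact congrFun h4 (i, a)
  refine hle.trans ?_
  rw [card_product, card_product, card_product, h2, h3]
  calc A.card * (4 ^ n * (5 ^ (4 * n) * D.card))
      ≤ 4 ^ n * (4 ^ n * (5 ^ (4 * n) * (2 ^ (4 * n) * (24 * n) ^ r))) := by gcongr
    _ = 4 ^ n * 4 ^ n * 5 ^ (4 * n) * (2 ^ (4 * n) * (24 * n) ^ r) := by ring

end Pool.TSph
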