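import Pool.Agent.Lib.MP_3de3a3_co.Lab

/-! # Monotone functions (module CardMono) -/

set_option autoImplicit false

namespace Pool.TSph

open Finset

/-- The number of monotone functions `Fin n → Fin n` is at most `4 ^ n`: the function is
determined by the subset `{p i + i}` of `range (2 n)`. -/
theorem card_monotone_le (n : ℕ) :
    (univ.filter (fun p : Fin n → Fin n => Monotone p)).card ≤ 4 ^ n := by
  classical
  have h1 : (univ.filter (fun p : Fin n → Fin n => Monotone p)).card ≤
      ((range (2 * n)).powerset).card := by
    refine card_le_card_of_injOn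
      (fun p : Fin n → Fin n => univ.image (fun i : Fin n => (p i : ℕ) + (i : ℕ))) ?_ ?_
    · intro p _
      rw [mem_coe, mem_powerset]
      intro x hx
      rw [mem_image] at hx
      obtain ⟨i, -, rfl⟩ := hx
      rw [mem_range]
      have := (p i).isLt
      have := i.isLt
      omega
    · intro p hp q hq h
      rw [mem_coe, mem_filter] at hp hq
      have hmono : ∀ r : Fin n → Fin n, Monotone r →
          StrictMono (fun i : Fin n => (r i : ℕ) + (i : ℕ)) := by
        intro r hr i j hij
        have h2 : (r i : ℕ) ≤ (r j : ℕ) := hr hij.le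
        have h3 : (i : ℕ) < (j : ℕ) := hij
        show (r i : ℕ) + (i : ℕ) < (r j : ℕ) + (j : ℕ)
        omega
      have h2 : (fun i : Fin n => (p i : ℕ) + (i : ℕ)) = fun i : Fin n => (q i : ℕ) + (i : ℕ) := by
        rw [← (hmono p hp.2).range_inj (hmono q hq.2)]
        have h3 : ((univ.image (fun i : Fin n => (p i : ℕ) + (i : ℕ)) : Finset ℕ) : Set ℕ) =
            ((univ.image (fun i : Fin n => (q i : ℕ) + (i : ℕ)) : Finset ℕ) : Set ℕ) :=
          congrArg _ h
        simpa only [coe_image, coe_univ, Set.image_univ] using h3
      funext i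
      have h4 := congrFun h2 i
      have h5 : (p i : ℕ) + (i : ℕ) = (q i : ℕ) + (i : ℕ) := h4
      exact Fin.ext (by omega)
  rw [card_powerset, card_range, pow_mul] at h1
  exact h1

end Pool.TSph
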