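import Pool.Agent.Lib.MP_3de3a3_co.Defs

/-! # Numberings with given predecessors (module CardPred) -/

set_option autoImplicit false

namespace Pool.TSph

open Finset

variable {ι : Type*} [DecidableEq ι] [Fintype ι]

theorem CardPred_count (f : Numbering ι) (x : ι) :
    (univ.filter (fun y => (f y : ℕ) < f x)).card = (f x : ℕ) := by
  have h : (univ.filter (fun y => (f y : ℕ) < f x)).card = (Finset.Iio (f x)).card := by
    refine Finset.card_nbij' (fun y => f y) (fun k => f.symm k) ?_ ?_ ?_ ?_
    · intro y hy
      have := (Finset.mem_filter.1 hy).2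
      exact Finset.mem_coe.2 (Finset.mem_Iio.2 (Fin.lt_def.2 this))
    · intro k hk
      have := Finset.mem_Iio.1 (Finset.mem_coe.1 hk)
      refine Finset.mem_coe.2 (Finset.mem_filter.2 ⟨Finset.mem_univ _, ?_⟩)
      rw [Equiv.apply_symm_apply]
      exact Fin.lt_def.1 this
    · intro y _
      simp
    · intro k _
      simp
  rw [h, Fin.card_Iio]

theorem CardPred_swap (x z : ι) (P : Finset ι) (hx : x ∉ P) (hz : z ∉ P) (f : Numbering ι)
    (hf : f.IsPrefix P) : Numbering.IsPrefix ((Equiv.swap x z).trans f) P := by
  intro y
  have h1 : y ∈ P ↔ Equiv.swap x z y ∈ P := by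
    by_cases hyx : y = x
    · subst hyx
      rw [Equiv.swap_apply_left]
      exact ⟨fun h => absurd h hx, fun h => absurd h hz⟩
    · by_cases hyz : y = z
      · subst hyz
        rw [Equiv.swap_apply_right]
        exact ⟨fun h => absurd h hz, fun h => absurd h hx⟩
      · rw [Equiv.swap_apply_of_ne_of_ne hyx hyz]
  rw [h1]
  exact hf _

/-- The number of numberings for which the set of the predecessors of `x` is `P`. Mathlib has
`Numbering`, `Numbering.prefixed` and `Numbering.card_prefixed` (file
`Mathlib/Combinatorics/KatonaCircle.lean`); alternatively group the bijections. -/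
theorem card_pred (x : ι) (P : Finset ι) (hx : x ∉ P) :
    (univ.filter (fun f : Numbering ι =>
      univ.filter (fun y => (f y : ℕ) < f x) = P)).card =
      P.card.factorial * (Fintype.card ι - 1 - P.card).factorial := by
  have hlt : P.card < Fintype.card ι := by
    have h1 : (insert x P).card ≤ Fintype.card ι := Finset.card_le_univ _
    rw [Finset.card_insert_of_notMem hx] at h1
    omega
  set k : Fin (Fintype.card ι) := ⟨P.card, hlt⟩ with hk
  have hset : (univ.filter (fun f : Numbering ι =>
      univ.filter (fun y => (f y : ℕ) < f x) = P)) =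
      (Numbering.prefixed P).filter (fun f : Numbering ι => f.symm k = x) := by
    ext f
    rw [Finset.mem_filter, Finset.mem_filter, Numbering.mem_prefixed]
    constructor
    · rintro ⟨-, h⟩
      have h1 := CardPred_count f x
      rw [h] at h1
      refine ⟨fun y => ?_, ?_⟩
      · rw [h1, ← h]
        simp
      · rw [Equiv.symm_apply_eq]
        exact Fin.ext h1
    · rintro ⟨h, h2⟩
      rw [Equiv.symm_apply_eq] at h2
      refine ⟨Finset.mem_univ _, ?_⟩
      ext y
      rw [Finset.mem_filter, h y, ← h2]
      simp [hk]
  rw [hset]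
  have hfib := Finset.card_eq_sum_card_fiberwise (s := Numbering.prefixed P)
    (t := Pᶜ) (f := fun f : Numbering ι => f.symm k) (by
      intro f hf
      have hf' := Numbering.mem_prefixed.1 (Finset.mem_coe.1 hf)
      refine Finset.mem_coe.2 (Finset.mem_compl.2 fun hmem => ?_)
      have h1 := (hf' _).1 hmem
      rw [Equiv.apply_symm_apply] at h1
      exact lt_irrefl _ h1)
  have heq : ∀ z ∈ Pᶜ, ((Numbering.prefixed P).filter
      (fun f : Numbering ι => f.symm k = z)).card =
      ((Numbering.prefixed P).filter (fun f : Numbering ι => f.symm k = x)).card := by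
    intro z hz
    have hz' : z ∉ P := Finset.mem_compl.1 hz
    refine Finset.card_nbij' (fun f => (Equiv.swap x z).trans f)
      (fun f => (Equiv.swap x z).trans f) ?_ ?_ ?_ ?_
    · intro f hf
      obtain ⟨h1, h2⟩ := Finset.mem_filter.1 (Finset.mem_coe.1 hf)
      refine Finset.mem_coe.2 (Finset.mem_filter.2 ⟨?_, ?_⟩)
      · exact Numbering.mem_prefixed.2
          (CardPred_swap x z P hx hz' f (Numbering.mem_prefixed.1 h1))
      · show (Equiv.swap x z).symm (f.symm k) = x
        rw [h2, Equiv.symm_swap, Equiv.swap_apply_right]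
    · intro f hf
      obtain ⟨h1, h2⟩ := Finset.mem_filter.1 (Finset.mem_coe.1 hf)
      refine Finset.mem_coe.2 (Finset.mem_filter.2 ⟨?_, ?_⟩)
      · exact Numbering.mem_prefixed.2
          (CardPred_swap x z P hx hz' f (Numbering.mem_prefixed.1 h1))
      · show (Equiv.swap x z).symm (f.symm k) = z
        rw [h2, Equiv.symm_swap, Equiv.swap_apply_left]
    · intro f _
      ext y
      simp
    · intro f _
      ext y
      simp
  rw [Finset.sum_congr rfl heq, Finset.sum_const, Numbering.card_prefixed, smul_eq_mul,
    Finset.card_compl] at hfib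
  have hsub : Fintype.card ι - P.card = (Fintype.card ι - 1 - P.card) + 1 := by omega
  rw [hsub, Nat.factorial_succ] at hfib
  have hpos : 0 < Fintype.card ι - 1 - P.card + 1 := Nat.succ_pos _
  refine Nat.eq_of_mul_eq_mul_left hpos ?_
  rw [← hfib]
  ring

end Pool.TSph
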