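import Pool.Agent.Lib.MP_3de3a3_co.Defs

/-! # Joining the components of the dual graph (module Connect) -/

set_option autoImplicit false

namespace Pool.TSph

open Finset

variable {ι : Type*} [DecidableEq ι]

private theorem Connect_symm {F M : Finset (Finset ι)} {a b : Finset ι} (ha : a ∈ F)
    (h : Relation.ReflTransGen (fun a b => b ∈ F ∧ a ∩ b ∈ M) a b) :
    b ∈ F ∧ Relation.ReflTransGen (fun a b => b ∈ F ∧ a ∩ b ∈ M) b a := by
  induction h with
  | refl => exact ⟨ha, Relation.ReflTransGen.refl⟩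
  | tail _ hbc ih =>
    refine ⟨hbc.1, Relation.ReflTransGen.head ⟨ih.1, ?_⟩ ih.2⟩
    rw [Finset.inter_comm]
    exact hbc.2

private theorem Connect_mono {F M M' : Finset (Finset ι)} {a b : Finset ι} (hM : M ⊆ M')
    (h : Relation.ReflTransGen (fun a b => b ∈ F ∧ a ∩ b ∈ M) a b) :
    Relation.ReflTransGen (fun a b => b ∈ F ∧ a ∩ b ∈ M') a b := by
  induction h with
  | refl => exact Relation.ReflTransGen.refl
  | tail _ hbc ih => exact Relation.ReflTransGen.tail ih ⟨hbc.1, hM hbc.2⟩

private theorem Connect_aux {F : Finset (Finset ι)} (hne : F.Nonempty)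
    (hconn : ∀ s ∈ F, ∀ t ∈ F,
      Relation.ReflTransGen (fun a b => b ∈ F ∧ (a ∩ b).card = 3) s t) (k : ℕ) :
    ∀ (M Rts : Finset (Finset ι)), Rts.card = k → Rts ⊆ F →
    (∀ s ∈ F, ∃ u ∈ Rts, Relation.ReflTransGen (fun a b => b ∈ F ∧ a ∩ b ∈ M) s u) →
    ∃ X : Finset (Finset ι), X ⊆ tris F ∧ X.card + 1 ≤ Rts.card ∧
      ∀ s ∈ F, ∀ t ∈ F, Relation.ReflTransGen (fun a b => b ∈ F ∧ a ∩ b ∈ M ∪ X) s t := by
  classical
  induction k with
  | zero =>
    intro M Rts hk _ h
    obtain ⟨s, hs⟩ := hne
    obtain ⟨u, hu, _⟩ := h s hs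
    rw [Finset.card_eq_zero] at hk
    rw [hk] at hu
    exact absurd hu (Finset.notMem_empty u)
  | succ k ih =>
    intro M Rts hk hR h
    by_cases hall : ∀ s ∈ F, ∀ t ∈ F, Relation.ReflTransGen (fun a b => b ∈ F ∧ a ∩ b ∈ M) s t
    · refine ⟨∅, Finset.empty_subset _, ?_, ?_⟩
      · rw [Finset.card_empty]
        omega
      · intro s hs t ht
        rw [Finset.union_empty]
        exact hall s hs t ht
    · push Not at hall
      obtain ⟨s, hs, t, ht, hst⟩ := hall
      -- a step which leaves the component of `s`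
      have hstep : ∃ a ∈ F, ∃ b ∈ F, (a ∩ b).card = 3 ∧
          Relation.ReflTransGen (fun a b => b ∈ F ∧ a ∩ b ∈ M) s a ∧
          ¬ Relation.ReflTransGen (fun a b => b ∈ F ∧ a ∩ b ∈ M) s b := by
        by_contra hcon
        push Not at hcon
        apply hst
        have hall : ∀ t', Relation.ReflTransGen (fun a b => b ∈ F ∧ (a ∩ b).card = 3) s t' →
            t' ∈ F ∧ Relation.ReflTransGen (fun a b => b ∈ F ∧ a ∩ b ∈ M) s t' := by
          intro t' h'
          induction h' with
          | refl => exact ⟨hs, Relation.ReflTransGen.refl⟩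
          | tail _ hbc ih' => exact ⟨hbc.1, hcon _ ih'.1 _ hbc.1 hbc.2 ih'.2⟩
        exact (hall t (hconn s hs t ht)).2
      obtain ⟨a, ha, b, hb, hab, hsa, hsb⟩ := hstep
      obtain ⟨ua, hua, hau⟩ := h a ha
      obtain ⟨ub, hub, hbu⟩ := h b hb
      have hne' : ua ≠ ub := by
        rintro rfl
        exact hsb ((hsa.trans hau).trans (Connect_symm hb hbu).2)
      have hM : M ⊆ insert (a ∩ b) M := Finset.subset_insert _ _
      obtain ⟨X, hX1, hX2, hX3⟩ := ih (insert (a ∩ b) M) (Rts.erase ub)
        (by rw [Finset.card_erase_of_mem hub]; omega)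
        ((Finset.erase_subset _ _).trans hR) (by
          intro x hx
          obtain ⟨u, hu, hxu⟩ := h x hx
          by_cases huu : u = ub
          · refine ⟨ua, Finset.mem_erase.2 ⟨hne', hua⟩, ?_⟩
            rw [huu] at hxu
            refine ((Connect_mono hM hxu).trans
              (Connect_mono hM (Connect_symm hb hbu).2)).trans ?_
            refine Relation.ReflTransGen.head ⟨ha, ?_⟩ (Connect_mono hM hau)
            rw [Finset.inter_comm]
            exact Finset.mem_insert_self _ _
          · exact ⟨u, Finset.mem_erase.2 ⟨huu, hu⟩, Connect_mono hM hxu⟩)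
      have hcard := Finset.card_erase_add_one hub
      refine ⟨insert (a ∩ b) X, ?_, ?_, ?_⟩
      · intro z hz
        rcases Finset.mem_insert.1 hz with rfl | hz
        · exact mem_tris.2 ⟨hab, a, ha, Finset.inter_subset_left⟩
        · exact hX1 hz
      · have := Finset.card_insert_le (a ∩ b) X
        omega
      · intro x hx y hy
        refine Connect_mono ?_ (hX3 x hx y hy)
        intro z hz
        simp only [Finset.mem_union, Finset.mem_insert] at hz ⊢
        tauto

/-- Induction on `Rts.card`: if not all facets are connected by `M`, there is a pair of adjacent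
facets `a, b` in different components, add the triangle `a ∩ b`, and remove from `Rts` the
representative of `b` (or of `a`). -/
theorem connect {F M : Finset (Finset ι)} (hne : F.Nonempty)
    (hconn : ∀ s ∈ F, ∀ t ∈ F,
      Relation.ReflTransGen (fun a b => b ∈ F ∧ (a ∩ b).card = 3) s t)
    (Rts : Finset (Finset ι)) (hR : Rts ⊆ F)
    (h : ∀ s ∈ F, ∃ u ∈ Rts, Relation.ReflTransGen (fun a b => b ∈ F ∧ a ∩ b ∈ M) s u) :
    ∃ X : Finset (Finset ι), X ⊆ tris F ∧ X.card + 1 ≤ Rts.card ∧
      ∀ s ∈ F, ∀ t ∈ F, Relation.ReflTransGen (fun a b => b ∈ F ∧ a ∩ b ∈ M ∪ X) s t := by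
  exact Connect_aux hne hconn Rts.card M Rts rfl hR h

end Pool.TSph
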