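import Pool.Agent.Lib.MP_3de3a3_co.MfdPM

/-! # Counting faces of a closed 3-manifold (module MfdCount) -/

set_option autoImplicit false

namespace Pool.TSph

open Finset

variable {ι : Type*} [DecidableEq ι]

/-- Double counting: every facet has 4 triangles, every triangle is in two facets. -/
theorem card_tris {F : Finset (Finset ι)} (hF : PM F) : (tris F).card = 2 * F.card := by
  have h := Finset.sum_card_bipartiteAbove_eq_sum_card_bipartiteBelow
    (s := tris F) (t := F) (fun t s => t ⊆ s)
  have h1 : ∑ a ∈ tris F, (F.bipartiteAbove (fun t s => t ⊆ s) a).card = (tris F).card * 2 := by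
    rw [Finset.sum_const_nat]
    intro t ht
    exact hF.two t ht
  have h2 : ∑ b ∈ F, ((tris F).bipartiteBelow (fun t s => t ⊆ s) b).card = F.card * 4 := by
    rw [Finset.sum_const_nat]
    intro s hs
    have h3 : (tris F).bipartiteBelow (fun t s => t ⊆ s) s = s.powersetCard 3 := by
      ext t
      simp only [Finset.bipartiteBelow, mem_filter, mem_tris, mem_powersetCard]
      constructor
      · rintro ⟨⟨h4, -⟩, h5⟩
        exact ⟨h5, h4⟩
      · rintro ⟨h5, h4⟩
        exact ⟨⟨h4, s, hs, h5⟩, h5⟩
    rw [h3, card_powersetCard, hF.card4 s hs]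
    rfl
  rw [h1, h2] at h
  omega

/-- The number of facets at the vertices. -/
theorem sum_link_card {F : Finset (Finset ι)} (hF : ∀ s ∈ F, s.card = 4) :
    ∑ x ∈ verts F, (link F x).card = 4 * F.card := by
  have h0 : ∀ x, (link F x).card = (F.filter (fun s => x ∈ s)).card := by
    intro x
    apply Finset.card_image_of_injOn
    intro s hs t ht hst
    simp only [coe_filter, Set.mem_setOf_eq] at hs ht
    have h1 : insert x (s.erase x) = insert x (t.erase x) := by
      simp only at hst
      rw [hst]
    rwa [insert_erase hs.2, insert_erase ht.2] at h1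
  have h := Finset.sum_card_bipartiteAbove_eq_sum_card_bipartiteBelow
    (s := verts F) (t := F) (fun x s => x ∈ s)
  have h1 : ∑ x ∈ verts F, (link F x).card =
      ∑ a ∈ verts F, (F.bipartiteAbove (fun x s => x ∈ s) a).card :=
    Finset.sum_congr rfl (fun x _ => h0 x)
  have h2 : ∑ b ∈ F, ((verts F).bipartiteBelow (fun x s => x ∈ s) b).card = F.card * 4 := by
    rw [Finset.sum_const_nat]
    intro s hs
    have h3 : (verts F).bipartiteBelow (fun x s => x ∈ s) s = s := by
      ext x
      simp only [Finset.bipartiteBelow, mem_filter, mem_verts]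
      constructor
      · rintro ⟨-, h5⟩
        exact h5
      · intro h5
        exact ⟨⟨s, hs, h5⟩, h5⟩
    rw [h3, hF s hs]
  rw [h1, h, h2]
  omega

/-- From `hF.sphere x` (Euler). -/
theorem mfd_sum_verts_link {F : Finset (Finset ι)} (hF : IsMfd3 F) :
    ∑ x ∈ verts F, (verts (link F x)).card = 2 * F.card + 2 * (verts F).card := by
  have h1 : ∑ x ∈ verts F, 2 * (verts (link F x)).card =
      ∑ x ∈ verts F, ((link F x).card + 4) :=
    Finset.sum_congr rfl (fun x hx => (hF.sphere x hx).euler)
  rw [← Finset.mul_sum, Finset.sum_add_distrib, sum_link_card hF.card4, Finset.sum_const,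
    smul_eq_mul] at h1
  omega

/-- The relation (`y` is a vertex of the link of `x`) is symmetric, so half of the pairs satisfy
`pos y < pos x`. -/
theorem mfd_sum_lower {F : Finset (Finset ι)} (hF : IsMfd3 F) {pos : ι → ℕ}
    (hpos : Function.Injective pos) :
    ∑ x ∈ verts F, ((verts (link F x)).filter (fun y => pos y < pos x)).card =
      F.card + (verts F).card := by
  have h := Finset.sum_card_bipartiteAbove_eq_sum_card_bipartiteBelow
    (s := verts F) (t := verts F) (fun x y => y ∈ verts (link F x) ∧ pos y < pos x)
  have hsub : ∀ x y, y ∈ verts (link F x) → y ∈ verts F := by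
    intro x y hy
    rw [mem_verts_link] at hy
    obtain ⟨-, s, hs, -, hys⟩ := hy
    exact mem_verts.2 ⟨s, hs, hys⟩
  have hsymm : ∀ x y, y ∈ verts (link F x) → x ∈ verts (link F y) := by
    intro x y hy
    rw [mem_verts_link] at hy ⊢
    obtain ⟨h1, s, hs, hx, hys⟩ := hy
    exact ⟨fun h => h1 h.symm, s, hs, hys, hx⟩
  have hA : ∀ x, ((verts F).bipartiteAbove (fun x y => y ∈ verts (link F x) ∧ pos y < pos x) x) =
      (verts (link F x)).filter (fun y => pos y < pos x) := by
    intro x
    ext y
    simp only [Finset.bipartiteAbove, mem_filter]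
    constructor
    · rintro ⟨-, h2⟩
      exact h2
    · intro h2
      exact ⟨hsub x y h2.1, h2⟩
  have hB : ∀ y, ((verts F).bipartiteBelow (fun x y => y ∈ verts (link F x) ∧ pos y < pos x) y) =
      (verts (link F y)).filter (fun x => pos y < pos x) := by
    intro y
    ext x
    simp only [Finset.bipartiteBelow, mem_filter]
    constructor
    · rintro ⟨-, h2⟩
      exact ⟨hsymm x y h2.1, h2.2⟩
    · intro h2
      exact ⟨hsub y x h2.1, hsymm y x h2.1, h2.2⟩
  have h1 : ∑ x ∈ verts F, ((verts (link F x)).filter (fun y => pos y < pos x)).card =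
      ∑ x ∈ verts F, ((verts (link F x)).filter (fun y => pos x < pos y)).card := by
    rw [Finset.sum_congr rfl (fun x _ => congrArg Finset.card (hA x)),
      Finset.sum_congr rfl (fun x _ => congrArg Finset.card (hB x))] at h
    exact h
  have h2 : ∑ x ∈ verts F, (((verts (link F x)).filter (fun y => pos y < pos x)).card +
      ((verts (link F x)).filter (fun y => pos x < pos y)).card) =
      ∑ x ∈ verts F, (verts (link F x)).card := by
    apply Finset.sum_congr rfl
    intro x hx
    rw [← Finset.card_filter_add_card_filter_not (s := verts (link F x))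
      (fun y => pos y < pos x)]
    congr 2
    apply Finset.filter_congr
    intro y hy
    rw [mem_verts_link] at hy
    have h3 : pos x ≠ pos y := fun h4 => hy.1 (hpos h4)
    omega
  rw [Finset.sum_add_distrib, ← h1, mfd_sum_verts_link hF] at h2
  omega

end Pool.TSph
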