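import Pool.Agent.Lib.MP_3de3a3_co.LinkCert
import Pool.Agent.Lib.MP_3de3a3_co.Connect
import Pool.Agent.Lib.MP_3de3a3_co.MfdCount

/-! # The certificate of a vertex order, definitions (module CertDef) -/

set_option autoImplicit false

namespace Pool.TSph

open Finset

variable {ι : Type*} [DecidableEq ι]

/-- The lower neighbours of `x`. -/
def Lo (F : Finset (Finset ι)) (pos : ι → ℕ) (x : ι) : Finset ι :=
  (verts (link F x)).filter (fun y => pos y < pos x)

/-- The data of `link_cert` for all vertices. -/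
structure Data (F : Finset (Finset ι)) (pos : ι → ℕ) (R G : ι → Finset (Finset ι))
    (D : ι → Finset ι → ℕ) (Rt : ι → Finset ι) (dist : ι → ι → ℕ) (par : ι → ι → ι) : Prop where
  Rsub : ∀ x ∈ verts F, R x ⊆ link F x
  Rcard : ∀ x ∈ verts F, (R x).card ≤ (if Lo F pos x = verts (link F x) then 1 else 0)
  grad : ∀ x ∈ verts F, ∀ t ∈ link F x, t ⊆ Lo F pos x → t ∉ R x →
    ∃ t' ∈ link F x, (t ∩ t').card = 2 ∧ t ∩ t' ∈ G x ∧ D x t' < D x t
  Rtsub : ∀ x ∈ verts F, Rt x ⊆ Lo F pos x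
  Rtcard : ∀ x ∈ verts F, (Rt x).card ≤ comp (adj (link F x)) (Lo F pos x)
  forest : ∀ x ∈ verts F, ∀ w ∈ Lo F pos x, w ∉ Rt x → par x w ∈ Lo F pos x ∧
    adj (link F x) w (par x w) ∧ ({w, par x w} : Finset ι) ∉ G x ∧
      dist x (par x w) < dist x w

theorem exists_data {F : Finset (Finset ι)} (hF : IsMfd3 F) (pos : ι → ℕ) :
    ∃ R G D Rt dist par, Data F pos R G D Rt dist par := by
  classical
  have h : ∀ x, ∃ (R G : Finset (Finset ι)) (D : Finset ι → ℕ) (Rt : Finset ι)
      (dist : ι → ℕ) (par : ι → ι), x ∈ verts F →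
      (R ⊆ link F x ∧ R.card ≤ (if Lo F pos x = verts (link F x) then 1 else 0) ∧
      (∀ t ∈ link F x, t ⊆ Lo F pos x → t ∉ R →
        ∃ t' ∈ link F x, (t ∩ t').card = 2 ∧ t ∩ t' ∈ G ∧ D t' < D t) ∧
      Rt ⊆ Lo F pos x ∧ Rt.card ≤ comp (adj (link F x)) (Lo F pos x) ∧
      (∀ w ∈ Lo F pos x, w ∉ Rt → par w ∈ Lo F pos x ∧ adj (link F x) w (par w) ∧
        ({w, par w} : Finset ι) ∉ G ∧ dist (par w) < dist w)) := by
    intro x
    by_cases hx : x ∈ verts F
    · obtain ⟨R, G, D, Rt, dist, par, h⟩ := link_cert (hF.sphere x hx)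
        (S := Lo F pos x) (filter_subset _ _)
      exact ⟨R, G, D, Rt, dist, par, fun _ => h⟩
    · exact ⟨∅, ∅, fun _ => 0, ∅, fun _ => 0, id, fun h => absurd h hx⟩
  choose R G D Rt dist par h using h
  exact ⟨R, G, D, Rt, dist, par,
    fun x hx => (h x hx).1, fun x hx => (h x hx).2.1, fun x hx => (h x hx).2.2.1,
    fun x hx => (h x hx).2.2.2.1, fun x hx => (h x hx).2.2.2.2.1,
    fun x hx => (h x hx).2.2.2.2.2⟩

/-- The closing triangles. -/
def Closings (F : Finset (Finset ι)) (pos : ι → ℕ) (Rt : ι → Finset ι) (par : ι → ι → ι) :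
    Finset (Finset ι) :=
  (verts F).biUnion (fun x => (Lo F pos x \ Rt x).image (fun w => {x, w, par x w}))

/-- The facets which are roots. -/
def Roots (F : Finset (Finset ι)) (R : ι → Finset (Finset ι)) : Finset (Finset ι) :=
  (verts F).biUnion (fun x => (R x).image (fun t => insert x t))

theorem roots_sub {F : Finset (Finset ι)} {pos : ι → ℕ} {R G D Rt dist par}
    (hD : Data F pos R G D Rt dist par) : Roots F R ⊆ F := by
  intro s hs
  simp only [Roots, mem_biUnion, mem_image] at hs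
  obtain ⟨x, hx, t, ht, rfl⟩ := hs
  exact (mem_link'.1 (hD.Rsub x hx ht)).2

theorem card_roots {F : Finset (Finset ι)} {pos : ι → ℕ} {R G D Rt dist par}
    (hD : Data F pos R G D Rt dist par) :
    (Roots F R).card ≤ ∑ x ∈ verts F, (if Lo F pos x = verts (link F x) then 1 else 0) := by
  refine card_biUnion_le.trans (Finset.sum_le_sum fun x hx => ?_)
  exact card_image_le.trans (hD.Rcard x hx)

end Pool.TSph
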