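import Pool.Agent.Lib.MP_3de3a3_co.CertDef

/-! # Ranks of the closing triangles (module RankCl) -/

set_option autoImplicit false

namespace Pool.TSph

open Finset

variable {ι : Type*} [DecidableEq ι]

theorem RankCl_arith {K a b c d : ℕ} (h : a < b) (hb : b ≤ K) :
    (K - b) * (K + 1) + (K - c) < (K - a) * (K + 1) + (K - d) := by
  have h1 : K - b + 1 ≤ K - a := by omega
  have h2 := Nat.mul_le_mul_right (K + 1) h1
  have h3 : K - c ≤ K := Nat.sub_le _ _
  rw [Nat.add_mul] at h2
  omega

/-- Closing edge and rank: for `t = {x, w, par x w}` put `e t = {x, w}`; the rank is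
lexicographic, first larger `pos x`, then larger `dist x w` (bounded by a constant `K`):
`rk t = (K - pos x) * (K + 1) + (K - dist x w)`. -/
theorem exists_rank_closings {F : Finset (Finset ι)} {pos : ι → ℕ}
    (hpos : Function.Injective pos) {R G D Rt dist par}
    (hD : Data F pos R G D Rt dist par) :
    ∃ (rk : Finset ι → ℕ) (e : Finset ι → Finset ι), ∀ t ∈ Closings F pos Rt par,
      (e t ⊆ t ∧ (e t).card = 2) ∧
      ∀ t' ∈ tris F, e t ⊆ t' → t' ≠ t → t' ∉ Closings F pos Rt par ∨ rk t' < rk t := by
  classical
  have hch : ∀ t : Finset ι, t ∈ Closings F pos Rt par → ∃ x w,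
      x ∈ verts F ∧ w ∈ Lo F pos x ∧ w ∉ Rt x ∧ t = {x, w, par x w} := by
    intro t ht
    simp only [Closings, mem_biUnion, mem_image, mem_sdiff] at ht
    obtain ⟨x, hx, w, ⟨hw1, hw2⟩, h⟩ := ht
    exact ⟨x, w, hx, hw1, hw2, h.symm⟩
  choose X W hXW using hch
  set K : ℕ := ∑ x ∈ verts F, (pos x + ∑ w ∈ Lo F pos x, dist x w) with hK
  have hK1 : ∀ x ∈ verts F, pos x ≤ K := fun x hx =>
    (Nat.le_add_right _ _).trans
      (Finset.single_le_sum (f := fun x => pos x + ∑ w ∈ Lo F pos x, dist x w)
        (fun _ _ => Nat.zero_le _) hx)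
  have hK2 : ∀ x ∈ verts F, ∀ w ∈ Lo F pos x, dist x w ≤ K := fun x hx w hw =>
    (Finset.single_le_sum (f := fun w => dist x w) (fun _ _ => Nat.zero_le _) hw).trans
      ((Nat.le_add_left _ _).trans
        (Finset.single_le_sum (f := fun x => pos x + ∑ w ∈ Lo F pos x, dist x w)
          (fun _ _ => Nat.zero_le _) hx))
  refine ⟨fun t => if h : t ∈ Closings F pos Rt par then
      (K - pos (X t h)) * (K + 1) + (K - dist (X t h) (W t h)) else 0,
    fun t => if h : t ∈ Closings F pos Rt par then {X t h, W t h} else ∅, ?_⟩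
  intro t ht
  simp only [dif_pos ht]
  obtain ⟨hx, hw1, hw2, hteq⟩ := hXW t ht
  have hfor := hD.forest _ hx _ hw1 hw2
  generalize X t ht = x at *
  generalize W t ht = w at *
  have hwx : pos w < pos x := (mem_filter.1 hw1).2
  have hpx : pos (par x w) < pos x := (mem_filter.1 hfor.1).2
  have hne : x ≠ w := fun h => by rw [h] at hwx; exact lt_irrefl _ hwx
  refine ⟨⟨?_, card_pair hne⟩, ?_⟩
  · rw [hteq]
    intro y hy
    simp only [mem_insert, mem_singleton] at hy ⊢
    tauto
  · intro t' _ het' htt'
    by_cases ht' : t' ∈ Closings F pos Rt par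
    · right
      simp only [dif_pos ht']
      obtain ⟨hx', hw1', hw2', hteq'⟩ := hXW t' ht'
      have hfor' := hD.forest _ hx' _ hw1' hw2'
      generalize X t' ht' = x' at *
      generalize W t' ht' = w' at *
      have hwx' : pos w' < pos x' := (mem_filter.1 hw1').2
      have hpx' : pos (par x' w') < pos x' := (mem_filter.1 hfor'.1).2
      have m1 : x ∈ t' := het' (by simp)
      have m2 : w ∈ t' := het' (by simp)
      rw [hteq'] at m1 m2
      simp only [mem_insert, mem_singleton] at m1 m2
      by_cases hxx : x = x'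
      · subst hxx
        have : w = w' ∨ w = par x w' := by
          rcases m2 with h | h
          · exact absurd h.symm hne
          · exact h
        rcases this with h | h
        · subst h
          exact absurd (hteq'.trans hteq.symm) htt'
        · have hd := hfor'.2.2.2
          rw [← h] at hd
          have hb := hK2 x hx' w' hw1'
          omega
      · have hlt : pos x < pos x' := by
          rcases m1 with h | h | h
          · exact absurd h hxx
          · rw [h]; exact hwx'
          · rw [h]; exact hpx'
        exact RankCl_arith hlt (hK1 _ hx')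
    · exact Or.inl ht'

end Pool.TSph
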