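import Pool.Agent.Lib.MP_3de3a3_co.CertDef

/-! # Reaching a root (module Reach) -/

set_option autoImplicit false

namespace Pool.TSph

open Finset

variable {ι : Type*} [DecidableEq ι]

theorem Reach_top {pos : ι → ℕ} {x w p y : ι} {e : Finset ι}
    (h : insert x e = ({y, w, p} : Finset ι)) (h1 : ∀ z ∈ e, pos z < pos x)
    (h3 : pos w < pos y) (h4 : pos p < pos y) : x = y := by
  by_contra hne
  have hx : x ∈ ({y, w, p} : Finset ι) := by rw [← h]; simp
  have hy : y ∈ insert x e := by rw [h]; simp
  simp only [mem_insert, mem_singleton] at hx hy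
  have a : pos x < pos y := by
    rcases hx with hx | hx | hx
    · exact absurd hx hne
    · rw [hx]; exact h3
    · rw [hx]; exact h4
  have b : pos y < pos x := by
    rcases hy with hy | hy
    · exact absurd hy.symm hne
    · exact h1 y hy
  omega

/-- One step along the gradient avoids the closing triangles. -/
theorem Reach_step {F : Finset (Finset ι)} {pos : ι → ℕ} {R G D Rt dist par}
    (hD : Data F pos R G D Rt dist par) {x : ι} {t t' : Finset ι}
    (ht : t ∈ link F x) (ht' : t' ∈ link F x) (hS : t ⊆ Lo F pos x)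
    (hc : (t ∩ t').card = 2) (hG : t ∩ t' ∈ G x) :
    insert x t' ∈ F ∧ insert x t ∩ insert x t' ∈ tris F \ Closings F pos Rt par := by
  obtain ⟨hxt, hF⟩ := mem_link'.1 ht
  obtain ⟨hxt', hF'⟩ := mem_link'.1 ht'
  have he : insert x t ∩ insert x t' = insert x (t ∩ t') := by
    rw [← insert_inter_distrib]
  refine ⟨hF', ?_⟩
  rw [he, mem_sdiff]
  have hxe : x ∉ t ∩ t' := fun h => hxt (mem_inter.1 h).1
  constructor
  · refine mem_tris.2 ⟨by rw [card_insert_of_notMem hxe, hc], _, hF, ?_⟩
    exact insert_subset_insert _ inter_subset_left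
  · intro hcl
    simp only [Closings, mem_biUnion, mem_image, mem_sdiff] at hcl
    obtain ⟨y, hy, w, ⟨hw1, hw2⟩, hyw⟩ := hcl
    have hfor := hD.forest y hy w hw1 hw2
    have h3 : pos w < pos y := (mem_filter.1 hw1).2
    have h4 : pos (par y w) < pos y := (mem_filter.1 hfor.1).2
    have hxy : x = y := Reach_top hyw.symm
      (fun z hz => (mem_filter.1 (hS (mem_inter.1 hz).1)).2) h3 h4
    subst hxy
    apply hfor.2.2.1
    have hnot : x ∉ ({w, par x w} : Finset ι) := by
      intro h
      simp only [mem_insert, mem_singleton] at h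
      rcases h with h | h
      · rw [← h] at h3; exact lt_irrefl _ h3
      · rw [← h] at h4; exact lt_irrefl _ h4
    have := congrArg (fun s => s.erase x) hyw
    change (insert x ({w, par x w} : Finset ι)).erase x = (insert x (t ∩ t')).erase x at this
    rw [erase_insert hnot, erase_insert hxe] at this
    rw [this]
    exact hG

/-- Following the gradient (larger maximal vertex first, then smaller `D`) one reaches a root. -/
theorem reach_root {F : Finset (Finset ι)} (hF : IsMfd3 F) {pos : ι → ℕ}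
    (hpos : Function.Injective pos) {R G D Rt dist par}
    (hD : Data F pos R G D Rt dist par) (s : Finset ι) (hs : s ∈ F) :
    ∃ u ∈ Roots F R, Relation.ReflTransGen
      (fun a b => b ∈ F ∧ a ∩ b ∈ tris F \ Closings F pos Rt par) s u := by
  classical
  have hmax : ∀ s ∈ F, ∃ x ∈ s, x ∈ verts F ∧ s.erase x ∈ link F x ∧
      s.erase x ⊆ Lo F pos x ∧ ∀ z ∈ s, pos z ≤ pos x := by
    intro s hs
    have hne : s.Nonempty := by
      rw [← card_pos, hF.card4 s hs]; omega
    obtain ⟨x, hx, hm⟩ := exists_max_image s pos hne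
    have hl : s.erase x ∈ link F x := mem_link.2 ⟨s, hs, hx, rfl⟩
    refine ⟨x, hx, mem_verts.2 ⟨s, hs, hx⟩, hl, ?_, hm⟩
    intro z hz
    refine mem_filter.2 ⟨mem_verts.2 ⟨_, hl, hz⟩, ?_⟩
    have h1 := hm z (mem_of_mem_erase hz)
    have h2 : pos z ≠ pos x := fun h => ne_of_mem_erase hz (hpos h)
    omega
  set K : ℕ := ∑ x ∈ verts F, pos x with hK
  have hKle : ∀ x ∈ verts F, pos x ≤ K := fun x hx =>
    Finset.single_le_sum (f := pos) (fun _ _ => Nat.zero_le _) hx
  have main : ∀ n m : ℕ, ∀ x ∈ verts F, ∀ t ∈ link F x, t ⊆ Lo F pos x → K - pos x = n →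
      D x t = m → ∃ u ∈ Roots F R, Relation.ReflTransGen
      (fun a b => b ∈ F ∧ a ∩ b ∈ tris F \ Closings F pos Rt par) (insert x t) u := by
    intro n
    induction n using Nat.strong_induction_on with
    | _ n ihn =>
    intro m
    induction m using Nat.strong_induction_on with
    | _ m ihm =>
    intro x hx t ht hS hn hm
    by_cases hR : t ∈ R x
    · refine ⟨insert x t, ?_, Relation.ReflTransGen.refl⟩
      simp only [Roots, mem_biUnion, mem_image]
      exact ⟨x, hx, t, hR, rfl⟩
    · obtain ⟨t', ht', hc, hG, hlt⟩ := hD.grad x hx t ht hS hR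
      have hst := Reach_step hD ht ht' hS hc hG
      by_cases hS' : t' ⊆ Lo F pos x
      · obtain ⟨u, hu, hr⟩ := ihm (D x t') (by omega) x hx t' ht' hS' hn rfl
        exact ⟨u, hu, Relation.ReflTransGen.head hst hr⟩
      · obtain ⟨y, hy, hyv, hyl, hyS, hym⟩ := hmax _ hst.1
        obtain ⟨z, hz, hzn⟩ := not_subset.1 hS'
        have hzv : z ∈ verts (link F x) := mem_verts.2 ⟨t', ht', hz⟩
        have hz1 : ¬ pos z < pos x := fun h => hzn (mem_filter.2 ⟨hzv, h⟩)
        have hzx : z ≠ x := fun h => (mem_link'.1 ht').1 (h ▸ hz)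
        have hz2 : pos z ≠ pos x := fun h => hzx (hpos h)
        have hz3 := hym z (mem_insert_of_mem hz)
        have hyK := hKle y hyv
        obtain ⟨u, hu, hr⟩ := ihn (K - pos y) (by omega) _ y hyv _ hyl hyS rfl rfl
        rw [insert_erase hy] at hr
        exact ⟨u, hu, Relation.ReflTransGen.head hst hr⟩
  obtain ⟨x, hx, hxv, hxl, hxS, _⟩ := hmax s hs
  obtain ⟨u, hu, hr⟩ := main _ _ x hxv _ hxl hxS rfl rfl
  rw [insert_erase hx] at hr
  exact ⟨u, hu, hr⟩

end Pool.TSph
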