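import Pool.Agent.Lib.MP_3de3a3_co.ClosCard
import Pool.Agent.Lib.MP_3de3a3_co.RankCl
import Pool.Agent.Lib.MP_3de3a3_co.Reach

/-! # The certificate of a vertex order (module CertOrder) -/

set_option autoImplicit false

namespace Pool.TSph

open Finset

variable {ι : Type*} [DecidableEq ι]

/-- The certificate. -/
theorem exists_cert {F : Finset (Finset ι)} (hF : IsMfd3 F) (hne : F.Nonempty) {pos : ι → ℕ}
    (hpos : Function.Injective pos) :
    ∃ M rk e, Cert F M rk e ∧ M.card + 1 + (verts F).card ≤
      F.card + ∑ x ∈ verts F, (comp (adj (link F x)) (Lo F pos x) +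
        (if Lo F pos x = verts (link F x) then 1 else 0)) := by
  obtain ⟨R, G, D, Rt, dist, par, hD⟩ := exists_data hF pos
  obtain ⟨rk, e, hre⟩ := exists_rank_closings hpos hD
  obtain ⟨X, hX, hXc, hconn⟩ := connect (M := tris F \ Closings F pos Rt par) hne hF.conn
    (Roots F R) (roots_sub hD) (reach_root hF hpos hD)
  refine ⟨(tris F \ Closings F pos Rt par) ∪ X, rk, e, ⟨?_, hconn, ?_, ?_⟩, ?_⟩
  · exact union_subset sdiff_subset hX
  · intro t ht hM
    have htC : t ∈ Closings F pos Rt par := by
      by_contra hc
      exact hM (mem_union_left _ (mem_sdiff.2 ⟨ht, hc⟩))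
    exact (hre t htC).1
  · intro t ht hM t' ht' he hne'
    have htC : t ∈ Closings F pos Rt par := by
      by_contra hc
      exact hM (mem_union_left _ (mem_sdiff.2 ⟨ht, hc⟩))
    rcases (hre t htC).2 t' ht' he hne' with h | h
    · exact Or.inl (mem_union_left _ (mem_sdiff.2 ⟨ht', h⟩))
    · exact Or.inr h
  · have h1 := card_union_le (tris F \ Closings F pos Rt par) X
    have h2 : (tris F \ Closings F pos Rt par).card + (Closings F pos Rt par).card =
        2 * F.card := by
      rw [card_sdiff_add_card_eq_card (closings_sub hD), card_tris (mfd_pm hF)]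
    have h3 := card_closings hpos hD
    have h4 := card_roots hD
    have h5 : ∑ x ∈ verts F, (Lo F pos x).card = F.card + (verts F).card :=
      mfd_sum_lower hF hpos
    rw [Finset.sum_add_distrib]
    omega

end Pool.TSph
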