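import Pool.Agent.Lib.MP_3de3a3_co.CertDef

/-! # The closing triangles (module ClosCard) -/

set_option autoImplicit false

namespace Pool.TSph

open Finset

variable {ι : Type*} [DecidableEq ι]

theorem ClosCard_top {pos : ι → ℕ} {x w p y v q : ι}
    (h : ({x, w, p} : Finset ι) = {y, v, q}) (h1 : pos w < pos x) (h2 : pos p < pos x)
    (h3 : pos v < pos y) (h4 : pos q < pos y) : x = y := by
  by_contra hne
  have hx : x ∈ ({y, v, q} : Finset ι) := by rw [← h]; simp
  have hy : y ∈ ({x, w, p} : Finset ι) := by rw [h]; simp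
  simp only [mem_insert, mem_singleton] at hx hy
  have a : pos x < pos y := by
    rcases hx with hx | hx | hx
    · exact absurd hx hne
    · rw [hx]; exact h3
    · rw [hx]; exact h4
  have b : pos y < pos x := by
    rcases hy with hy | hy | hy
    · exact absurd hy.symm hne
    · rw [hy]; exact h1
    · rw [hy]; exact h2
  omega

theorem ClosCard_facts {F : Finset (Finset ι)} {pos : ι → ℕ} {R G D Rt dist par}
    (hD : Data F pos R G D Rt dist par) {x : ι} (hx : x ∈ verts F) {w : ι}
    (hw : w ∈ Lo F pos x \ Rt x) :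
    pos w < pos x ∧ pos (par x w) < pos x ∧ w ≠ par x w ∧
      dist x (par x w) < dist x w ∧ ({w, par x w} : Finset ι) ∉ G x ∧
      ({x, w, par x w} : Finset ι) ∈ tris F := by
  obtain ⟨hw1, hw2⟩ := mem_sdiff.1 hw
  obtain ⟨h1, ⟨h2, t, ht, hwt, hpt⟩, h3, h4⟩ := hD.forest x hx w hw1 hw2
  obtain ⟨hxt, hF⟩ := mem_link'.1 ht
  have hxw : x ≠ w := fun h => hxt (h ▸ hwt)
  have hxp : x ≠ par x w := fun h => hxt (by rw [h]; exact hpt)
  refine ⟨(mem_filter.1 hw1).2, (mem_filter.1 h1).2, h2, h4, h3, ?_⟩
  refine mem_tris.2 ⟨card_eq_three.2 ⟨x, w, par x w, hxw, hxp, h2, rfl⟩, _, hF, ?_⟩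
  intro y hy
  simp only [mem_insert, mem_singleton] at hy
  rcases hy with rfl | rfl | rfl
  · exact mem_insert_self _ _
  · exact mem_insert_of_mem hwt
  · exact mem_insert_of_mem hpt

theorem closings_sub {F : Finset (Finset ι)} {pos : ι → ℕ} {R G D Rt dist par}
    (hD : Data F pos R G D Rt dist par) : Closings F pos Rt par ⊆ tris F := by
  intro t ht
  simp only [Closings, mem_biUnion, mem_image] at ht
  obtain ⟨x, hx, w, hw, rfl⟩ := ht
  exact (ClosCard_facts hD hx hw).2.2.2.2.2

/-- The number of closing triangles: `{x, w, par x w}` determines `x` (the vertex with the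
largest position) and `w` (by the distances). -/
theorem card_closings {F : Finset (Finset ι)} {pos : ι → ℕ} (hpos : Function.Injective pos)
    {R G D Rt dist par} (hD : Data F pos R G D Rt dist par) :
    ∑ x ∈ verts F, (Lo F pos x).card ≤
      (Closings F pos Rt par).card + ∑ x ∈ verts F, comp (adj (link F x)) (Lo F pos x) := by
  have hcard : (Closings F pos Rt par).card = ∑ x ∈ verts F, (Lo F pos x \ Rt x).card := by
    rw [Closings, card_biUnion]
    · refine Finset.sum_congr rfl fun x hx => ?_
      refine card_image_of_injOn ?_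
      intro w hw v hv hwv
      have hw' := ClosCard_facts hD hx (mem_coe.1 hw)
      have hv' := ClosCard_facts hD hx (mem_coe.1 hv)
      by_contra hne
      have hwv' : ({x, w, par x w} : Finset ι) = {x, v, par x v} := hwv
      have h1 : w ∈ ({x, v, par x v} : Finset ι) := by rw [← hwv']; simp
      have h2 : v ∈ ({x, w, par x w} : Finset ι) := by rw [hwv']; simp
      simp only [mem_insert, mem_singleton] at h1 h2
      have e1 : w = par x v := by
        rcases h1 with h1 | h1 | h1
        · exact absurd hw'.1 (by rw [h1]; exact lt_irrefl _)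
        · exact absurd h1 hne
        · exact h1
      have e2 : v = par x w := by
        rcases h2 with h2 | h2 | h2
        · exact absurd hv'.1 (by rw [h2]; exact lt_irrefl _)
        · exact absurd h2.symm hne
        · exact h2
      have d1 := hw'.2.2.2.1
      have d2 := hv'.2.2.2.1
      rw [← e2] at d1
      rw [← e1] at d2
      omega
    · intro x hx y hy hxy
      rw [Function.onFun, disjoint_left]
      intro t ht ht'
      simp only [mem_image] at ht ht'
      obtain ⟨w, hw, rfl⟩ := ht
      obtain ⟨v, hv, hv'⟩ := ht'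
      have fw := ClosCard_facts hD (mem_coe.1 hx) hw
      have fv := ClosCard_facts hD (mem_coe.1 hy) hv
      exact hxy (ClosCard_top hv'.symm fw.1 fw.2.1 fv.1 fv.2.1)
  rw [hcard, ← Finset.sum_add_distrib]
  refine Finset.sum_le_sum fun x hx => ?_
  have h1 := hD.Rtcard x hx
  have h2 := card_sdiff_add_card_eq_card (hD.Rtsub x hx)
  omega

end Pool.TSph
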