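import Pool.Agent.Lib.MP_3de3a3_co.CompA

/-! # Components, merging two components by additional edges (module CompB) -/

set_option autoImplicit false

namespace Pool.TSph

open Finset

variable {ι : Type*} [DecidableEq ι]

open Classical in
/-- If `A ⊆ A'` and the additional edges join at most the components of `x` and `y`, and these
are joined. -/
theorem comp_merge {A A' : ι → ι → Prop} (hA : ∀ u v, A u v → A v u)
    (hA' : ∀ u v, A' u v → A' v u) {S : Finset ι} {x y : ι} (hx : x ∈ S) (hy : y ∈ S)
    (h1 : ∀ u ∈ S, ∀ v ∈ S, A u v → A' u v)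
    (h2 : ∀ u ∈ S, ∀ v ∈ S, A' u v → cn A S u v ∨ (cn A S u x ∧ cn A S v y) ∨
      (cn A S u y ∧ cn A S v x)) (h3 : cn A' S x y) :
    comp A' S + (if cn A S x y then 0 else 1) = comp A S := by
  have hmono : ∀ a ∈ S, ∀ b, cn A S a b → cn A' S a b := fun a ha b hab =>
    CompA_mono (fun u hu v hv huv => Relation.ReflTransGen.single ⟨hv, h1 u hu v hv huv⟩) ha hab
  -- a class which meets neither `x` nor `y` does not change
  have hfar : ∀ a ∈ S, ¬ cn A S a x → ¬ cn A S a y → ∀ b, cn A' S a b → cn A S a b := by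
    intro a ha hax hay b hab
    induction hab with
    | refl => exact Relation.ReflTransGen.refl
    | tail h0 h4 ih =>
      rename_i u v
      have hu : u ∈ S := cn_mem ha h0
      rcases h2 u hu v h4.1 h4.2 with h5 | ⟨h5, -⟩ | ⟨h5, -⟩
      · exact CompA_trans ih h5
      · exact absurd (CompA_trans ih h5) hax
      · exact absurd (CompA_trans ih h5) hay
  have hnear : ∀ a ∈ S, (cn A S a x ∨ cn A S a y) → cn A' S a x := by
    rintro a ha (h | h)
    · exact hmono a ha x h
    · exact CompA_trans (hmono a ha y h) (cn_symm hA' hx h3)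
  have hrest : CompA_rest A' S x y = CompA_rest A S x y := by
    ext T
    rw [CompA_mem_rest, CompA_mem_rest]
    constructor
    · rintro ⟨a, ha, h4, h5, rfl⟩
      have h6 : ¬ cn A S a x := fun h => h4 (hmono a ha x h)
      have h7 : ¬ cn A S a y := fun h => h5 (hmono a ha y h)
      refine ⟨a, ha, h6, h7, ?_⟩
      ext b
      rw [CompA_mem_cl, CompA_mem_cl]
      exact and_congr_right fun _ => ⟨hmono a ha b, hfar a ha h6 h7 b⟩
    · rintro ⟨a, ha, h4, h5, rfl⟩
      refine ⟨a, ha, fun h => h4 (hfar a ha h4 h5 x h), fun h => h5 (hfar a ha h4 h5 y h), ?_⟩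
      ext b
      rw [CompA_mem_cl, CompA_mem_cl]
      exact and_congr_right fun _ => ⟨hfar a ha h4 h5 b, hmono a ha b⟩
  rw [CompA_split hA' hx hy, CompA_split hA hx hy, hrest, if_pos h3]
  split_ifs <;> ring

end Pool.TSph
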