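import Pool.Agent.Lib.MP_3de3a3_co.CompA

/-! # Components, a new vertex (module CompC) -/

set_option autoImplicit false

namespace Pool.TSph

open Finset

variable {ι : Type*} [DecidableEq ι]

theorem CompC_mono {A : ι → ι → Prop} {S : Finset ι} (w : ι) {a b : ι} (h : cn A S a b) :
    cn A (insert w S) a b := by
  induction h with
  | refl => exact Relation.ReflTransGen.refl
  | tail _ h1 ih => exact Relation.ReflTransGen.tail ih ⟨Finset.mem_insert_of_mem h1.1, h1.2⟩

/-- A new vertex without neighbours. -/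
theorem comp_insert_isolated {A : ι → ι → Prop} (hA : ∀ u v, A u v → A v u) {S : Finset ι}
    {w : ι} (hw : w ∉ S) (h : ∀ v ∈ S, ¬ A w v) : comp A (insert w S) = comp A S + 1 := by
  classical
  have h1 : ∀ a ∈ S, ∀ b, cn A (insert w S) a b → b ∈ S ∧ cn A S a b := by
    intro a ha b hab
    induction hab with
    | refl => exact ⟨ha, Relation.ReflTransGen.refl⟩
    | tail h0 h4 ih =>
      rename_i u v
      rcases Finset.mem_insert.1 h4.1 with h5 | h5
      · exact absurd (hA _ _ (h5 ▸ h4.2)) (h u ih.1)
      · exact ⟨h5, Relation.ReflTransGen.tail ih.2 ⟨h5, h4.2⟩⟩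
  have hcl : ∀ a ∈ S, CompA_cl A (insert w S) a = CompA_cl A S a := by
    intro a ha
    ext b
    rw [CompA_mem_cl, CompA_mem_cl]
    exact ⟨fun hb => h1 a ha b hb.2, fun hb => ⟨Finset.mem_insert_of_mem hb.1, CompC_mono w hb.2⟩⟩
  have himg : (insert w S).image (CompA_cl A (insert w S)) =
      insert (CompA_cl A (insert w S) w) (S.image (CompA_cl A S)) := by
    rw [Finset.image_insert]
    congr 1
    exact Finset.image_congr fun a ha => hcl a ha
  rw [CompA_comp, CompA_comp, himg, Finset.card_insert_of_notMem]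
  rw [Finset.mem_image]
  rintro ⟨a, ha, h2⟩
  have h3 : w ∈ CompA_cl A S a := by
    rw [h2]; exact CompA_self (Finset.mem_insert_self w S)
  exact hw (CompA_mem_cl.1 h3).1

open Classical in
/-- A new vertex `w` all of whose neighbours are in the components of `x` or `y`. -/
theorem comp_insert_two {A : ι → ι → Prop} (hA : ∀ u v, A u v → A v u) {S : Finset ι}
    {w x y : ι} (hw : w ∉ S) (hx : x ∈ S) (hy : y ∈ S) (hwx : A w x) (hwy : A w y)
    (h : ∀ v ∈ S, A w v → cn A S v x ∨ cn A S v y) :
    comp A (insert w S) + (if cn A S x y then 0 else 1) = comp A S := by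
  have hwS : w ∈ insert w S := Finset.mem_insert_self w S
  -- a class which meets neither `x` nor `y` does not change
  have hfar : ∀ a ∈ S, ¬ cn A S a x → ¬ cn A S a y → ∀ b, cn A (insert w S) a b →
      b ∈ S ∧ cn A S a b := by
    intro a ha hax hay b hab
    induction hab with
    | refl => exact ⟨ha, Relation.ReflTransGen.refl⟩
    | tail h0 h4 ih =>
      rename_i u v
      rcases Finset.mem_insert.1 h4.1 with h5 | h5
      · rcases h u ih.1 (hA _ _ (h5 ▸ h4.2)) with h6 | h6
        · exact absurd (CompA_trans ih.2 h6) hax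
        · exact absurd (CompA_trans ih.2 h6) hay
      · exact ⟨h5, Relation.ReflTransGen.tail ih.2 ⟨h5, h4.2⟩⟩
  have hxw : cn A (insert w S) x w := Relation.ReflTransGen.single ⟨hwS, hA _ _ hwx⟩
  have hyw : cn A (insert w S) y w := Relation.ReflTransGen.single ⟨hwS, hA _ _ hwy⟩
  have hnear : ∀ a ∈ S, (cn A S a x ∨ cn A S a y) → cn A (insert w S) a w := by
    rintro a - (h1 | h1)
    · exact CompA_trans (CompC_mono w h1) hxw
    · exact CompA_trans (CompC_mono w h1) hyw
  have hcl : ∀ a ∈ S, ¬ cn A S a x → ¬ cn A S a y →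
      CompA_cl A (insert w S) a = CompA_cl A S a := by
    intro a ha h1 h2
    ext b
    rw [CompA_mem_cl, CompA_mem_cl]
    exact ⟨fun hb => hfar a ha h1 h2 b hb.2,
      fun hb => ⟨Finset.mem_insert_of_mem hb.1, CompC_mono w hb.2⟩⟩
  have himg : (insert w S).image (CompA_cl A (insert w S)) =
      insert (CompA_cl A (insert w S) w) (CompA_rest A S x y) := by
    ext T
    rw [Finset.mem_image, Finset.mem_insert, CompA_mem_rest]
    constructor
    · rintro ⟨a, ha, rfl⟩
      rcases Finset.mem_insert.1 ha with h1 | h1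
      · exact Or.inl (by rw [h1])
      · by_cases h2 : cn A S a x
        · exact Or.inl (CompA_cl_eq hA ha (hnear a h1 (Or.inl h2)))
        · by_cases h3 : cn A S a y
          · exact Or.inl (CompA_cl_eq hA ha (hnear a h1 (Or.inr h3)))
          · exact Or.inr ⟨a, h1, h2, h3, (hcl a h1 h2 h3).symm⟩
    · rintro (rfl | ⟨a, ha, h2, h3, rfl⟩)
      · exact ⟨w, hwS, rfl⟩
      · exact ⟨a, Finset.mem_insert_of_mem ha, hcl a ha h2 h3⟩
  have hnot : CompA_cl A (insert w S) w ∉ CompA_rest A S x y := fun h1 =>
    hw ((CompA_rest_not h1).2.2 (CompA_self hwS))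
  rw [CompA_comp, himg, Finset.card_insert_of_notMem hnot, CompA_split hA hx hy]
  split_ifs <;> ring

/-- A new vertex all of whose neighbours are in one component. -/
theorem comp_insert_one {A : ι → ι → Prop} (hA : ∀ u v, A u v → A v u) {S : Finset ι}
    {w x : ι} (hw : w ∉ S) (hx : x ∈ S) (hwx : A w x)
    (h : ∀ v ∈ S, A w v → cn A S v x) : comp A (insert w S) = comp A S := by
  have := comp_insert_two hA hw hx hx hwx hwx (fun v hv hv' => Or.inl (h v hv hv'))
  rw [if_pos (show cn A S x x from Relation.ReflTransGen.refl)] at this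
  simpa using this

end Pool.TSph
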