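import Pool.Agent.Lib.MP_3de3a3_co.CompA
import Pool.Agent.Lib.MP_3de3a3_co.CompB
import Pool.Agent.Lib.MP_3de3a3_co.CompC

/-! # Components (module Comp) -/

set_option autoImplicit false
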