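import Pool.Agent.Lib.MP_3de3a3_co.Defs

/-! # Components, basic facts (module CompA) -/

set_option autoImplicit false

namespace Pool.TSph

open Finset

variable {ι : Type*} [DecidableEq ι]

theorem cn_mem {A : ι → ι → Prop} {S : Finset ι} {u v : ι} (hu : u ∈ S) (h : cn A S u v) :
    v ∈ S := by
  induction h with
  | refl => exact hu
  | tail _ h1 _ => exact h1.1

theorem cn_symm {A : ι → ι → Prop} (hA : ∀ u v, A u v → A v u) {S : Finset ι} {u v : ι}
    (hu : u ∈ S) (h : cn A S u v) : cn A S v u := by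
  induction h with
  | refl => exact Relation.ReflTransGen.refl
  | tail h0 h1 ih => exact Relation.ReflTransGen.head ⟨cn_mem hu h0, hA _ _ h1.2⟩ ih

theorem CompA_trans {A : ι → ι → Prop} {S : Finset ι} {u v w : ι} (h1 : cn A S u v)
    (h2 : cn A S v w) : cn A S u w := Relation.ReflTransGen.trans h1 h2

theorem CompA_congr {A A' : ι → ι → Prop} {S : Finset ι}
    (h : ∀ a ∈ S, ∀ b ∈ S, cn A S a b ↔ cn A' S a b) : comp A S = comp A' S := by
  classical
  unfold comp
  congr 1
  refine Finset.image_congr fun a ha => ?_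
  refine Finset.filter_congr fun b hb => ?_
  exact h a ha b hb

theorem CompA_mono {A A' : ι → ι → Prop} {S : Finset ι}
    (h : ∀ u ∈ S, ∀ v ∈ S, A u v → cn A' S u v) {a b : ι} (ha : a ∈ S) (hab : cn A S a b) :
    cn A' S a b := by
  induction hab with
  | refl => exact Relation.ReflTransGen.refl
  | tail h0 h1 ih => exact CompA_trans ih (h _ (cn_mem ha h0) _ h1.1 h1.2)

/-- Only the adjacency inside `S` matters. -/
theorem comp_congr {A A' : ι → ι → Prop} {S : Finset ι}
    (h : ∀ u ∈ S, ∀ v ∈ S, A u v ↔ A' u v) : comp A S = comp A' S := by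
  refine CompA_congr fun a ha b _ => ⟨CompA_mono (fun u hu v hv huv => ?_) ha,
    CompA_mono (fun u hu v hv huv => ?_) ha⟩
  · exact Relation.ReflTransGen.single ⟨hv, (h u hu v hv).1 huv⟩
  · exact Relation.ReflTransGen.single ⟨hv, (h u hu v hv).2 huv⟩

/-- If `A ⊆ A'` and all the additional edges join vertices which are connected anyway. -/
theorem comp_same {A A' : ι → ι → Prop} (hA : ∀ u v, A u v → A v u)
    (hA' : ∀ u v, A' u v → A' v u) {S : Finset ι}
    (h1 : ∀ u ∈ S, ∀ v ∈ S, A u v → A' u v) (h2 : ∀ u ∈ S, ∀ v ∈ S, A' u v → cn A S u v) :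
    comp A' S = comp A S := by
  refine CompA_congr fun a ha b _ => ⟨CompA_mono h2 ha, CompA_mono (fun u hu v hv huv => ?_) ha⟩
  exact Relation.ReflTransGen.single ⟨hv, h1 u hu v hv huv⟩

theorem comp_empty (A : ι → ι → Prop) : comp A (∅ : Finset ι) = 0 := by
  simp [comp]

/-- A nonempty clique has one component. -/
theorem comp_clique {A : ι → ι → Prop} {S : Finset ι} (hS : S.Nonempty)
    (h : ∀ u ∈ S, ∀ v ∈ S, u ≠ v → A u v) : comp A S = 1 := by
  classical
  have h1 : ∀ a ∈ S, S.filter (fun b => cn A S a b) = S := by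
    intro a ha
    refine Finset.filter_true_of_mem fun b hb => ?_
    by_cases hab : a = b
    · rw [hab]; exact Relation.ReflTransGen.refl
    · exact Relation.ReflTransGen.single ⟨hb, h a ha b hb hab⟩
  have h2 : S.image (fun a => S.filter (fun b => cn A S a b)) = {S} := by
    ext T
    rw [Finset.mem_image, Finset.mem_singleton]
    constructor
    · rintro ⟨a, ha, rfl⟩
      exact h1 a ha
    · rintro rfl
      obtain ⟨a, ha⟩ := hS
      exact ⟨a, ha, h1 a ha⟩
  unfold comp
  rw [h2, Finset.card_singleton]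

open Classical in
/-- The class of `a`. -/
noncomputable def CompA_cl (A : ι → ι → Prop) (S : Finset ι) (a : ι) : Finset ι :=
  S.filter (fun b => cn A S a b)

theorem CompA_mem_cl {A : ι → ι → Prop} {S : Finset ι} {a b : ι} :
    b ∈ CompA_cl A S a ↔ b ∈ S ∧ cn A S a b := by
  simp [CompA_cl]

theorem CompA_self {A : ι → ι → Prop} {S : Finset ι} {a : ι} (ha : a ∈ S) :
    a ∈ CompA_cl A S a := CompA_mem_cl.2 ⟨ha, Relation.ReflTransGen.refl⟩

theorem CompA_cl_eq {A : ι → ι → Prop} (hA : ∀ u v, A u v → A v u) {S : Finset ι} {a b : ι}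
    (ha : a ∈ S) (h : cn A S a b) : CompA_cl A S a = CompA_cl A S b := by
  ext c
  rw [CompA_mem_cl, CompA_mem_cl]
  exact and_congr_right fun _ => ⟨fun h1 => CompA_trans (cn_symm hA ha h) h1,
    fun h1 => CompA_trans h h1⟩

open Classical in
theorem CompA_comp (A : ι → ι → Prop) (S : Finset ι) :
    comp A S = (S.image (CompA_cl A S)).card := rfl

open Classical in
/-- The classes which contain neither `x` nor `y`. -/
noncomputable def CompA_rest (A : ι → ι → Prop) (S : Finset ι) (x y : ι) : Finset (Finset ι) :=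
  (S.filter (fun a => ¬ cn A S a x ∧ ¬ cn A S a y)).image (CompA_cl A S)

theorem CompA_mem_rest {A : ι → ι → Prop} {S : Finset ι} {x y : ι} {T : Finset ι} :
    T ∈ CompA_rest A S x y ↔ ∃ a ∈ S, ¬ cn A S a x ∧ ¬ cn A S a y ∧ CompA_cl A S a = T := by
  classical
  simp only [CompA_rest, Finset.mem_image, Finset.mem_filter, and_assoc]

theorem CompA_rest_not {A : ι → ι → Prop} {S : Finset ι} {x y : ι} {T : Finset ι}
    (hT : T ∈ CompA_rest A S x y) : x ∉ T ∧ y ∉ T ∧ T ⊆ S := by
  obtain ⟨a, -, h1, h2, rfl⟩ := CompA_mem_rest.1 hT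
  refine ⟨fun h => h1 (CompA_mem_cl.1 h).2, fun h => h2 (CompA_mem_cl.1 h).2, fun b hb =>
    (CompA_mem_cl.1 hb).1⟩

open Classical in
theorem CompA_split {A : ι → ι → Prop} (hA : ∀ u v, A u v → A v u) {S : Finset ι} {x y : ι}
    (hx : x ∈ S) (hy : y ∈ S) :
    comp A S = (CompA_rest A S x y).card + (if cn A S x y then 1 else 2) := by
  have himg : S.image (CompA_cl A S) =
      insert (CompA_cl A S x) (insert (CompA_cl A S y) (CompA_rest A S x y)) := by
    ext T
    rw [Finset.mem_image, Finset.mem_insert, Finset.mem_insert, CompA_mem_rest]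
    constructor
    · rintro ⟨a, ha, rfl⟩
      by_cases h1 : cn A S a x
      · exact Or.inl (CompA_cl_eq hA ha h1)
      · by_cases h2 : cn A S a y
        · exact Or.inr (Or.inl (CompA_cl_eq hA ha h2))
        · exact Or.inr (Or.inr ⟨a, ha, h1, h2, rfl⟩)
    · rintro (rfl | rfl | ⟨a, ha, -, -, rfl⟩)
      · exact ⟨x, hx, rfl⟩
      · exact ⟨y, hy, rfl⟩
      · exact ⟨a, ha, rfl⟩
  have hyR : CompA_cl A S y ∉ CompA_rest A S x y := fun h =>
    (CompA_rest_not h).2.1 (CompA_self hy)
  have hxR : CompA_cl A S x ∉ CompA_rest A S x y := fun h =>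
    (CompA_rest_not h).1 (CompA_self hx)
  rw [CompA_comp, himg]
  by_cases hxy : cn A S x y
  · rw [if_pos hxy, CompA_cl_eq hA hx hxy, Finset.insert_idem, Finset.card_insert_of_notMem hyR]
  · rw [if_neg hxy, Finset.card_insert_of_notMem, Finset.card_insert_of_notMem hyR]
    rw [Finset.mem_insert, not_or]
    refine ⟨fun h => ?_, hxR⟩
    have h1 : y ∈ CompA_cl A S x := by rw [h]; exact CompA_self hy
    exact hxy (CompA_mem_cl.1 h1).2

end Pool.TSph
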