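import Pool.Agent.Lib.MP_3de3a3_co.CycDef

/-! # The contributions of the traces for a vertex of degree 5 (definitions) (module Contrib5Def) -/

set_option autoImplicit false

namespace Pool.TSph

open Finset

variable {ι : Type*} [DecidableEq ι]

/-- The adjacency of `L` together with the chords from `a j` to `a (j+2)` and `a (j+3)`. -/
def fan (L : Finset (Finset ι)) (a : Fin 5 → ι) (j : Fin 5) (u v : ι) : Prop :=
  adj L u v ∨ (u = a j ∧ v = a (j + 2)) ∨ (u = a (j + 2) ∧ v = a j) ∨
    (u = a j ∧ v = a (j + 3)) ∨ (u = a (j + 3) ∧ v = a j)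

open Classical in
/-- `0` if `u, v` are connected in `S` and `1` otherwise. -/
noncomputable def sepd (L : Finset (Finset ι)) (S : Finset ι) (u v : ι) : ℝ :=
  if cn (adj L) S u v then 0 else 1

/-- The contribution of `S`. -/
noncomputable def K5 (L : Finset (Finset ι)) (w : ι) (a : Fin 5 → ι) (j : Fin 5)
    (S : Finset ι) (p : ℝ) : ℝ :=
  p * (comp (adj L) (insert w S) : ℝ) + (1 - p) * (comp (adj L) S : ℝ) -
    (comp (fan L a j) S : ℝ)

end Pool.TSph
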