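import Pool.Agent.Lib.MP_3de3a3_co.Comp
import Pool.Agent.Lib.MP_3de3a3_co.Contrib5Def

/-! # Contributions of pairs and triples (module Contrib5B) -/

set_option autoImplicit false

namespace Pool.TSph

open Finset

variable {ι : Type*} [DecidableEq ι]

omit [DecidableEq ι] in
private theorem Contrib5B_fan_symm (L : Finset (Finset ι)) (a : Fin 5 → ι) (j : Fin 5) (u v : ι)
    (h : fan L a j u v) : fan L a j v u := by
  rcases h with h | ⟨h1, h2⟩ | ⟨h1, h2⟩ | ⟨h1, h2⟩ | ⟨h1, h2⟩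
  · exact Or.inl ⟨h.1.symm, by obtain ⟨t, ht, h1, h2⟩ := h.2; exact ⟨t, ht, h2, h1⟩⟩
  · exact Or.inr (Or.inr (Or.inl ⟨h2, h1⟩))
  · exact Or.inr (Or.inl ⟨h2, h1⟩)
  · exact Or.inr (Or.inr (Or.inr (Or.inr ⟨h2, h1⟩)))
  · exact Or.inr (Or.inr (Or.inr (Or.inl ⟨h2, h1⟩)))

private theorem Contrib5B_calc {c1 c c2 : ℕ} {Q χ : Prop} [Decidable Q] [Decidable χ] (p : ℝ)
    (h1 : c1 + (if Q then 0 else 1) = c)
    (h2 : c2 + (if χ then (if Q then 0 else 1) else 0) = c) :
    p * (c1 : ℝ) + (1 - p) * (c : ℝ) - (c2 : ℝ) =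
      (if Q then 0 else 1) * ((if χ then 1 else 0) - p) := by
  split_ifs at h1 h2 ⊢ with hQ hχ hχ
  · have e1 : c1 = c := by omega
    have e2 : c2 = c := by omega
    rw [e1, e2]; ring
  · have e1 : c1 = c := by omega
    have e2 : c2 = c := by omega
    rw [e1, e2]; ring
  · have e1 : (c : ℝ) = c1 + 1 := by rw [← h1]; push_cast; ring
    have e2 : (c : ℝ) = c2 + 1 := by rw [← h2]; push_cast; ring
    have e3 : (c1 : ℝ) = c - 1 := by linarith
    have e4 : (c2 : ℝ) = c - 1 := by linarith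
    rw [e3, e4]; ring
  · have e1 : (c : ℝ) = c1 + 1 := by rw [← h1]; push_cast; ring
    have e2 : (c : ℝ) = c2 := by rw [← h2]; push_cast; ring
    have e3 : (c1 : ℝ) = c - 1 := by linarith
    rw [e3, ← e2]; ring

private theorem Contrib5B_main {L : Finset (Finset ι)} {w : ι} {a : Fin 5 → ι}
    (hc : LinkCycle L w 5 a) (j : Fin 5) {S : Finset ι} (hS : S ⊆ (verts L).erase w) {x y : ι}
    (hx : x ∈ S) (hy : y ∈ S) (hwx : adj L w x) (hwy : adj L w y)
    (hside : ∀ k, a k ∈ S → cn (adj L) S (a k) x ∨ cn (adj L) S (a k) y)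
    (h3 : a j ∈ S → cn (fan L a j) S x y) (p : ℝ) :
    K5 L w a j S p = sepd L S x y * ((if a j ∈ S then 1 else 0) - p) := by
  classical
  have hA : ∀ u v, adj L u v → adj L v u := fun u v h => adj_symm h
  have hw : w ∉ S := fun h => (mem_erase.1 (hS h)).1 rfl
  have e1 := comp_insert_two hA hw hx hy hwx hwy (fun v hv hv' => by
    obtain ⟨k, rfl⟩ := (hc.all v).1 hv'
    exact hside k hv)
  have hpair : ∀ k l, a k ∈ S → a l ∈ S →
      cn (adj L) S (a k) (a l) ∨ (cn (adj L) S (a k) x ∧ cn (adj L) S (a l) y) ∨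
        (cn (adj L) S (a k) y ∧ cn (adj L) S (a l) x) := by
    intro k l hk hl
    rcases hside k hk with h | h <;> rcases hside l hl with h' | h'
    · exact Or.inl (Relation.ReflTransGen.trans h (cn_symm hA hl h'))
    · exact Or.inr (Or.inl ⟨h, h'⟩)
    · exact Or.inr (Or.inr ⟨h, h'⟩)
    · exact Or.inl (Relation.ReflTransGen.trans h (cn_symm hA hl h'))
  have e2 : comp (fan L a j) S + (if a j ∈ S then (if cn (adj L) S x y then 0 else 1) else 0) =
      comp (adj L) S := by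
    by_cases hj : a j ∈ S
    · rw [if_pos hj]
      refine comp_merge hA (Contrib5B_fan_symm L a j) hx hy (fun u _ v _ h => Or.inl h) ?_ (h3 hj)
      rintro u hu v hv (h | ⟨rfl, rfl⟩ | ⟨rfl, rfl⟩ | ⟨rfl, rfl⟩ | ⟨rfl, rfl⟩)
      · exact Or.inl (Relation.ReflTransGen.single ⟨hv, h⟩)
      · exact hpair _ _ hu hv
      · exact hpair _ _ hu hv
      · exact hpair _ _ hu hv
      · exact hpair _ _ hu hv
    · rw [if_neg hj, add_zero]
      refine comp_congr fun u hu v hv => ⟨?_, fun h => Or.inl h⟩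
      rintro (h | ⟨rfl, rfl⟩ | ⟨rfl, rfl⟩ | ⟨rfl, rfl⟩ | ⟨rfl, rfl⟩)
      · exact h
      · exact absurd hu hj
      · exact absurd hv hj
      · exact absurd hu hj
      · exact absurd hv hj
  unfold K5 sepd
  exact Contrib5B_calc p e1 e2

private theorem Contrib5B_e0 : ∀ k : Fin 5, k ≠ k + 1 := by decide
private theorem Contrib5B_e1 : ∀ k : Fin 5, k + 2 + 3 = k := by decide
private theorem Contrib5B_e2 : ∀ k : Fin 5, k + 3 + 2 = k := by decide
private theorem Contrib5B_e3 : ∀ k : Fin 5, k + 3 = k + 2 + 1 := by decide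

private theorem Contrib5B_adj {L : Finset (Finset ι)} {w : ι} {a : Fin 5 → ι}
    (hc : LinkCycle L w 5 a) (k l : Fin 5) (h : l = k + 1) : adj L (a k) (a l) := by
  subst h
  refine ⟨fun h => ?_, _, hc.tri k, by simp, by simp⟩
  exact Contrib5B_e0 k (hc.inj h)

theorem K5_pair {L : Finset (Finset ι)} {w : ι} {a : Fin 5 → ι} (hc : LinkCycle L w 5 a)
    (j : Fin 5) {S : Finset ι} (hS : S ⊆ (verts L).erase w) (i : Fin 5)
    (hB : univ.filter (fun i => a i ∈ S) = {i, i + 2}) (p : ℝ) :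
    K5 L w a j S p =
      sepd L S (a i) (a (i + 2)) * ((if j = i ∨ j = i + 2 then 1 else 0) - p) := by
  have hk : ∀ k, a k ∈ S ↔ k = i ∨ k = i + 2 := by
    intro k
    have := Finset.ext_iff.1 hB k
    simpa using this
  have hx : a i ∈ S := (hk i).2 (Or.inl rfl)
  have hy : a (i + 2) ∈ S := (hk _).2 (Or.inr rfl)
  have h := Contrib5B_main hc j hS hx hy ((hc.all _).2 ⟨_, rfl⟩) ((hc.all _).2 ⟨_, rfl⟩)
    (fun k hk' => by
      rcases (hk k).1 hk' with h | h
      · exact Or.inl (h ▸ Relation.ReflTransGen.refl)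
      · exact Or.inr (h ▸ Relation.ReflTransGen.refl))
    (fun hj => by
      rcases (hk j).1 hj with h | h
      · refine Relation.ReflTransGen.single ⟨hy, ?_⟩
        rw [h]
        exact Or.inr (Or.inl ⟨rfl, rfl⟩)
      · refine Relation.ReflTransGen.single ⟨hy, ?_⟩
        rw [h]
        have e : i + 2 + 3 = i := Contrib5B_e1 i
        exact Or.inr (Or.inr (Or.inr (Or.inr ⟨by rw [e], rfl⟩)))) p
  simpa only [hk] using h

theorem K5_triple {L : Finset (Finset ι)} {w : ι} {a : Fin 5 → ι} (hc : LinkCycle L w 5 a)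
    (j : Fin 5) {S : Finset ι} (hS : S ⊆ (verts L).erase w) (m : Fin 5)
    (hB : univ.filter (fun i => a i ∈ S) = {m, m + 2, m + 3}) (p : ℝ) :
    K5 L w a j S p =
      sepd L S (a m) (a (m + 2)) *
        ((if j = m ∨ j = m + 2 ∨ j = m + 3 then 1 else 0) - p) := by
  have hk : ∀ k, a k ∈ S ↔ k = m ∨ k = m + 2 ∨ k = m + 3 := by
    intro k
    have := Finset.ext_iff.1 hB k
    simpa using this
  have hx : a m ∈ S := (hk m).2 (Or.inl rfl)
  have hy : a (m + 2) ∈ S := (hk _).2 (Or.inr (Or.inl rfl))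
  have hz : a (m + 3) ∈ S := (hk _).2 (Or.inr (Or.inr rfl))
  have hadj : adj L (a (m + 3)) (a (m + 2)) := by
    exact adj_symm (Contrib5B_adj hc _ _ (Contrib5B_e3 m))
  have h := Contrib5B_main hc j hS hx hy ((hc.all _).2 ⟨_, rfl⟩) ((hc.all _).2 ⟨_, rfl⟩)
    (fun k hk' => by
      rcases (hk k).1 hk' with h | h | h
      · exact Or.inl (h ▸ Relation.ReflTransGen.refl)
      · exact Or.inr (h ▸ Relation.ReflTransGen.refl)
      · rw [h]
        exact Or.inr (Relation.ReflTransGen.single ⟨hy, hadj⟩))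
    (fun hj => by
      rcases (hk j).1 hj with h | h | h
      · refine Relation.ReflTransGen.single ⟨hy, ?_⟩
        rw [h]
        exact Or.inr (Or.inl ⟨rfl, rfl⟩)
      · refine Relation.ReflTransGen.single ⟨hy, ?_⟩
        rw [h]
        have e : m + 2 + 3 = m := Contrib5B_e1 m
        exact Or.inr (Or.inr (Or.inr (Or.inr ⟨by rw [e], rfl⟩)))
      · refine Relation.ReflTransGen.tail (b := a (m + 3))
          (Relation.ReflTransGen.single ⟨hz, ?_⟩) ⟨hy, Or.inl hadj⟩
        rw [h]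
        have e : m + 3 + 2 = m := Contrib5B_e2 m
        exact Or.inr (Or.inr (Or.inl ⟨by rw [e], rfl⟩))) p
  simpa only [hk] using h

end Pool.TSph
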