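import Pool.Agent.Lib.MP_3de3a3_co.Contrib5A
import Pool.Agent.Lib.MP_3de3a3_co.Contrib5B

/-! # Contributions of the traces for a vertex of degree 5 (module Contrib5) -/

set_option autoImplicit false
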