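import Pool.Agent.Lib.MP_3de3a3_co.Comp
import Pool.Agent.Lib.MP_3de3a3_co.Contrib5Def

/-! # Contributions of the empty trace and of arcs (module Contrib5A) -/

set_option autoImplicit false

namespace Pool.TSph

open Finset

variable {ι : Type*} [DecidableEq ι]

private theorem K5A_w {L : Finset (Finset ι)} {w : ι} {S : Finset ι}
    (hS : S ⊆ (verts L).erase w) : w ∉ S := fun h => by
  have := hS h
  rw [mem_erase] at this
  exact this.1 rfl

private theorem K5A_adj {L : Finset (Finset ι)} {w : ι} {a : Fin 5 → ι} (hc : LinkCycle L w 5 a)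
    (i : Fin 5) : adj L (a i) (a (i + 1)) := by
  have hne : ∀ i : Fin 5, i ≠ i + 1 := by decide
  exact ⟨fun h => hne i (hc.inj h), _, hc.tri i, by simp, by simp⟩

theorem K5_empty {L : Finset (Finset ι)} {w : ι} {a : Fin 5 → ι} (hc : LinkCycle L w 5 a)
    (j : Fin 5) {S : Finset ι} (hS : S ⊆ (verts L).erase w)
    (hB : univ.filter (fun i => a i ∈ S) = ∅) (p : ℝ) : K5 L w a j S p = p := by
  have hn : ∀ i, a i ∉ S := by
    intro i hi
    have : i ∈ univ.filter (fun i => a i ∈ S) := mem_filter.2 ⟨mem_univ _, hi⟩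
    rw [hB] at this
    exact notMem_empty _ this
  have h1 : comp (adj L) (insert w S) = comp (adj L) S + 1 := by
    refine comp_insert_isolated (fun _ _ => adj_symm) (K5A_w hS) ?_
    intro v hv hwv
    obtain ⟨i, rfl⟩ := (hc.all v).1 hwv
    exact hn i hv
  have h2 : comp (fan L a j) S = comp (adj L) S := by
    refine comp_congr ?_
    intro u hu v hv
    constructor
    · rintro (h | ⟨rfl, rfl⟩ | ⟨rfl, rfl⟩ | ⟨rfl, rfl⟩ | ⟨rfl, rfl⟩)
      · exact h
      · exact absurd hu (hn _)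
      · exact absurd hu (hn _)
      · exact absurd hu (hn _)
      · exact absurd hu (hn _)
    · exact Or.inl
  unfold K5
  rw [h1, h2]
  push_cast
  ring

private theorem K5A_arc : ∀ B : Finset (Fin 5), B ≠ ∅ → (∀ i, B ≠ {i, i + 2}) →
    (∀ m, B ≠ {m, m + 2, m + 3}) → ∃ i ∈ B, ∀ z ∈ B, z = i ∨ z = i + 1 ∨ z + 1 = i ∨
      (z = i + 1 + 1 ∧ i + 1 ∈ B) ∨ (∃ y ∈ B, z + 1 = y ∧ y + 1 = i) := by
  decide

/-- All other traces are arcs: there is `i ∈ B` such that every `z ∈ B` is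
`i, i+1, i+4`, or `i+2` with `i+1 ∈ B`, or `i+3` with `i+4 ∈ B` (by `decide`). -/
theorem K5_arc {L : Finset (Finset ι)} {w : ι} {a : Fin 5 → ι} (hc : LinkCycle L w 5 a)
    (j : Fin 5) {S : Finset ι} (hS : S ⊆ (verts L).erase w)
    (h0 : univ.filter (fun i => a i ∈ S) ≠ ∅)
    (h2 : ∀ i, univ.filter (fun i => a i ∈ S) ≠ {i, i + 2})
    (h3 : ∀ m, univ.filter (fun i => a i ∈ S) ≠ {m, m + 2, m + 3}) (p : ℝ) :
    K5 L w a j S p = 0 := by
  obtain ⟨i, hiB, hz⟩ := K5A_arc _ h0 h2 h3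
  have hmem : ∀ z, z ∈ univ.filter (fun i => a i ∈ S) ↔ a z ∈ S := by
    intro z
    rw [mem_filter]
    exact ⟨fun h => h.2, fun h => ⟨mem_univ _, h⟩⟩
  have hi : a i ∈ S := (hmem i).1 hiB
  have hup : ∀ z, a (z + 1) ∈ S → cn (adj L) S (a z) (a (z + 1)) := fun z h =>
    Relation.ReflTransGen.single ⟨h, K5A_adj hc z⟩
  have hdn : ∀ z, a z ∈ S → cn (adj L) S (a (z + 1)) (a z) := fun z h =>
    Relation.ReflTransGen.single ⟨h, adj_symm (K5A_adj hc z)⟩
  have hcon : ∀ z, a z ∈ S → cn (adj L) S (a z) (a i) := by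
    intro z hzS
    rcases hz z ((hmem z).2 hzS) with h | h | h | ⟨h, h'⟩ | ⟨y, hy, h, h'⟩
    · rw [h]
      exact Relation.ReflTransGen.refl
    · rw [h]
      exact hdn i hi
    · rw [← h]
      refine hup z ?_
      rw [h]
      exact hi
    · rw [h]
      have h4 : a (i + 1) ∈ S := (hmem _).1 h'
      exact Relation.ReflTransGen.trans (hdn (i + 1) h4) (hdn i hi)
    · have h4 : a y ∈ S := (hmem _).1 hy
      have h5 : cn (adj L) S (a z) (a y) := by
        rw [← h]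
        refine hup z ?_
        rw [h]
        exact h4
      have h6 : cn (adj L) S (a y) (a i) := by
        rw [← h']
        refine hup y ?_
        rw [h']
        exact hi
      exact Relation.ReflTransGen.trans h5 h6
  have hcc : ∀ z z', a z ∈ S → a z' ∈ S → cn (adj L) S (a z) (a z') := fun z z' h h' =>
    Relation.ReflTransGen.trans (hcon z h) (cn_symm (fun _ _ => adj_symm) h' (hcon z' h'))
  have h4 : comp (adj L) (insert w S) = comp (adj L) S := by
    refine comp_insert_one (x := a i) (fun _ _ => adj_symm) (K5A_w hS) hi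
      ((hc.all _).2 ⟨i, rfl⟩) ?_
    intro v hv hwv
    obtain ⟨z, rfl⟩ := (hc.all v).1 hwv
    exact hcon z hv
  have h5 : comp (fan L a j) S = comp (adj L) S := by
    refine comp_same (fun _ _ => adj_symm) ?_ (fun u _ v _ h => Or.inl h) ?_
    · rintro u v (h | ⟨rfl, rfl⟩ | ⟨rfl, rfl⟩ | ⟨rfl, rfl⟩ | ⟨rfl, rfl⟩)
      · exact Or.inl (adj_symm h)
      · exact Or.inr (Or.inr (Or.inl ⟨rfl, rfl⟩))
      · exact Or.inr (Or.inl ⟨rfl, rfl⟩)
      · exact Or.inr (Or.inr (Or.inr (Or.inr ⟨rfl, rfl⟩)))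
      · exact Or.inr (Or.inr (Or.inr (Or.inl ⟨rfl, rfl⟩)))
    · rintro u hu v hv (h | ⟨rfl, rfl⟩ | ⟨rfl, rfl⟩ | ⟨rfl, rfl⟩ | ⟨rfl, rfl⟩)
      · exact Relation.ReflTransGen.single ⟨hv, h⟩
      · exact hcc _ _ hu hv
      · exact hcc _ _ hu hv
      · exact hcc _ _ hu hv
      · exact hcc _ _ hu hv
  unfold K5
  rw [h4, h5]
  ring

end Pool.TSph
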