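import Pool.Agent.Lib.MP_3de3a3_co.Defs

/-! # Degrees in a 2-sphere (module Deg) -/

set_option autoImplicit false

namespace Pool.TSph

open Finset

variable {ι : Type*} [DecidableEq ι]

theorem Deg_other {L : Finset (Finset ι)} (hL : IsSphere2 L) {t e : Finset ι} (ht : t ∈ L)
    (he : e ⊆ t) (hc : e.card = 2) : ∃ t' ∈ L, t' ≠ t ∧ e ⊆ t' := by
  have h := hL.edge t ht e he hc
  have h1 : 1 < (L.filter (fun s => e ⊆ s)).card := by rw [h]; norm_num
  obtain ⟨t', ht', hne⟩ := Finset.exists_mem_ne h1 t
  rw [mem_filter] at ht'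
  exact ⟨t', ht'.1, hne, ht'.2⟩

theorem three_le_degree {L : Finset (Finset ι)} (hL : IsSphere2 L) {w : ι}
    (hw : w ∈ verts L) : 3 ≤ (L.filter (fun t => w ∈ t)).card := by
  obtain ⟨t, ht, hwt⟩ := mem_verts.1 hw
  have h3 := hL.card3 t ht
  have h2 : (t.erase w).card = 2 := by rw [card_erase_of_mem hwt, h3]
  obtain ⟨a, b, hab, he⟩ := card_eq_two.1 h2
  have hins : insert w (t.erase w) = t := insert_erase hwt
  have ha : a ∈ t.erase w := by rw [he]; simp
  have hb : b ∈ t.erase w := by rw [he]; simp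
  rw [mem_erase] at ha hb
  have hwa : w ≠ a := fun h => ha.1 h.symm
  have hwb : w ≠ b := fun h => hb.1 h.symm
  obtain ⟨t1, ht1, hne1, hs1⟩ := Deg_other hL ht (e := {w, a})
    (by intro x hx; simp only [mem_insert, mem_singleton] at hx; rcases hx with rfl | rfl
        · exact hwt
        · exact ha.2) (card_pair hwa)
  obtain ⟨t2, ht2, hne2, hs2⟩ := Deg_other hL ht (e := {w, b})
    (by intro x hx; simp only [mem_insert, mem_singleton] at hx; rcases hx with rfl | rfl
        · exact hwt
        · exact hb.2) (card_pair hwb)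
  have h12 : t1 ≠ t2 := by
    intro h
    subst h
    have hsub : t ⊆ t1 := by
      rw [← hins, he]
      intro x hx
      simp only [mem_insert, mem_singleton] at hx
      rcases hx with rfl | rfl | rfl
      · exact hs1 (by simp)
      · exact hs1 (by simp)
      · exact hs2 (by simp)
    exact hne1 (eq_of_subset_of_card_le hsub (by rw [h3, hL.card3 t1 ht1])).symm
  have hsub : ({t, t1, t2} : Finset (Finset ι)) ⊆ L.filter (fun t => w ∈ t) := by
    intro x hx
    simp only [mem_insert, mem_singleton] at hx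
    rw [mem_filter]
    rcases hx with rfl | rfl | rfl
    · exact ⟨ht, hwt⟩
    · exact ⟨ht1, hs1 (by simp)⟩
    · exact ⟨ht2, hs2 (by simp)⟩
  have hc : ({t, t1, t2} : Finset (Finset ι)).card = 3 :=
    card_eq_three.2 ⟨t, t1, t2, hne1.symm, hne2.symm, h12, rfl⟩
  rw [← hc]
  exact card_le_card hsub

theorem Deg_sum {L : Finset (Finset ι)} (hL : IsSphere2 L) :
    ∑ w ∈ verts L, (L.filter (fun t => w ∈ t)).card = 3 * L.card := by
  have h1 : ∑ w ∈ verts L, (L.filter (fun t => w ∈ t)).card = ∑ t ∈ L, t.card := by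
    simp only [card_filter]
    rw [sum_comm]
    refine sum_congr rfl fun t ht => ?_
    rw [← card_filter]
    congr 1
    ext x
    rw [mem_filter]
    exact ⟨fun h => h.2, fun h => ⟨mem_verts.2 ⟨t, ht, h⟩, h⟩⟩
  rw [h1, sum_congr rfl (fun t ht => hL.card3 t ht), sum_const, smul_eq_mul, mul_comm]

/-- As the sum of the degrees is `3 |L| = 6 V - 12`. -/
theorem exists_small_degree {L : Finset (Finset ι)} (hL : IsSphere2 L) :
    ∃ w ∈ verts L, (L.filter (fun t => w ∈ t)).card ≤ 5 := by
  by_contra hcon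
  push Not at hcon
  have h1 : ∑ w ∈ verts L, 6 ≤ ∑ w ∈ verts L, (L.filter (fun t => w ∈ t)).card :=
    sum_le_sum fun w hw => hcon w hw
  rw [Deg_sum hL, sum_const, smul_eq_mul] at h1
  have h2 := hL.euler
  omega

/-- A 2-sphere has at least four vertices. -/
theorem four_le_verts {L : Finset (Finset ι)} (hL : IsSphere2 L) : 4 ≤ (verts L).card := by
  have h2 := hL.euler
  have hpos : 0 < (verts L).card := by omega
  obtain ⟨w, hw⟩ := card_pos.1 hpos
  have h3 := three_le_degree hL hw
  have h4 := card_le_card (filter_subset (fun t => w ∈ t) L)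
  omega

/-- With four vertices all vertices are adjacent. -/
theorem adj_of_four {L : Finset (Finset ι)} (hL : IsSphere2 L) (h4 : (verts L).card = 4)
    {u v : ι} (hu : u ∈ verts L) (hv : v ∈ verts L) (huv : u ≠ v) : adj L u v := by
  have h2 := hL.euler
  have hsub : L ⊆ (verts L).powersetCard 3 := by
    intro t ht
    rw [mem_powersetCard]
    exact ⟨fun x hx => mem_verts.2 ⟨t, ht, hx⟩, hL.card3 t ht⟩
  have hcard : ((verts L).powersetCard 3).card = 4 := by
    rw [card_powersetCard, h4]; rfl
  have heq : L = (verts L).powersetCard 3 :=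
    eq_of_subset_of_card_le hsub (by rw [hcard]; omega)
  have hlt : ({u, v} : Finset ι).card < (verts L).card := by
    rw [card_pair huv, h4]; norm_num
  obtain ⟨x, hx, hxn⟩ := exists_mem_notMem_of_card_lt_card hlt
  simp only [mem_insert, mem_singleton, not_or] at hxn
  refine ⟨huv, {u, v, x}, ?_, by simp, by simp⟩
  rw [heq, mem_powersetCard]
  refine ⟨?_, card_eq_three.2 ⟨u, v, x, huv, fun h => hxn.1 h.symm, fun h => hxn.2 h.symm, rfl⟩⟩
  intro y hy
  simp only [mem_insert, mem_singleton] at hy
  rcases hy with rfl | rfl | rfl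
  · exact hu
  · exact hv
  · exact hx

end Pool.TSph
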