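import Pool.Agent.Lib.MP_3de3a3_co.Defs

/-! # Link cycles (definition) (module CycDef) -/

set_option autoImplicit false

namespace Pool.TSph

open Finset

variable {ι : Type*} [DecidableEq ι]

/-- `a 0, …, a (d-1)` is the link cycle of `w`. -/
structure LinkCycle (L : Finset (Finset ι)) (w : ι) (d : ℕ) [NeZero d] (a : Fin d → ι) :
    Prop where
  inj : Function.Injective a
  ne : ∀ i, a i ≠ w
  tri : ∀ i, ({w, a i, a (i + 1)} : Finset ι) ∈ L
  all : ∀ v, adj L w v ↔ ∃ i, v = a i

end Pool.TSph
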