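import Pool.Agent.Lib.MP_3de3a3_co.Marg
import Pool.Agent.Lib.MP_3de3a3_co.BetaDef

/-! # Expectation over random subsets with fixed probability (module DEp) -/

set_option autoImplicit false

namespace Pool.TSph

open Finset

variable {ι : Type*} [DecidableEq ι]

/-- The expectation of `f` at a random subset of `W`, every element is kept with probability
`p`. -/
noncomputable def Ep (p : ℝ) (W : Finset ι) (f : Finset ι → ℝ) : ℝ :=
  ∑ S ∈ W.powerset, p ^ S.card * (1 - p) ^ (W.card - S.card) * f S

/-- The expected number of components of the random induced subgraph. -/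
noncomputable def ep (p : ℝ) (L : Finset (Finset ι)) : ℝ :=
  Ep p (verts L) (fun S => (comp (adj L) S : ℝ))

theorem Ep_congr {p : ℝ} {W : Finset ι} {f g : Finset ι → ℝ} (h : ∀ S ⊆ W, f S = g S) :
    Ep p W f = Ep p W g := by
  unfold Ep
  refine Finset.sum_congr rfl fun S hS => ?_
  rw [h S (Finset.mem_powerset.1 hS)]

/-- The function which is `1` on nonempty subsets. -/
theorem Ep_one {p : ℝ} {W : Finset ι} {f : Finset ι → ℝ} (h0 : f ∅ = 0)
    (h : ∀ S ⊆ W, S.Nonempty → f S = 1) : Ep p W f = 1 - (1 - p) ^ W.card := by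
  unfold Ep
  have h1 : ∑ S ∈ W.powerset, p ^ S.card * (1 - p) ^ (W.card - S.card) = 1 := by
    rw [Finset.sum_pow_mul_eq_add_pow]
    rw [show p + (1 - p) = 1 by ring, one_pow]
  have h2 : ∑ S ∈ W.powerset, p ^ S.card * (1 - p) ^ (W.card - S.card) * f S +
      ∑ S ∈ W.powerset, (if S = ∅ then (1 - p) ^ W.card else 0) =
      ∑ S ∈ W.powerset, p ^ S.card * (1 - p) ^ (W.card - S.card) := by
    rw [← Finset.sum_add_distrib]
    refine Finset.sum_congr rfl fun S hS => ?_
    by_cases hS0 : S = ∅
    · subst hS0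
      rw [h0, if_pos rfl]
      simp
    · rw [h S (Finset.mem_powerset.1 hS) (Finset.nonempty_iff_ne_empty.2 hS0), if_neg hS0]
      ring
  rw [Finset.sum_ite_eq' W.powerset ∅, if_pos (Finset.empty_mem_powerset W), h1] at h2
  linarith

theorem Ep_add (p : ℝ) (W : Finset ι) (f g : Finset ι → ℝ) :
    Ep p W (fun S => f S + g S) = Ep p W f + Ep p W g := by
  unfold Ep
  rw [← Finset.sum_add_distrib]
  refine Finset.sum_congr rfl fun S _ => ?_
  ring

/-- The probability that all elements of `W` are chosen. -/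
theorem Ep_top (p : ℝ) (W : Finset ι) :
    Ep p W (fun S => if S = W then (1:ℝ) else 0) = p ^ W.card := by
  unfold Ep
  rw [Finset.sum_eq_single W]
  · simp
  · intro S _ hS
    show _ * (if S = W then (1:ℝ) else 0) = 0
    rw [if_neg hS, mul_zero]
  · intro hW
    exact absurd (Finset.mem_powerset_self W) hW

theorem Ep_cont (W : Finset ι) (f : Finset ι → ℝ) : Continuous (fun p : ℝ => Ep p W f) := by
  unfold Ep
  refine continuous_finsetSum _ fun S _ => ?_
  fun_prop

/-- The local step: if the average over `j ∈ J` of the differences is bounded by a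
function of the trace on `a_1, …, a_d`, then for one `j` the expectation changes by at most the
expectation of the bound. -/
theorem Ep_step {p : ℝ} (hp0 : 0 ≤ p) (hp1 : p ≤ 1) {W : Finset ι} {w : ι} (hw : w ∈ W)
    (f : Finset ι → ℝ) {κ : Type*}
    (J : Finset κ) (hJ : J.Nonempty) (f' : κ → Finset ι → ℝ) {d : ℕ} (a : Fin d → ι)
    (ha : Function.Injective a) (haW : ∀ i, a i ∈ W.erase w) (β : Finset (Fin d) → ℝ) (c : ℝ)
    (hpt : ∀ S ⊆ W.erase w,
      ∑ j ∈ J, (p * f (insert w S) + (1 - p) * f S - f' j S) ≤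
        J.card * β (univ.filter (fun i => a i ∈ S)))
    (hsum : ∑ B : Finset (Fin d), p ^ B.card * (1 - p) ^ (d - B.card) * β B ≤ c) :
    ∃ j ∈ J, Ep p W f ≤ Ep p (W.erase w) (f' j) + c := by
  by_contra hcon
  push Not at hcon
  have hJpos : (0:ℝ) < J.card := by exact_mod_cast hJ.card_pos
  have hsum' : ∑ j ∈ J, (Ep p (W.erase w) (f' j) + c) < ∑ _j ∈ J, Ep p W f :=
    Finset.sum_lt_sum_of_nonempty hJ (fun j hj => hcon j hj)
  have e1 : ∑ j ∈ J, (Ep p W f - Ep p (W.erase w) (f' j)) =
      ∑ S ∈ (W.erase w).powerset,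
        p ^ S.card * (1 - p) ^ ((W.erase w).card - S.card) *
          ∑ j ∈ J, (p * f (insert w S) + (1 - p) * f S - f' j S) := by
    have h1 : ∀ j ∈ J, Ep p W f - Ep p (W.erase w) (f' j) =
        ∑ S ∈ (W.erase w).powerset,
          p ^ S.card * (1 - p) ^ ((W.erase w).card - S.card) *
            (p * f (insert w S) + (1 - p) * f S - f' j S) := by
      intro j _
      unfold Ep
      rw [sum_split W hw f p, ← Finset.sum_sub_distrib]
      refine Finset.sum_congr rfl fun S _ => ?_
      ring
    rw [Finset.sum_congr rfl h1, Finset.sum_comm]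
    refine Finset.sum_congr rfl fun S _ => ?_
    rw [Finset.mul_sum]
  have e2 : ∑ S ∈ (W.erase w).powerset,
        p ^ S.card * (1 - p) ^ ((W.erase w).card - S.card) *
          ∑ j ∈ J, (p * f (insert w S) + (1 - p) * f S - f' j S) ≤
      (J.card : ℝ) * ∑ B : Finset (Fin d), p ^ B.card * (1 - p) ^ (d - B.card) * β B := by
    rw [← sum_marginal_fin (W.erase w) a ha haW β p, Finset.mul_sum]
    refine Finset.sum_le_sum fun S hS => ?_
    have hw0 : (0:ℝ) ≤ p ^ S.card * (1 - p) ^ ((W.erase w).card - S.card) :=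
      mul_nonneg (pow_nonneg hp0 _) (pow_nonneg (by linarith) _)
    calc _ ≤ p ^ S.card * (1 - p) ^ ((W.erase w).card - S.card) *
          (J.card * β (univ.filter (fun i => a i ∈ S))) :=
          mul_le_mul_of_nonneg_left (hpt S (Finset.mem_powerset.1 hS)) hw0
      _ = _ := by ring
  have e3 : ∑ j ∈ J, (Ep p W f - Ep p (W.erase w) (f' j)) ≤ J.card * c := by
    rw [e1]
    exact e2.trans (mul_le_mul_of_nonneg_left hsum hJpos.le)
  rw [Finset.sum_sub_distrib] at e3
  rw [Finset.sum_add_distrib, Finset.sum_const (s := J) c, nsmul_eq_mul] at hsum'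
  linarith

end Pool.TSph
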