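import Pool.Agent.Lib.MP_3de3a3_co.CardPred
import Pool.Agent.Lib.MP_3de3a3_co.Marg
import Pool.Agent.Lib.MP_3de3a3_co.BetaInt
import Pool.Agent.Lib.MP_3de3a3_co.DEp

/-! # Averaging over all orders (module DAvg) -/

set_option autoImplicit false

namespace Pool.TSph

open Finset

variable {ι : Type*} [DecidableEq ι]

/-- The average over the random subsets of `W` for the weight `k (1 - p)^(k-1)` (the
distribution of the smallest of `k` independent uniform labels). -/
noncomputable def PhiK (k : ℕ) (W : Finset ι) (f : Finset ι → ℝ) : ℝ :=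
  ∫ p in (0:ℝ)..1, (k : ℝ) * (1 - p) ^ (k - 1) * Ep p W f

/-- Exactly one pair (lowest element of `σ`, its predecessors) belongs to a numbering. -/
private theorem DAvg_single [Fintype ι] (σ : Finset ι) (hσ : σ.Nonempty) (N : Finset ι)
    (f : Finset ι → ℝ) (φ : Numbering ι) :
    f (N.filter (fun y => ∀ x ∈ σ, (φ y : ℕ) < φ x)) =
      ∑ x ∈ σ, ∑ P ∈ (univ \ σ).powerset,
        if univ.filter (fun y => (φ y : ℕ) < φ x) = P then f (P ∩ N) else 0 := by
  obtain ⟨x0, hx0, hmin⟩ := exists_min_image σ (fun y => (φ y : ℕ)) hσ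
  rw [sum_eq_single x0]
  · rw [sum_ite_eq, if_pos]
    · congr 1
      ext y
      simp only [mem_filter, mem_inter, mem_univ, true_and]
      constructor
      · rintro ⟨h1, h2⟩
        exact ⟨h2 x0 hx0, h1⟩
      · rintro ⟨h1, h2⟩
        exact ⟨h2, fun x hx => lt_of_lt_of_le h1 (hmin x hx)⟩
    · rw [mem_powerset]
      intro y hy
      rw [mem_filter] at hy
      rw [mem_sdiff]
      exact ⟨mem_univ y, fun h => absurd (hmin y h) (not_le.2 hy.2)⟩
  · intro x hx hne
    rw [sum_ite_eq, if_neg]
    rw [mem_powerset]
    intro h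
    have h1 : (φ x0 : ℕ) ≠ φ x := fun h2 => hne (φ.injective (Fin.ext h2)).symm
    have h2 := hmin x hx
    have h3 : x0 ∈ univ.filter (fun y => (φ y : ℕ) < φ x) := by
      rw [mem_filter]
      exact ⟨mem_univ _, lt_of_le_of_ne h2 h1⟩
    exact (mem_sdiff.1 (h h3)).2 hx0
  · intro h
    exact absurd hx0 h

/-- The average over all numberings of a function of the elements of `N` which are lower than all
elements of `σ`. Proof: for a numbering let `x` be the lowest element of `σ`. For fixed `x ∈ σ`
group the numberings by the set `P` of the predecessors of `x`, `P ⊆ univ \ σ`; by `card_pred`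
there are `P.card! * (Fintype.card ι - 1 - P.card)!` numberings. On the right side use
`sum_marginal` for `U = univ \ σ` and `integral_beta`. See `average_pred` in the file AvgPred.lean
(the case of one element). -/
theorem average_lower [Fintype ι] (σ : Finset ι) (hσ : σ.Nonempty) (N : Finset ι)
    (hN : Disjoint σ N) (f : Finset ι → ℝ) :
    ∑ φ : Numbering ι, f (N.filter (fun y => ∀ x ∈ σ, (φ y : ℕ) < φ x)) =
      (Fintype.card ι).factorial * PhiK σ.card N f := by
  have hU : ((univ : Finset ι) \ σ).card = Fintype.card ι - σ.card := by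
    rw [card_sdiff_of_subset (subset_univ σ), card_univ]
  have hσle : σ.card ≤ Fintype.card ι := card_le_univ σ
  have hσpos : 0 < σ.card := card_pos.2 hσ
  have hNU : N ⊆ (univ : Finset ι) \ σ := fun y hy =>
    mem_sdiff.2 ⟨mem_univ y, fun h => (disjoint_left.1 hN h hy)⟩
  -- left side
  have hL : ∑ φ : Numbering ι, f (N.filter (fun y => ∀ x ∈ σ, (φ y : ℕ) < φ x)) =
      (σ.card : ℝ) * ∑ P ∈ ((univ : Finset ι) \ σ).powerset,
        (P.card.factorial : ℝ) * (Fintype.card ι - 1 - P.card).factorial * f (P ∩ N) := by
    rw [sum_congr rfl fun φ _ => DAvg_single σ hσ N f φ, sum_comm]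
    rw [← nsmul_eq_mul, ← sum_const]
    refine sum_congr rfl fun x hx => ?_
    rw [sum_comm]
    refine sum_congr rfl fun P hP => ?_
    have hxP : x ∉ P := fun h => (mem_sdiff.1 (mem_powerset.1 hP h)).2 hx
    rw [← sum_filter, sum_const, card_pred x P hxP, nsmul_eq_mul, Nat.cast_mul]
  -- right side
  have hR : PhiK σ.card N f = (σ.card : ℝ) * ∑ P ∈ ((univ : Finset ι) \ σ).powerset,
      ((P.card.factorial : ℝ) * (Fintype.card ι - 1 - P.card).factorial /
        (Fintype.card ι).factorial) * f (P ∩ N) := by
    unfold PhiK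
    have h1 : ∀ p : ℝ, (σ.card : ℝ) * (1 - p) ^ (σ.card - 1) * Ep p N f =
        (σ.card : ℝ) * ∑ P ∈ ((univ : Finset ι) \ σ).powerset,
          p ^ P.card * (1 - p) ^ (Fintype.card ι - 1 - P.card) * f (P ∩ N) := by
      intro p
      unfold Ep
      rw [← sum_marginal _ N hNU f p, hU, mul_assoc, mul_sum]
      congr 1
      refine sum_congr rfl fun P hP => ?_
      have hle : P.card ≤ Fintype.card ι - σ.card := by
        rw [← hU]
        exact card_le_card (mem_powerset.1 hP)
      have h2 : Fintype.card ι - 1 - P.card = (σ.card - 1) + (Fintype.card ι - σ.card - P.card) := by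
        omega
      rw [h2, pow_add]
      ring
    simp_rw [h1]
    rw [intervalIntegral.integral_const_mul, intervalIntegral.integral_finsetSum]
    · congr 1
      refine sum_congr rfl fun P hP => ?_
      rw [intervalIntegral.integral_mul_const, integral_beta]
      have hle : P.card ≤ Fintype.card ι - σ.card := by
        rw [← hU]
        exact card_le_card (mem_powerset.1 hP)
      have h3 : P.card + (Fintype.card ι - 1 - P.card) + 1 = Fintype.card ι := by omega
      rw [h3]
    · intro P _
      exact Continuous.intervalIntegrable (by fun_prop) _ _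
  rw [hL, hR, mul_sum, mul_sum, mul_sum]
  refine sum_congr rfl fun P _ => ?_
  have hne : ((Fintype.card ι).factorial : ℝ) ≠ 0 := by
    exact_mod_cast Nat.factorial_ne_zero _
  field_simp

end Pool.TSph
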