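import Pool.Agent.Lib.MP_3de3a3_co.BetaDef

/-! # The sums of the bounds at fixed p (module DBeta) -/

set_option autoImplicit false

namespace Pool.TSph

open Finset

theorem beta3_sum (p : ℝ) : ∑ B : Finset (Fin 3),
    p ^ B.card * (1 - p) ^ (3 - B.card) * beta3 B p ≤ p * (1 - p) ^ 3 := by
  simp only [beta3, mul_ite, mul_zero, Finset.sum_ite_eq', Finset.mem_univ, if_true,
    Finset.card_empty]
  apply le_of_eq
  ring

theorem beta4_sum (p : ℝ) : ∑ B : Finset (Fin 4),
    p ^ B.card * (1 - p) ^ (4 - B.card) * beta4 B p ≤ p * (1 - p) ^ 3 := by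
  have c1 : ({0, 2} : Finset (Fin 4)).card = 2 := by decide
  simp only [beta4, mul_add, mul_ite, mul_zero, Finset.sum_add_distrib, Finset.sum_ite_eq',
    Finset.mem_univ, if_true, Finset.card_empty, c1]
  apply le_of_eq
  ring

theorem beta5a_sum (p : ℝ) : ∑ B : Finset (Fin 5),
    p ^ B.card * (1 - p) ^ (5 - B.card) * beta5a B p ≤ p * (1 - p) ^ 3 := by
  have c1 : ({1, 3} : Finset (Fin 5)).card = 2 := by decide
  have c2 : ({1, 4} : Finset (Fin 5)).card = 2 := by decide
  have c3 : ({0, 3} : Finset (Fin 5)).card = 2 := by decide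
  have c4 : ({1, 3, 4} : Finset (Fin 5)).card = 3 := by decide
  have c5 : ({0, 1, 3} : Finset (Fin 5)).card = 3 := by decide
  simp only [beta5a, mul_add, mul_ite, mul_zero, Finset.sum_add_distrib, Finset.sum_ite_eq',
    Finset.mem_univ, if_true, Finset.card_empty, c1, c2, c3, c4, c5]
  apply le_of_eq
  ring

theorem beta5b_sum (p : ℝ) : ∑ B : Finset (Fin 5),
    p ^ B.card * (1 - p) ^ (5 - B.card) * beta5b B p ≤ p * (1 - p) ^ 3 := by
  have c1 : ({1, 3} : Finset (Fin 5)).card = 2 := by decide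
  have c2 : ({1, 4} : Finset (Fin 5)).card = 2 := by decide
  have c3 : ({2, 4} : Finset (Fin 5)).card = 2 := by decide
  have c4 : ({1, 3, 4} : Finset (Fin 5)).card = 3 := by decide
  have c5 : ({1, 2, 4} : Finset (Fin 5)).card = 3 := by decide
  simp only [beta5b, mul_add, mul_ite, mul_zero, Finset.sum_add_distrib, Finset.sum_ite_eq',
    Finset.mem_univ, if_true, Finset.card_empty, c1, c2, c3, c4, c5]
  apply le_of_eq
  ring

/-- Pointwise bound for the degree 5, third case. -/
noncomputable def beta5m (B : Finset (Fin 5)) (p : ℝ) : ℝ :=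
  (if B = ∅ then p else 0) +
  ∑ i : Fin 5, (if B = {i, i + 2} then max 0 (2 / 5 - p) else 0) +
  ∑ m : Fin 5, (if B = {m, m + 2, m + 3} then max 0 (3 / 5 - p) else 0)

theorem beta5m_sum {p : ℝ} (hp0 : 0 ≤ p) (hp1 : p ≤ 1) : ∑ B : Finset (Fin 5),
    p ^ B.card * (1 - p) ^ (5 - B.card) * beta5m B p ≤ p * (1 - p) ^ 3 := by
  have e : ∑ B : Finset (Fin 5), p ^ B.card * (1 - p) ^ (5 - B.card) * beta5m B p =
      p * (1 - p) ^ 5 + 5 * (p ^ 2 * (1 - p) ^ 3 * max 0 (2 / 5 - p)) +
        5 * (p ^ 3 * (1 - p) ^ 2 * max 0 (3 / 5 - p)) := by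
    have c1 : ∀ i : Fin 5, ({i, i + 2} : Finset (Fin 5)).card = 2 := by decide
    have c2 : ∀ i : Fin 5, ({i, i + 2, i + 3} : Finset (Fin 5)).card = 3 := by decide
    simp only [beta5m, mul_add, Finset.sum_add_distrib]
    have h1 : ∑ B : Finset (Fin 5), p ^ B.card * (1 - p) ^ (5 - B.card) *
        (if B = ∅ then p else 0) = p * (1 - p) ^ 5 := by
      simp only [mul_ite, mul_zero, Finset.sum_ite_eq', Finset.mem_univ, if_true,
        Finset.card_empty]
      ring
    have h2 : ∑ B : Finset (Fin 5), p ^ B.card * (1 - p) ^ (5 - B.card) *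
        ∑ i : Fin 5, (if B = {i, i + 2} then max 0 (2 / 5 - p) else 0) =
          5 * (p ^ 2 * (1 - p) ^ 3 * max 0 (2 / 5 - p)) := by
      simp only [Finset.mul_sum]
      rw [Finset.sum_comm]
      simp only [mul_ite, mul_zero, Finset.sum_ite_eq', Finset.mem_univ, if_true, c1,
        Finset.sum_const, Finset.card_univ, Fintype.card_fin, nsmul_eq_mul]
      norm_num
    have h3 : ∑ B : Finset (Fin 5), p ^ B.card * (1 - p) ^ (5 - B.card) *
        ∑ m : Fin 5, (if B = {m, m + 2, m + 3} then max 0 (3 / 5 - p) else 0) =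
          5 * (p ^ 3 * (1 - p) ^ 2 * max 0 (3 / 5 - p)) := by
      simp only [Finset.mul_sum]
      rw [Finset.sum_comm]
      simp only [mul_ite, mul_zero, Finset.sum_ite_eq', Finset.mem_univ, if_true, c2,
        Finset.sum_const, Finset.card_univ, Fintype.card_fin, nsmul_eq_mul]
      norm_num
    rw [h1, h2, h3]
  rw [e]
  have hq : 0 ≤ 1 - p := by linarith
  have key : 5 * (1 - p) * max 0 (2 / 5 - p) + 5 * p * max 0 (3 / 5 - p) ≤
      (1 - p) * (2 - p) := by
    rcases le_total p (2 / 5) with h | h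
    · rw [max_eq_right (by linarith), max_eq_right (by linarith)]
      nlinarith [mul_nonneg hp0 hp0]
    · rw [max_eq_left (by linarith)]
      rcases le_total p (3 / 5) with h' | h'
      · rw [max_eq_right (by linarith)]
        nlinarith [sq_nonneg (p - 1 / 2)]
      · rw [max_eq_left (by linarith)]
        have : 0 ≤ (1 - p) * (2 - p) := mul_nonneg hq (by linarith)
        linarith
  have h4 : 0 ≤ p ^ 2 * (1 - p) ^ 2 := by positivity
  have h5 := mul_le_mul_of_nonneg_left key h4
  nlinarith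

end Pool.TSph
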