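import Pool.Agent.Lib.MP_3de3a3_co.DLab
import Pool.Agent.Lib.MP_3de3a3_co.CardMono
import Pool.Agent.Lib.MP_3de3a3_co.CardSupp

/-! # The number of codes (module DCardCodes) -/

set_option autoImplicit false

namespace Pool.TSphD

open Finset
open Pool.TSph (verts mem_verts card_monotone_le card_support_le)

theorem card_Codes_le (δ n r : ℕ) (hn : 0 < n) :
    (Codes δ n r).card ≤ 4 ^ n * (δ + 1) ^ n * (δ + 2) ^ ((δ + 1) * n) *
      (2 ^ ((δ + 1) * n) * ((δ + 1).factorial * n) ^ r) := by
  classical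
  have hY : Fintype.card (Fin n × Equiv.Perm (Fin (δ + 1))) = (δ + 1).factorial * n := by
    rw [Fintype.card_prod, Fintype.card_perm, Fintype.card_fin, Fintype.card_fin]
    ring
  have hX : Fintype.card (Fin n × Fin (δ + 1)) = (δ + 1) * n := by
    rw [Fintype.card_prod, Fintype.card_fin, Fintype.card_fin]
    ring
  set A := univ.filter (fun p : Fin n → Fin n => Monotone p) with hA
  set D := univ.filter (fun D : Fin n × Fin (δ + 1) → Option (Fin n × Equiv.Perm (Fin (δ + 1))) =>
    (univ.filter (fun x => D x ≠ none)).card ≤ r) with hD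
  have h1 : A.card ≤ 4 ^ n := card_monotone_le n
  have h4 : D.card ≤ 2 ^ ((δ + 1) * n) * ((δ + 1).factorial * n) ^ r := by
    have := card_support_le (X := Fin n × Fin (δ + 1)) (Y := Fin n × Equiv.Perm (Fin (δ + 1)))
      (by rw [hY]; exact Nat.mul_pos (Nat.factorial_pos _) hn) r
    rw [hX, hY] at this
    exact this
  have h2 : (univ : Finset (Fin n → Fin (δ + 1))).card = (δ + 1) ^ n := by
    rw [card_univ, Fintype.card_fun, Fintype.card_fin, Fintype.card_fin]
  have h3 : (univ : Finset (Fin n → Fin (δ + 1) → Option (Fin (δ + 1)))).card =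
      (δ + 2) ^ ((δ + 1) * n) := by
    rw [card_univ, Fintype.card_fun, Fintype.card_fun, Fintype.card_option, Fintype.card_fin,
      Fintype.card_fin, ← pow_mul]
  have hle : (Codes δ n r).card ≤
      (A ×ˢ (univ : Finset (Fin n → Fin (δ + 1))) ×ˢ
        (univ : Finset (Fin n → Fin (δ + 1) → Option (Fin (δ + 1)))) ×ˢ D).card := by
    refine card_le_card_of_injOn (fun c => (c.1, c.2.1, c.2.2.1, fun q => c.2.2.2 q.1 q.2)) ?_ ?_
    · intro c hc
      have hc' : Monotone c.1 ∧
          (univ.filter (fun q : Fin n × Fin (δ + 1) => c.2.2.2 q.1 q.2 ≠ none)).card ≤ r := by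
        have := mem_coe.1 hc
        unfold Codes at this
        rw [mem_filter] at this
        exact this.2
      simp only [coe_product, Set.mem_prod, mem_coe, mem_univ, true_and, hA, hD, mem_filter]
      exact hc'
    · intro c _ c' _ h
      simp only [Prod.mk.injEq] at h
      obtain ⟨h1, h2, h3, h4⟩ := h
      refine Prod.ext h1 (Prod.ext h2 (Prod.ext h3 ?_))
      funext i a
      exact congrFun h4 (i, a)
  refine hle.trans ?_
  rw [card_product, card_product, card_product, h2, h3]
  calc A.card * ((δ + 1) ^ n * ((δ + 2) ^ ((δ + 1) * n) * D.card))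
      ≤ 4 ^ n * ((δ + 1) ^ n * ((δ + 2) ^ ((δ + 1) * n) *
        (2 ^ ((δ + 1) * n) * ((δ + 1).factorial * n) ^ r))) := by gcongr
    _ = 4 ^ n * (δ + 1) ^ n * (δ + 2) ^ ((δ + 1) * n) *
      (2 ^ ((δ + 1) * n) * ((δ + 1).factorial * n) ^ r) := by ring

end Pool.TSphD
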