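import Pool.Agent.Lib.MP_3de3a3_co.DDefs

/-! # The complexes satisfy PM, basic facts on links (module DMfdPM) -/

set_option autoImplicit false

namespace Pool.TSphD

open Finset
open Pool.TSph (verts mem_verts IsSphere2)

variable {ι : Type*} [DecidableEq ι] {k : ℕ}

/-- The vertices of the link of `σ`: the `y ∉ σ` for which `insert y σ` is a face. -/
theorem mem_verts_lk {F : Finset (Finset ι)} {σ : Finset ι} {y : ι} :
    y ∈ verts (lk F σ) ↔ y ∉ σ ∧ ∃ s ∈ F, σ ⊆ s ∧ y ∈ s := by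
  rw [mem_verts]
  constructor
  · rintro ⟨t, ht, hy⟩
    obtain ⟨s, hs, hx, rfl⟩ := mem_lk.1 ht
    rw [mem_sdiff] at hy
    exact ⟨hy.2, s, hs, hx, hy.1⟩
  · rintro ⟨hy, s, hs, hx, hys⟩
    exact ⟨s \ σ, mem_lk.2 ⟨s, hs, hx, rfl⟩, mem_sdiff.2 ⟨hys, hy⟩⟩

/-- As `MfdPM_two` (file MfdPM.lean, case `k = 1`): choose `σ ⊆ t` with `k` elements, then
`t \ σ` is an edge of the 2-sphere `lk F σ`, and the facets containing `t` correspond to the
triangles of `lk F σ` containing `t \ σ`. -/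
theorem mfd_pm {F : Finset (Finset ι)} (hF : IsMfdD k F) : PM (k + 2) F := by
  refine ⟨hF.card, ?_, hF.star⟩
  intro t ht
  obtain ⟨htc, s, hs, hts⟩ := mem_rdg.1 ht
  obtain ⟨σ, hσt, hσc⟩ := exists_subset_card_eq (show k ≤ t.card by omega)
  have hσF : σ ∈ fc k F := mem_fc.2 ⟨hσc, s, hs, hσt.trans hts⟩
  have hsl : s \ σ ∈ lk F σ := mem_lk.2 ⟨s, hs, hσt.trans hts, rfl⟩
  have hes : t \ σ ⊆ s \ σ := sdiff_subset_sdiff hts (Subset.refl σ)
  have hec : (t \ σ).card = 2 := by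
    rw [card_sdiff_of_subset hσt]
    omega
  have h := (hF.sphere σ hσF).edge (s \ σ) hsl (t \ σ) hes hec
  have himg : (lk F σ).filter (fun s => t \ σ ⊆ s) =
      (F.filter (fun s => t ⊆ s)).image (fun s => s \ σ) := by
    ext u
    simp only [mem_filter, mem_image]
    constructor
    · rintro ⟨hu, htu⟩
      obtain ⟨w, hw, hxw, rfl⟩ := mem_lk.1 hu
      refine ⟨w, ⟨hw, ?_⟩, rfl⟩
      intro y hy
      by_cases hyx : y ∈ σ
      · exact hxw hyx
      · exact (mem_sdiff.1 (htu (mem_sdiff.2 ⟨hy, hyx⟩))).1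
    · rintro ⟨w, ⟨hw, htw⟩, rfl⟩
      exact ⟨mem_lk.2 ⟨w, hw, hσt.trans htw, rfl⟩, sdiff_subset_sdiff htw (Subset.refl σ)⟩
  rw [himg, Finset.card_image_of_injOn] at h
  · exact h
  · intro a ha b hb hab
    simp only [coe_filter, Set.mem_ofPred_eq] at ha hb
    simp only at hab
    rw [← union_sdiff_of_subset (hσt.trans ha.2), hab, union_sdiff_of_subset (hσt.trans hb.2)]

end Pool.TSphD
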