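import Pool.Agent.Lib.MP_3de3a3_co.DDefs

/-! # The top part of a finite set (module DTop) -/

set_option autoImplicit false

namespace Pool.TSphD

open Finset

variable {ι : Type*} [DecidableEq ι]

/-- The decomposition into a top part and a lower part is unique. Proof: if `σ ≠ σ'` there are
`x ∈ σ \ σ'` and `x' ∈ σ' \ σ` (same number of elements), so `x ∈ τ'` and `x' ∈ τ`, hence
`pos x < pos x' < pos x`. -/
theorem top_unique {pos : ι → ℕ} {σ σ' τ τ' : Finset ι} (h : σ ∪ τ = σ' ∪ τ')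
    (hc : σ.card = σ'.card) (hτ : ∀ y ∈ τ, ∀ x ∈ σ, pos y < pos x)
    (hτ' : ∀ y ∈ τ', ∀ x ∈ σ', pos y < pos x) : σ = σ' ∧ τ = τ' := by
  have hs : σ = σ' := by
    by_contra hne
    have h1 : ∃ x ∈ σ, x ∉ σ' := by
      by_contra hno
      push Not at hno
      exact hne (Finset.eq_of_subset_of_card_le hno hc.ge)
    have h2 : ∃ x ∈ σ', x ∉ σ := by
      by_contra hno
      push Not at hno
      exact hne (Finset.eq_of_subset_of_card_le hno hc.le).symm
    obtain ⟨x, hx, hx'⟩ := h1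
    obtain ⟨y, hy, hy'⟩ := h2
    have hxt : x ∈ τ' := by
      have : x ∈ σ' ∪ τ' := h ▸ Finset.mem_union_left τ hx
      rcases Finset.mem_union.1 this with h3 | h3
      · exact absurd h3 hx'
      · exact h3
    have hyt : y ∈ τ := by
      have : y ∈ σ ∪ τ := h.symm ▸ Finset.mem_union_left τ' hy
      rcases Finset.mem_union.1 this with h3 | h3
      · exact absurd h3 hy'
      · exact h3
    have h3 := hτ y hyt x hx
    have h4 := hτ' x hxt y hy
    omega
  refine ⟨hs, ?_⟩
  subst hs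
  have hd : Disjoint σ τ := Finset.disjoint_left.2 fun x hx hx' => absurd (hτ x hx' x hx) (lt_irrefl _)
  have hd' : Disjoint σ τ' := Finset.disjoint_left.2 fun x hx hx' => absurd (hτ' x hx' x hx) (lt_irrefl _)
  have e1 : (σ ∪ τ) \ σ = τ := by
    rw [Finset.union_sdiff_left, Finset.sdiff_eq_self_iff_disjoint.2 hd.symm]
  have e2 : (σ ∪ τ') \ σ = τ' := by
    rw [Finset.union_sdiff_left, Finset.sdiff_eq_self_iff_disjoint.2 hd'.symm]
  rw [← e1, ← e2, h]

/-- The top part has the largest sum. Proof: `σ \ σ' ⊆ τ'` and `σ' \ σ` have the same positive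
number of elements, and all elements of the former are below all elements of the latter. -/
theorem sum_top {pos : ι → ℕ} {σ σ' τ' : Finset ι} (h : σ ⊆ σ' ∪ τ')
    (hc : σ.card = σ'.card) (hτ' : ∀ y ∈ τ', ∀ x ∈ σ', pos y < pos x) (hne : σ ≠ σ') :
    ∑ x ∈ σ, pos x < ∑ x ∈ σ', pos x := by
  have hcard : (σ \ σ').card = (σ' \ σ).card := Finset.card_sdiff_comm hc
  have hne1 : (σ \ σ').Nonempty := by
    by_contra hno
    rw [Finset.not_nonempty_iff_eq_empty, Finset.sdiff_eq_empty_iff_subset] at hno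
    exact hne (Finset.eq_of_subset_of_card_le hno hc.ge)
  have hne2 : (σ' \ σ).Nonempty := by
    rw [← Finset.card_pos, ← hcard]
    exact hne1.card_pos
  obtain ⟨m, hm, hmin⟩ := Finset.exists_min_image (σ' \ σ) pos hne2
  have h1 : ∑ x ∈ σ \ σ', pos x < ∑ _x ∈ σ \ σ', pos m := by
    refine Finset.sum_lt_sum_of_nonempty hne1 fun x hx => ?_
    rw [Finset.mem_sdiff] at hx hm
    have hxt : x ∈ τ' := by
      rcases Finset.mem_union.1 (h hx.1) with h3 | h3
      · exact absurd h3 hx.2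
      · exact h3
    exact hτ' x hxt m hm.1
  have h2 : ∑ _x ∈ σ \ σ', pos m = ∑ _x ∈ σ' \ σ, pos m := by
    rw [Finset.sum_const, Finset.sum_const, hcard]
  have h3 : ∑ _x ∈ σ' \ σ, pos m ≤ ∑ x ∈ σ' \ σ, pos x := Finset.sum_le_sum fun x hx => hmin x hx
  have e1 : ∑ x ∈ σ, pos x = ∑ x ∈ σ \ σ', pos x + ∑ x ∈ σ ∩ σ', pos x := by
    rw [← Finset.sum_inter_add_sum_sdiff σ σ']
    exact Nat.add_comm _ _
  have e2 : ∑ x ∈ σ', pos x = ∑ x ∈ σ' \ σ, pos x + ∑ x ∈ σ ∩ σ', pos x := by
    rw [← Finset.sum_inter_add_sum_sdiff σ' σ, Finset.inter_comm σ' σ]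
    exact Nat.add_comm _ _
  omega

/-- Existence of the top part (induction on `k`: insert the maximum of the rest). -/
theorem exists_top {pos : ι → ℕ} (hpos : Function.Injective pos) (s : Finset ι) {k : ℕ}
    (hk : k ≤ s.card) :
    ∃ σ ⊆ s, σ.card = k ∧ ∀ y ∈ s \ σ, ∀ x ∈ σ, pos y < pos x := by
  induction k with
  | zero => exact ⟨∅, Finset.empty_subset _, Finset.card_empty, fun _ _ x hx => absurd hx (Finset.notMem_empty x)⟩
  | succ k ih =>
    obtain ⟨σ, hσ, hc, hlt⟩ := ih (by omega)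
    have hne : (s \ σ).Nonempty := by
      rw [← Finset.card_pos, Finset.card_sdiff_of_subset hσ]
      omega
    obtain ⟨x0, hx0, hmax⟩ := Finset.exists_max_image (s \ σ) pos hne
    have hx0' := Finset.mem_sdiff.1 hx0
    refine ⟨insert x0 σ, Finset.insert_subset hx0'.1 hσ, ?_, ?_⟩
    · rw [Finset.card_insert_of_notMem hx0'.2, hc]
    · intro y hy x hx
      rw [Finset.mem_sdiff, Finset.mem_insert, not_or] at hy
      have hy' : y ∈ s \ σ := Finset.mem_sdiff.2 ⟨hy.1, hy.2.2⟩
      rcases Finset.mem_insert.1 hx with rfl | hx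
      · rcases Nat.lt_or_eq_of_le (hmax y hy') with h1 | h1
        · exact h1
        · exact absurd (hpos h1) hy.2.1
      · exact hlt y hy' x hx

end Pool.TSphD
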