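import Pool.Agent.Lib.MP_3de3a3_co.LinkCert
import Pool.Agent.Lib.MP_3de3a3_co.DMfdPM
import Pool.Agent.Lib.MP_3de3a3_co.DTop

/-! # The certificate of a vertex order, definitions (module DCertDef) -/

set_option autoImplicit false

namespace Pool.TSphD

open Finset
open Pool.TSph (verts mem_verts IsSphere2 adj comp link_cert)

variable {ι : Type*} [DecidableEq ι] {k : ℕ}

/-- The vertices of the link of `σ` which are lower than all vertices of `σ`. -/
def Lo (F : Finset (Finset ι)) (pos : ι → ℕ) (σ : Finset ι) : Finset ι :=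
  (verts (lk F σ)).filter (fun y => ∀ x ∈ σ, pos y < pos x)

/-- The data of `link_cert` for all faces with `k` vertices. -/
structure Data (k : ℕ) (F : Finset (Finset ι)) (pos : ι → ℕ) (R G : Finset ι → Finset (Finset ι))
    (D : Finset ι → Finset ι → ℕ) (Rt : Finset ι → Finset ι) (dist : Finset ι → ι → ℕ)
    (par : Finset ι → ι → ι) : Prop where
  Rsub : ∀ σ ∈ fc k F, R σ ⊆ lk F σ
  Rcard : ∀ σ ∈ fc k F, (R σ).card ≤ (if Lo F pos σ = verts (lk F σ) then 1 else 0)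
  grad : ∀ σ ∈ fc k F, ∀ t ∈ lk F σ, t ⊆ Lo F pos σ → t ∉ R σ →
    ∃ t' ∈ lk F σ, (t ∩ t').card = 2 ∧ t ∩ t' ∈ G σ ∧ D σ t' < D σ t
  Rtsub : ∀ σ ∈ fc k F, Rt σ ⊆ Lo F pos σ
  Rtcard : ∀ σ ∈ fc k F, (Rt σ).card ≤ comp (adj (lk F σ)) (Lo F pos σ)
  forest : ∀ σ ∈ fc k F, ∀ w ∈ Lo F pos σ, w ∉ Rt σ → par σ w ∈ Lo F pos σ ∧
    adj (lk F σ) w (par σ w) ∧ ({w, par σ w} : Finset ι) ∉ G σ ∧
      dist σ (par σ w) < dist σ w

theorem exists_data {F : Finset (Finset ι)} (hF : IsMfdD k F) (pos : ι → ℕ) :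
    ∃ R G D Rt dist par, Data k F pos R G D Rt dist par := by
  classical
  have h : ∀ σ, ∃ (R G : Finset (Finset ι)) (D : Finset ι → ℕ) (Rt : Finset ι)
      (dist : ι → ℕ) (par : ι → ι), σ ∈ fc k F →
      (R ⊆ lk F σ ∧ R.card ≤ (if Lo F pos σ = verts (lk F σ) then 1 else 0) ∧
      (∀ t ∈ lk F σ, t ⊆ Lo F pos σ → t ∉ R →
        ∃ t' ∈ lk F σ, (t ∩ t').card = 2 ∧ t ∩ t' ∈ G ∧ D t' < D t) ∧
      Rt ⊆ Lo F pos σ ∧ Rt.card ≤ comp (adj (lk F σ)) (Lo F pos σ) ∧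
      (∀ w ∈ Lo F pos σ, w ∉ Rt → par w ∈ Lo F pos σ ∧ adj (lk F σ) w (par w) ∧
        ({w, par w} : Finset ι) ∉ G ∧ dist (par w) < dist w)) := by
    intro σ
    by_cases hx : σ ∈ fc k F
    · obtain ⟨R, G, D, Rt, dist, par, h⟩ := link_cert (hF.sphere σ hx)
        (S := Lo F pos σ) (filter_subset _ _)
      exact ⟨R, G, D, Rt, dist, par, fun _ => h⟩
    · exact ⟨∅, ∅, fun _ => 0, ∅, fun _ => 0, id, fun h => absurd h hx⟩
  choose R G D Rt dist par h using h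
  exact ⟨R, G, D, Rt, dist, par,
    fun x hx => (h x hx).1, fun x hx => (h x hx).2.1, fun x hx => (h x hx).2.2.1,
    fun x hx => (h x hx).2.2.2.1, fun x hx => (h x hx).2.2.2.2.1,
    fun x hx => (h x hx).2.2.2.2.2⟩

/-- The closing ridges. -/
def Closings (k : ℕ) (F : Finset (Finset ι)) (pos : ι → ℕ) (Rt : Finset ι → Finset ι)
    (par : Finset ι → ι → ι) : Finset (Finset ι) :=
  (fc k F).biUnion (fun σ => (Lo F pos σ \ Rt σ).image (fun w => σ ∪ {w, par σ w}))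

/-- The facets which are roots. -/
def Roots (k : ℕ) (F : Finset (Finset ι)) (R : Finset ι → Finset (Finset ι)) :
    Finset (Finset ι) :=
  (fc k F).biUnion (fun σ => (R σ).image (fun t => σ ∪ t))

theorem roots_sub {F : Finset (Finset ι)} {pos : ι → ℕ} {R G D Rt dist par}
    (hD : Data k F pos R G D Rt dist par) : Roots k F R ⊆ F := by
  intro s hs
  simp only [Roots, mem_biUnion, mem_image] at hs
  obtain ⟨x, hx, t, ht, rfl⟩ := hs
  exact (mem_lk'.1 (hD.Rsub x hx ht)).2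

theorem card_roots {F : Finset (Finset ι)} {pos : ι → ℕ} {R G D Rt dist par}
    (hD : Data k F pos R G D Rt dist par) :
    (Roots k F R).card ≤ ∑ σ ∈ fc k F, (if Lo F pos σ = verts (lk F σ) then 1 else 0) := by
  refine card_biUnion_le.trans (Finset.sum_le_sum fun x hx => ?_)
  exact card_image_le.trans (hD.Rcard x hx)

/-- The elements of `Lo F pos σ` are not in `σ` and lower than all elements of `σ`. -/
theorem Lo_facts {F : Finset (Finset ι)} {pos : ι → ℕ} {σ : Finset ι} {w : ι}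
    (hw : w ∈ Lo F pos σ) : w ∉ σ ∧ ∀ x ∈ σ, pos w < pos x := by
  obtain ⟨h1, h2⟩ := mem_filter.1 hw
  exact ⟨(mem_verts_lk.1 h1).1, h2⟩

/-- Facts on the closing ridges. -/
theorem clos_facts {F : Finset (Finset ι)} {pos : ι → ℕ} {R G D Rt dist par}
    (hD : Data k F pos R G D Rt dist par) {σ : Finset ι} (hσ : σ ∈ fc k F) {w : ι}
    (hw : w ∈ Lo F pos σ \ Rt σ) :
    (∀ y ∈ ({w, par σ w} : Finset ι), ∀ x ∈ σ, pos y < pos x) ∧ w ∉ σ ∧ par σ w ∉ σ ∧
      w ≠ par σ w ∧ dist σ (par σ w) < dist σ w ∧ ({w, par σ w} : Finset ι) ∉ G σ ∧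
      σ ∪ {w, par σ w} ∈ rdg (k + 2) F := by
  obtain ⟨hw1, hw2⟩ := mem_sdiff.1 hw
  obtain ⟨h1, ⟨h2, t, ht, hwt, hpt⟩, h3, h4⟩ := hD.forest σ hσ w hw1 hw2
  obtain ⟨hd, hF⟩ := mem_lk'.1 ht
  have fw := Lo_facts hw1
  have fp := Lo_facts h1
  refine ⟨?_, fw.1, fp.1, h2, h4, h3, mem_rdg.2 ⟨?_, _, hF, ?_⟩⟩
  · intro y hy x hx
    simp only [mem_insert, mem_singleton] at hy
    rcases hy with rfl | rfl
    · exact fw.2 x hx
    · exact fp.2 x hx
  · have hdis : Disjoint σ ({w, par σ w} : Finset ι) := by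
      rw [disjoint_left]
      intro x hx hx'
      simp only [mem_insert, mem_singleton] at hx'
      rcases hx' with rfl | rfl
      · exact fw.1 hx
      · exact fp.1 hx
    rw [card_union_of_disjoint hdis, (mem_fc.1 hσ).1, card_pair h2]
  · refine union_subset_union (Subset.refl σ) ?_
    intro y hy
    simp only [mem_insert, mem_singleton] at hy
    rcases hy with rfl | rfl
    · exact hwt
    · exact hpt

end Pool.TSphD
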