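import Pool.Agent.Lib.MP_3de3a3_co.DMv
import Pool.Agent.Lib.MP_3de3a3_co.Bfs

/-! # Labelled breadth first numbering (module DLamBfs) -/

set_option autoImplicit false

namespace Pool.TSphD

open Finset
open Pool.TSph (verts mem_verts bfs)

variable {ι : Type*} [DecidableEq ι] {δ : ℕ}

/-- every facet has a labelling -/
theorem LamBfs_label {F : Finset (Finset ι)} (hF : PM δ F) {s : Finset ι} (hs : s ∈ F) :
    ∃ f : Fin (δ + 1) → ι, IsLF F f ∧ univ.image f = s := by
  have h4 := hF.card s hs
  have e : Fin (δ + 1) ≃ s := (Fin.castOrderIso h4.symm).toEquiv.trans s.equivFin.symm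
  have him : univ.image (fun a => ((e a : s) : ι)) = s := by
    ext x
    simp only [mem_image, mem_univ, true_and]
    constructor
    · rintro ⟨a, rfl⟩; exact (e a).2
    · intro hx
      exact ⟨e.symm ⟨x, hx⟩, by simp⟩
  refine ⟨fun a => (e a : ι), ⟨fun a b h => e.injective (Subtype.ext h), ?_⟩, him⟩
  rw [him]; exact hs

/-- one step: the neighbouring facet as a moved labelled facet -/
theorem LamBfs_step {F M : Finset (Finset ι)} (hF : PM δ F) (hM : M ⊆ rdg δ F) {f : Fin (δ + 1) → ι}
    (hf : IsLF F f) {s : Finset ι} (hs : s ∈ F) (hne : s ≠ univ.image f)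
    (hsM : univ.image f ∩ s ∈ M) :
    ∃ a : Fin (δ + 1), univ.image (mv F a f) = s ∧ side (mv F a f) a ∈ M := by
  have ht := mem_rdg.1 (hM hsM)
  have hcard : (univ.image f).card = δ + 1 := hF.card _ hf.2
  -- a position whose vertex is not in the intersection
  have h1 : ∃ a : Fin (δ + 1), f a ∉ univ.image f ∩ s := by
    by_contra hcon
    push Not at hcon
    have hsub : univ.image f ⊆ univ.image f ∩ s := by
      intro x hx
      obtain ⟨a, -, rfl⟩ := mem_image.1 hx
      exact hcon a
    have := card_le_card hsub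
    omega
  obtain ⟨a, ha⟩ := h1
  have hside : side f a = (univ.image f).erase (f a) := by
    unfold side
    ext x
    simp only [mem_image, mem_erase, mem_univ, and_true, true_and]
    constructor
    · rintro ⟨b, hb, rfl⟩
      exact ⟨fun h => hb (hf.1 h), b, rfl⟩
    · rintro ⟨hx, b, rfl⟩
      exact ⟨b, fun h => hx (by rw [h]), rfl⟩
  have hsub : univ.image f ∩ s ⊆ side f a := by
    rw [hside]
    intro x hx
    exact mem_erase.2 ⟨fun h => ha (h ▸ hx), (mem_inter.1 hx).1⟩
  have hsc : (side f a).card = δ := by
    rw [hside, card_erase_of_mem (mem_image_of_mem f (mem_univ a)), hcard,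
      Nat.add_sub_cancel]
  have heq : univ.image f ∩ s = side f a := eq_of_subset_of_card_le hsub (by rw [ht.1, hsc])
  refine ⟨a, ?_, ?_⟩
  · have hss : side f a ⊆ s := by rw [← heq]; exact inter_subset_right
    rcases facet_of_side hF hf a hs hss with h | h
    · exact absurd h hne
    · exact h.symm
  · rw [side_mv, ← heq]; exact hsM

/-- From `bfs` with `R a b := a ∩ b ∈ M`; the labellings are defined by strong recursion:
`lam i = mv F (k i) (lam (p i))`, where `k i` is the position of the vertex of the facet
`σ (p i)` which is not in `σ i`. -/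
theorem exists_lam {F M : Finset (Finset ι)} (hF : PM δ F) (hne : F.Nonempty) {n : ℕ}
    (hn : F.card = n) (hM : M ⊆ rdg δ F)
    (hconn : ∀ s ∈ F, ∀ t ∈ F, Relation.ReflTransGen (fun a b => b ∈ F ∧ a ∩ b ∈ M) s t) :
    ∃ (lam : Fin n → Fin (δ + 1) → ι) (p : Fin n → Fin n) (k : Fin n → Fin (δ + 1)),
      (∀ i, IsLF F (lam i)) ∧
      (∀ i j, univ.image (lam i) = univ.image (lam j) → i = j) ∧
      (∀ s ∈ F, ∃ i, univ.image (lam i) = s) ∧ Monotone p ∧
      ∀ i : Fin n, 0 < (i : ℕ) →
        p i < i ∧ side (lam i) (k i) ∈ M ∧ lam i = mv F (k i) (lam (p i)) := by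
  classical
  subst hn
  obtain ⟨σ, p, hσ, hinj, hmono, hpar⟩ := bfs F (fun a b => a ∩ b ∈ M) hne hconn
  have hpos : 0 < F.card := card_pos.2 hne
  -- partial labellings
  have key : ∀ m : ℕ, ∃ (lam : Fin F.card → Fin (δ + 1) → ι) (k : Fin F.card → Fin (δ + 1)),
      ∀ i : Fin F.card, (i : ℕ) < m → IsLF F (lam i) ∧ univ.image (lam i) = σ i ∧
        (0 < (i : ℕ) → side (lam i) (k i) ∈ M ∧ lam i = mv F (k i) (lam (p i))) := by
    intro m
    induction m with
    | zero =>
      obtain ⟨f, -, -⟩ := LamBfs_label hF (hσ ⟨0, hpos⟩)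
      exact ⟨fun _ => f, fun _ => 0, fun i hi => absurd hi (Nat.not_lt_zero _)⟩
    | succ m ih =>
      obtain ⟨lam, k, h⟩ := ih
      by_cases hm : m < F.card
      · rcases Nat.eq_zero_or_pos m with h0 | h0
        · subst h0
          obtain ⟨f, hf, hfi⟩ := LamBfs_label hF (hσ ⟨0, hpos⟩)
          refine ⟨fun _ => f, k, fun i hi => ?_⟩
          have hi0 : i = ⟨0, hpos⟩ := Fin.ext (by simp; omega)
          subst hi0
          exact ⟨hf, hfi, fun h => absurd h (Nat.lt_irrefl 0)⟩
        · set im : Fin F.card := ⟨m, hm⟩ with him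
          obtain ⟨hlt, hR⟩ := hpar im h0
          obtain ⟨h1, h2, h3⟩ := h (p im) hlt
          have hne' : σ im ≠ univ.image (lam (p im)) := by
            rw [h2]
            intro hc
            have := hinj hc
            rw [← this] at hlt
            exact lt_irrefl _ hlt
          have hR' : univ.image (lam (p im)) ∩ σ im ∈ M := by rw [h2]; exact hR
          obtain ⟨a, ha1, ha2⟩ := LamBfs_step hF hM h1 (hσ im) hne' hR'
          refine ⟨Function.update lam im (mv F a (lam (p im))), Function.update k im a,
            fun i hi => ?_⟩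
          by_cases hii : i = im
          · subst hii
            have hpne : p im ≠ im := ne_of_lt hlt
            rw [Function.update_self, Function.update_self, Function.update_of_ne hpne]
            exact ⟨mv_isLF hF h1 a, ha1, fun _ => ⟨ha2, rfl⟩⟩
          · have hilt : (i : ℕ) < m := by
              have : (i : ℕ) ≠ m := fun hc => hii (Fin.ext hc)
              omega
            rw [Function.update_of_ne hii, Function.update_of_ne hii]
            obtain ⟨g1, g2, g3⟩ := h i hilt
            refine ⟨g1, g2, fun hi0 => ?_⟩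
            have hp := (hpar i hi0).1
            have hpne : p i ≠ im := by
              intro hc
              rw [hc] at hp
              have : m < (i : ℕ) := hp
              omega
            rw [Function.update_of_ne hpne]
            exact g3 hi0
      · refine ⟨lam, k, fun i hi => h i ?_⟩
        have := i.2
        omega
  obtain ⟨lam, k, h⟩ := key F.card
  refine ⟨lam, p, k, fun i => (h i i.2).1, fun i j hij => ?_, fun s hs => ?_, hmono,
    fun i hi => ⟨(hpar i hi).1, ((h i i.2).2.2 hi).1, ((h i i.2).2.2 hi).2⟩⟩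
  · rw [(h i i.2).2.1, (h j j.2).2.1] at hij
    exact hinj hij
  · have hsurj : ∀ s ∈ F, ∃ i, σ i = s := by
      have himg : univ.image σ = F := by
        refine eq_of_subset_of_card_le ?_ ?_
        · intro x hx
          obtain ⟨i, -, rfl⟩ := mem_image.1 hx
          exact hσ i
        · rw [card_image_of_injective _ hinj, card_univ, Fintype.card_fin]
      intro s hs
      rw [← himg] at hs
      obtain ⟨i, -, hi⟩ := mem_image.1 hs
      exact ⟨i, hi⟩
    obtain ⟨i, hi⟩ := hsurj s hs
    exact ⟨i, by rw [(h i i.2).2.1, hi]⟩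

end Pool.TSphD
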