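import Pool.Agent.Lib.MP_3de3a3_co.DTransM

/-! # The vertex map is well defined (module DVertexEq) -/

set_option autoImplicit false

namespace Pool.TSphD

open Finset
open Pool.TSph (verts mem_verts)

variable {ι : Type*} [DecidableEq ι] {δ : ℕ}

theorem VertexEq_side {f : Fin (δ + 1) → ι} (hf : Function.Injective f) {t : Finset ι}
    (ht : (univ.image f ∩ t).card = δ) :
    ∃ c, side f c ⊆ t ∧ univ.image f ∩ t ⊆ side f c := by
  classical
  have h4 : (univ.image f).card = δ + 1 := by
    rw [card_image_of_injective _ hf, card_univ, Fintype.card_fin]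
  have h1 : ∃ y ∈ univ.image f, y ∉ t := by
    by_contra hno
    push Not at hno
    have h2 : univ.image f ∩ t = univ.image f := inter_eq_left.2 hno
    rw [h2] at ht
    omega
  obtain ⟨y, hy, hyt⟩ := h1
  obtain ⟨c, _, rfl⟩ := mem_image.1 hy
  have hsub : univ.image f ∩ t ⊆ side f c := by
    intro z hz
    obtain ⟨hz1, hz2⟩ := mem_inter.1 hz
    obtain ⟨b, _, rfl⟩ := mem_image.1 hz1
    refine mem_image_of_mem _ (mem_erase.2 ⟨?_, mem_univ b⟩)
    rintro rfl
    exact hyt hz2
  have hc3 : (side f c).card = δ := by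
    unfold side
    rw [card_image_of_injective _ hf, card_erase_of_mem (mem_univ c), card_univ,
      Fintype.card_fin, Nat.add_sub_cancel]
  have heq : univ.image f ∩ t = side f c := eq_of_subset_of_card_le hsub (by omega)
  refine ⟨c, ?_, hsub⟩
  rw [← heq]
  exact inter_subset_right

/-- If the labelled facets are glued in the same way then `lam₁ i a ↦ lam₂ i a` is well
defined (the star of a vertex is strongly connected). -/
theorem vertex_eq {n : ℕ} {F₁ F₂ : Finset (Finset ι)} {c : Code δ n}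
    {lam₁ lam₂ : Fin n → Fin (δ + 1) → ι} {M₁ M₂ : Finset (Finset ι)} {rk₁ rk₂ : Finset ι → ℕ}
    {e₁ e₂ : Finset ι → Finset ι} (h₁ : PM δ F₁)
    (hc₁ : HasCode F₁ c lam₁ M₁ rk₁ e₁)
    (ht : ∀ (i : Fin n) (a : Fin (δ + 1)) (j : Fin n) (g : Equiv.Perm (Fin (δ + 1))),
      mv F₁ a (lam₁ i) = lam₁ j ∘ g → mv F₂ a (lam₂ i) = lam₂ j ∘ g)
    (i j : Fin n) (a b : Fin (δ + 1)) (h : lam₁ i a = lam₁ j b) : lam₂ i a = lam₂ j b := by
  have hpath := h₁.star (lam₁ i a) _ (hc₁.lf i).2 _ (hc₁.lf j).2
    (mem_image_of_mem _ (mem_univ a)) (by rw [h]; exact mem_image_of_mem _ (mem_univ b))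
  have key : ∀ t, Relation.ReflTransGen (fun u v => v ∈ F₁ ∧ (u ∩ v).card = δ ∧
      lam₁ i a ∈ u ∩ v) (univ.image (lam₁ i)) t → t ∈ F₁ ∧
      ∀ (j : Fin n) (b : Fin (δ + 1)), univ.image (lam₁ j) = t → lam₁ i a = lam₁ j b →
        lam₂ i a = lam₂ j b := by
    intro t hst
    induction hst with
    | refl =>
      refine ⟨(hc₁.lf i).2, ?_⟩
      intro j b hj hb
      have hij : j = i := hc₁.inj j i hj
      subst hij
      rw [(hc₁.lf j).1 hb]
    | @tail u v _ huv ih =>
      obtain ⟨hv, hcard, hx⟩ := huv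
      refine ⟨hv, ?_⟩
      intro j b hj hb
      obtain ⟨j', hj'⟩ := hc₁.surj u ih.1
      obtain ⟨hxu, hxv⟩ := mem_inter.1 hx
      rw [← hj'] at hxu hcard hx
      obtain ⟨b', _, hb'⟩ := mem_image.1 hxu
      have h2 := ih.2 j' b' hj' hb'.symm
      obtain ⟨c', hc', hcs⟩ := VertexEq_side (hc₁.lf j').1 hcard
      rcases facet_of_side h₁ (hc₁.lf j') c' hv hc' with h3 | h3
      · exfalso
        rw [h3, inter_self, card_image_of_injective _ (hc₁.lf j').1, card_univ,
          Fintype.card_fin] at hcard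
        omega
      · obtain ⟨k, g, hkg⟩ := rep_exists hc₁ (mv_isLF h₁ (hc₁.lf j') c')
        have hk : k = j := by
          apply hc₁.inj
          rw [hj, h3, hkg, TransM_image]
        subst hk
        have h4 := ht j' c' k g hkg
        have hbc : b' ≠ c' := by
          rintro rfl
          have h5 := hcs hx
          rw [← hb'] at h5
          obtain ⟨d, hd, hde⟩ := mem_image.1 h5
          exact (mem_erase.1 hd).1 ((hc₁.lf j').1 hde)
        have h5 := congrFun hkg b'
        rw [mv_off _ _ hbc, hb', hb] at h5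
        have h6 : b = g b' := (hc₁.lf k).1 h5
        have h7 := congrFun h4 b'
        rw [mv_off _ _ hbc] at h7
        rw [h2, h7, h6]
        rfl
  exact (key _ hpath).2 j b rfl h

end Pool.TSphD
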