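import Pool.Agent.Lib.MP_3de3a3_co.DRot
import Pool.Agent.Lib.MP_3de3a3_co.DLamBfs
import Pool.Agent.Lib.MP_3de3a3_co.DVertexEq

/-! # The ridges which are not closing ridges connect the facets (module DConn) -/

set_option autoImplicit false

namespace Pool.TSphD

open Finset
open Pool.TSph (verts mem_verts)

variable {ι : Type*} [DecidableEq ι] {δ : ℕ}

theorem DConn_inter {F : Finset (Finset ι)} (hF : PM δ F) {a b t : Finset ι} (ha : a ∈ F)
    (hb : b ∈ F) (hab : a ≠ b) (hta : t ⊆ a) (htb : t ⊆ b) (ht : t.card = δ) : a ∩ b = t := by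
  have h1 : t ⊆ a ∩ b := subset_inter hta htb
  have h2 : (a ∩ b).card < δ + 1 := by
    by_contra hcon
    push Not at hcon
    have e1 : a ∩ b = a := eq_of_subset_of_card_le inter_subset_left
      (by rw [hF.card a ha]; exact hcon)
    have e2 : a ∩ b = b := eq_of_subset_of_card_le inter_subset_right
      (by rw [hF.card b hb]; exact hcon)
    exact hab (e1.symm.trans e2)
  exact (eq_of_subset_of_card_le h1 (by omega)).symm

theorem DConn_aux {F M : Finset (Finset ι)} {rk : Finset ι → ℕ} {e : Finset ι → Finset ι}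
    (hF : PM δ F)
    (esub : ∀ t ∈ rdg δ F, t ∉ M → e t ⊆ t ∧ (e t).card + 1 = δ)
    (rank : ∀ t ∈ rdg δ F, t ∉ M → ∀ t' ∈ rdg δ F, e t ⊆ t' → t' ≠ t → t' ∈ M ∨ rk t' < rk t)
    (N : ℕ) : ∀ t ∈ rdg δ F, rk t < N → ∀ a ∈ F, ∀ b ∈ F, t ⊆ a → t ⊆ b →
      Relation.ReflTransGen (fun a b => b ∈ F ∧ a ∩ b ∈ M) a b := by
  induction N with
  | zero => intro t _ h; omega
  | succ N ih =>
    intro t ht hN a ha b hb hta htb
    have htc := (mem_rdg.1 ht).1
    by_cases hab : a = b
    · rw [hab]
    by_cases htM : t ∈ M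
    · exact Relation.ReflTransGen.single ⟨hb, by rwa [DConn_inter hF ha hb hab hta htb htc]⟩
    obtain ⟨f, hf, hfa⟩ := LamBfs_label hF ha
    obtain ⟨p, hp1, hp2⟩ := VertexEq_side hf.1 (t := t)
      (by rw [hfa, inter_eq_right.2 hta, htc])
    have hp : side f p = t := by
      apply Subset.antisymm hp1
      rw [hfa, inter_eq_right.2 hta] at hp2
      exact hp2
    obtain ⟨e1, e2⟩ := esub t ht htM
    obtain ⟨y, hy, hye⟩ : ∃ y ∈ t, y ∉ e t := by
      by_contra hcon
      push Not at hcon
      have := card_le_card (show t ⊆ e t from hcon)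
      omega
    rw [← hp] at hy
    obtain ⟨q, hq, rfl⟩ := mem_image.1 hy
    have hqp : q ≠ p := (mem_erase.1 hq).1
    have he : ∀ s, e t ⊆ side ((rot F p q)^[s] f) p := by
      intro s z hz
      have hzt := e1 hz
      rw [← hp] at hzt
      obtain ⟨c, hc, rfl⟩ := mem_image.1 hzt
      have hcp : c ≠ p := (mem_erase.1 hc).1
      have hcq : c ≠ q := fun h => hye (h ▸ hz)
      rw [← rot_off (F := F) (f := f) s hcp hcq]
      exact mem_image_of_mem _ (mem_erase.2 ⟨hcp, mem_univ _⟩)
    obtain ⟨d, hd, hret, hne⟩ := rot_return hF (a := p) (m := q) hqp.symm hf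
    have hLF : ∀ s, IsLF F ((rot F p q)^[s] f) := fun s => rot_isLF hF hf s
    have himg : ∀ g : Fin (δ + 1) → ι, IsLF F g →
        univ.image (rot F p q g) ≠ univ.image g := by
      intro g hg
      rw [rot, TransM_image]
      exact image_mv_ne hF hg q
    have walk : ∀ s, s < d → Relation.ReflTransGen (fun a b => b ∈ F ∧ a ∩ b ∈ M) a
        (univ.image ((rot F p q)^[s] f)) := by
      intro s
      induction s with
      | zero =>
        intro _
        change Relation.ReflTransGen _ a (univ.image f)
        rw [hfa]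
      | succ s ihs =>
        intro hs
        refine (ihs (by omega)).trans ?_
        have hside : side ((rot F p q)^[s + 1] f) p = side ((rot F p q)^[s] f) q := by
          rw [Function.iterate_succ_apply', side_rot]
        have ht' := side_mem_rdg (hLF (s + 1)) p
        have h1 : side ((rot F p q)^[s + 1] f) p ⊆ univ.image ((rot F p q)^[s] f) := by
          rw [hside]; exact Mv_sub _ _
        have h2 : side ((rot F p q)^[s + 1] f) p ⊆ univ.image ((rot F p q)^[s + 1] f) :=
          Mv_sub _ _
        rcases rank t ht htM _ ht' (he (s + 1))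
          (by rw [← hp]; exact hne (s + 1) (by omega) hs) with h | h
        · refine Relation.ReflTransGen.single ⟨(hLF (s + 1)).2, ?_⟩
          rw [DConn_inter hF (hLF s).2 (hLF (s + 1)).2 ?_ h1 h2 (mem_rdg.1 ht').1]
          · exact h
          · rw [Function.iterate_succ_apply']
            exact (himg _ (hLF s)).symm
        · exact ih _ ht' (by omega) _ (hLF s).2 _ (hLF (s + 1)).2 h1 h2
    have hd1 : (d - 1).succ = d := Nat.succ_pred_eq_of_pos hd
    have hlast : rot F p q ((rot F p q)^[d - 1] f) = f := by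
      rw [← Function.iterate_succ_apply' (rot F p q), hd1]
      exact hret
    have hside : side ((rot F p q)^[d - 1] f) q = t := by
      rw [← side_rot F p q, hlast, hp]
    have hsub : side f p ⊆ univ.image ((rot F p q)^[d - 1] f) := by
      rw [hp, ← hside]; exact Mv_sub _ _
    have hne' : univ.image ((rot F p q)^[d - 1] f) ≠ univ.image f := by
      have := himg _ (hLF (d - 1))
      rw [hlast] at this
      exact this.symm
    have hb' : b = univ.image ((rot F p q)^[d - 1] f) := by
      rcases facet_of_side hF hf p hb (by rw [hp]; exact htb) with h | h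
      · exact absurd (h.trans hfa).symm hab
      · rcases facet_of_side hF hf p (hLF (d - 1)).2 hsub with h' | h'
        · exact absurd h' hne'
        · rw [h, h']
    rw [hb']
    exact walk (d - 1) (by omega)

/-- If the complex is strongly connected and every ridge `t ∉ M` has a closing face `e t` such
that all the other ridges which contain `e t` are in `M` or have smaller rank, then the facets are
connected by the ridges in `M`: walk around the closing face, induction on the rank. -/
theorem conn_of_rank {F M : Finset (Finset ι)} {rk : Finset ι → ℕ} {e : Finset ι → Finset ι}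
    (hF : PM δ F)
    (hconn : ∀ s ∈ F, ∀ t ∈ F,
      Relation.ReflTransGen (fun a b => b ∈ F ∧ (a ∩ b).card = δ) s t)
    (esub : ∀ t ∈ rdg δ F, t ∉ M → e t ⊆ t ∧ (e t).card + 1 = δ)
    (rank : ∀ t ∈ rdg δ F, t ∉ M → ∀ t' ∈ rdg δ F, e t ⊆ t' → t' ≠ t → t' ∈ M ∨ rk t' < rk t) :
    ∀ s ∈ F, ∀ t ∈ F, Relation.ReflTransGen (fun a b => b ∈ F ∧ a ∩ b ∈ M) s t := by
  intro s hs t ht
  have h := hconn s hs t ht
  have key : t ∈ F ∧ Relation.ReflTransGen (fun a b => b ∈ F ∧ a ∩ b ∈ M) s t := by
    clear ht
    induction h with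
    | refl => exact ⟨hs, Relation.ReflTransGen.refl⟩
    | @tail b c _ hbc ih =>
      refine ⟨hbc.1, ih.2.trans ?_⟩
      have hr : b ∩ c ∈ rdg δ F := mem_rdg.2 ⟨hbc.2, b, ih.1, inter_subset_left⟩
      exact DConn_aux hF esub rank _ _ hr (Nat.lt_succ_self _) b ih.1 c hbc.1
        inter_subset_left inter_subset_right
  exact key.2

end Pool.TSphD
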