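import Pool.Agent.Lib.MP_3de3a3_co.DMfdPM

/-! # Counting faces (module DCount) -/

set_option autoImplicit false

namespace Pool.TSphD

open Finset
open Pool.TSph (verts mem_verts IsSphere2)

variable {ι : Type*} [DecidableEq ι] {k : ℕ}

private theorem dcount_below {j : ℕ} {F : Finset (Finset ι)} {s : Finset ι} (hs : s ∈ F) :
    (fc j F).filter (fun t => t ⊆ s) = s.powersetCard j := by
  ext t
  simp only [mem_filter, mem_fc, mem_powersetCard]
  constructor
  · rintro ⟨⟨h4, -⟩, h5⟩
    exact ⟨h5, h4⟩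
  · rintro ⟨h5, h4⟩
    exact ⟨⟨h4, s, hs, h5⟩, h5⟩

/-- Double counting: every facet has `k + 3` ridges, every ridge is in two facets
(see `card_tris` in MfdCount.lean). -/
theorem card_rdg {F : Finset (Finset ι)} (hF : PM (k + 2) F) :
    2 * (rdg (k + 2) F).card = (k + 3) * F.card := by
  have h := Finset.sum_card_bipartiteAbove_eq_sum_card_bipartiteBelow
    (s := rdg (k + 2) F) (t := F) (fun t s => t ⊆ s)
  have h1 : ∑ a ∈ rdg (k + 2) F, (F.bipartiteAbove (fun t s => t ⊆ s) a).card =
      (rdg (k + 2) F).card * 2 := by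
    rw [Finset.sum_const_nat]
    intro t ht
    exact hF.two t ht
  have h2 : ∑ b ∈ F, ((rdg (k + 2) F).bipartiteBelow (fun t s => t ⊆ s) b).card =
      F.card * (k + 3) := by
    rw [Finset.sum_const_nat]
    intro s hs
    have h3 : (rdg (k + 2) F).bipartiteBelow (fun t s => t ⊆ s) s = s.powersetCard (k + 2) :=
      dcount_below hs
    rw [h3, card_powersetCard, hF.card s hs]
    exact Nat.choose_succ_self_right (k + 2)
  rw [h1, h2] at h
  rw [mul_comm, h, mul_comm]

/-- Every facet contains `(k + 3).choose k` sets with `k` elements; `t ↦ σ ∪ t` is injective on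
`lk F σ`. -/
theorem sum_lk_card {F : Finset (Finset ι)} (hF : ∀ s ∈ F, s.card = k + 3) :
    ∑ σ ∈ fc k F, (lk F σ).card = (k + 3).choose 3 * F.card := by
  have h0 : ∀ σ, (lk F σ).card = (F.filter (fun s => σ ⊆ s)).card := by
    intro σ
    apply Finset.card_image_of_injOn
    intro s hs t ht hst
    simp only [coe_filter, Set.mem_ofPred_eq] at hs ht
    simp only at hst
    rw [← union_sdiff_of_subset hs.2, hst, union_sdiff_of_subset ht.2]
  have h := Finset.sum_card_bipartiteAbove_eq_sum_card_bipartiteBelow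
    (s := fc k F) (t := F) (fun σ s => σ ⊆ s)
  have h1 : ∑ σ ∈ fc k F, (lk F σ).card =
      ∑ a ∈ fc k F, (F.bipartiteAbove (fun σ s => σ ⊆ s) a).card :=
    Finset.sum_congr rfl (fun σ _ => h0 σ)
  have h2 : ∑ b ∈ F, ((fc k F).bipartiteBelow (fun σ s => σ ⊆ s) b).card =
      F.card * (k + 3).choose 3 := by
    rw [Finset.sum_const_nat]
    intro s hs
    have h3 : (fc k F).bipartiteBelow (fun σ s => σ ⊆ s) s = s.powersetCard k := dcount_below hs
    rw [h3, card_powersetCard, hF s hs]
    exact Nat.choose_symm_of_eq_add rfl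
  rw [h1, h, h2, mul_comm]

private theorem dcount_insert {F : Finset (Finset ι)} {σ : Finset ι} {y : ι} (hσ : σ ∈ fc k F)
    (hy : y ∈ verts (lk F σ)) : insert y σ ∈ fc (k + 1) F := by
  rw [mem_verts_lk] at hy
  obtain ⟨h1, s, hs, h2, h3⟩ := hy
  rw [mem_fc] at hσ ⊢
  refine ⟨?_, s, hs, insert_subset h3 h2⟩
  rw [card_insert_of_notMem h1, hσ.1]

/-- Double counting of the pairs `σ ⊆ g` with `g ∈ fc (k + 1) F`, `σ.card = k`:
`g = insert y σ` with `y ∈ verts (lk F σ)`. -/
theorem sum_verts_lk (F : Finset (Finset ι)) :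
    ∑ σ ∈ fc k F, (verts (lk F σ)).card = (k + 1) * (fc (k + 1) F).card := by
  have h := Finset.sum_card_bipartiteAbove_eq_sum_card_bipartiteBelow
    (s := fc k F) (t := fc (k + 1) F) (fun σ g => σ ⊆ g)
  have h1 : ∑ σ ∈ fc k F, (verts (lk F σ)).card =
      ∑ a ∈ fc k F, ((fc (k + 1) F).bipartiteAbove (fun σ g => σ ⊆ g) a).card := by
    refine Finset.sum_congr rfl fun σ hσ => ?_
    have h2 : (fc (k + 1) F).bipartiteAbove (fun σ g => σ ⊆ g) σ =
        (verts (lk F σ)).image (fun y => insert y σ) := by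
      ext g
      simp only [Finset.bipartiteAbove, mem_filter, mem_image]
      constructor
      · rintro ⟨hg, hσg⟩
        have hσc := (mem_fc.mp hσ).1
        obtain ⟨hgc, s, hs, hgs⟩ := mem_fc.mp hg
        have h3 : (g \ σ).card = 1 := by
          rw [card_sdiff_of_subset hσg]
          omega
        obtain ⟨y, hy⟩ := card_eq_one.mp h3
        have hyg : y ∈ g \ σ := by
          rw [hy]
          exact mem_singleton_self y
        rw [mem_sdiff] at hyg
        refine ⟨y, mem_verts_lk.mpr ⟨hyg.2, s, hs, hσg.trans hgs, hgs hyg.1⟩, ?_⟩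
        rw [← union_sdiff_of_subset hσg, hy, union_comm]
        rfl
      · rintro ⟨y, hy, rfl⟩
        exact ⟨dcount_insert hσ hy, subset_insert _ _⟩
    rw [h2, card_image_of_injOn]
    intro y hy y' hy' hyy
    simp only at hyy
    rw [mem_coe, mem_verts_lk] at hy hy'
    have h3 : y ∈ insert y' σ := by
      rw [← hyy]
      exact mem_insert_self _ _
    rcases mem_insert.mp h3 with h4 | h4
    · exact h4
    · exact absurd h4 hy.1
  have h2 : ∑ b ∈ fc (k + 1) F, ((fc k F).bipartiteBelow (fun σ g => σ ⊆ g) b).card =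
      (fc (k + 1) F).card * (k + 1) := by
    rw [Finset.sum_const_nat]
    intro g hg
    obtain ⟨hgc, s, hs, hgs⟩ := mem_fc.mp hg
    have h3 : (fc k F).bipartiteBelow (fun σ g => σ ⊆ g) g = g.powersetCard k := by
      ext t
      simp only [Finset.bipartiteBelow, mem_filter, mem_fc, mem_powersetCard]
      constructor
      · rintro ⟨⟨h4, -⟩, h5⟩
        exact ⟨h5, h4⟩
      · rintro ⟨h5, h4⟩
        exact ⟨⟨h4, s, hs, h5.trans hgs⟩, h5⟩
    rw [h3, card_powersetCard, hgc]
    exact Nat.choose_succ_self_right k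
  rw [h1, h, h2, mul_comm]

/-- Euler in the links. -/
theorem euler_count {F : Finset (Finset ι)} (hF : IsMfdD k F) :
    2 * (k + 1) * (fc (k + 1) F).card = (k + 3).choose 3 * F.card + 4 * (fc k F).card := by
  have h : ∑ σ ∈ fc k F, 2 * (verts (lk F σ)).card = ∑ σ ∈ fc k F, ((lk F σ).card + 4) :=
    Finset.sum_congr rfl (fun σ hσ => (hF.sphere σ hσ).euler)
  rw [← Finset.mul_sum, Finset.sum_add_distrib, sum_lk_card hF.card, sum_verts_lk,
    Finset.sum_const, smul_eq_mul] at h
  linarith

/-- The faces with `k + 1` vertices correspond to the pairs of a face `σ` with `k` vertices and a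
vertex of its link which is lower than all vertices of `σ` (remove the lowest vertex). -/
theorem sum_lower (F : Finset (Finset ι)) {pos : ι → ℕ} (hpos : Function.Injective pos) :
    ∑ σ ∈ fc k F, ((verts (lk F σ)).filter (fun y => ∀ x ∈ σ, pos y < pos x)).card =
      (fc (k + 1) F).card := by
  rw [← Finset.card_sigma]
  refine Finset.card_bij (fun (p : (_ : Finset ι) × ι) _ => insert p.2 p.1) ?_ ?_ ?_
  · rintro ⟨σ, y⟩ hp
    rw [mem_sigma, mem_filter] at hp
    exact dcount_insert hp.1 hp.2.1
  · rintro ⟨σ, y⟩ hp ⟨σ', y'⟩ hp' he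
    rw [mem_sigma, mem_filter] at hp hp'
    simp only at hp hp' he
    have hyn := (mem_verts_lk.mp hp.2.1).1
    have hyn' := (mem_verts_lk.mp hp'.2.1).1
    have h1 : y ∈ insert y' σ' := by
      rw [← he]
      exact mem_insert_self _ _
    have h2 : y' ∈ insert y σ := by
      rw [he]
      exact mem_insert_self _ _
    have h3 : y = y' := by
      by_contra hne
      have h4 := (mem_insert.mp h1).resolve_left hne
      have h5 := (mem_insert.mp h2).resolve_left (fun h => hne h.symm)
      have h6 := hp'.2.2 y h4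
      have h7 := hp.2.2 y' h5
      omega
    subst h3
    have h4 : σ = σ' := by
      rw [← erase_insert hyn, he, erase_insert hyn']
    subst h4
    rfl
  · intro g hg
    obtain ⟨hgc, s, hs, hgs⟩ := mem_fc.mp hg
    have hne : g.Nonempty := by
      rw [← card_pos]
      omega
    obtain ⟨y, hy, hmin⟩ := exists_min_image g pos hne
    have hσ : g.erase y ∈ fc k F := by
      rw [mem_fc]
      refine ⟨?_, s, hs, (erase_subset _ _).trans hgs⟩
      rw [card_erase_of_mem hy, hgc]
      rfl
    refine ⟨⟨g.erase y, y⟩, ?_, insert_erase hy⟩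
    rw [mem_sigma, mem_filter]
    refine ⟨hσ, mem_verts_lk.mpr ⟨notMem_erase _ _, s, hs, (erase_subset _ _).trans hgs, hgs hy⟩, ?_⟩
    intro x hx
    rw [mem_erase] at hx
    have h1 := hmin x hx.2
    have h2 : pos y ≠ pos x := fun h => hx.1 (hpos h).symm
    show pos y < pos x
    omega

end Pool.TSphD
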