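import Pool.Agent.Lib.MP_3de3a3_co.DCertDef

/-! # Ranks of the closing ridges (module DRankCl) -/

set_option autoImplicit false

namespace Pool.TSphD

open Finset
open Pool.TSph (verts mem_verts IsSphere2 adj comp)

variable {ι : Type*} [DecidableEq ι] {k : ℕ}

private theorem DRankCl_arith {K a b c d : ℕ} (h : a < b) (hb : b ≤ K) :
    (K - b) * (K + 1) + (K - c) < (K - a) * (K + 1) + (K - d) := by
  have h1 : K - b + 1 ≤ K - a := by omega
  have h2 := Nat.mul_le_mul_right (K + 1) h1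
  have h3 : K - c ≤ K := Nat.sub_le _ _
  rw [Nat.add_mul] at h2
  omega

/-- Closing face and rank: for `t = σ ∪ {w, par σ w}` put `e t = insert w σ`; the rank is
lexicographic, first larger `∑ x ∈ σ, pos x`, then larger `dist σ w` (bounded by a constant `K`):
`rk t = (K - ∑ x ∈ σ, pos x) * (K + 1) + (K - dist σ w)`. For `t' = σ' ∪ {w', par σ' w'}` with
`insert w σ ⊆ t'`, `t' ≠ t`: if `σ' = σ` then `w = par σ w'`, so `dist σ w < dist σ w'`; otherwise
`sum_top`. See the file RankCl.lean for `k = 1`. -/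
theorem exists_rank_closings {F : Finset (Finset ι)} {pos : ι → ℕ} {R G D Rt dist par}
    (hD : Data k F pos R G D Rt dist par) :
    ∃ (rk : Finset ι → ℕ) (e : Finset ι → Finset ι), ∀ t ∈ Closings k F pos Rt par,
      (e t ⊆ t ∧ (e t).card + 1 = k + 2) ∧
      ∀ t' ∈ rdg (k + 2) F, e t ⊆ t' → t' ≠ t →
        t' ∉ Closings k F pos Rt par ∨ rk t' < rk t := by
  classical
  have hch : ∀ t : Finset ι, t ∈ Closings k F pos Rt par → ∃ (σ : Finset ι) (w : ι),
      σ ∈ fc k F ∧ w ∈ Lo F pos σ ∧ w ∉ Rt σ ∧ t = σ ∪ {w, par σ w} := by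
    intro t ht
    simp only [Closings, mem_biUnion, mem_image, mem_sdiff] at ht
    obtain ⟨σ, hσ, w, ⟨hw1, hw2⟩, h⟩ := ht
    exact ⟨σ, w, hσ, hw1, hw2, h.symm⟩
  choose X W hXW using hch
  set K : ℕ := ∑ σ ∈ fc k F, (∑ x ∈ σ, pos x + ∑ w ∈ Lo F pos σ, dist σ w) with hK
  have hK1 : ∀ σ ∈ fc k F, ∑ x ∈ σ, pos x ≤ K := fun σ hσ =>
    (Nat.le_add_right _ _).trans
      (Finset.single_le_sum (f := fun σ => ∑ x ∈ σ, pos x + ∑ w ∈ Lo F pos σ, dist σ w)
        (fun _ _ => Nat.zero_le _) hσ)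
  have hK2 : ∀ σ ∈ fc k F, ∀ w ∈ Lo F pos σ, dist σ w ≤ K := fun σ hσ w hw =>
    (Finset.single_le_sum (f := fun w => dist σ w) (fun _ _ => Nat.zero_le _) hw).trans
      ((Nat.le_add_left _ _).trans
        (Finset.single_le_sum (f := fun σ => ∑ x ∈ σ, pos x + ∑ w ∈ Lo F pos σ, dist σ w)
          (fun _ _ => Nat.zero_le _) hσ))
  refine ⟨fun t => if h : t ∈ Closings k F pos Rt par then
      (K - ∑ x ∈ X t h, pos x) * (K + 1) + (K - dist (X t h) (W t h)) else 0,
    fun t => if h : t ∈ Closings k F pos Rt par then insert (W t h) (X t h) else ∅, ?_⟩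
  intro t ht
  simp only [dif_pos ht]
  obtain ⟨hσ, hw1, hw2, hteq⟩ := hXW t ht
  generalize X t ht = σ at *
  generalize W t ht = w at *
  obtain ⟨hlow, hwσ, hpσ, hwp, hdist, -, -⟩ := clos_facts hD hσ (mem_sdiff.2 ⟨hw1, hw2⟩)
  have hcard : σ.card = k := (mem_fc.1 hσ).1
  refine ⟨⟨?_, ?_⟩, ?_⟩
  · rw [hteq]
    intro y hy
    simp only [mem_insert, mem_union, mem_singleton] at hy ⊢
    tauto
  · rw [card_insert_of_notMem hwσ, hcard]
  · intro t' _ het' htt'
    by_cases ht' : t' ∈ Closings k F pos Rt par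
    · right
      simp only [dif_pos ht']
      obtain ⟨hσ', hw1', hw2', hteq'⟩ := hXW t' ht'
      generalize X t' ht' = σ' at *
      generalize W t' ht' = w' at *
      obtain ⟨hlow', hwσ', hpσ', hwp', hdist', -, -⟩ := clos_facts hD hσ' (mem_sdiff.2 ⟨hw1', hw2'⟩)
      have hcard' : σ'.card = k := (mem_fc.1 hσ').1
      rw [hteq'] at het'
      have hsub : σ ⊆ σ' ∪ {w', par σ' w'} := fun y hy => het' (mem_insert_of_mem hy)
      by_cases hxx : σ = σ'
      · subst hxx
        have m2 : w ∈ σ ∪ {w', par σ w'} := het' (mem_insert_self _ _)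
        simp only [mem_union, mem_insert, mem_singleton] at m2
        rcases m2 with h | h | h
        · exact absurd h hwσ
        · subst h
          exact absurd (hteq'.trans hteq.symm) htt'
        · rw [← h] at hdist'
          have hb := hK2 σ hσ' w' hw1'
          omega
      · have hlt := sum_top hsub (hcard.trans hcard'.symm) hlow' hxx
        exact DRankCl_arith hlt (hK1 _ hσ')
    · exact Or.inl ht'

end Pool.TSphD
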