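import Pool.Agent.Lib.MP_3de3a3_co.DClosCard
import Pool.Agent.Lib.MP_3de3a3_co.DRankCl
import Pool.Agent.Lib.MP_3de3a3_co.DConn
import Pool.Agent.Lib.MP_3de3a3_co.DCount

/-! # The certificate of a vertex order (module DCertOrder) -/

set_option autoImplicit false

namespace Pool.TSphD

open Finset
open Pool.TSph (verts mem_verts IsSphere2 adj comp)

variable {ι : Type*} [DecidableEq ι] {k : ℕ}

/-- The certificate. -/
theorem exists_cert {F : Finset (Finset ι)} (hF : IsMfdD k F) {pos : ι → ℕ}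
    (hpos : Function.Injective pos) :
    ∃ M rk e, Cert (k + 2) F M rk e ∧ M.card + (fc (k + 1) F).card ≤
      (rdg (k + 2) F).card + ∑ σ ∈ fc k F, comp (adj (lk F σ)) (Lo F pos σ) := by
  obtain ⟨R, G, D, Rt, dist, par, hD⟩ := exists_data hF pos
  obtain ⟨rk, e, hre⟩ := exists_rank_closings hD
  have esub : ∀ t ∈ rdg (k + 2) F, t ∉ rdg (k + 2) F \ Closings k F pos Rt par →
      e t ⊆ t ∧ (e t).card + 1 = k + 2 := by
    intro t ht hM
    have htC : t ∈ Closings k F pos Rt par := by
      by_contra hc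
      exact hM (mem_sdiff.2 ⟨ht, hc⟩)
    exact (hre t htC).1
  have rank : ∀ t ∈ rdg (k + 2) F, t ∉ rdg (k + 2) F \ Closings k F pos Rt par →
      ∀ t' ∈ rdg (k + 2) F, e t ⊆ t' → t' ≠ t →
        t' ∈ rdg (k + 2) F \ Closings k F pos Rt par ∨ rk t' < rk t := by
    intro t ht hM t' ht' he hne'
    have htC : t ∈ Closings k F pos Rt par := by
      by_contra hc
      exact hM (mem_sdiff.2 ⟨ht, hc⟩)
    rcases (hre t htC).2 t' ht' he hne' with h | h
    · exact Or.inl (mem_sdiff.2 ⟨ht', h⟩)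
    · exact Or.inr h
  refine ⟨rdg (k + 2) F \ Closings k F pos Rt par, rk, e,
    ⟨sdiff_subset, conn_of_rank (mfd_pm hF) hF.conn esub rank, esub, rank⟩, ?_⟩
  have h2 : (rdg (k + 2) F \ Closings k F pos Rt par).card +
      (Closings k F pos Rt par).card = (rdg (k + 2) F).card := by
    rw [card_sdiff_add_card_eq_card (closings_sub hD)]
  have h3 := card_closings hD
  have h5 : ∑ σ ∈ fc k F, (Lo F pos σ).card = (fc (k + 1) F).card := sum_lower F hpos
  omega

end Pool.TSphD
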