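import Pool.Agent.Lib.MP_3de3a3_co.DCertDef

/-! # The closing ridges (module DClosCard) -/

set_option autoImplicit false

namespace Pool.TSphD

open Finset
open Pool.TSph (verts mem_verts IsSphere2 adj comp)

variable {ι : Type*} [DecidableEq ι] {k : ℕ}

theorem closings_sub {F : Finset (Finset ι)} {pos : ι → ℕ} {R G D Rt dist par}
    (hD : Data k F pos R G D Rt dist par) : Closings k F pos Rt par ⊆ rdg (k + 2) F := by
  intro t ht
  simp only [Closings, mem_biUnion, mem_image] at ht
  obtain ⟨σ, hσ, w, hw, rfl⟩ := ht
  exact (clos_facts hD hσ hw).2.2.2.2.2.2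

/-- The number of closing ridges: `σ ∪ {w, par σ w}` determines `σ` (`top_unique`) and `w` (by the
distances). See `card_closings` in the file ClosCard.lean for `k = 1`. -/
theorem card_closings {F : Finset (Finset ι)} {pos : ι → ℕ} {R G D Rt dist par}
    (hD : Data k F pos R G D Rt dist par) :
    ∑ σ ∈ fc k F, (Lo F pos σ).card ≤
      (Closings k F pos Rt par).card + ∑ σ ∈ fc k F, comp (adj (lk F σ)) (Lo F pos σ) := by
  have hcard : (Closings k F pos Rt par).card = ∑ σ ∈ fc k F, (Lo F pos σ \ Rt σ).card := by
    rw [Closings, card_biUnion]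
    · refine Finset.sum_congr rfl fun σ hσ => ?_
      refine card_image_of_injOn ?_
      intro w hw v hv hwv
      have fw := clos_facts hD hσ (mem_coe.1 hw)
      have fv := clos_facts hD hσ (mem_coe.1 hv)
      have hwv' : ({w, par σ w} : Finset ι) = {v, par σ v} :=
        (top_unique (pos := pos) (show σ ∪ {w, par σ w} = σ ∪ {v, par σ v} from hwv) rfl fw.1 fv.1).2
      by_contra hne
      have h1 : w ∈ ({v, par σ v} : Finset ι) := by rw [← hwv']; simp
      have h2 : v ∈ ({w, par σ w} : Finset ι) := by rw [hwv']; simp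
      simp only [mem_insert, mem_singleton] at h1 h2
      have e1 : w = par σ v := by
        rcases h1 with h1 | h1
        · exact absurd h1 hne
        · exact h1
      have e2 : v = par σ w := by
        rcases h2 with h2 | h2
        · exact absurd h2.symm hne
        · exact h2
      have d1 := fw.2.2.2.2.1
      have d2 := fv.2.2.2.2.1
      rw [← e2] at d1
      rw [← e1] at d2
      omega
    · intro σ hσ σ' hσ' hne
      rw [Function.onFun, disjoint_left]
      intro t ht ht'
      simp only [mem_image] at ht ht'
      obtain ⟨w, hw, rfl⟩ := ht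
      obtain ⟨v, hv, hv'⟩ := ht'
      have fw := clos_facts hD (mem_coe.1 hσ) hw
      have fv := clos_facts hD (mem_coe.1 hσ') hv
      have hc : σ.card = σ'.card := by
        rw [(mem_fc.1 (mem_coe.1 hσ)).1, (mem_fc.1 (mem_coe.1 hσ')).1]
      exact hne (top_unique (pos := pos) hv'.symm hc fw.1 fv.1).1
  rw [hcard, ← Finset.sum_add_distrib]
  refine Finset.sum_le_sum fun σ hσ => ?_
  have h1 := hD.Rtcard σ hσ
  have h2 := card_sdiff_add_card_eq_card (hD.Rtsub σ hσ)
  omega

end Pool.TSphD
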