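import Pool.Agent.Lib.MP_3de3a3_co.Defs

/-! # Complexes with facets of any size (module DDefs) -/

set_option autoImplicit false

namespace Pool.TSphD

open Finset
open Pool.TSph (verts mem_verts IsSphere2)

variable {ι : Type*} [DecidableEq ι] {δ : ℕ}

/-- The faces with `j` vertices of the complex with the facets `F`. -/
def fc (j : ℕ) (F : Finset (Finset ι)) : Finset (Finset ι) := F.biUnion (fun s => s.powersetCard j)

/-- The ridges (faces with `δ` vertices) of a complex whose facets have `δ + 1` vertices. -/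
def rdg (δ : ℕ) (F : Finset (Finset ι)) : Finset (Finset ι) := fc δ F

/-- The link of the face `σ` in the complex with the facets `F` (given by its facets). -/
def lk (F : Finset (Finset ι)) (σ : Finset ι) : Finset (Finset ι) :=
  (F.filter (fun s => σ ⊆ s)).image (fun s => s \ σ)

/-- Certificates: the dual graph with the edges `M` is connected, every other ridge `t` has a
closing face `e t` (with one vertex less), and all the other ridges which contain `e t` are in `M`
or have smaller rank than `t`. -/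
structure Cert (δ : ℕ) (F M : Finset (Finset ι)) (rk : Finset ι → ℕ) (e : Finset ι → Finset ι) :
    Prop where
  sub : M ⊆ rdg δ F
  conn : ∀ s ∈ F, ∀ t ∈ F, Relation.ReflTransGen (fun a b => b ∈ F ∧ a ∩ b ∈ M) s t
  esub : ∀ t ∈ rdg δ F, t ∉ M → e t ⊆ t ∧ (e t).card + 1 = δ
  rank : ∀ t ∈ rdg δ F, t ∉ M → ∀ t' ∈ rdg δ F, e t ⊆ t' → t' ≠ t → t' ∈ M ∨ rk t' < rk t

/-- The combinatorial hypotheses which are needed for the encoding. -/
structure PM (δ : ℕ) (F : Finset (Finset ι)) : Prop where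
  card : ∀ s ∈ F, s.card = δ + 1
  two : ∀ t ∈ rdg δ F, (F.filter (fun s => t ⊆ s)).card = 2
  star : ∀ x, ∀ s ∈ F, ∀ t ∈ F, x ∈ s → x ∈ t →
    Relation.ReflTransGen (fun a b => b ∈ F ∧ (a ∩ b).card = δ ∧ x ∈ a ∩ b) s t

/-- `F` is the set of facets of a pure complex with facets of `k + 3` vertices which is strongly
connected, whose vertex stars are strongly connected, and in which the link of every face with
`k` vertices is a triangulated 2-sphere. -/
structure IsMfdD (k : ℕ) (F : Finset (Finset ι)) : Prop where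
  card : ∀ s ∈ F, s.card = k + 3
  conn : ∀ s ∈ F, ∀ t ∈ F,
    Relation.ReflTransGen (fun a b => b ∈ F ∧ (a ∩ b).card = k + 2) s t
  star : ∀ x, ∀ s ∈ F, ∀ t ∈ F, x ∈ s → x ∈ t →
    Relation.ReflTransGen (fun a b => b ∈ F ∧ (a ∩ b).card = k + 2 ∧ x ∈ a ∩ b) s t
  sphere : ∀ σ ∈ fc k F, IsSphere2 (lk F σ)

theorem mem_fc {j : ℕ} {F : Finset (Finset ι)} {t : Finset ι} :
    t ∈ fc j F ↔ t.card = j ∧ ∃ s ∈ F, t ⊆ s := by
  simp only [fc, mem_biUnion, mem_powersetCard]
  constructor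
  · rintro ⟨s, hs, h1, h2⟩; exact ⟨h2, s, hs, h1⟩
  · rintro ⟨h2, s, hs, h1⟩; exact ⟨s, hs, h1, h2⟩

theorem mem_rdg {F : Finset (Finset ι)} {t : Finset ι} :
    t ∈ rdg δ F ↔ t.card = δ ∧ ∃ s ∈ F, t ⊆ s := mem_fc

theorem mem_lk {F : Finset (Finset ι)} {σ t : Finset ι} :
    t ∈ lk F σ ↔ ∃ s ∈ F, σ ⊆ s ∧ s \ σ = t := by
  simp [lk, and_assoc]

/-- A set `t` is in the link of `σ` iff it is disjoint from `σ` and `σ ∪ t` is a facet. -/
theorem mem_lk' {F : Finset (Finset ι)} {σ t : Finset ι} :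
    t ∈ lk F σ ↔ Disjoint σ t ∧ σ ∪ t ∈ F := by
  rw [mem_lk]
  constructor
  · rintro ⟨s, hs, hσ, rfl⟩
    exact ⟨disjoint_sdiff, by rwa [union_sdiff_of_subset hσ]⟩
  · rintro ⟨hd, h⟩
    refine ⟨_, h, subset_union_left, ?_⟩
    rw [union_sdiff_left, Finset.sdiff_eq_self_iff_disjoint.2 hd.symm]

end Pool.TSphD
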