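import Pool.Agent.Lib.MP_3de3a3_co.DLamBfs

/-! # Every complex with a certificate has a code (module DExCode) -/

set_option autoImplicit false

namespace Pool.TSphD

open Finset
open Pool.TSph (verts mem_verts)

variable {ι : Type*} [DecidableEq ι] {δ : ℕ}

private theorem exc_side_inj {f : Fin (δ + 1) → ι} (hf : Function.Injective f) {a b : Fin (δ + 1)}
    (h : side f a = side f b) : a = b := by
  by_contra hab
  have h1 : f a ∈ side f b := mem_image_of_mem _ (mem_erase.2 ⟨hab, mem_univ _⟩)
  rw [← h, side, mem_image] at h1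
  obtain ⟨c, hc, hca⟩ := h1
  exact (mem_erase.1 hc).1 (hf hca)

private theorem exc_side_card {f : Fin (δ + 1) → ι} (hf : Function.Injective f) (a : Fin (δ + 1)) :
    (side f a).card = δ := by
  rw [side, card_image_of_injective _ hf, card_erase_of_mem (mem_univ _), card_univ,
    Fintype.card_fin, Nat.add_sub_cancel]

private theorem exc_exists_side {f : Fin (δ + 1) → ι} (hf : Function.Injective f) {t : Finset ι}
    (ht : t ⊆ univ.image f) (h3 : t.card = δ) : ∃ a, t = side f a := by
  have h4 : (univ.image f).card = δ + 1 := by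
    rw [card_image_of_injective _ hf, card_univ, Fintype.card_fin]
  have h5 : (univ.image f \ t).Nonempty := by
    rw [← card_pos, card_sdiff_of_subset ht]
    omega
  obtain ⟨v, hv⟩ := h5
  rw [mem_sdiff, mem_image] at hv
  obtain ⟨⟨a, _, rfl⟩, hv⟩ := hv
  refine ⟨a, Finset.eq_of_subset_of_card_le ?_ (by rw [exc_side_card hf, h3])⟩
  intro z hz
  obtain ⟨c, _, rfl⟩ := mem_image.1 (ht hz)
  refine mem_image_of_mem _ (mem_erase.2 ⟨?_, mem_univ _⟩)
  rintro rfl
  exact hv hz

private theorem exc_exists_erase {f : Fin (δ + 1) → ι} (hf : Function.Injective f) {a : Fin (δ + 1)}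
    {u : Finset ι} (hu : u ⊆ side f a) (h2 : u.card + 1 = δ) :
    ∃ m, m ≠ a ∧ u = (side f a).erase (f m) := by
  have h5 : (side f a \ u).Nonempty := by
    rw [← card_pos, card_sdiff_of_subset hu, exc_side_card hf]
    omega
  obtain ⟨v, hv⟩ := h5
  rw [mem_sdiff] at hv
  obtain ⟨h6, h7⟩ := hv
  have h8 := h6
  rw [side, mem_image] at h8
  obtain ⟨m, hm, rfl⟩ := h8
  refine ⟨m, (mem_erase.1 hm).1, Finset.eq_of_subset_of_card_le ?_ ?_⟩
  · intro z hz
    refine mem_erase.2 ⟨?_, hu hz⟩
    rintro rfl
    exact h7 hz
  · rw [card_erase_of_mem h6, exc_side_card hf]; omega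

/-- Take the numbering of `exists_lam`. The tree triangles `side (lam i) (k i)`, `0 < i`, are
`n - 1` different elements of `M` (the two facets containing such a triangle have the numbers
`p i < i`). For each of the other at most `r` triangles of `M` choose one side `(i, a)` and put
`c.2.2.2 i a = some (j, g)` with `mv F a (lam i) = lam j ∘ g`. -/
theorem exists_code {F M : Finset (Finset ι)} {rk : Finset ι → ℕ} {e : Finset ι → Finset ι}
    (hF : PM δ F) {n r : ℕ} (hn : 0 < n) (hc : F.card = n) (hC : Cert δ F M rk e)
    (hM : M.card + 1 ≤ n + r) :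
    ∃ c ∈ Codes δ n r, ∃ lam : Fin n → Fin (δ + 1) → ι, HasCode F c lam M rk e := by
  classical
  have hne : F.Nonempty := by rw [← card_pos, hc]; exact hn
  obtain ⟨lam, p, k, hlf, hinj, hsurj, hmono, htree⟩ := exists_lam hF hne hc hC.sub hC.conn
  -- the numbers of the neighbouring facets
  have hrep : ∀ f : Fin (δ + 1) → ι, IsLF F f → ∃ j, ∃ g : Equiv.Perm (Fin (δ + 1)), f = lam j ∘ g := by
    intro f hf
    obtain ⟨j, hj⟩ := hsurj _ hf.2
    obtain ⟨g, hg⟩ := exists_perm (hlf j).1 hf.1 hj.symm
    exact ⟨j, g, hg⟩
  -- facets which contain a side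
  have hfac : ∀ i a j, side (lam i) a ⊆ univ.image (lam j) →
      j = i ∨ univ.image (lam j) = univ.image (mv F a (lam i)) := by
    intro i a j h
    rcases facet_of_side hF (hlf i) a (hlf j).2 h with h1 | h1
    · left; exact hinj _ _ h1
    · right; exact h1
  have hside : ∀ i a, side (lam i) a ⊆ univ.image (lam i) := by
    intro i a z hz
    rw [side, mem_image] at hz
    obtain ⟨c, _, rfl⟩ := hz
    exact mem_image_of_mem _ (mem_univ _)
  let tr : Fin n → Finset ι := fun i => side (lam i) (k i)
  have htr2 : ∀ i : Fin n, 0 < (i : ℕ) → side (lam (p i)) (k i) = tr i := by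
    intro i hi
    have h1 := (htree i hi).2.2
    show side (lam (p i)) (k i) = side (lam i) (k i)
    rw [h1, side_mv]
  have hfac2 : ∀ i : Fin n, 0 < (i : ℕ) → ∀ j, tr i ⊆ univ.image (lam j) → j = i ∨ j = p i := by
    intro i hi j hj
    rcases hfac i (k i) j hj with h1 | h1
    · left; exact h1
    · right
      have h2 := (htree i hi).2.2
      rw [h2, mv_mv hF (hlf (p i))] at h1
      exact hinj _ _ h1
  let T : Finset (Finset ι) := (univ.filter (fun i : Fin n => 0 < (i : ℕ))).image tr
  have hTM : T ⊆ M := by
    intro t ht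
    obtain ⟨i, hi, rfl⟩ := mem_image.1 ht
    exact (htree i (mem_filter.1 hi).2).2.1
  have htrinj : Set.InjOn tr (univ.filter (fun i : Fin n => 0 < (i : ℕ)) : Finset (Fin n)) := by
    intro i hi j hj hij
    have hi' : 0 < (i : ℕ) := (mem_filter.1 (mem_coe.1 hi)).2
    have hj' : 0 < (j : ℕ) := (mem_filter.1 (mem_coe.1 hj)).2
    have h1 : tr i ⊆ univ.image (lam j) := by rw [hij]; exact hside j (k j)
    have h2 : tr j ⊆ univ.image (lam i) := by rw [← hij]; exact hside i (k i)
    rcases hfac2 i hi' j h1 with h3 | h3
    · exact h3.symm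
    · rcases hfac2 j hj' i h2 with h4 | h4
      · exact h4
      · have h5 := (htree i hi').1
        have h6 := (htree j hj').1
        rw [← h3] at h5
        rw [← h4] at h6
        exact absurd (lt_trans h5 h6) (lt_irrefl _)
  have hTcard : T.card = n - 1 := by
    rw [card_image_of_injOn htrinj]
    have h1 : (univ.filter (fun i : Fin n => 0 < (i : ℕ))) = univ.erase ⟨0, hn⟩ := by
      ext i
      simp only [mem_filter, mem_univ, true_and, mem_erase, ne_eq, and_true]
      rw [Fin.ext_iff]
      exact Nat.pos_iff_ne_zero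
    rw [h1, card_erase_of_mem (mem_univ _), card_univ, Fintype.card_fin]
  have hMT : (M \ T).card ≤ r := by
    rw [card_sdiff_of_subset hTM, hTcard]
    omega
  -- a side for every triangle
  have hex : ∀ t ∈ M, ∃ q : Fin n × Fin (δ + 1), side (lam q.1) q.2 = t := by
    intro t ht
    obtain ⟨h3, s, hs, hts⟩ := mem_rdg.1 (hC.sub ht)
    obtain ⟨i, hi⟩ := hsurj s hs
    rw [← hi] at hts
    obtain ⟨a, ha⟩ := exc_exists_side (hlf i).1 hts h3
    exact ⟨(i, a), ha.symm⟩
  haveI : Nonempty (Fin n × Fin (δ + 1)) := ⟨(⟨0, hn⟩, 0)⟩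
  choose! ch hch using hex
  let Q : Finset (Fin n × Fin (δ + 1)) := (M \ T).image ch
  have hQ : Q.card ≤ r := card_image_le.trans hMT
  -- the gluing data
  have hgl : ∀ i a, ∃ q : Fin n × Equiv.Perm (Fin (δ + 1)), mv F a (lam i) = lam q.1 ∘ q.2 := by
    intro i a
    obtain ⟨j, g, h⟩ := hrep _ (mv_isLF hF (hlf i) a)
    exact ⟨(j, g), h⟩
  choose gl hgl using hgl
  -- the labels
  have hlab : ∀ i a, ∃ m, side (lam i) a ∉ M →
      m ≠ a ∧ e (side (lam i) a) = (side (lam i) a).erase (lam i m) := by
    intro i a
    by_cases h : side (lam i) a ∈ M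
    · exact ⟨0, fun h' => absurd h h'⟩
    · obtain ⟨h1, h2⟩ := hC.esub _ (side_mem_rdg (hlf i) a) h
      obtain ⟨m, hm⟩ := exc_exists_erase (hlf i).1 h1 h2
      exact ⟨m, fun _ => hm⟩
  choose lb hlb using hlab
  refine ⟨(p, k, fun i a => if side (lam i) a ∈ M then none else some (lb i a),
    fun i a => if (i, a) ∈ Q then some (gl i a) else none), ?_, lam, ?_⟩
  · refine mem_filter.2 ⟨mem_univ _, hmono, ?_⟩
    refine (card_le_card ?_).trans hQ
    intro q hq
    have hq2 := (mem_filter.1 hq).2
    by_contra hqQ
    apply hq2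
    show (if (q.1, q.2) ∈ Q then some (gl q.1 q.2) else none) = none
    rw [if_neg hqQ]
  · refine ⟨hC, hlf, hsurj, hinj, fun i hi => (htree i hi).2.2, ?_, ?_, ?_, ?_⟩
    · intro i a
      show (if side (lam i) a ∈ M then none else some (lb i a)) = none ↔ _
      by_cases h : side (lam i) a ∈ M
      · rw [if_pos h]; exact ⟨fun _ => h, fun _ => rfl⟩
      · rw [if_neg h]
        exact ⟨fun h' => absurd h' (Option.some_ne_none _), fun h' => absurd h' h⟩
    · intro i a m hm
      change (if side (lam i) a ∈ M then none else some (lb i a)) = some m at hm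
      by_cases h : side (lam i) a ∈ M
      · rw [if_pos h] at hm
        exact absurd hm.symm (Option.some_ne_none _)
      · rw [if_neg h] at hm
        obtain rfl := Option.some.inj hm
        exact hlb i a h
    · intro i a j g h
      change (if (i, a) ∈ Q then some (gl i a) else none) = some (j, g) at h
      by_cases hq : (i, a) ∈ Q
      · rw [if_pos hq] at h
        have h1 := Option.some.inj h
        have h2 := hgl i a
        rw [h1] at h2
        exact h2
      · rw [if_neg hq] at h
        exact absurd h.symm (Option.some_ne_none _)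
    · intro i a ht
      show (∃ i' : Fin n, 0 < (i' : ℕ) ∧ p i' = i ∧ k i' = a) ∨
        (0 < (i : ℕ) ∧ k i = a) ∨
        (if (i, a) ∈ Q then some (gl i a) else none) ≠ none ∨
        (∃ j, ∃ g : Equiv.Perm (Fin (δ + 1)), mv F a (lam i) = lam j ∘ g ∧
          (if (j, g a) ∈ Q then some (gl j (g a)) else none) ≠ none)
      by_cases hT : side (lam i) a ∈ T
      · obtain ⟨i', hi', heq⟩ := mem_image.1 hT
        have hi0 : 0 < (i' : ℕ) := (mem_filter.1 hi').2
        have h1 : tr i' ⊆ univ.image (lam i) := by rw [heq]; exact hside i a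
        rcases hfac2 i' hi0 i h1 with h2 | h2
        · right; left
          subst h2
          exact ⟨hi0, exc_side_inj (hlf i).1 heq⟩
        · left
          refine ⟨i', hi0, h2.symm, ?_⟩
          have h3 := htr2 i' hi0
          rw [← h2, heq] at h3
          exact exc_side_inj (hlf i).1 h3
      · right; right
        have hMT' : side (lam i) a ∈ M \ T := mem_sdiff.2 ⟨ht, hT⟩
        have hq := mem_image_of_mem ch hMT'
        have hs := hch _ ht
        by_cases hia : ch (side (lam i) a) = (i, a)
        · left
          rw [hia] at hq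
          rw [if_pos hq]
          exact Option.some_ne_none _
        · right
          obtain ⟨j, g, hg⟩ := hrep _ (mv_isLF hF (hlf i) a)
          refine ⟨j, g, hg, ?_⟩
          set q := ch (side (lam i) a) with hqdef
          have h1 : side (lam i) a ⊆ univ.image (lam q.1) := by rw [← hs]; exact hside _ _
          have himg : univ.image (mv F a (lam i)) = univ.image (lam j) := by
            rw [hg]
            ext z
            simp only [mem_image, mem_univ, true_and, Function.comp]
            constructor
            · rintro ⟨c, rfl⟩; exact ⟨g c, rfl⟩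
            · rintro ⟨c, rfl⟩; exact ⟨g.symm c, by simp⟩
          have hqj : q.1 = j := by
            rcases hfac i a q.1 h1 with h2 | h2
            · exfalso
              apply hia
              have h3 : q.2 = a := by
                rw [h2] at hs
                exact exc_side_inj (hlf i).1 hs
              exact Prod.ext h2 h3
            · rw [himg] at h2
              exact hinj _ _ h2
          have hqa : q.2 = g a := by
            have h2 : side (lam j) (g a) = side (lam i) a := by
              rw [← side_comp, ← hg, side_mv]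
            rw [← hs, ← hqj] at h2
            exact (exc_side_inj (hlf q.1).1 h2).symm
          have hmem : (j, g a) ∈ Q := by
            rw [← hqj, ← hqa]
            exact hq
          rw [if_pos hmem]
          exact Option.some_ne_none _

end Pool.TSphD
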