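import Pool.Agent.Lib.MP_3de3a3_co.DTotal

/-! # The theorem in terms of d (module DFin) -/

set_option autoImplicit false

namespace Pool.TSphD

open Finset
open Pool.TSph (IsSphere2)

variable {ι : Type*} [DecidableEq ι]

/-- `F` is the set of facets of a pure complex of dimension `d - 1` (all facets have `d`
vertices) in which any two facets are joined by a chain of facets with consecutive common
ridges (sets of `d - 1` vertices), also inside the star of every vertex, and the link of every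
face with `d - 3` vertices is a triangulated 2-sphere. All triangulated `(d - 1)`-spheres and all
connected closed triangulated `(d - 1)`-manifolds are of this kind. -/
structure IsMfd (d : ℕ) (F : Finset (Finset ι)) : Prop where
  card : ∀ s ∈ F, s.card = d
  conn : ∀ s ∈ F, ∀ t ∈ F,
    Relation.ReflTransGen (fun a b => b ∈ F ∧ (a ∩ b).card + 1 = d) s t
  star : ∀ x, ∀ s ∈ F, ∀ t ∈ F, x ∈ s → x ∈ t →
    Relation.ReflTransGen (fun a b => b ∈ F ∧ (a ∩ b).card + 1 = d ∧ x ∈ a ∩ b) s t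
  sphere : ∀ σ ∈ fc (d - 3) F, IsSphere2 (lk F σ)

theorem final (d : ℕ) (hd : 4 ≤ d) :
    ∃ C : ℕ, ∀ n : ℕ, ∃ S : Finset (Finset (Finset (Fin (d * n)))),
      S.card ^ (2 * (d + 1)) ≤ C ^ n * n ^ ((d - 3) * n) ∧
      (∀ f : ℕ, (S.filter (fun G => (fc (d - 3) G).card = f)).card ^
        (2 * (d - 2) * d * (d + 1)) ≤ C ^ n * n ^ ((d - 3) * (d - 2) * d * n - 24 * f)) ∧
      ∀ F : Finset (Finset (Fin (d * n))), F.card = n → IsMfd d F →
        ∃ G ∈ S, ∃ π : Equiv.Perm (Fin (d * n)), G = F.image (fun σ => σ.image π) := by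
  obtain ⟨k, hk, rfl⟩ : ∃ k, 0 < k ∧ d = k + 3 := ⟨d - 3, by omega, by omega⟩
  obtain ⟨C, hC⟩ := total (k := k) hk
  refine ⟨C, fun n => ?_⟩
  obtain ⟨S, h1, h2, h3⟩ := hC n
  refine ⟨S, h1, h2, fun F hF hM => h3 F hF ⟨hM.card, ?_, ?_, hM.sphere⟩⟩
  · intro s hs t ht
    exact Relation.ReflTransGen.mono (fun a b h => ⟨h.1, by have := h.2; omega⟩) _ _
      (hM.conn s hs t ht)
  · intro x s hs t ht hxs hxt
    exact Relation.ReflTransGen.mono (fun a b h => ⟨h.1, by have := h.2.1; omega, h.2.2⟩) _ _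
      (hM.star x s hs t ht hxs hxt)

end Pool.TSphD
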