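import Pool.Agent.Lib.MP_3de3a3_co.Homol
import Pool.Agent.Lib.MP_3de3a3_co.Cyc

/-! # Separation (module Sep) -/

set_option autoImplicit false

namespace Pool.TSph

open Finset

variable {ι : Type*} [DecidableEq ι]

private theorem sep_gen {L A : Finset (Finset ι)} (hL : IsSphere2 L) {w x y : ι}
    (hA : ∀ s ∈ L, ∀ t ∈ L, s ≠ t → (s ∩ t).card = 2 →
      ((s ∈ A ↔ t ∈ A) ↔ ¬ s ∩ t ⊆ {w, x, y})) {S : Finset ι} (hw : w ∉ S) (hx : x ∉ S)
    (hy : y ∉ S) {u v : ι} (hu : u ∈ S) (h : cn (adj L) S u v) :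
    v ∈ S ∧ ∀ s ∈ L, u ∈ s → ∀ t ∈ L, v ∈ t → (s ∈ A ↔ t ∈ A) := by
  have hst : ∀ z ∈ S, ∀ s ∈ L, z ∈ s → ∀ t ∈ L, z ∈ t → (s ∈ A ↔ t ∈ A) := by
    intro z hz s hs hzs t ht hzt
    have hc := hL.star z s hs t ht hzs hzt
    have : t ∈ L ∧ (s ∈ A ↔ t ∈ A) := by
      clear ht hzt
      induction hc with
      | refl => exact ⟨hs, Iff.rfl⟩
      | @tail b d _ hbd ih =>
        obtain ⟨hb, ih⟩ := ih
        obtain ⟨hd, h2, hzd⟩ := hbd
        refine ⟨hd, ih.trans ?_⟩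
        have hne : b ≠ d := by
          rintro rfl
          rw [inter_self, hL.card3 b hb] at h2
          omega
        rw [hA b hb d hd hne h2]
        intro h3
        have h4 := h3 hzd
        simp only [mem_insert, mem_singleton] at h4
        rcases h4 with rfl | rfl | rfl
        · exact hw hz
        · exact hx hz
        · exact hy hz
    exact this.2
  unfold cn at h
  induction h with
  | refl => exact ⟨hu, fun s hs h1 t ht h2 => hst u hu s hs h1 t ht h2⟩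
  | @tail b d _ hbd ih =>
    obtain ⟨hb, ih⟩ := ih
    obtain ⟨hd, hne, r, hr, hbr, hdr⟩ := hbd
    refine ⟨hd, fun s hs h1 t ht h2 => ?_⟩
    exact (ih s hs h1 r hr hbr).trans (hst d hd r hr hdr t ht h2)

private theorem sep_loc {L A : Finset (Finset ι)} {w x y : ι}
    (hA : ∀ s ∈ L, ∀ t ∈ L, s ≠ t → (s ∩ t).card = 2 →
      ((s ∈ A ↔ t ∈ A) ↔ ¬ s ∩ t ⊆ {w, x, y})) {p q r : ι} (hp : p = x ∨ p = y)
    (hs : ({w, p, q} : Finset ι) ∈ L) (ht : ({w, p, r} : Finset ι) ∈ L) (hwp : p ≠ w)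
    (hwq : q ≠ w) (hpq : p ≠ q) (hqr : q ≠ r) :
    ¬ (({w, p, q} : Finset ι) ∈ A ↔ ({w, p, r} : Finset ι) ∈ A) := by
  have hq : q ∉ ({w, p, r} : Finset ι) := by
    simp only [mem_insert, mem_singleton, not_or]
    exact ⟨hwq, hpq.symm, hqr⟩
  have hne : ({w, p, q} : Finset ι) ≠ {w, p, r} := by
    intro h
    apply hq
    rw [← h]
    simp
  have hint : ({w, p, q} : Finset ι) ∩ {w, p, r} = {w, p} := by
    ext z
    simp only [mem_inter, mem_insert, mem_singleton]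
    constructor
    · rintro ⟨h1 | h1 | h1, h2⟩
      · left; exact h1
      · right; exact h1
      · subst h1
        simp only [mem_insert, mem_singleton] at hq
        exact absurd h2 hq
    · rintro (h1 | h1)
      · exact ⟨Or.inl h1, Or.inl h1⟩
      · exact ⟨Or.inr (Or.inl h1), Or.inr (Or.inl h1)⟩
  have h2 : (({w, p, q} : Finset ι) ∩ {w, p, r}).card = 2 := by
    rw [hint, card_pair hwp.symm]
  rw [hA _ hs _ ht hne h2, hint, not_not]
  intro z hz
  simp only [mem_insert, mem_singleton] at hz ⊢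
  rcases hz with rfl | rfl
  · left; rfl
  · right; exact hp

/-- If the neighbours `a 0` and `a 2` of `w` (degree 4) are adjacent, then `a 1` and `a 3` are
in different components of the complement of `w, a 0, a 2`. -/
theorem sep4 {L : Finset (Finset ι)} (hL : IsSphere2 L) {w : ι} {a : Fin 4 → ι}
    (hc : LinkCycle L w 4 a) (i : Fin 4) (h : adj L (a i) (a (i + 2))) {S : Finset ι}
    (hw : w ∉ S) (h0 : a i ∉ S) (h2 : a (i + 2) ∉ S) (h1 : a (i + 1) ∈ S) :
    ¬ cn (adj L) S (a (i + 1)) (a (i + 3)) := by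
  intro hcn
  obtain ⟨A, hA⟩ := exists_bounding hL ((hc.all (a i)).2 ⟨i, rfl⟩) h
    (adj_symm ((hc.all (a (i + 2))).2 ⟨i + 2, rfl⟩))
  have hg := sep_gen hL hA hw h0 h2 h1 hcn
  have e1 : ∀ i : Fin 4, i + 3 + 1 = i := by decide
  have e2 : ∀ i : Fin 4, i + 1 ≠ i + 3 := by decide
  have e3 : ∀ i : Fin 4, i ≠ i + 1 := by decide
  have ht1 := hc.tri i
  have ht2 := hc.tri (i + 3)
  rw [e1] at ht2
  have ht3 : ({w, a i, a (i + 3)} : Finset ι) ∈ L := by
    rw [pair_comm (a i) (a (i + 3))]; exact ht2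
  have hne : a (i + 1) ≠ a (i + 3) := fun h => e2 i (hc.inj h)
  have hne2 : a i ≠ a (i + 1) := fun h => e3 i (hc.inj h)
  exact sep_loc hA (Or.inl rfl) ht1 ht3 (hc.ne i) (hc.ne (i + 1)) hne2 hne
    (hg.2 _ ht1 (by simp) _ ht3 (by simp))

/-- If the neighbours `a i` and `a (i+2)` of `w` (degree 5) are adjacent, then `a (i+1)` and
`a (i+3)`, `a (i+4)` are in different components of the complement of `w, a i, a (i+2)`. -/
theorem sep5 {L : Finset (Finset ι)} (hL : IsSphere2 L) {w : ι} {a : Fin 5 → ι}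
    (hc : LinkCycle L w 5 a) (i : Fin 5) (h : adj L (a i) (a (i + 2))) {S : Finset ι}
    (hw : w ∉ S) (h0 : a i ∉ S) (h2 : a (i + 2) ∉ S) (h1 : a (i + 1) ∈ S) :
    ¬ cn (adj L) S (a (i + 1)) (a (i + 3)) ∧ ¬ cn (adj L) S (a (i + 1)) (a (i + 4)) := by
  obtain ⟨A, hA⟩ := exists_bounding hL ((hc.all (a i)).2 ⟨i, rfl⟩) h
    (adj_symm ((hc.all (a (i + 2))).2 ⟨i + 2, rfl⟩))
  constructor
  · intro hcn
    have hg := sep_gen hL hA hw h0 h2 h1 hcn
    have e1 : ∀ i : Fin 5, i + 1 + 1 = i + 2 := by decide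
    have e1' : ∀ i : Fin 5, i + 2 + 1 = i + 3 := by decide
    have e2 : ∀ i : Fin 5, i + 1 ≠ i + 3 := by decide
    have e3 : ∀ i : Fin 5, i + 2 ≠ i + 1 := by decide
    have ht1 := hc.tri (i + 1)
    have ht2 := hc.tri (i + 2)
    rw [e1] at ht1
    rw [e1'] at ht2
    have ht3 : ({w, a (i + 2), a (i + 1)} : Finset ι) ∈ L := by
      rw [pair_comm (a (i + 2)) (a (i + 1))]; exact ht1
    have hne : a (i + 1) ≠ a (i + 3) := fun h => e2 i (hc.inj h)
    have hne2 : a (i + 2) ≠ a (i + 1) := fun h => e3 i (hc.inj h)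
    exact sep_loc hA (Or.inr rfl) ht3 ht2 (hc.ne (i + 2)) (hc.ne (i + 1)) hne2 hne
      (hg.2 _ ht3 (by simp) _ ht2 (by simp))
  · intro hcn
    have hg := sep_gen hL hA hw h0 h2 h1 hcn
    have e1 : ∀ i : Fin 5, i + 4 + 1 = i := by decide
    have e2 : ∀ i : Fin 5, i + 1 ≠ i + 4 := by decide
    have e3 : ∀ i : Fin 5, i ≠ i + 1 := by decide
    have ht1 := hc.tri i
    have ht2 := hc.tri (i + 4)
    rw [e1] at ht2
    have ht3 : ({w, a i, a (i + 4)} : Finset ι) ∈ L := by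
      rw [pair_comm (a i) (a (i + 4))]; exact ht2
    have hne : a (i + 1) ≠ a (i + 4) := fun h => e2 i (hc.inj h)
    have hne2 : a i ≠ a (i + 1) := fun h => e3 i (hc.inj h)
    exact sep_loc hA (Or.inl rfl) ht1 ht3 (hc.ne i) (hc.ne (i + 1)) hne2 hne
      (hg.2 _ ht1 (by simp) _ ht3 (by simp))

end Pool.TSph
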