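import Pool.Agent.Lib.MP_3de3a3_co.DStep4A
import Pool.Agent.Lib.MP_3de3a3_co.Sep

/-! # Removing a vertex of degree 4 (module DStep4) -/

set_option autoImplicit false

namespace Pool.TSph

open Finset

variable {ι : Type*} [DecidableEq ι]

/-- the rotated cycle -/
private theorem Step4_rot {L : Finset (Finset ι)} {w : ι} {a : Fin 4 → ι}
    (hc : LinkCycle L w 4 a) : LinkCycle L w 4 (fun i => a (i + 1)) where
  inj := fun i j h => by
    have h1 : i + 1 = j + 1 := hc.inj h
    exact add_right_cancel h1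
  ne := fun i => hc.ne (i + 1)
  tri := fun i => hc.tri (i + 1)
  all := fun v => by
    rw [hc.all]
    constructor
    · rintro ⟨i, rfl⟩
      have e : ∀ i : Fin 4, i + 3 + 1 = i := by decide
      exact ⟨i + 3, by rw [e]⟩
    · rintro ⟨i, rfl⟩
      exact ⟨i + 1, rfl⟩

/-- If `a 0, a 2` are adjacent then by `sep4` (with `S = {a 1, a 3}`) `a 1, a 3` are not adjacent;
use `pstep4_aux` for the rotated cycle `i ↦ a (i + 1)`. -/
theorem pstep4 {p : ℝ} (hp0 : 0 ≤ p) (hp1 : p ≤ 1) {L : Finset (Finset ι)}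
    (hL : IsSphere2 L) (hV : 5 ≤ (verts L).card) {w : ι}
    {a : Fin 4 → ι} (hw : w ∈ verts L) (hc : LinkCycle L w 4 a) :
    ∃ L' : Finset (Finset ι), IsSphere2 L' ∧ verts L' = (verts L).erase w ∧
      ep p L ≤ ep p L' + p * (1 - p) ^ 3 := by
  by_cases h : adj L (a 0) (a 2)
  · have h1 : ¬ adj L (a 1) (a 3) := by
      intro h2
      have e2 : (0 : Fin 4) + 2 = 2 := by decide
      have e1 : (0 : Fin 4) + 1 = 1 := by decide
      have e3 : (0 : Fin 4) + 3 = 3 := by decide
      have h3 := sep4 hL hc 0 (by rw [e2]; exact h) (S := {a 1, a 3})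
        (by
          rw [mem_insert, mem_singleton, not_or]
          exact ⟨(hc.ne 1).symm, (hc.ne 3).symm⟩)
        (by
          rw [mem_insert, mem_singleton, not_or]
          exact ⟨hc.inj.ne (by decide), hc.inj.ne (by decide)⟩)
        (by
          rw [e2, mem_insert, mem_singleton, not_or]
          exact ⟨hc.inj.ne (by decide), hc.inj.ne (by decide)⟩)
        (by rw [e1]; exact mem_insert_self _ _)
      rw [e1, e3] at h3
      exact h3 (Relation.ReflTransGen.single ⟨by simp, h2⟩)
    have e4 : (0 : Fin 4) + 1 = 1 := by decide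
    have e5 : (2 : Fin 4) + 1 = 3 := by decide
    exact pstep4_aux hp0 hp1 hL hV hw (Step4_rot hc) (by rw [e4, e5]; exact h1)
  · exact pstep4_aux hp0 hp1 hL hV hw hc h

end Pool.TSph
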