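import Pool.Agent.Lib.MP_3de3a3_co.DStep5Of
import Pool.Agent.Lib.MP_3de3a3_co.DBeta

/-! # Removing a vertex of degree 5, no chord (module DStep5N) -/

set_option autoImplicit false

namespace Pool.TSph

open Finset

variable {ι : Type*} [DecidableEq ι]

private theorem Step5N_sum2 (i : Fin 5) :
    ∑ j : Fin 5, (if j = i ∨ j = i + 2 then (1 : ℝ) else 0) = 2 := by
  rw [Finset.sum_boole]
  have h : (univ.filter fun j : Fin 5 => j = i ∨ j = i + 2).card = 2 := by
    revert i
    decide
  rw [h]
  norm_num

private theorem Step5N_sum3 (m : Fin 5) :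
    ∑ j : Fin 5, (if j = m ∨ j = m + 2 ∨ j = m + 3 then (1 : ℝ) else 0) = 3 := by
  rw [Finset.sum_boole]
  have h : (univ.filter fun j : Fin 5 => j = m ∨ j = m + 2 ∨ j = m + 3).card = 3 := by
    revert m
    decide
  rw [h]
  norm_num

private theorem Step5N_A (B : Finset (Fin 5)) (p : ℝ) :
    0 ≤ ∑ i : Fin 5, (if B = {i, i + 2} then max 0 (2 / 5 - p) else 0) := by
  refine Finset.sum_nonneg fun i _ => ?_
  split_ifs
  · positivity
  · exact le_refl _

private theorem Step5N_B (B : Finset (Fin 5)) (p : ℝ) (h1 : p ≤ 1) :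
    0 ≤ ∑ m : Fin 5, (if B = {m, m + 2, m + 3} then max 0 (3 / 5 - p) else 0) := by
  refine Finset.sum_nonneg fun i _ => ?_
  split_ifs
  · have : 0 ≤ (1 - p) * (3 - 2 * p) := mul_nonneg (by linarith) (by linarith)
    positivity
  · exact le_refl _

private theorem Step5N_sepd (L : Finset (Finset ι)) (S : Finset ι) (u v : ι) :
    sepd L S u v = 0 ∨ sepd L S u v = 1 := by
  unfold sepd
  split_ifs
  · exact Or.inl rfl
  · exact Or.inr rfl

/-- No chord: `J = univ`, `beta5m`. The sum over `j` for a pair is `s (2 - 5 p)`, for a triple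
`s (3 - 5 p)` with `s = 0` or `1`. -/
theorem pstep5n {p : ℝ} (hp0 : 0 ≤ p) (hp1 : p ≤ 1) {L : Finset (Finset ι)}
    (hL : IsSphere2 L) (hV : 5 ≤ (verts L).card) {w : ι}
    {a : Fin 5 → ι} (hw : w ∈ verts L) (hc : LinkCycle L w 5 a)
    (hno : ∀ i, ¬ adj L (a i) (a (i + 2))) :
    ∃ L' : Finset (Finset ι), IsSphere2 L' ∧ verts L' = (verts L).erase w ∧
      ep p L ≤ ep p L' + p * (1 - p) ^ 3 := by
  have e5 : ∀ j : Fin 5, j + 3 + 2 = j := by decide
  refine pstep5_of hp0 hp1 hL hV hw hc univ univ_nonempty (fun j _ => hno j) ?_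
    (fun B => beta5m B p) (beta5m_sum hp0 hp1) ?_
  · intro j _ h
    have h1 := hno (j + 3)
    rw [e5] at h1
    exact h1 (adj_symm h)
  · intro S hS
    set B : Finset (Fin 5) := univ.filter (fun i => a i ∈ S) with hB
    have hcard : ((univ : Finset (Fin 5)).card : ℝ) = 5 := by
      rw [Finset.card_univ, Fintype.card_fin]; norm_num
    rw [hcard]
    have hA := Step5N_A B p
    have hC := Step5N_B B p hp1
    have h0 : 0 ≤ (if B = ∅ then p else 0) := by
      split_ifs
      · exact hp0
      · exact le_refl _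
    by_cases hb0 : B = ∅
    · have h1 : ∑ j : Fin 5, K5 L w a j S p = 5 * p := by
        rw [Finset.sum_congr rfl fun j _ => K5_empty hc j hS (hB ▸ hb0) p]
        rw [Finset.sum_const, Finset.card_univ, Fintype.card_fin]
        simp
      rw [h1]
      unfold beta5m
      rw [if_pos hb0]
      linarith
    by_cases hb2 : ∃ i, B = {i, i + 2}
    · obtain ⟨i, hi⟩ := hb2
      have h1 : ∑ j : Fin 5, K5 L w a j S p = sepd L S (a i) (a (i + 2)) * (2 - 5 * p) := by
        rw [Finset.sum_congr rfl fun j _ => K5_pair hc j hS i (hB ▸ hi) p]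
        rw [← Finset.mul_sum, Finset.sum_sub_distrib, Step5N_sum2, Finset.sum_const,
          Finset.card_univ, Fintype.card_fin]
        simp
      have h2 : max 0 (2 / 5 - p) ≤
          ∑ i : Fin 5, (if B = {i, i + 2} then max 0 (2 / 5 - p) else 0) := by
        have h3 := Finset.single_le_sum (s := (univ : Finset (Fin 5)))
          (f := fun i => if B = {i, i + 2} then max 0 (2 / 5 - p) else 0)
          (fun i _ => by
            split_ifs
            · positivity
            · exact le_refl _) (mem_univ i)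
        simp only [if_pos hi] at h3
        exact h3
      rw [h1]
      unfold beta5m
      rcases Step5N_sepd L S (a i) (a (i + 2)) with h4 | h4
      · rw [h4]
        nlinarith
      · rw [h4]
        have h6 : 2 / 5 - p ≤ max 0 (2 / 5 - p) := le_max_right _ _
        linarith
    by_cases hb3 : ∃ m, B = {m, m + 2, m + 3}
    · obtain ⟨m, hm⟩ := hb3
      have h1 : ∑ j : Fin 5, K5 L w a j S p = sepd L S (a m) (a (m + 2)) * (3 - 5 * p) := by
        rw [Finset.sum_congr rfl fun j _ => K5_triple hc j hS m (hB ▸ hm) p]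
        rw [← Finset.mul_sum, Finset.sum_sub_distrib, Step5N_sum3, Finset.sum_const,
          Finset.card_univ, Fintype.card_fin]
        simp
      have h5 : 0 ≤ (1 - p) * (3 - 2 * p) := mul_nonneg (by linarith) (by linarith)
      have h2 : max 0 (3 / 5 - p) ≤
          ∑ m : Fin 5, (if B = {m, m + 2, m + 3} then max 0 (3 / 5 - p) else 0) := by
        have h3 := Finset.single_le_sum (s := (univ : Finset (Fin 5)))
          (f := fun m => if B = {m, m + 2, m + 3} then max 0 (3 / 5 - p) else 0)
          (fun i _ => by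
            split_ifs
            · positivity
            · exact le_refl _) (mem_univ m)
        simp only [if_pos hm] at h3
        exact h3
      rw [h1]
      unfold beta5m
      rcases Step5N_sepd L S (a m) (a (m + 2)) with h4 | h4
      · rw [h4]
        nlinarith
      · rw [h4]
        have h6 : 3 / 5 - p ≤ max 0 (3 / 5 - p) := le_max_right _ _
        linarith
    · push Not at hb2 hb3
      have h1 : ∑ j : Fin 5, K5 L w a j S p = 0 := by
        refine Finset.sum_eq_zero fun j _ => ?_
        exact K5_arc hc j hS (hB ▸ hb0) (fun i => hB ▸ hb2 i) (fun m => hB ▸ hb3 m) p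
      rw [h1]
      unfold beta5m
      linarith

end Pool.TSph
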