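import Pool.Agent.Lib.MP_3de3a3_co.DStep3
import Pool.Agent.Lib.MP_3de3a3_co.DStep4
import Pool.Agent.Lib.MP_3de3a3_co.DStep5

/-! # Theorem A: the average number of components (module DTheoremA) -/

set_option autoImplicit false

namespace Pool.TSph

open Finset

variable {ι : Type*} [DecidableEq ι]

/-- Theorem A, for every probability `p`. -/
theorem ep_le {p : ℝ} (hp0 : 0 ≤ p) (hp1 : p ≤ 1) {L : Finset (Finset ι)} (hL : IsSphere2 L) :
    ep p L ≤ 1 - (1 - p) ^ 4 + ((verts L).card - 4) * (p * (1 - p) ^ 3) := by
  have key : ∀ (N : ℕ) (L : Finset (Finset ι)), IsSphere2 L → (verts L).card = N →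
      ep p L ≤ 1 - (1 - p) ^ 4 + ((verts L).card - 4) * (p * (1 - p) ^ 3) := by
    intro N
    induction N with
    | zero =>
      intro L hL h
      have := four_le_verts hL
      omega
    | succ N ih =>
      intro L hL h
      rcases (four_le_verts hL).eq_or_lt with h4 | h5
      · have h1 : ep p L = 1 - (1 - p) ^ (verts L).card := by
          refine Ep_one (by simp [comp_empty]) ?_
          intro S hS hne
          have : comp (adj L) S = 1 := comp_clique hne (fun u hu v hv huv =>
            adj_of_four hL h4.symm (hS hu) (hS hv) huv)
          simp [this]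
        rw [h1, ← h4]
        norm_num
      · have step : ∃ w ∈ verts L, ∃ L' : Finset (Finset ι), IsSphere2 L' ∧
            verts L' = (verts L).erase w ∧ ep p L ≤ ep p L' + p * (1 - p) ^ 3 := by
          obtain ⟨w, hw, hd⟩ := exists_small_degree hL
          have h3 := three_le_degree hL hw
          refine ⟨w, hw, ?_⟩
          obtain h | h | h : (L.filter (fun t => w ∈ t)).card = 3 ∨
              (L.filter (fun t => w ∈ t)).card = 4 ∨ (L.filter (fun t => w ∈ t)).card = 5 := by
            omega
          · obtain ⟨a, ha⟩ := exists_linkCycle hL hw h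
            exact pstep3 hp0 hp1 hL h5 hw ha
          · obtain ⟨a, ha⟩ := exists_linkCycle hL hw h
            exact pstep4 hp0 hp1 hL h5 hw ha
          · obtain ⟨a, ha⟩ := exists_linkCycle hL hw h
            exact pstep5 hp0 hp1 hL h5 hw ha
        obtain ⟨w, hw, L', hL', hv, hle⟩ := step
        have hcard : (verts L').card = N := by
          rw [hv, card_erase_of_mem hw]; omega
        have := ih L' hL' hcard
        have hcast : ((verts L).card : ℝ) = (verts L').card + 1 := by
          rw [h, hcard]; push_cast; ring
        rw [hcast]
        linarith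
  exact key _ L hL rfl

end Pool.TSph
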