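import Pool.Agent.Lib.MP_3de3a3_co.DAvg
import Pool.Agent.Lib.MP_3de3a3_co.DTheoremA

/-! # The integral bounds (module DInt) -/

set_option autoImplicit false

namespace Pool.TSph

open Finset

variable {ι : Type*} [DecidableEq ι]

theorem PhiK_add (k : ℕ) (W : Finset ι) (f g : Finset ι → ℝ) :
    PhiK k W (fun S => f S + g S) = PhiK k W f + PhiK k W g := by
  unfold PhiK
  rw [← intervalIntegral.integral_add]
  · congr 1
    funext p
    rw [Ep_add]
    ring
  · exact Continuous.intervalIntegrable (by have := Ep_cont W f; fun_prop) _ _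
  · exact Continuous.intervalIntegrable (by have := Ep_cont W g; fun_prop) _ _

private theorem DInt_b0 (j : ℕ) : ∫ p in (0:ℝ)..1, (1 - p) ^ j = 1 / ((j : ℝ) + 1) := by
  have h1 := integral_beta 0 j
  simp only [pow_zero, one_mul, Nat.factorial_zero, Nat.cast_one, zero_add] at h1
  rw [h1, Nat.factorial_succ]
  have h2 : (j.factorial : ℝ) ≠ 0 := by exact_mod_cast j.factorial_ne_zero
  have h3 : (j : ℝ) + 1 ≠ 0 := by positivity
  push_cast
  field_simp

private theorem DInt_b1 (j : ℕ) : ∫ p in (0:ℝ)..1, p * (1 - p) ^ (j + 3) =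
    1 / (((j : ℝ) + 4) * ((j : ℝ) + 5)) := by
  have h1 := integral_beta 1 (j + 3)
  simp only [pow_one, Nat.factorial_one, Nat.cast_one, one_mul] at h1
  rw [h1, show 1 + (j + 3) + 1 = (j + 3) + 1 + 1 by ring, Nat.factorial_succ ((j + 3) + 1),
    Nat.factorial_succ (j + 3)]
  have h2 : ((j + 3).factorial : ℝ) ≠ 0 := by exact_mod_cast (j + 3).factorial_ne_zero
  have h3 : (j : ℝ) + 4 ≠ 0 := by positivity
  have h4 : (j : ℝ) + 5 ≠ 0 := by positivity
  have h5 : (j : ℝ) + 3 + 1 ≠ 0 := by positivity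
  have h6 : (j : ℝ) + 3 + 1 + 1 ≠ 0 := by positivity
  push_cast
  field_simp
  ring

private theorem DInt_b4 (j : ℕ) : ∫ p in (0:ℝ)..1, p ^ 4 * (1 - p) ^ j =
    24 / (((j : ℝ) + 1) * ((j : ℝ) + 2) * ((j : ℝ) + 3) * ((j : ℝ) + 4) * ((j : ℝ) + 5)) := by
  have h1 := integral_beta 4 j
  rw [h1, show 4 + j + 1 = j + 1 + 1 + 1 + 1 + 1 by ring, Nat.factorial_succ (j + 1 + 1 + 1 + 1),
    Nat.factorial_succ (j + 1 + 1 + 1), Nat.factorial_succ (j + 1 + 1), Nat.factorial_succ (j + 1),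
    Nat.factorial_succ j]
  have h0 : ((4 : ℕ).factorial : ℝ) = 24 := by norm_num [Nat.factorial]
  rw [h0]
  have h2 : (j.factorial : ℝ) ≠ 0 := by exact_mod_cast j.factorial_ne_zero
  have e1 : (j : ℝ) + 1 + 1 = j + 2 := by ring
  have e2 : (j : ℝ) + 2 + 1 = j + 3 := by ring
  have e3 : (j : ℝ) + 3 + 1 = j + 4 := by ring
  have e4 : (j : ℝ) + 4 + 1 = j + 5 := by ring
  push_cast
  rw [e1, e2, e3, e4]
  have a1 : (j : ℝ) + 1 ≠ 0 := by positivity
  have a2 : (j : ℝ) + 2 ≠ 0 := by positivity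
  have a3 : (j : ℝ) + 3 ≠ 0 := by positivity
  have a4 : (j : ℝ) + 4 ≠ 0 := by positivity
  have a5 : (j : ℝ) + 5 ≠ 0 := by positivity
  field_simp

/-- Integrate `ep_le` against `k (1 - p)^(k-1)` : with `k = j + 1`,
`∫ (j+1) (1-p)^j = 1`, `∫ (j+1) (1-p)^(j+4) = (j+1)/(j+5)`,
`∫ (j+1) p (1-p)^(j+3) = (j+1)/((j+4)(j+5))` (`integral_beta`). -/
theorem PhiK_comp_le {k : ℕ} (hk : 0 < k) {L : Finset (Finset ι)} (hL : IsSphere2 L) :
    PhiK k (verts L) (fun S => (comp (adj L) S : ℝ)) ≤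
      4 / (k + 4) + ((verts L).card - 4) * (k / ((k + 3) * (k + 4))) := by
  obtain ⟨j, rfl⟩ : ∃ j, k = j + 1 := ⟨k - 1, by omega⟩
  unfold PhiK
  rw [Nat.add_sub_cancel]
  set V : ℝ := ((verts L).card : ℝ) with hV
  have hmono : ∫ p in (0:ℝ)..1, ((j + 1 : ℕ) : ℝ) * (1 - p) ^ j *
      Ep p (verts L) (fun S => (comp (adj L) S : ℝ)) ≤
      ∫ p in (0:ℝ)..1, (((j : ℝ) + 1) * (1 - p) ^ j - ((j : ℝ) + 1) * (1 - p) ^ (j + 4) +
        (V - 4) * ((j : ℝ) + 1) * (p * (1 - p) ^ (j + 3))) := by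
    refine intervalIntegral.integral_mono_on (by norm_num) ?_ ?_ ?_
    · exact Continuous.intervalIntegrable
        (by have := Ep_cont (verts L) (fun S => (comp (adj L) S : ℝ)); fun_prop) _ _
    · exact Continuous.intervalIntegrable (by fun_prop) _ _
    · intro p hp
      have h1 := ep_le hp.1 hp.2 hL
      unfold ep at h1
      have h2 : (0 : ℝ) ≤ ((j + 1 : ℕ) : ℝ) * (1 - p) ^ j :=
        mul_nonneg (Nat.cast_nonneg _) (pow_nonneg (by linarith [hp.2]) _)
      refine le_trans (mul_le_mul_of_nonneg_left h1 h2) (le_of_eq ?_)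
      push_cast
      ring
  refine le_trans hmono (le_of_eq ?_)
  rw [intervalIntegral.integral_add, intervalIntegral.integral_sub,
    intervalIntegral.integral_const_mul, intervalIntegral.integral_const_mul,
    intervalIntegral.integral_const_mul, DInt_b0, DInt_b0, DInt_b1]
  · push_cast
    have a1 : (j : ℝ) + 1 ≠ 0 := by positivity
    have a4 : (j : ℝ) + 4 ≠ 0 := by positivity
    have a5 : (j : ℝ) + 5 ≠ 0 := by positivity
    have e1 : (j : ℝ) + 1 + 4 = j + 5 := by ring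
    have e2 : (j : ℝ) + 1 + 3 = j + 4 := by ring
    have e3 : (j : ℝ) + 4 + 1 = j + 5 := by ring
    rw [e1, e2, e3]
    field_simp
    ring
  · exact Continuous.intervalIntegrable (by fun_prop) _ _
  · exact Continuous.intervalIntegrable (by fun_prop) _ _
  · exact Continuous.intervalIntegrable (by fun_prop) _ _
  · exact Continuous.intervalIntegrable (by fun_prop) _ _

/-- `∫ k (1-p)^(k-1) p^V ≤ ∫ k (1-p)^(k-1) p^4 = 24 / ((k+1)(k+2)(k+3)(k+4))` for `V ≥ 4`. -/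
theorem PhiK_top_le {k : ℕ} (hk : 0 < k) {W : Finset ι} (hW : 4 ≤ W.card) :
    PhiK k W (fun S => if S = W then (1:ℝ) else 0) ≤
      24 / ((k + 1) * (k + 2) * (k + 3) * (k + 4)) := by
  obtain ⟨j, rfl⟩ : ∃ j, k = j + 1 := ⟨k - 1, by omega⟩
  unfold PhiK
  rw [Nat.add_sub_cancel]
  have hmono : ∫ p in (0:ℝ)..1, ((j + 1 : ℕ) : ℝ) * (1 - p) ^ j *
      Ep p W (fun S => if S = W then (1:ℝ) else 0) ≤
      ∫ p in (0:ℝ)..1, ((j : ℝ) + 1) * (p ^ 4 * (1 - p) ^ j) := by
    refine intervalIntegral.integral_mono_on (by norm_num) ?_ ?_ ?_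
    · exact Continuous.intervalIntegrable
        (by have := Ep_cont W (fun S => if S = W then (1:ℝ) else 0); fun_prop) _ _
    · exact Continuous.intervalIntegrable (by fun_prop) _ _
    · intro p hp
      have h1 : Ep p W (fun S => if S = W then (1:ℝ) else 0) ≤ p ^ 4 := by
        rw [Ep_top]
        exact pow_le_pow_of_le_one hp.1 hp.2 hW
      have h2 : (0 : ℝ) ≤ ((j + 1 : ℕ) : ℝ) * (1 - p) ^ j :=
        mul_nonneg (Nat.cast_nonneg _) (pow_nonneg (by linarith [hp.2]) _)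
      refine le_trans (mul_le_mul_of_nonneg_left h1 h2) (le_of_eq ?_)
      push_cast
      ring
  refine le_trans hmono (le_of_eq ?_)
  rw [intervalIntegral.integral_const_mul, DInt_b4]
  push_cast
  have e1 : (j : ℝ) + 1 + 1 = j + 2 := by ring
  have e2 : (j : ℝ) + 1 + 2 = j + 3 := by ring
  have e3 : (j : ℝ) + 1 + 3 = j + 4 := by ring
  have e4 : (j : ℝ) + 1 + 4 = j + 5 := by ring
  rw [e1, e2, e3, e4]
  have a1 : (j : ℝ) + 1 ≠ 0 := by positivity
  have a2 : (j : ℝ) + 2 ≠ 0 := by positivity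
  have a3 : (j : ℝ) + 3 ≠ 0 := by positivity
  have a4 : (j : ℝ) + 4 ≠ 0 := by positivity
  have a5 : (j : ℝ) + 5 ≠ 0 := by positivity
  field_simp

end Pool.TSph
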