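import Pool.Agent.Lib.MP_3de3a3_co.DAvg

/-! # There is an order below the average (module DOrder) -/

set_option autoImplicit false

namespace Pool.TSph

open Finset

variable {ι : Type*} [DecidableEq ι] [Fintype ι]

/-- There is an order for which the sum is at most the average. -/
theorem exists_order_lower {k : ℕ} (hk : 0 < k) (W : Finset (Finset ι))
    (hW : ∀ σ ∈ W, σ.card = k) (N : Finset ι → Finset ι) (hN : ∀ σ ∈ W, Disjoint σ (N σ))
    (f : Finset ι → Finset ι → ℝ) :
    ∃ pos : ι → ℕ, Function.Injective pos ∧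
      ∑ σ ∈ W, f σ ((N σ).filter (fun y => ∀ x ∈ σ, pos y < pos x)) ≤
        ∑ σ ∈ W, PhiK k (N σ) (f σ) := by
  have hcard : Fintype.card (Numbering ι) = (Fintype.card ι).factorial :=
    Fintype.card_numbering
  have hne : (univ : Finset (Numbering ι)).Nonempty := by
    rw [← card_pos, card_univ, hcard]
    exact Nat.factorial_pos _
  have htot : ∑ φ : Numbering ι,
        ∑ σ ∈ W, f σ ((N σ).filter (fun y => ∀ x ∈ σ, (φ y : ℕ) < φ x)) ≤
      ∑ _φ : Numbering ι, ∑ σ ∈ W, PhiK k (N σ) (f σ) := by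
    rw [sum_comm, sum_const, card_univ, hcard, nsmul_eq_mul, mul_sum]
    refine le_of_eq (sum_congr rfl fun σ hσ => ?_)
    have h := average_lower σ (card_pos.1 (by rw [hW σ hσ]; exact hk)) (N σ) (hN σ hσ) (f σ)
    rw [hW σ hσ] at h
    exact h
  obtain ⟨φ, -, hφ⟩ := exists_le_of_sum_le hne htot
  refine ⟨fun y => (φ y : ℕ), ?_, hφ⟩
  intro a b hab
  exact φ.injective (Fin.ext hab)

end Pool.TSph
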