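import Pool.Agent.Lib.MP_3de3a3_co.DEncode
import Pool.Agent.Lib.MP_3de3a3_co.DInt
import Pool.Agent.Lib.MP_3de3a3_co.DCertOrder
import Pool.Agent.Lib.MP_3de3a3_co.DOrder

/-! # The main theorem in all dimensions (module DMain) -/

set_option autoImplicit false

namespace Pool.TSphD

open Finset
open Pool.TSph (verts mem_verts IsSphere2 adj comp PhiK)

/-- The arithmetic: with `Q = 2 (k+1)(k+3)(k+4)` the real number `M + 1 - n` is at most
`(k (k+1)(k+3) n - 24 f) / Q + 1`. (`(k+3).choose 3 = (k+3)(k+2)(k+1)/6`.) -/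
theorem arith {k n f f' r M : ℕ} (X : ℝ)
    (h1 : 2 * r = (k + 3) * n) (h2 : 2 * (k + 1) * f' = (k + 3).choose 3 * n + 4 * f)
    (h3 : (M : ℝ) + f' ≤ r + X)
    (h4 : X ≤ f * (4 / (k + 4)) + ((k + 1) * f' - 4 * f) * (k / ((k + 3) * (k + 4)))) :
    M + 1 ≤ n + (k * (k + 1) * (k + 3) * n + 2 * (k + 1) * (k + 3) * (k + 4) - 24 * f) /
      (2 * (k + 1) * (k + 3) * (k + 4)) := by
  have hch : 6 * (k + 3).choose 3 = (k + 3) * (k + 2) * (k + 1) := by
    have e1 := Nat.add_one_mul_choose_eq (k + 2) 2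
    have e2 := Nat.add_one_mul_choose_eq (k + 1) 1
    rw [Nat.choose_one_right] at e2
    nlinarith
  have hchR : 6 * ((k + 3).choose 3 : ℝ) = ((k : ℝ) + 3) * (k + 2) * (k + 1) := by
    exact_mod_cast hch
  have h1R : 2 * (r : ℝ) = ((k : ℝ) + 3) * n := by exact_mod_cast h1
  have h2R : 2 * ((k : ℝ) + 1) * f' = ((k + 3).choose 3 : ℝ) * n + 4 * f := by exact_mod_cast h2
  have hf' : (f' : ℝ) = (k + 3) * (k + 2) * n / 12 + 2 * f / (k + 1) := by
    field_simp
    linear_combination 6 * h2R + (n : ℝ) * hchR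
  have hr : (r : ℝ) = (k + 3) * n / 2 := by linarith
  have key : (r : ℝ) + (f * (4 / (k + 4)) +
      ((k + 1) * f' - 4 * f) * (k / ((k + 3) * (k + 4)))) - f' =
      n + k * n / (2 * (k + 4)) - 12 * f / ((k + 1) * (k + 3) * (k + 4)) := by
    rw [hf', hr]
    field_simp
    ring
  have h5 : (M : ℝ) ≤ n + k * n / (2 * (k + 4)) - 12 * f / ((k + 1) * (k + 3) * (k + 4)) := by
    linarith
  rcases Nat.le_total (M + 1) n with h6 | h6
  · exact h6.trans (Nat.le_add_right _ _)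
  · obtain ⟨q, hq⟩ := Nat.exists_eq_add_of_le h6
    rw [hq]
    refine Nat.add_le_add_left ?_ n
    rw [Nat.le_div_iff_mul_le (by positivity)]
    apply Nat.le_sub_of_add_le
    have h8 : ((M : ℝ) + 1) = n + q := by exact_mod_cast hq
    have h9 : (q : ℝ) ≤ k * n / (2 * (k + 4)) - 12 * f / ((k + 1) * (k + 3) * (k + 4)) + 1 := by
      linarith
    have h10 : (0 : ℝ) < 2 * (k + 1) * (k + 3) * (k + 4) := by positivity
    have h11 := mul_le_mul_of_nonneg_right h9 h10.le
    have h12 : (k * n / (2 * (k + 4)) - 12 * f / ((k + 1) * (k + 3) * (k + 4)) + 1 : ℝ) *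
        (2 * (k + 1) * (k + 3) * (k + 4)) =
        k * (k + 1) * (k + 3) * n + 2 * (k + 1) * (k + 3) * (k + 4) - 24 * f := by
      field_simp
      ring
    rw [h12] at h11
    have h13 : (q : ℝ) * (2 * (k + 1) * (k + 3) * (k + 4)) + 24 * f ≤
        k * (k + 1) * (k + 3) * n + 2 * (k + 1) * (k + 3) * (k + 4) := by linarith
    exact_mod_cast h13

variable {ι : Type*} [DecidableEq ι] [Fintype ι] {k : ℕ}

/-- Every complex has a certificate with few ridges. -/
theorem exists_small_cert (hk : 0 < k) {F : Finset (Finset ι)} (hF : IsMfdD k F) :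
    ∃ M rk e, Cert (k + 2) F M rk e ∧ M.card + 1 ≤ F.card +
      (k * (k + 1) * (k + 3) * F.card + 2 * (k + 1) * (k + 3) * (k + 4) -
        24 * (fc k F).card) / (2 * (k + 1) * (k + 3) * (k + 4)) := by
  obtain ⟨pos, hpos, hle⟩ := Pool.TSph.exists_order_lower hk (fc k F)
    (fun σ hσ => (mem_fc.1 hσ).1) (fun σ => verts (lk F σ))
    (fun σ _ => by
      rw [Finset.disjoint_left]
      intro x hx hx'
      exact (mem_verts_lk.1 hx').1 hx)
    (fun σ S => (comp (adj (lk F σ)) S : ℝ))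
  have hlo : ∀ σ, (verts (lk F σ)).filter (fun y => ∀ x ∈ σ, pos y < pos x) = Lo F pos σ :=
    fun σ => by ext y; simp [Lo]
  simp only [hlo] at hle
  obtain ⟨M, rk, e, hC, hM⟩ := exists_cert hF hpos
  refine ⟨M, rk, e, hC, ?_⟩
  have h1 : ∑ σ ∈ fc k F, PhiK k (verts (lk F σ)) (fun S => (comp (adj (lk F σ)) S : ℝ)) ≤
      ∑ σ ∈ fc k F, (4 / (k + 4) + (((verts (lk F σ)).card : ℝ) - 4) *
        (k / ((k + 3) * (k + 4)))) :=
    Finset.sum_le_sum fun σ hσ => Pool.TSph.PhiK_comp_le hk (hF.sphere σ hσ)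
  have h2 : ∑ σ ∈ fc k F, ((4 / (k + 4) : ℝ) + (((verts (lk F σ)).card : ℝ) - 4) *
        (k / ((k + 3) * (k + 4)))) =
      (fc k F).card * (4 / (k + 4)) +
      ((k + 1) * (fc (k + 1) F).card - 4 * (fc k F).card) * (k / ((k + 3) * (k + 4))) := by
    have h3 : (∑ σ ∈ fc k F, ((verts (lk F σ)).card : ℝ)) = (k + 1) * (fc (k + 1) F).card := by
      exact_mod_cast sum_verts_lk F
    rw [Finset.sum_add_distrib, ← Finset.sum_mul,
      Finset.sum_sub_distrib, h3, Finset.sum_const, Finset.sum_const,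
      nsmul_eq_mul, nsmul_eq_mul]
    ring
  refine arith (((∑ σ ∈ fc k F, comp (adj (lk F σ)) (Lo F pos σ) : ℕ) : ℝ))
    (card_rdg (mfd_pm hF)) (euler_count hF) (by exact_mod_cast hM) ?_
  rw [← h2]
  push_cast
  exact hle.trans h1

/-- For every dimension there is `C` such that for all `n`, `f` the complexes with `n` facets and
`f` faces with `k` vertices fall into at most
`C ^ n * n ^ ((k (k+1) (k+3) n - 24 f) / (2 (k+1) (k+3) (k+4)))` isomorphism classes. -/
theorem main (hk : 0 < k) :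
    ∃ C : ℕ, ∀ n f : ℕ, ∃ S : Finset (Finset (Finset (Fin ((k + 3) * n)))),
      S.card ^ (2 * (k + 1) * (k + 3) * (k + 4)) ≤
        C ^ n * n ^ (k * (k + 1) * (k + 3) * n - 24 * f) ∧
      ∀ F : Finset (Finset (Fin ((k + 3) * n))), F.card = n → (fc k F).card = f →
        IsMfdD k F →
        ∃ G ∈ S, ∃ π : Equiv.Perm (Fin ((k + 3) * n)), G = F.image (fun σ => σ.image π) := by
  set A : ℕ := 4 * (k + 3) * (k + 4) ^ (k + 3) * 2 ^ (k + 3) with hA
  set Q : ℕ := 2 * (k + 1) * (k + 3) * (k + 4) with hQ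
  refine ⟨A ^ Q * (k + 3).factorial ^ (k * (k + 1) * (k + 3)) * ((k + 3).factorial ^ Q * 2 ^ Q),
    fun n f => ?_⟩
  rcases Nat.eq_zero_or_pos n with rfl | hn
  · refine ⟨{∅}, by simp, fun F hF _ _ => ⟨∅, by simp, 1, ?_⟩⟩
    rw [card_eq_zero] at hF
    simp [hF]
  · set E : ℕ := k * (k + 1) * (k + 3) with hE
    set r : ℕ := (E * n + Q - 24 * f) / Q with hr
    obtain ⟨S, hS, h⟩ := encoding (ι := Fin ((k + 3) * n)) (δ := k + 2) n r hn
    refine ⟨S, ?_, fun F hF hf hM => ?_⟩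
    · have h1 : 4 ^ n * (k + 2 + 1) ^ n * (k + 2 + 2) ^ ((k + 2 + 1) * n) *
          (2 ^ ((k + 2 + 1) * n) * ((k + 2 + 1).factorial * n) ^ r) =
          A ^ n * ((k + 3).factorial * n) ^ r := by
        rw [pow_mul (k + 2 + 2), pow_mul 2, hA, mul_pow (4 * (k + 3) * (k + 4) ^ (k + 3)),
          mul_pow (4 * (k + 3)), mul_pow 4 (k + 3) n]
        change 4 ^ n * (k + 3) ^ n * ((k + 4) ^ (k + 3)) ^ n * ((2 ^ (k + 3)) ^ n *
          ((k + 3).factorial * n) ^ r) = _
        simp only [mul_assoc]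
      rw [h1] at hS
      have hrQ : r * Q ≤ (E * n - 24 * f) + Q :=
        (Nat.div_mul_le_self _ _).trans (by omega)
      have hfn : 0 < (k + 3).factorial * n := Nat.mul_pos (Nat.factorial_pos _) hn
      have h2n : n ≤ 2 ^ n := (Nat.lt_two_pow_self).le
      calc S.card ^ Q ≤ (A ^ n * ((k + 3).factorial * n) ^ r) ^ Q := Nat.pow_le_pow_left hS _
        _ = (A ^ Q) ^ n * ((k + 3).factorial * n) ^ (r * Q) := by
            rw [mul_pow, ← pow_mul, ← pow_mul, ← pow_mul, mul_comm n Q]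
        _ ≤ (A ^ Q) ^ n * ((k + 3).factorial * n) ^ ((E * n - 24 * f) + Q) :=
            Nat.mul_le_mul_left _ (Nat.pow_le_pow_right hfn hrQ)
        _ = (A ^ Q) ^ n * ((k + 3).factorial ^ (E * n - 24 * f) *
              ((k + 3).factorial ^ Q * n ^ Q)) * n ^ (E * n - 24 * f) := by
            rw [pow_add, mul_pow, mul_pow]
            ring
        _ ≤ (A ^ Q) ^ n * ((k + 3).factorial ^ (E * n) *
              (((k + 3).factorial ^ Q) ^ n * (2 ^ n) ^ Q)) * n ^ (E * n - 24 * f) := by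
            refine Nat.mul_le_mul_right _ (Nat.mul_le_mul_left _ (Nat.mul_le_mul ?_
              (Nat.mul_le_mul ?_ (Nat.pow_le_pow_left h2n _))))
            · exact Nat.pow_le_pow_right (Nat.factorial_pos _) (Nat.sub_le _ _)
            · calc (k + 3).factorial ^ Q = ((k + 3).factorial ^ Q) ^ 1 := (pow_one _).symm
                _ ≤ _ := Nat.pow_le_pow_right (Nat.pow_pos (Nat.factorial_pos _)) hn
        _ = _ := by
            rw [mul_pow (A ^ Q * (k + 3).factorial ^ E), mul_pow (A ^ Q),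
              mul_pow ((k + 3).factorial ^ Q), ← pow_mul (k + 3).factorial E n,
              ← pow_mul 2 n Q, ← pow_mul 2 Q n, mul_comm n Q, ← mul_assoc ((A ^ Q) ^ n)]
    · obtain ⟨M, rk, e, hC, hc⟩ := exists_small_cert hk hM
      rw [hF, hf] at hc
      exact h F hF (mfd_pm hM) ⟨M, rk, e, hC, hc⟩

end Pool.TSphD
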