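import Pool.Agent.Lib.MP_3de3a3_co.DLab

/-! # Basic facts on labelled facets (module DMv) -/

set_option autoImplicit false

namespace Pool.TSphD

open Finset
open Pool.TSph (verts mem_verts)

variable {ι : Type*} [DecidableEq ι] {δ : ℕ}

theorem mv_off (F : Finset (Finset ι)) (f : Fin (δ + 1) → ι) {a b : Fin (δ + 1)} (h : b ≠ a) :
    mv F a f b = f b := by
  simp [mv, h]

theorem side_comp (f : Fin (δ + 1) → ι) (σ : Equiv.Perm (Fin (δ + 1))) (a : Fin (δ + 1)) :
    side (f ∘ σ) a = side f (σ a) := by
  ext x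
  simp only [side, mem_image, mem_erase, mem_univ, and_true, Function.comp_apply]
  constructor
  · rintro ⟨b, hb, rfl⟩
    exact ⟨σ b, fun h => hb (σ.injective h), rfl⟩
  · rintro ⟨c, hc, rfl⟩
    exact ⟨σ.symm c, fun h => hc (by rw [← h, Equiv.apply_symm_apply]), by
      rw [Equiv.apply_symm_apply]⟩

theorem side_mv (F : Finset (Finset ι)) (f : Fin (δ + 1) → ι) (a : Fin (δ + 1)) :
    side (mv F a f) a = side f a := by
  unfold side
  refine image_congr ?_
  intro b hb
  have hb' : b ≠ a := (mem_erase.1 (mem_coe.1 hb)).1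
  exact mv_off F f hb'

theorem isLF_comp {F : Finset (Finset ι)} {f : Fin (δ + 1) → ι} (hf : IsLF F f)
    (σ : Equiv.Perm (Fin (δ + 1))) : IsLF F (f ∘ σ) := by
  refine ⟨hf.1.comp σ.injective, ?_⟩
  have h1 : univ.image (f ∘ σ) = univ.image f := by
    ext x
    simp only [mem_image, mem_univ, true_and, Function.comp_apply]
    constructor
    · rintro ⟨b, rfl⟩; exact ⟨σ b, rfl⟩
    · rintro ⟨b, rfl⟩; exact ⟨σ.symm b, by rw [Equiv.apply_symm_apply]⟩
  rw [h1]
  exact hf.2

theorem Mv_card {f : Fin (δ + 1) → ι} (hf : Function.Injective f) (a : Fin (δ + 1)) : (side f a).card = δ := by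
  unfold side
  rw [card_image_of_injective _ hf, card_erase_of_mem (mem_univ a), card_univ, Fintype.card_fin,
    Nat.add_sub_cancel]

theorem Mv_sub (f : Fin (δ + 1) → ι) (a : Fin (δ + 1)) : side f a ⊆ univ.image f :=
  image_subset_image (erase_subset _ _)

theorem Mv_image (f : Fin (δ + 1) → ι) (a : Fin (δ + 1)) : univ.image f = insert (f a) (side f a) := by
  unfold side
  rw [← image_insert, insert_erase (mem_univ a)]

theorem Mv_notMem {f : Fin (δ + 1) → ι} (hf : Function.Injective f) (a : Fin (δ + 1)) : f a ∉ side f a := by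
  intro h
  obtain ⟨b, hb, hba⟩ := mem_image.1 h
  exact (mem_erase.1 hb).1 (hf hba)

theorem side_mem_rdg {F : Finset (Finset ι)} {f : Fin (δ + 1) → ι} (hf : IsLF F f) (a : Fin (δ + 1)) :
    side f a ∈ rdg δ F :=
  mem_rdg.2 ⟨Mv_card hf.1 a, _, hf.2, Mv_sub f a⟩

theorem Mv_opp {F : Finset (Finset ι)} (hF : PM δ F) {f : Fin (δ + 1) → ι} (hf : IsLF F f) (a : Fin (δ + 1)) :
    opp F f a ∉ univ.image f ∧ insert (opp F f a) (side f a) ∈ F := by
  have hex : ∃ y, y ∉ univ.image f ∧ insert y (side f a) ∈ F := by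
    have h2 := hF.two _ (side_mem_rdg hf a)
    have hmem : univ.image f ∈ F.filter (fun s => side f a ⊆ s) :=
      mem_filter.2 ⟨hf.2, Mv_sub f a⟩
    obtain ⟨s', hs', hne⟩ := exists_mem_ne (by omega : 1 < (F.filter (fun s => side f a ⊆ s)).card)
      (univ.image f)
    obtain ⟨hs'F, hsub⟩ := mem_filter.1 hs'
    have hc4 := hF.card s' hs'F
    have hc3 := Mv_card hf.1 a
    have hc1 : (s' \ side f a).card = 1 := by
      rw [card_sdiff_of_subset hsub]; omega
    obtain ⟨y, hy⟩ := card_eq_one.1 hc1
    have hy1 : y ∈ s' \ side f a := by rw [hy]; exact mem_singleton_self y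
    have hy2 := mem_sdiff.1 hy1
    have hs'eq : insert y (side f a) = s' := by
      ext z
      rw [mem_insert]
      constructor
      · rintro (rfl | hz)
        · exact hy2.1
        · exact hsub hz
      · intro hz
        by_cases hzs : z ∈ side f a
        · exact Or.inr hzs
        · left
          have : z ∈ s' \ side f a := mem_sdiff.2 ⟨hz, hzs⟩
          rw [hy] at this
          exact mem_singleton.1 this
    refine ⟨y, ?_, by rw [hs'eq]; exact hs'F⟩
    intro hyf
    rw [Mv_image f a, mem_insert] at hyf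
    rcases hyf with hyf | hyf
    · apply hne
      rw [← hs'eq, Mv_image f a, hyf]
    · exact hy2.2 hyf
  unfold opp
  rw [dif_pos hex]
  exact hex.choose_spec

theorem Mv_insert {t : Finset ι} {x y : ι} (hx : x ∉ t) (h : insert x t = insert y t) : x = y := by
  have h1 : x ∈ insert y t := by rw [← h]; exact mem_insert_self x t
  rcases mem_insert.1 h1 with h2 | h2
  · exact h2
  · exact absurd h2 hx

theorem Mv_two {F : Finset (Finset ι)} (hF : PM δ F) {f : Fin (δ + 1) → ι} (hf : IsLF F f) (a : Fin (δ + 1))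
    {s1 s2 s3 : Finset ι} (h1 : s1 ∈ F) (h1' : side f a ⊆ s1) (h2 : s2 ∈ F) (h2' : side f a ⊆ s2)
    (h3 : s3 ∈ F) (h3' : side f a ⊆ s3) (h12 : s1 ≠ s2) (h13 : s1 ≠ s3) : s2 = s3 := by
  by_contra h23
  have hc := hF.two _ (side_mem_rdg hf a)
  have hsub : ({s1, s2, s3} : Finset (Finset ι)) ⊆ F.filter (fun s => side f a ⊆ s) := by
    intro s hs
    simp only [mem_insert, mem_singleton] at hs
    rcases hs with rfl | rfl | rfl
    · exact mem_filter.2 ⟨h1, h1'⟩
    · exact mem_filter.2 ⟨h2, h2'⟩
    · exact mem_filter.2 ⟨h3, h3'⟩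
  have h4 := card_le_card hsub
  rw [hc, card_eq_three.2 ⟨s1, s2, s3, h12, h13, h23, rfl⟩] at h4
  omega

/-- The key fact: two labelled facets which agree except at position `a` are equal or
neighbours. -/
theorem mv_unique {F : Finset (Finset ι)} (hF : PM δ F) {f g : Fin (δ + 1) → ι} (hf : IsLF F f)
    (hg : IsLF F g) (a : Fin (δ + 1)) (h : ∀ b, b ≠ a → g b = f b) : g = f ∨ g = mv F a f := by
  by_cases hga : g a = f a
  · left
    funext b
    by_cases hb : b = a
    · rw [hb, hga]
    · exact h b hb
  · right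
    have hside : side g a = side f a := by
      unfold side
      refine image_congr ?_
      intro b hb
      exact h b (mem_erase.1 (mem_coe.1 hb)).1
    have hgn : g a ∉ side f a := by
      rw [← hside]; exact Mv_notMem hg.1 a
    have hfn := Mv_notMem hf.1 a
    obtain ⟨ho1, ho2⟩ := Mv_opp hF hf a
    have hon : opp F f a ∉ side f a := fun hc => ho1 (Mv_sub f a hc)
    have hof : opp F f a ≠ f a := fun hc => ho1 (by rw [hc]; exact mem_image_of_mem f (mem_univ a))
    have h1 : univ.image f = insert (f a) (side f a) := Mv_image f a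
    have h2 : univ.image g = insert (g a) (side f a) := by rw [Mv_image g a, hside]
    have h3 := Mv_two hF hf a (s1 := univ.image f) (s2 := univ.image g)
      (s3 := insert (opp F f a) (side f a)) hf.2 (Mv_sub f a) hg.2
      (by rw [h2]; exact subset_insert _ _) ho2 (subset_insert _ _)
      (by
        rw [h1, h2]
        intro hc
        exact hga (Mv_insert hfn hc).symm)
      (by
        rw [h1]
        intro hc
        exact hof (Mv_insert hfn hc).symm)
    rw [h2] at h3
    have h4 : g a = opp F f a := Mv_insert hgn h3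
    funext b
    by_cases hb : b = a
    · rw [hb]
      unfold mv
      rw [Function.update_self, h4]
    · rw [mv_off F f hb]; exact h b hb

theorem mv_isLF {F : Finset (Finset ι)} (hF : PM δ F) {f : Fin (δ + 1) → ι} (hf : IsLF F f)
    (a : Fin (δ + 1)) : IsLF F (mv F a f) := by
  obtain ⟨ho1, ho2⟩ := Mv_opp hF hf a
  have hself : mv F a f a = opp F f a := by
    unfold mv; rw [Function.update_self]
  refine ⟨?_, ?_⟩
  · intro b c hbc
    by_cases hb : b = a
    · by_cases hc : c = a
      · rw [hb, hc]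
      · rw [hb, hself, mv_off F f hc] at hbc
        exact absurd (by rw [hbc]; exact mem_image_of_mem f (mem_univ c)) ho1
    · by_cases hc : c = a
      · rw [hc, hself, mv_off F f hb] at hbc
        exact absurd (by rw [← hbc]; exact mem_image_of_mem f (mem_univ b)) ho1
      · rw [mv_off F f hb, mv_off F f hc] at hbc
        exact hf.1 hbc
  · rw [Mv_image (mv F a f) a, side_mv, hself]
    exact ho2

theorem mv_ne {F : Finset (Finset ι)} (hF : PM δ F) {f : Fin (δ + 1) → ι} (hf : IsLF F f)
    (a : Fin (δ + 1)) : mv F a f a ∉ univ.image f := by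
  have hself : mv F a f a = opp F f a := by
    unfold mv; rw [Function.update_self]
  rw [hself]
  exact (Mv_opp hF hf a).1

theorem mv_mv {F : Finset (Finset ι)} (hF : PM δ F) {f : Fin (δ + 1) → ι} (hf : IsLF F f)
    (a : Fin (δ + 1)) : mv F a (mv F a f) = f := by
  rcases mv_unique hF (mv_isLF hF hf a) hf a (fun b hb => (mv_off F f hb).symm) with h | h
  · exfalso
    apply mv_ne hF hf a
    rw [← h]
    exact mem_image_of_mem f (mem_univ a)
  · exact h.symm

theorem mv_comp {F : Finset (Finset ι)} (hF : PM δ F) {f : Fin (δ + 1) → ι} (hf : IsLF F f)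
    (σ : Equiv.Perm (Fin (δ + 1))) (a : Fin (δ + 1)) : mv F a (f ∘ σ) = mv F (σ a) f ∘ σ := by
  rcases mv_unique hF (isLF_comp hf σ) (isLF_comp (mv_isLF hF hf (σ a)) σ) a (fun b hb => by
      show mv F (σ a) f (σ b) = f (σ b)
      exact mv_off F f (fun h => hb (σ.injective h))) with h | h
  · exfalso
    apply mv_ne hF hf (σ a)
    have h1 : mv F (σ a) f (σ a) = f (σ a) := congrFun h a
    rw [h1]
    exact mem_image_of_mem f (mem_univ _)
  · exact h.symm

theorem image_mv_ne {F : Finset (Finset ι)} (hF : PM δ F) {f : Fin (δ + 1) → ι} (hf : IsLF F f)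
    (a : Fin (δ + 1)) : univ.image (mv F a f) ≠ univ.image f := by
  intro h
  apply mv_ne hF hf a
  rw [← h]
  exact mem_image_of_mem _ (mem_univ a)

theorem exists_perm {f g : Fin (δ + 1) → ι} (hf : Function.Injective f)
    (hg : Function.Injective g) (h : univ.image g = univ.image f) :
    ∃ σ : Equiv.Perm (Fin (δ + 1)), g = f ∘ σ := by
  have hex : ∀ x, ∃ y, f y = g x := by
    intro x
    have h1 : g x ∈ univ.image f := by rw [← h]; exact mem_image_of_mem g (mem_univ x)
    obtain ⟨y, _, hy⟩ := mem_image.1 h1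
    exact ⟨y, hy⟩
  choose τ hτ using hex
  have hinj : Function.Injective τ := by
    intro x y hxy
    apply hg
    rw [← hτ x, ← hτ y, hxy]
  refine ⟨Equiv.ofBijective τ (Finite.injective_iff_bijective.1 hinj), ?_⟩
  funext x
  exact (hτ x).symm

/-- A facet which contains the triangle `side f a` is the facet of `f` or of `mv F a f`. -/
theorem facet_of_side {F : Finset (Finset ι)} (hF : PM δ F) {f : Fin (δ + 1) → ι} (hf : IsLF F f)
    (a : Fin (δ + 1)) {s : Finset ι} (hs : s ∈ F) (h : side f a ⊆ s) :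
    s = univ.image f ∨ s = univ.image (mv F a f) := by
  by_cases hsf : s = univ.image f
  · exact Or.inl hsf
  · right
    have hsub : side f a ⊆ univ.image (mv F a f) := by
      rw [← side_mv F f a]; exact Mv_sub _ _
    exact Mv_two hF hf a hf.2 (Mv_sub f a) hs h (mv_isLF hF hf a).2 hsub (fun h => hsf h.symm)
      (image_mv_ne hF hf a).symm

end Pool.TSphD
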