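import Pool.Agent.Lib.MP_3de3a3_co.Moves
import Pool.Agent.Lib.MP_3de3a3_co.CycDef

/-! # Removing a vertex of degree 5 (module Reduce5) -/

set_option autoImplicit false

namespace Pool.TSph

open Finset

variable {ι : Type*} [DecidableEq ι]

/-- The five neighbours as separate variables. -/
theorem Reduce5_aux {L : Finset (Finset ι)} (hL : IsSphere2 L) (hV : 5 ≤ (verts L).card)
    {w b0 b1 b2 b3 b4 : ι}
    (h01 : b0 ≠ b1) (h02 : b0 ≠ b2) (h03 : b0 ≠ b3) (h04 : b0 ≠ b4) (h12 : b1 ≠ b2)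
    (h13 : b1 ≠ b3) (h14 : b1 ≠ b4) (h23 : b2 ≠ b3) (h24 : b2 ≠ b4) (h34 : b3 ≠ b4)
    (hw0 : b0 ≠ w) (hw1 : b1 ≠ w) (hw2 : b2 ≠ w) (hw3 : b3 ≠ w) (hw4 : b4 ≠ w)
    (t0 : ({w, b0, b1} : Finset ι) ∈ L) (t1 : ({w, b1, b2} : Finset ι) ∈ L)
    (t2 : ({w, b2, b3} : Finset ι) ∈ L) (t3 : ({w, b3, b4} : Finset ι) ∈ L)
    (t4 : ({w, b4, b0} : Finset ι) ∈ L)
    (hn2 : ¬ adj L b0 b2) (hn3 : ¬ adj L b0 b3) :
    ∃ L' : Finset (Finset ι), IsSphere2 L' ∧ verts L' = (verts L).erase w ∧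
      ∀ u v, u ≠ w → v ≠ w → (adj L' u v ↔ adj L u v ∨
        (u = b0 ∧ v = b2) ∨ (u = b2 ∧ v = b0) ∨
        (u = b0 ∧ v = b3) ∨ (u = b3 ∧ v = b0)) := by
  have t0' : ({w, b1, b0} : Finset ι) ∈ L := by
    rw [Finset.pair_comm b1 b0]; exact t0
  obtain ⟨L1, hL1, hS1, hV1, hA1⟩ := flip hL h02 t0' t1 hn2
  -- membership of a triangle in the second complex
  have keep1 : ∀ t ∈ L, b1 ∉ t → t ∈ L1 := by
    intro t ht hb
    rw [hL1, mem_union, mem_sdiff]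
    left
    refine ⟨ht, ?_⟩
    rw [mem_insert, mem_singleton]
    rintro (rfl | rfl) <;> simp at hb
  have n1 : ∀ {x y z : ι}, x ≠ b1 → y ≠ b1 → z ≠ b1 → b1 ∉ ({x, y, z} : Finset ι) := by
    intro x y z hx hy hz h
    simp only [mem_insert, mem_singleton] at h
    rcases h with h | h | h
    · exact hx h.symm
    · exact hy h.symm
    · exact hz h.symm
  have s4 : ({w, b4, b0} : Finset ι) ∈ L1 := keep1 _ t4 (n1 hw1.symm h14.symm h01)
  have s3 : ({w, b4, b3} : Finset ι) ∈ L1 := by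
    rw [Finset.pair_comm b4 b3]
    exact keep1 _ t3 (n1 hw1.symm h13.symm h14.symm)
  have s2 : ({w, b2, b3} : Finset ι) ∈ L1 := keep1 _ t2 (n1 hw1.symm h12.symm h13.symm)
  have s1 : ({w, b0, b2} : Finset ι) ∈ L1 := by
    rw [hL1, mem_union]
    right
    rw [mem_insert]
    left
    ext z
    simp only [mem_insert, mem_singleton]
    tauto
  have hn3' : ¬ adj L1 b0 b3 := by
    rw [hA1]
    rintro (h | h | h)
    · exact hn3 h.1
    · exact h23 h.2.symm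
    · exact h02 h.1
  obtain ⟨L2, hL2, hS2, hV2, hA2⟩ := flip hS1 h03 s4 s3 hn3'
  have keep2 : ∀ t ∈ L1, b4 ∉ t → t ∈ L2 := by
    intro t ht hb
    rw [hL2, mem_union, mem_sdiff]
    left
    refine ⟨ht, ?_⟩
    rw [mem_insert, mem_singleton]
    rintro (rfl | rfl) <;> simp at hb
  have n4 : ∀ {x y z : ι}, x ≠ b4 → y ≠ b4 → z ≠ b4 → b4 ∉ ({x, y, z} : Finset ι) := by
    intro x y z hx hy hz h
    simp only [mem_insert, mem_singleton] at h
    rcases h with h | h | h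
    · exact hx h.symm
    · exact hy h.symm
    · exact hz h.symm
  have r1 : ({w, b0, b2} : Finset ι) ∈ L2 := keep2 _ s1 (n4 hw4.symm h04 h24)
  have r2 : ({w, b2, b3} : Finset ι) ∈ L2 := keep2 _ s2 (n4 hw4.symm h24 h34)
  have r3 : ({w, b3, b0} : Finset ι) ∈ L2 := by
    rw [hL2, mem_union]
    right
    rw [mem_insert]
    left
    ext z
    simp only [mem_insert, mem_singleton]
    tauto
  have hV' : 5 ≤ (verts L2).card := by
    rw [hV2, hV1]; exact hV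
  obtain ⟨L', hS', hVL', hA'⟩ := move31 hS2 r1 r2 r3 hV' h02 h23 h03.symm
  refine ⟨L', hS', ?_, ?_⟩
  · rw [hVL', hV2, hV1]
  · intro u v hu hv
    rw [hA', hA2, hA1]
    constructor
    · rintro ⟨h, -, -⟩
      rcases h with ⟨h, -, -⟩ | h | h
      · rcases h with ⟨h, -, -⟩ | h | h
        · exact Or.inl h
        · exact Or.inr (Or.inl h)
        · exact Or.inr (Or.inr (Or.inl h))
      · exact Or.inr (Or.inr (Or.inr (Or.inl h)))
      · exact Or.inr (Or.inr (Or.inr (Or.inr h)))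
    · intro h
      refine ⟨?_, hu, hv⟩
      rcases h with h | h | h | h | h
      · left
        exact ⟨Or.inl ⟨h, fun h1 => hu h1.1, fun h1 => hv h1.2⟩, fun h1 => hu h1.1,
          fun h1 => hv h1.2⟩
      · left
        exact ⟨Or.inr (Or.inl h), fun h1 => hu h1.1, fun h1 => hv h1.2⟩
      · left
        exact ⟨Or.inr (Or.inr h), fun h1 => hu h1.1, fun h1 => hv h1.2⟩
      · right
        exact Or.inl h
      · right
        exact Or.inr h

/-- Flip the edges `w, a (i+1)` and `w, a (i+4)`, then remove `w`. -/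
theorem reduce5 {L : Finset (Finset ι)} (hL : IsSphere2 L) (hV : 5 ≤ (verts L).card) {w : ι}
    {a : Fin 5 → ι} (hc : LinkCycle L w 5 a) (i : Fin 5) (hn2 : ¬ adj L (a i) (a (i + 2)))
    (hn3 : ¬ adj L (a i) (a (i + 3))) :
    ∃ L' : Finset (Finset ι), IsSphere2 L' ∧ verts L' = (verts L).erase w ∧
      ∀ u v, u ≠ w → v ≠ w → (adj L' u v ↔ adj L u v ∨
        (u = a i ∧ v = a (i + 2)) ∨ (u = a (i + 2) ∧ v = a i) ∨
        (u = a i ∧ v = a (i + 3)) ∨ (u = a (i + 3) ∧ v = a i)) := by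
  have hne : ∀ {j k : Fin 5}, j ≠ k → a j ≠ a k := fun h h1 => h (hc.inj h1)
  have e1 : ∀ j : Fin 5, j ≠ j + 1 := by decide
  have e2 : ∀ j : Fin 5, j ≠ j + 2 := by decide
  have e3 : ∀ j : Fin 5, j ≠ j + 3 := by decide
  have e4 : ∀ j : Fin 5, j ≠ j + 4 := by decide
  have e12 : ∀ j : Fin 5, j + 1 ≠ j + 2 := by decide
  have e13 : ∀ j : Fin 5, j + 1 ≠ j + 3 := by decide
  have e14 : ∀ j : Fin 5, j + 1 ≠ j + 4 := by decide
  have e23 : ∀ j : Fin 5, j + 2 ≠ j + 3 := by decide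
  have e24 : ∀ j : Fin 5, j + 2 ≠ j + 4 := by decide
  have e34 : ∀ j : Fin 5, j + 3 ≠ j + 4 := by decide
  have f1 : ∀ j : Fin 5, j + 1 + 1 = j + 2 := by decide
  have f2 : ∀ j : Fin 5, j + 2 + 1 = j + 3 := by decide
  have f3 : ∀ j : Fin 5, j + 3 + 1 = j + 4 := by decide
  have f4 : ∀ j : Fin 5, j + 4 + 1 = j := by decide
  have t1 := hc.tri (i + 1)
  have t2 := hc.tri (i + 2)
  have t3 := hc.tri (i + 3)
  have t4 := hc.tri (i + 4)
  rw [f1] at t1
  rw [f2] at t2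
  rw [f3] at t3
  rw [f4] at t4
  exact Reduce5_aux hL hV (hne (e1 i)) (hne (e2 i)) (hne (e3 i)) (hne (e4 i)) (hne (e12 i))
    (hne (e13 i)) (hne (e14 i)) (hne (e23 i)) (hne (e24 i)) (hne (e34 i))
    (hc.ne _) (hc.ne _) (hc.ne _) (hc.ne _) (hc.ne _) (hc.tri i) t1 t2 t3 t4 hn2 hn3

end Pool.TSph
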