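import Pool.Agent.Lib.MP_3de3a3_co.Reduce34
import Pool.Agent.Lib.MP_3de3a3_co.Reduce5

/-! # Removing a vertex of degree 3, 4, 5 (module Reduce) -/

set_option autoImplicit false
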