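import Pool.Agent.Lib.MP_3de3a3_co.Comp
import Pool.Agent.Lib.MP_3de3a3_co.DEp
import Pool.Agent.Lib.MP_3de3a3_co.Reduce
import Pool.Agent.Lib.MP_3de3a3_co.DBeta
import Pool.Agent.Lib.MP_3de3a3_co.Cyc

/-! # Removing a vertex of degree 3 (module DStep3) -/

set_option autoImplicit false

namespace Pool.TSph

open Finset

variable {ι : Type*} [DecidableEq ι]

private theorem Step3_adj {L : Finset (Finset ι)} {w : ι}
    {a : Fin 3 → ι} (hc : LinkCycle L w 3 a) {i j : Fin 3} (h : i ≠ j) :
    adj L (a i) (a j) := by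
  have h1 : ∀ i j : Fin 3, i ≠ j → j = i + 1 ∨ i = j + 1 := by decide
  rcases h1 i j h with h2 | h2
  · subst h2
    exact ⟨hc.inj.ne h, _, hc.tri i, by simp, by simp⟩
  · subst h2
    exact ⟨hc.inj.ne h, _, hc.tri j, by simp, by simp⟩

/-- `Phi_step` with `d = 3`, `J = {()}`, `beta3`. If no `a i` is in `S` then `w` is isolated in
`insert w S`; otherwise the neighbours of `w` in `S` are pairwise adjacent, so
`comp (insert w S) = comp S` (`comp_insert_one`). -/
theorem pstep3 {p : ℝ} (hp0 : 0 ≤ p) (hp1 : p ≤ 1) {L : Finset (Finset ι)}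
    (hL : IsSphere2 L) (hV : 5 ≤ (verts L).card) {w : ι}
    {a : Fin 3 → ι} (hw : w ∈ verts L) (hc : LinkCycle L w 3 a) :
    ∃ L' : Finset (Finset ι), IsSphere2 L' ∧ verts L' = (verts L).erase w ∧
      ep p L ≤ ep p L' + p * (1 - p) ^ 3 := by
  classical
  obtain ⟨L', hL', hv, hadj⟩ := reduce3 hL hV hc
  refine ⟨L', hL', hv, ?_⟩
  have hsymm : ∀ u v, adj L u v → adj L v u := fun u v h => adj_symm h
  have haW : ∀ i, a i ∈ (verts L).erase w := fun i =>
    mem_erase.2 ⟨hc.ne i, adj_mem_right ((hc.all (a i)).2 ⟨i, rfl⟩)⟩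
  obtain ⟨j, -, hj⟩ := Ep_step hp0 hp1 hw (fun S => (comp (adj L) S : ℝ)) ({()} : Finset Unit)
    (singleton_nonempty _) (fun _ S => (comp (adj L') S : ℝ)) a hc.inj haW (fun B => beta3 B p)
    (p * (1 - p) ^ 3) (by
      intro S hS
      have hwS : w ∉ S := fun h => (mem_erase.1 (hS h)).1 rfl
      have hcomp' : comp (adj L') S = comp (adj L) S := by
        refine comp_congr fun u hu v hvS => hadj u v ?_ ?_
        · intro h; exact hwS (h ▸ hu)
        · intro h; exact hwS (h ▸ hvS)
      rw [sum_singleton, card_singleton, hcomp']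
      by_cases hB : univ.filter (fun i => a i ∈ S) = ∅
      · have hiso : comp (adj L) (insert w S) = comp (adj L) S + 1 := by
          refine comp_insert_isolated hsymm hwS fun v hv h => ?_
          obtain ⟨i, rfl⟩ := (hc.all v).1 h
          have : i ∈ univ.filter (fun i => a i ∈ S) := mem_filter.2 ⟨mem_univ _, hv⟩
          rw [hB] at this
          exact notMem_empty _ this
        unfold beta3
        rw [hiso, if_pos hB]
        push_cast
        linarith
      · obtain ⟨i, hi⟩ := nonempty_iff_ne_empty.2 hB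
        have hiS : a i ∈ S := (mem_filter.1 hi).2
        have hone : comp (adj L) (insert w S) = comp (adj L) S := by
          refine comp_insert_one hsymm hwS hiS ((hc.all (a i)).2 ⟨i, rfl⟩) fun v hv h => ?_
          obtain ⟨j, rfl⟩ := (hc.all v).1 h
          by_cases hji : j = i
          · rw [hji]; exact Relation.ReflTransGen.refl
          · exact Relation.ReflTransGen.single ⟨hiS, Step3_adj hc hji⟩
        unfold beta3
        rw [hone, if_neg hB]
        push_cast
        linarith) (beta3_sum p)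
  unfold ep
  rw [hv]
  exact hj

end Pool.TSph
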