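import Pool.Agent.Lib.MP_3de3a3_co.Comp
import Pool.Agent.Lib.MP_3de3a3_co.DEp
import Pool.Agent.Lib.MP_3de3a3_co.Reduce
import Pool.Agent.Lib.MP_3de3a3_co.DBeta
import Pool.Agent.Lib.MP_3de3a3_co.Cyc

/-! # Removing a vertex of degree 4, a 0 and a 2 not adjacent (module DStep4A) -/

set_option autoImplicit false

namespace Pool.TSph

open Finset

variable {ι : Type*} [DecidableEq ι]

private theorem Step4A_adj {L : Finset (Finset ι)} {w : ι}
    {a : Fin 4 → ι} (hc : LinkCycle L w 4 a) (i : Fin 4) : adj L (a i) (a (i + 1)) := by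
  have h1 : ∀ i : Fin 4, i ≠ i + 1 := by decide
  exact ⟨hc.inj.ne (h1 i), _, hc.tri i, by simp, by simp⟩

/-- consecutive neighbours in `S` are connected -/
private theorem Step4A_cn1 {L : Finset (Finset ι)} {w : ι} {a : Fin 4 → ι}
    (hc : LinkCycle L w 4 a) {S : Finset ι} {i j : Fin 4} (hi : a i ∈ S) (hj : a j ∈ S)
    (h : j = i + 1 ∨ i = j + 1) : cn (adj L) S (a i) (a j) := by
  rcases h with h | h
  · subst h
    exact Relation.ReflTransGen.single ⟨hj, Step4A_adj hc i⟩
  · subst h
    exact Relation.ReflTransGen.single ⟨hj, adj_symm (Step4A_adj hc j)⟩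

/-- if the trace is an arc then all neighbours in `S` are connected in `S` -/
private theorem Step4A_arc {L : Finset (Finset ι)} {w : ι} {a : Fin 4 → ι}
    (hc : LinkCycle L w 4 a) {S : Finset ι}
    (h02 : univ.filter (fun i => a i ∈ S) ≠ {0, 2}) (h13 : univ.filter (fun i => a i ∈ S) ≠ {1, 3})
    {i j : Fin 4} (hi : a i ∈ S) (hj : a j ∈ S) : cn (adj L) S (a i) (a j) := by
  have key : ∀ B : Finset (Fin 4), B ≠ {0, 2} → B ≠ {1, 3} → ∀ i ∈ B, i + 2 ∈ B →
      i + 1 ∈ B ∨ i + 3 ∈ B := by decide
  have hcases : ∀ i j : Fin 4, j = i ∨ j = i + 1 ∨ i = j + 1 ∨ j = i + 2 := by decide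
  have hiB : i ∈ univ.filter (fun i => a i ∈ S) := mem_filter.2 ⟨mem_univ _, hi⟩
  rcases hcases i j with h | h | h | h
  · subst h; exact Relation.ReflTransGen.refl
  · exact Step4A_cn1 hc hi hj (Or.inl h)
  · exact Step4A_cn1 hc hi hj (Or.inr h)
  · subst h
    have hjB : i + 2 ∈ univ.filter (fun i => a i ∈ S) := mem_filter.2 ⟨mem_univ _, hj⟩
    have e1 : ∀ i : Fin 4, i + 2 = i + 1 + 1 := by decide
    have e2 : ∀ i : Fin 4, i + 3 = i + 2 + 1 := by decide
    have e3 : ∀ i : Fin 4, i = i + 3 + 1 := by decide
    rcases key _ h02 h13 i hiB hjB with h1 | h1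
    · have h2 := (mem_filter.1 h1).2
      exact CompA_trans (Step4A_cn1 hc hi h2 (Or.inl rfl)) (Step4A_cn1 hc h2 hj (Or.inl (e1 i)))
    · have h2 := (mem_filter.1 h1).2
      exact CompA_trans (Step4A_cn1 hc hi h2 (Or.inr (e3 i))) (Step4A_cn1 hc h2 hj (Or.inr (e2 i)))

/-- The case that `a 0` and `a 2` are not adjacent: `Phi_step` with `d = 4`, `beta4`.
`S` with trace `B = {i | a i ∈ S}`. `B = ∅` : `w` is isolated, value `p`. `B = {0,2}` : let
`s = 0` if `a 0, a 2` are connected in `S`, `s = 1` otherwise; `comp (insert w S) = comp S - s`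
and `comp' S = comp S - s`, value `(1-p) s ≤ 1-p`. `B = {1,3}` : `comp (insert w S) = comp S - s`,
`comp' S = comp S`, value `- p s ≤ 0`. In all other cases `comp (insert w S) = comp S = comp' S`
(the traces are arcs of the cycle; the chord joins vertices which are connected via `a 1` or
`a 3`). -/
theorem pstep4_aux {p : ℝ} (hp0 : 0 ≤ p) (hp1 : p ≤ 1) {L : Finset (Finset ι)}
    (hL : IsSphere2 L) (hV : 5 ≤ (verts L).card) {w : ι}
    {a : Fin 4 → ι} (hw : w ∈ verts L) (hc : LinkCycle L w 4 a)
    (hn : ¬ adj L (a 0) (a 2)) :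
    ∃ L' : Finset (Finset ι), IsSphere2 L' ∧ verts L' = (verts L).erase w ∧
      ep p L ≤ ep p L' + p * (1 - p) ^ 3 := by
  classical
  obtain ⟨L', hL', hv, hadj⟩ := reduce4 hL hV hc 0 (by simpa using hn)
  have e02 : (0 : Fin 4) + 2 = 2 := by decide
  rw [e02] at hadj
  refine ⟨L', hL', hv, ?_⟩
  have hsymm : ∀ u v, adj L u v → adj L v u := fun u v h => adj_symm h
  have hsymm' : ∀ u v, adj L' u v → adj L' v u := fun u v h => adj_symm h
  have haW : ∀ i, a i ∈ (verts L).erase w := fun i =>
    mem_erase.2 ⟨hc.ne i, adj_mem_right ((hc.all (a i)).2 ⟨i, rfl⟩)⟩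
  have hwa : ∀ i, adj L w (a i) := fun i => (hc.all (a i)).2 ⟨i, rfl⟩
  obtain ⟨j, -, hj⟩ := Ep_step hp0 hp1 hw (fun S => (comp (adj L) S : ℝ)) ({()} : Finset Unit)
    (singleton_nonempty _) (fun _ S => (comp (adj L') S : ℝ)) a hc.inj haW (fun B => beta4 B p)
    (p * (1 - p) ^ 3) (by
      intro S hS
      have hwS : w ∉ S := fun h => (mem_erase.1 (hS h)).1 rfl
      have hneS : ∀ u ∈ S, u ≠ w := fun u hu h => hwS (h ▸ hu)
      have hmemB : ∀ i, i ∈ univ.filter (fun i => a i ∈ S) ↔ a i ∈ S := fun i => by simp
      rw [sum_singleton, card_singleton]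
      by_cases hB : univ.filter (fun i => a i ∈ S) = ∅
      · have hnot : ∀ i, a i ∉ S := by
          intro i hi
          rw [← hmemB i, hB] at hi
          exact notMem_empty _ hi
        have hiso : comp (adj L) (insert w S) = comp (adj L) S + 1 := by
          refine comp_insert_isolated hsymm hwS fun v hv h => ?_
          obtain ⟨i, rfl⟩ := (hc.all v).1 h
          exact hnot i hv
        have hcomp' : comp (adj L') S = comp (adj L) S := by
          refine comp_congr fun u hu v hvS => ?_
          rw [hadj u v (hneS u hu) (hneS v hvS)]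
          constructor
          · rintro (h | ⟨h, -⟩ | ⟨h, -⟩)
            · exact h
            · exact absurd (h ▸ hu) (hnot 0)
            · exact absurd (h ▸ hu) (hnot 2)
          · exact Or.inl
        have h1 : ¬ (∅ : Finset (Fin 4)) = {0, 2} := by decide
        unfold beta4
        rw [hiso, hcomp', hB, if_pos rfl, if_neg h1]
        push_cast
        linarith
      · by_cases h02 : univ.filter (fun i => a i ∈ S) = {0, 2}
        · have ha0 : a 0 ∈ S := by rw [← hmemB 0, h02]; decide
          have ha2 : a 2 ∈ S := by rw [← hmemB 2, h02]; decide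
          have h1 := comp_insert_two hsymm hwS ha0 ha2 (hwa 0) (hwa 2) (fun v hv h => by
            obtain ⟨i, rfl⟩ := (hc.all v).1 h
            rw [← hmemB i, h02, mem_insert, mem_singleton] at hv
            rcases hv with rfl | rfl
            · exact Or.inl Relation.ReflTransGen.refl
            · exact Or.inr Relation.ReflTransGen.refl)
          have h2 := comp_merge (A' := adj L') hsymm hsymm' ha0 ha2
            (fun u hu v hvS h => (hadj u v (hneS u hu) (hneS v hvS)).2 (Or.inl h))
            (fun u hu v hvS h => by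
              rcases (hadj u v (hneS u hu) (hneS v hvS)).1 h with h | ⟨rfl, rfl⟩ | ⟨rfl, rfl⟩
              · exact Or.inl (Relation.ReflTransGen.single ⟨hvS, h⟩)
              · exact Or.inr (Or.inl ⟨Relation.ReflTransGen.refl, Relation.ReflTransGen.refl⟩)
              · exact Or.inr (Or.inr ⟨Relation.ReflTransGen.refl, Relation.ReflTransGen.refl⟩))
            (Relation.ReflTransGen.single ⟨ha2,
              (hadj _ _ (hc.ne 0) (hc.ne 2)).2 (Or.inr (Or.inl ⟨rfl, rfl⟩))⟩)
          have h3 : comp (adj L') S = comp (adj L) (insert w S) := by omega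
          have h4 : (comp (adj L) S : ℝ) ≤ comp (adj L) (insert w S) + 1 := by
            have : comp (adj L) S ≤ comp (adj L) (insert w S) + 1 := by
              rw [← h1]; split_ifs <;> omega
            exact_mod_cast this
          have h5 : ¬ ({0, 2} : Finset (Fin 4)) = ∅ := by decide
          unfold beta4
          rw [h3, h02, if_neg h5, if_pos rfl]
          push_cast
          nlinarith
        · by_cases h13 : univ.filter (fun i => a i ∈ S) = {1, 3}
          · have ha1 : a 1 ∈ S := by rw [← hmemB 1, h13]; decide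
            have ha3 : a 3 ∈ S := by rw [← hmemB 3, h13]; decide
            have ha0 : a 0 ∉ S := by rw [← hmemB 0, h13]; decide
            have ha2 : a 2 ∉ S := by rw [← hmemB 2, h13]; decide
            have h1 := comp_insert_two hsymm hwS ha1 ha3 (hwa 1) (hwa 3) (fun v hv h => by
              obtain ⟨i, rfl⟩ := (hc.all v).1 h
              rw [← hmemB i, h13, mem_insert, mem_singleton] at hv
              rcases hv with rfl | rfl
              · exact Or.inl Relation.ReflTransGen.refl
              · exact Or.inr Relation.ReflTransGen.refl)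
            have hcomp' : comp (adj L') S = comp (adj L) S := by
              refine comp_congr fun u hu v hvS => ?_
              rw [hadj u v (hneS u hu) (hneS v hvS)]
              constructor
              · rintro (h | ⟨h, -⟩ | ⟨h, -⟩)
                · exact h
                · exact absurd (h ▸ hu) ha0
                · exact absurd (h ▸ hu) ha2
              · exact Or.inl
            have h4 : (comp (adj L) (insert w S) : ℝ) ≤ comp (adj L) S := by
              have : comp (adj L) (insert w S) ≤ comp (adj L) S := by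
                rw [← h1]; exact Nat.le_add_right _ _
              exact_mod_cast this
            have h5 : ¬ ({1, 3} : Finset (Fin 4)) = ∅ := by decide
            have h6 : ¬ ({1, 3} : Finset (Fin 4)) = {0, 2} := by decide
            unfold beta4
            rw [hcomp', h13, if_neg h5, if_neg h6]
            push_cast
            nlinarith
          · obtain ⟨i, hi⟩ := nonempty_iff_ne_empty.2 hB
            have hiS : a i ∈ S := (mem_filter.1 hi).2
            have hone : comp (adj L) (insert w S) = comp (adj L) S := by
              refine comp_insert_one hsymm hwS hiS (hwa i) fun v hv h => ?_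
              obtain ⟨j, rfl⟩ := (hc.all v).1 h
              exact Step4A_arc hc h02 h13 hv hiS
            have hcomp' : comp (adj L') S = comp (adj L) S := by
              refine comp_same hsymm hsymm'
                (fun u hu v hvS h => (hadj u v (hneS u hu) (hneS v hvS)).2 (Or.inl h))
                (fun u hu v hvS h => ?_)
              rcases (hadj u v (hneS u hu) (hneS v hvS)).1 h with h | ⟨rfl, rfl⟩ | ⟨rfl, rfl⟩
              · exact Relation.ReflTransGen.single ⟨hvS, h⟩
              · exact Step4A_arc hc h02 h13 hu hvS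
              · exact Step4A_arc hc h02 h13 hu hvS
            unfold beta4
            rw [hone, hcomp', if_neg hB, if_neg h02]
            push_cast
            linarith) (beta4_sum p)
  unfold ep
  rw [hv]
  exact hj

end Pool.TSph
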