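import Pool.Agent.Lib.MP_3de3a3_co.DStep5Of
import Pool.Agent.Lib.MP_3de3a3_co.Sep
import Pool.Agent.Lib.MP_3de3a3_co.DBeta

/-! # Removing a vertex of degree 5, first case (module DStep5A) -/

set_option autoImplicit false

namespace Pool.TSph

open Finset

variable {ι : Type*} [DecidableEq ι]

private theorem s5A_edge {L : Finset (Finset ι)} {w : ι} {a : Fin 5 → ι}
    (hc : LinkCycle L w 5 a) (i : Fin 5) : adj L (a i) (a (i + 1)) := by
  refine ⟨fun h => ?_, _, hc.tri i, by simp, by simp⟩
  have h1 := hc.inj h
  revert h1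
  fin_cases i <;> decide

private theorem s5A_sep0 {L : Finset (Finset ι)} {S : Finset ι} {u v : ι}
    (hv : v ∈ S) (h : adj L u v) : sepd L S u v = 0 := by
  unfold sepd
  rw [if_pos]
  exact Relation.ReflTransGen.single ⟨hv, h⟩

private theorem s5A_sep1 {L : Finset (Finset ι)} {S : Finset ι} {u v : ι}
    (h : ¬ cn (adj L) S u v) : sepd L S u v = 1 := by
  unfold sepd
  rw [if_neg h]

private theorem s5A_sepb (L : Finset (Finset ι)) (S : Finset ι) (u v : ι) :
    0 ≤ sepd L S u v ∧ sepd L S u v ≤ 1 := by
  unfold sepd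
  split_ifs <;> norm_num

private theorem s5A_le {s p : ℝ} (h : 0 ≤ s ∧ s ≤ 1) (hp : p ≤ 1) : s * (1 - p) ≤ 1 - p := by
  have := mul_le_mul_of_nonneg_right h.2 (sub_nonneg.2 hp)
  linarith

private theorem s5A_le' {s p : ℝ} (h : 0 ≤ s ∧ s ≤ 1) (hp : 0 ≤ p) : s * (0 - p) ≤ 0 := by
  have := mul_nonneg h.1 hp
  linarith

/-- `a 0, a 2` adjacent, `a 0, a 3` not adjacent: `J = {3}`, `beta5a`. By `sep5` for `i = 0`
the vertices `a 1, a 3` are not adjacent. Pairs: `{0,2}` : separation 0 (adjacent). `{1,3}` :
`≤ 1-p`. `{4,1}` : `i = 4`, separation 1 by `sep5`, value `-p`. `{3,0}` : `≤ 1-p`. `{2,4}` : `≤ 0`.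
Triples: `m = 0` : 0; `m = 1` : `≤ 1-p`; `m = 2` : `a 2, a 0, a 4` connected, 0; `m = 3` :
`≤ 1-p`; `m = 4` : `≤ 0`. -/
theorem pstep5a {p : ℝ} (hp0 : 0 ≤ p) (hp1 : p ≤ 1) {L : Finset (Finset ι)}
    (hL : IsSphere2 L) (hV : 5 ≤ (verts L).card) {w : ι}
    {a : Fin 5 → ι} (hw : w ∈ verts L) (hc : LinkCycle L w 5 a)
    (h02 : adj L (a 0) (a 2)) (h03 : ¬ adj L (a 0) (a 3)) :
    ∃ L' : Finset (Finset ι), IsSphere2 L' ∧ verts L' = (verts L).erase w ∧
      ep p L ≤ ep p L' + p * (1 - p) ^ 3 := by
  have h13 : ¬ adj L (a 3) (a 1) := by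
    intro h
    have hne : ∀ i j : Fin 5, i ≠ j → a i ≠ a j := fun i j hij he => hij (hc.inj he)
    have h1 := (sep5 hL hc 0 h02 (S := {a 1, a 3})
      (by simp only [mem_insert, mem_singleton, not_or]; exact ⟨(hc.ne 1).symm, (hc.ne 3).symm⟩)
      (by simp only [mem_insert, mem_singleton, not_or]
          exact ⟨hne 0 1 (by decide), hne 0 3 (by decide)⟩)
      (by simp only [mem_insert, mem_singleton, not_or]
          exact ⟨hne _ 1 (by decide), hne _ 3 (by decide)⟩)
      (by simp)).1
    exact h1 (Relation.ReflTransGen.single ⟨by simp, adj_symm h⟩)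
  refine pstep5_of hp0 hp1 hL hV hw hc {3} ⟨3, by simp⟩ ?_ ?_
    (fun B => beta5a B p) (beta5a_sum p) ?_
  · intro j hj
    rw [mem_singleton] at hj
    subst hj
    exact fun h => h03 (adj_symm h)
  · intro j hj
    rw [mem_singleton] at hj
    subst hj
    exact h13
  intro S hS
  rw [sum_singleton, card_singleton, Nat.cast_one, one_mul]
  have hmem : ∀ i, i ∈ univ.filter (fun i => a i ∈ S) ↔ a i ∈ S := by
    intro i
    simp
  have hwS : w ∉ S := fun h => by simpa using hS h
  by_cases hB0 : univ.filter (fun i => a i ∈ S) = ∅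
  · rw [K5_empty hc 3 hS hB0, hB0]
    unfold beta5a
    rw [if_pos rfl, if_neg (by decide), if_neg (by decide), if_neg (by decide),
      if_neg (by decide), if_neg (by decide)]
    linarith
  by_cases hB2 : ∃ i, univ.filter (fun i => a i ∈ S) = {i, i + 2}
  · obtain ⟨i, hi⟩ := hB2
    have hK := K5_pair hc 3 hS i hi p
    have hm : ∀ k, a k ∈ S ↔ k ∈ ({i, i + 2} : Finset (Fin 5)) := by
      intro k
      rw [← hi, hmem]
    rw [hK, hi]
    clear hK hi hmem
    have hb := s5A_sepb L S (a i) (a (i + 2))
    unfold beta5a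
    fin_cases i
    · have e : sepd L S (a 0) (a (0 + 2)) = 0 := s5A_sep0 ((hm _).2 (by decide)) h02
      have e2 : (({0, 0 + 2} : Finset (Fin 5))) = {0, 2} := rfl
      change sepd L S (a 0) (a (0 + 2)) * _ ≤ _
      rw [e, zero_mul]
      rw [if_neg (by decide), if_neg (by decide), if_neg (by decide), if_neg (by decide),
        if_neg (by decide), if_neg (by decide)]
      norm_num
    · rw [if_pos (by decide), if_neg (by decide), if_pos (by decide), if_neg (by decide),
        if_neg (by decide), if_neg (by decide), if_neg (by decide)]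
      have := s5A_le hb hp1
      linarith
    · rw [if_neg (by decide), if_neg (by decide), if_neg (by decide), if_neg (by decide),
        if_neg (by decide), if_neg (by decide), if_neg (by decide)]
      have := s5A_le' hb hp0
      linarith
    · rw [if_pos (by decide), if_neg (by decide), if_neg (by decide), if_neg (by decide),
        if_pos (by decide), if_neg (by decide), if_neg (by decide)]
      have := s5A_le hb hp1
      linarith
    · have h1 : ¬ cn (adj L) S (a 4) (a (4 + 2)) := by
        intro h
        have h4 : a 4 ∈ S := (hm _).2 (by decide)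
        have h5 := cn_symm (fun _ _ => adj_symm) h4 h
        exact (sep5 hL hc 0 h02 hwS (fun h => absurd ((hm _).1 h) (by decide))
          (fun h => absurd ((hm _).1 h) (by decide)) ((hm _).2 (by decide))).2 h5
      have e : sepd L S (a 4) (a (4 + 2)) = 1 := s5A_sep1 h1
      change sepd L S (a 4) (a (4 + 2)) * _ ≤ _
      rw [e, one_mul]
      rw [if_neg (by decide), if_neg (by decide), if_neg (by decide), if_pos (by decide),
        if_neg (by decide), if_neg (by decide), if_neg (by decide)]
      linarith
  by_cases hB3 : ∃ m, univ.filter (fun i => a i ∈ S) = {m, m + 2, m + 3}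
  · obtain ⟨i, hi⟩ := hB3
    have hK := K5_triple hc 3 hS i hi p
    have hm : ∀ k, a k ∈ S ↔ k ∈ ({i, i + 2, i + 3} : Finset (Fin 5)) := by
      intro k
      rw [← hi, hmem]
    rw [hK, hi]
    clear hK hi hmem
    have hb := s5A_sepb L S (a i) (a (i + 2))
    unfold beta5a
    fin_cases i
    · have e : sepd L S (a 0) (a (0 + 2)) = 0 := s5A_sep0 ((hm _).2 (by decide)) h02
      change sepd L S (a 0) (a (0 + 2)) * _ ≤ _
      rw [e, zero_mul]
      rw [if_neg (by decide), if_neg (by decide), if_neg (by decide), if_neg (by decide),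
        if_neg (by decide), if_neg (by decide)]
      norm_num
    · rw [if_pos (by decide), if_neg (by decide), if_neg (by decide), if_neg (by decide),
        if_neg (by decide), if_pos (by decide), if_neg (by decide)]
      have := s5A_le hb hp1
      linarith
    · have e : sepd L S (a 2) (a (2 + 2)) = 0 := by
        unfold sepd
        rw [if_pos]
        refine Relation.ReflTransGen.head (b := a 0) ⟨(hm _).2 (by decide), adj_symm h02⟩ ?_
        exact Relation.ReflTransGen.single ⟨(hm _).2 (by decide), adj_symm (s5A_edge hc 4)⟩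
      change sepd L S (a 2) (a (2 + 2)) * _ ≤ _
      rw [e, zero_mul]
      rw [if_neg (by decide), if_neg (by decide), if_neg (by decide), if_neg (by decide),
        if_neg (by decide), if_neg (by decide)]
      norm_num
    · rw [if_pos (by decide), if_neg (by decide), if_neg (by decide), if_neg (by decide),
        if_neg (by decide), if_neg (by decide), if_pos (by decide)]
      have := s5A_le hb hp1
      linarith
    · rw [if_neg (by decide), if_neg (by decide), if_neg (by decide), if_neg (by decide),
        if_neg (by decide), if_neg (by decide), if_neg (by decide)]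
      have := s5A_le' hb hp0
      linarith
  · push Not at hB2 hB3
    rw [K5_arc hc 3 hS hB0 hB2 hB3]
    unfold beta5a
    rw [if_neg hB0, if_neg (fun h => hB2 1 (h.trans (by decide))),
      if_neg (fun h => hB2 4 (h.trans (by decide))),
      if_neg (fun h => hB2 3 (h.trans (by decide))),
      if_neg (fun h => hB3 1 (h.trans (by decide))),
      if_neg (fun h => hB3 3 (h.trans (by decide)))]
    norm_num

end Pool.TSph
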