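import Pool.Agent.Lib.MP_3de3a3_co.DMain

/-! # One set of representatives for all face numbers (module DTotal) -/

set_option autoImplicit false

namespace Pool.TSphD

open Finset

variable {ι : Type*} [DecidableEq ι] {k : ℕ}

theorem fc_image (π : Equiv.Perm ι) (j : ℕ) (F : Finset (Finset ι)) :
    fc j (F.image (fun σ => σ.image π)) = (fc j F).image (fun σ => σ.image π) := by
  ext t
  rw [mem_fc, mem_image]
  constructor
  · rintro ⟨hc, s, hs, hts⟩
    obtain ⟨s', hs', rfl⟩ := mem_image.1 hs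
    refine ⟨t.image π.symm, mem_fc.2 ⟨?_, s', hs', ?_⟩, ?_⟩
    · rw [card_image_of_injective _ π.symm.injective, hc]
    · intro y hy
      obtain ⟨z, hz, rfl⟩ := mem_image.1 hy
      obtain ⟨w, hw, hwz⟩ := mem_image.1 (hts hz)
      rw [← hwz, Equiv.symm_apply_apply]
      exact hw
    · rw [image_image]
      simp
  · rintro ⟨t', ht', rfl⟩
    obtain ⟨hc, s, hs, hts⟩ := mem_fc.1 ht'
    exact ⟨by rw [card_image_of_injective _ π.injective, hc], _, mem_image_of_mem _ hs,
      image_subset_image hts⟩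

theorem card_fc_image (π : Equiv.Perm ι) (j : ℕ) (F : Finset (Finset ι)) :
    (fc j (F.image (fun σ => σ.image π))).card = (fc j F).card := by
  rw [fc_image, card_image_of_injective]
  exact Finset.image_injective π.injective

theorem card_fc_le {F : Finset (Finset ι)} {d : ℕ} (hF : ∀ s ∈ F, s.card = d) (j : ℕ) :
    (fc j F).card ≤ d.choose j * F.card := by
  unfold fc
  refine card_biUnion_le.trans ?_
  rw [Finset.sum_congr rfl (fun s hs => by rw [card_powersetCard, hF s hs]), Finset.sum_const,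
    smul_eq_mul, mul_comm]

/-- For every dimension there is `C` such that for all `n` there is a set `S` of complexes which
contains a copy of every complex with `n` facets, with at most `C ^ n * n ^ (k n / (2 (k + 4)))`
elements, of which at most `C ^ n * n ^ ((k (k+1) (k+3) n - 24 f) / (2 (k+1) (k+3) (k+4)))` have
`f` faces with `k` vertices. -/
theorem total (hk : 0 < k) :
    ∃ C : ℕ, ∀ n : ℕ, ∃ S : Finset (Finset (Finset (Fin ((k + 3) * n)))),
      S.card ^ (2 * (k + 4)) ≤ C ^ n * n ^ (k * n) ∧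
      (∀ f : ℕ, (S.filter (fun G => (fc k G).card = f)).card ^
        (2 * (k + 1) * (k + 3) * (k + 4)) ≤ C ^ n * n ^ (k * (k + 1) * (k + 3) * n - 24 * f)) ∧
      ∀ F : Finset (Finset (Fin ((k + 3) * n))), F.card = n → IsMfdD k F →
        ∃ G ∈ S, ∃ π : Equiv.Perm (Fin ((k + 3) * n)), G = F.image (fun σ => σ.image π) := by
  obtain ⟨C, hC⟩ := main (k := k) hk
  set c : ℕ := (k + 3).choose k with hc
  refine ⟨(c + 1) ^ (2 * (k + 4)) * (C + 1), fun n => ?_⟩
  choose T hT1 hT2 using hC n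
  set N : ℕ := c * n with hN
  have hCn : C ^ n ≤ ((c + 1) ^ (2 * (k + 4)) * (C + 1)) ^ n := by
    refine Nat.pow_le_pow_left ?_ n
    calc C ≤ C + 1 := Nat.le_succ C
      _ = 1 * (C + 1) := (one_mul _).symm
      _ ≤ _ := Nat.mul_le_mul_right _ (Nat.one_le_pow _ _ (Nat.succ_pos c))
  refine ⟨(range (N + 1)).biUnion (fun f => (T f).filter (fun G => (fc k G).card = f)),
    ?_, fun f => ?_, fun F hF hM => ?_⟩
  · obtain ⟨f0, -, hmax⟩ := exists_max_image (range (N + 1)) (fun f => (T f).card)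
      ⟨0, mem_range.2 (Nat.succ_pos N)⟩
    have h1 : ((range (N + 1)).biUnion
        (fun f => (T f).filter (fun G => (fc k G).card = f))).card ≤ (N + 1) * (T f0).card := by
      refine card_biUnion_le.trans ?_
      refine (Finset.sum_le_card_nsmul _ _ (T f0).card (fun f hf => ?_)).trans ?_
      · exact (card_filter_le _ _).trans (hmax f hf)
      · rw [card_range, smul_eq_mul]
    have h2 : (T f0).card ^ (2 * (k + 4)) ≤ (C + 1) ^ n * n ^ (k * n) := by
      have h3 : ((T f0).card ^ (2 * (k + 4))) ^ ((k + 1) * (k + 3)) ≤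
          ((C + 1) ^ n * n ^ (k * n)) ^ ((k + 1) * (k + 3)) := by
        have e1 : 2 * (k + 4) * ((k + 1) * (k + 3)) = 2 * (k + 1) * (k + 3) * (k + 4) := by ring
        have e2 : k * n * ((k + 1) * (k + 3)) = k * (k + 1) * (k + 3) * n := by ring
        rw [← pow_mul, e1, mul_pow, ← pow_mul n, e2]
        refine (hT1 f0).trans (Nat.mul_le_mul ?_ ?_)
        · calc C ^ n ≤ (C + 1) ^ n := Nat.pow_le_pow_left (Nat.le_succ C) n
            _ = ((C + 1) ^ n) ^ 1 := (pow_one _).symm
            _ ≤ _ := Nat.pow_le_pow_right (Nat.pow_pos (Nat.succ_pos C))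
              (Nat.mul_pos (Nat.succ_pos _) (Nat.succ_pos _))
        · rcases Nat.eq_zero_or_pos n with rfl | hn
          · simp
          · exact Nat.pow_le_pow_right hn (Nat.sub_le _ _)
      exact (Nat.pow_le_pow_iff_left
        (Nat.pos_iff_ne_zero.1 (Nat.mul_pos (Nat.succ_pos _) (Nat.succ_pos _)))).1 h3
    have h4 : N + 1 ≤ (c + 1) ^ n := by
      have h := one_add_mul_le_pow (a := (c : ℤ)) (by linarith [Int.natCast_nonneg c]) n
      have h' : ((N + 1 : ℕ) : ℤ) ≤ ((c + 1) ^ n : ℕ) := by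
        push_cast
        rw [hN]
        push_cast
        calc (c : ℤ) * n + 1 = 1 + n * c := by ring
          _ ≤ (1 + c) ^ n := h
          _ = (c + 1) ^ n := by rw [add_comm]
      exact_mod_cast h'
    calc _ ≤ ((N + 1) * (T f0).card) ^ (2 * (k + 4)) := Nat.pow_le_pow_left h1 _
      _ = (N + 1) ^ (2 * (k + 4)) * (T f0).card ^ (2 * (k + 4)) := mul_pow _ _ _
      _ ≤ ((c + 1) ^ n) ^ (2 * (k + 4)) * ((C + 1) ^ n * n ^ (k * n)) :=
          Nat.mul_le_mul (Nat.pow_le_pow_left h4 _) h2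
      _ = _ := by
          rw [← pow_mul, mul_comm n (2 * (k + 4)), pow_mul, mul_pow, mul_assoc]
  · refine le_trans (Nat.pow_le_pow_left ?_ _) ((hT1 f).trans (Nat.mul_le_mul_right _ hCn))
    refine card_le_card ?_
    intro G hG
    obtain ⟨h1, h2⟩ := mem_filter.1 hG
    obtain ⟨f', -, h3⟩ := mem_biUnion.1 h1
    obtain ⟨h4, h5⟩ := mem_filter.1 h3
    rw [← h2, h5]
    exact h4
  · obtain ⟨G, hG, π, hπ⟩ := hT2 _ F hF rfl hM
    refine ⟨G, mem_biUnion.2 ⟨(fc k F).card, ?_, mem_filter.2 ⟨hG, ?_⟩⟩, π, hπ⟩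
    · have := card_fc_le hM.card k
      rw [hF] at this
      exact mem_range.2 (Nat.lt_succ_of_le this)
    · rw [hπ, card_fc_image]

end Pool.TSphD
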