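import Pool.Agent.Lib.MP_3de3a3_co.DRot
import Pool.Agent.Lib.MP_3de3a3_co.DTransM

/-! # Decoding one closing triangle (module DTransStep) -/

set_option autoImplicit false

namespace Pool.TSphD

open Finset
open Pool.TSph (verts mem_verts)

variable {ι : Type*} [DecidableEq ι] {δ : ℕ}

theorem TransStep_mem_side {f : Fin (δ + 1) → ι} {a b : Fin (δ + 1)} (h : b ≠ a) : f b ∈ side f a :=
  mem_image_of_mem _ (mem_erase.2 ⟨h, mem_univ _⟩)

theorem TransStep_erase {f : Fin (δ + 1) → ι} (hf : Function.Injective f) (a m : Fin (δ + 1)) :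
    (side f a).erase (f m) = ((univ.erase a).erase m).image f := by
  ext x
  simp only [side, mem_erase, mem_image, mem_univ, and_true]
  constructor
  · rintro ⟨h1, b, hb, rfl⟩
    exact ⟨b, ⟨fun h => h1 (by rw [h]), hb⟩, rfl⟩
  · rintro ⟨b, ⟨h1, h2⟩, rfl⟩
    exact ⟨fun h => h1 (hf h), b, h2, rfl⟩

theorem TransStep_erase_inj {s : Finset ι} {x y : ι} (hx : x ∈ s) (_ : y ∈ s)
    (h : s.erase x = s.erase y) : x = y := by
  by_contra hne
  have : x ∈ s.erase y := mem_erase.2 ⟨hne, hx⟩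
  rw [← h] at this
  simp at this

/-- One closing triangle: if all sides in `M` or of smaller rank are glued in the same way, then
so is the side `(i, a)`. See the text of the module. -/
theorem transfer_step {n : ℕ} {F₁ F₂ : Finset (Finset ι)} {c : Code δ n}
    {lam₁ lam₂ : Fin n → Fin (δ + 1) → ι} {M₁ M₂ : Finset (Finset ι)} {rk₁ rk₂ : Finset ι → ℕ}
    {e₁ e₂ : Finset ι → Finset ι} (h₁ : PM δ F₁) (h₂ : PM δ F₂)
    (hc₁ : HasCode F₁ c lam₁ M₁ rk₁ e₁) (hc₂ : HasCode F₂ c lam₂ M₂ rk₂ e₂)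
    (i : Fin n) (a : Fin (δ + 1)) (hM : side (lam₁ i) a ∉ M₁)
    (ih : ∀ (i' : Fin n) (a' : Fin (δ + 1)), side (lam₁ i') a' ∈ M₁ ∨
        rk₁ (side (lam₁ i') a') < rk₁ (side (lam₁ i) a) →
        ∀ (j : Fin n) (g : Equiv.Perm (Fin (δ + 1))), mv F₁ a' (lam₁ i') = lam₁ j ∘ g →
          mv F₂ a' (lam₂ i') = lam₂ j ∘ g)
    (j : Fin n) (g : Equiv.Perm (Fin (δ + 1)))
    (h : mv F₁ a (lam₁ i) = lam₁ j ∘ g) : mv F₂ a (lam₂ i) = lam₂ j ∘ g := by
  -- the label
  obtain ⟨m, hm⟩ : ∃ m, c.2.2.1 i a = some m := by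
    cases hl : c.2.2.1 i a with
    | none => exact absurd ((hc₁.lab_none i a).1 hl) hM
    | some m => exact ⟨m, rfl⟩
  obtain ⟨hma, he1⟩ := hc₁.lab_some i a m hm
  obtain ⟨d, hd, hret, hne⟩ := rot_return h₁ (a := a) (m := m) hma.symm (hc₁.lf i)
  have hLF : ∀ s, IsLF F₁ ((rot F₁ a m)^[s] (lam₁ i)) := fun s => rot_isLF h₁ (hc₁.lf i) s
  have hlf1 : ∀ i, IsLF F₁ (lam₁ i) := hc₁.lf
  have hlf2 : ∀ i, IsLF F₂ (lam₂ i) := hc₂.lf
  -- the walk
  have walk : ∀ s, s < d → ∀ (j : Fin n) (g : Equiv.Perm (Fin (δ + 1))),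
      (rot F₁ a m)^[s] (lam₁ i) = lam₁ j ∘ g → (rot F₂ a m)^[s] (lam₂ i) = lam₂ j ∘ g := by
    intro s
    induction s with
    | zero =>
      intro _ j g hj
      have h0 : lam₁ i ∘ (1 : Equiv.Perm (Fin (δ + 1))) = lam₁ j ∘ g := hj
      obtain ⟨rfl, rfl⟩ := rep_unique hc₁ h0
      rfl
    | succ s ihs =>
      intro hs j g hj
      obtain ⟨j', g', hj'⟩ := rep_exists hc₁ (hLF s)
      have h2 := ihs (by omega) j' g' hj'
      obtain ⟨j'', g'', hj''⟩ := rep_exists hc₁ (mv_isLF h₁ (hlf1 j') (g' m))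
      have key : mv F₂ (g' m) (lam₂ j') = lam₂ j'' ∘ g'' := by
        refine ih j' (g' m) ?_ j'' g'' hj''
        have ht' : side (lam₁ j') (g' m) = side ((rot F₁ a m)^[s + 1] (lam₁ i)) a := by
          rw [Function.iterate_succ_apply', side_rot, hj', side_comp]
        refine hc₁.cert.rank _ (side_mem_rdg (hlf1 i) a) hM _
          (side_mem_rdg (hlf1 j') (g' m)) ?_ ?_
        · rw [he1, TransStep_erase (hlf1 i).1, ht']
          intro x hx
          obtain ⟨b, hb, rfl⟩ := mem_image.1 hx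
          have hbm : b ≠ m := (mem_erase.1 hb).1
          have hba : b ≠ a := (mem_erase.1 (mem_erase.1 hb).2).1
          rw [← rot_off (F := F₁) (f := lam₁ i) (s + 1) hba hbm]
          exact TransStep_mem_side hba
        · rw [ht']
          exact hne (s + 1) (by omega) hs
      have e1 : (rot F₁ a m)^[s + 1] (lam₁ i) = lam₁ j'' ∘ (g'' * g' * Equiv.swap a m) := by
        rw [Function.iterate_succ_apply', hj', rot, mv_comp h₁ (hlf1 j'), hj'']
        rfl
      have e2 : (rot F₂ a m)^[s + 1] (lam₂ i) = lam₂ j'' ∘ (g'' * g' * Equiv.swap a m) := by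
        rw [Function.iterate_succ_apply', h2, rot, mv_comp h₂ (hlf2 j'), key]
        rfl
      obtain ⟨rfl, rfl⟩ := rep_unique hc₁ (hj.symm.trans e1)
      exact e2
  -- the last facet
  obtain ⟨j₁, g₁, hj₁⟩ := rep_exists hc₁ (hLF (d - 1))
  have hj₂ := walk (d - 1) (by omega) j₁ g₁ hj₁
  have hr1 : rot F₁ a m (lam₁ j₁ ∘ g₁) = lam₁ i := by
    have hd1 : (d - 1).succ = d := Nat.succ_pred_eq_of_pos hd
    rw [← hj₁, ← Function.iterate_succ_apply' (rot F₁ a m), hd1]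
    exact hret
  have hr2 : lam₁ i m = lam₁ j₁ (g₁ a) := by
    have := congrFun hr1 m
    rw [← this]
    simp only [rot, Function.comp_apply, Equiv.swap_apply_right]
    rw [mv_off F₁ _ hma.symm]
    rfl
  have hr3 : side (lam₁ j₁) (g₁ m) = side (lam₁ i) a := by
    rw [← side_comp, ← side_rot F₁ a m, hr1]
  obtain ⟨m'', hm''⟩ : ∃ m'', c.2.2.1 j₁ (g₁ m) = some m'' := by
    cases hl : c.2.2.1 j₁ (g₁ m) with
    | none => exact absurd ((hc₁.lab_none _ _).1 hl) (by rw [hr3]; exact hM)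
    | some m => exact ⟨m, rfl⟩
  obtain ⟨hm1, he2⟩ := hc₁.lab_some _ _ _ hm''
  have hmeq : m'' = g₁ a := by
    have h3 : (side (lam₁ i) a).erase (lam₁ i m) = (side (lam₁ i) a).erase (lam₁ j₁ m'') := by
      rw [← he1, ← hr3, he2]
    have h4 := TransStep_erase_inj (TransStep_mem_side hma)
      (by rw [← hr3]; exact TransStep_mem_side hm1) h3
    rw [hr2] at h4
    exact ((hlf1 j₁).1 h4).symm
  subst hmeq
  -- second complex
  obtain ⟨-, hf1⟩ := hc₂.lab_some i a m hm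
  obtain ⟨hm2, hf2⟩ := hc₂.lab_some j₁ (g₁ m) (g₁ a) hm''
  have hn1 : side (lam₂ i) a ∉ M₂ := fun hmem => by
    have := (hc₂.lab_none i a).2 hmem
    rw [hm] at this
    exact absurd this (by simp)
  have hn2 : side (lam₂ j₁) (g₁ m) ∉ M₂ := fun hmem => by
    have := (hc₂.lab_none j₁ (g₁ m)).2 hmem
    rw [hm''] at this
    exact absurd this (by simp)
  have hagree : ∀ b, b ≠ a → b ≠ m → lam₂ j₁ (g₁ b) = lam₂ i b := by
    intro b hba hbm
    have := rot_off (F := F₂) (f := lam₂ i) (d - 1) hba hbm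
    rw [hj₂] at this
    exact this
  have heq : e₂ (side (lam₂ i) a) = e₂ (side (lam₂ j₁) (g₁ m)) := by
    rw [hf1, hf2, TransStep_erase (hlf2 i).1, TransStep_erase (hlf2 j₁).1]
    ext x
    simp only [mem_image, mem_erase, mem_univ, and_true]
    constructor
    · rintro ⟨b, ⟨hbm, hba⟩, rfl⟩
      exact ⟨g₁ b, ⟨fun h => hba (g₁.injective h), fun h => hbm (g₁.injective h)⟩,
        hagree b hba hbm⟩
    · rintro ⟨b, ⟨hba, hbm⟩, rfl⟩
      refine ⟨g₁.symm b, ⟨?_, ?_⟩, ?_⟩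
      · intro h; apply hbm; rw [← h, Equiv.apply_symm_apply]
      · intro h; apply hba; rw [← h, Equiv.apply_symm_apply]
      · rw [← hagree (g₁.symm b)]
        · rw [Equiv.apply_symm_apply]
        · intro h; apply hba; rw [← h, Equiv.apply_symm_apply]
        · intro h; apply hbm; rw [← h, Equiv.apply_symm_apply]
  have htt : side (lam₂ i) a = side (lam₂ j₁) (g₁ m) := by
    by_contra hcon
    have q1 := hc₂.cert.rank _ (side_mem_rdg (hlf2 i) a) hn1 _
      (side_mem_rdg (hlf2 j₁) (g₁ m))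
      (by rw [heq]; exact (hc₂.cert.esub _ (side_mem_rdg (hlf2 j₁) (g₁ m)) hn2).1)
      (Ne.symm hcon)
    have q2 := hc₂.cert.rank _ (side_mem_rdg (hlf2 j₁) (g₁ m)) hn2 _
      (side_mem_rdg (hlf2 i) a)
      (by rw [← heq]; exact (hc₂.cert.esub _ (side_mem_rdg (hlf2 i) a) hn1).1) hcon
    rcases q1 with q1 | q1
    · exact hn2 q1
    · rcases q2 with q2 | q2
      · exact hn1 q2
      · omega
  have hmm : lam₂ i m = lam₂ j₁ (g₁ a) := by
    have h3 : (side (lam₂ i) a).erase (lam₂ i m) =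
        (side (lam₂ i) a).erase (lam₂ j₁ (g₁ a)) := by
      rw [← hf1, heq, hf2, htt]
    exact TransStep_erase_inj (TransStep_mem_side hma)
      (by rw [htt]; exact TransStep_mem_side hm2) h3
  -- the two labelled facets
  have hE : ∀ (F : Finset (Finset ι)) (hF : PM δ F) (p q : Fin (δ + 1) → ι), IsLF F p → IsLF F q →
      p ∘ Equiv.swap a m = mv F m q → mv F a p = q ∘ Equiv.swap a m := by
    intro F hF p q hp hq hpq
    have h5 : mv F m (p ∘ Equiv.swap a m) = q := by rw [hpq, mv_mv hF hq]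
    rw [mv_comp hF hp, Equiv.swap_apply_right] at h5
    rw [← h5]
    ext x
    simp
  have hlfg : ∀ (F : Finset (Finset ι)) (p : Fin (δ + 1) → ι) (σ : Equiv.Perm (Fin (δ + 1))), IsLF F p →
      IsLF F (p ∘ σ) := fun F p σ hp => isLF_comp hp σ
  have hcase := mv_unique h₂ (hlfg _ _ g₁ (hlf2 j₁)) (hlfg _ _ (Equiv.swap a m) (hlf2 i)) m
    (by
      intro b hbm
      by_cases hba : b = a
      · subst hba
        simp only [Function.comp_apply, Equiv.swap_apply_left]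
        exact hmm
      · simp only [Function.comp_apply]
        rw [Equiv.swap_apply_of_ne_of_ne hba hbm, hagree b hba hbm])
  have hr1' : lam₁ i ∘ Equiv.swap a m = mv F₁ m (lam₁ j₁ ∘ g₁) := by
    rw [← hr1, rot]
    ext x
    simp
  rcases hcase with hcase | hcase
  · exfalso
    obtain ⟨rfl, hg⟩ := rep_unique hc₂ hcase
    rw [← hg] at hr1'
    have h6 := mv_ne h₁ (hlfg _ _ (Equiv.swap a m) (hlf1 i)) m
    rw [← hr1'] at h6
    exact h6 (mem_image_of_mem _ (mem_univ _))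
  · have h7 := hE F₂ h₂ _ _ (hlf2 i) (hlfg _ _ g₁ (hlf2 j₁)) hcase
    have h8 := hE F₁ h₁ _ _ (hlf1 i) (hlfg _ _ g₁ (hlf1 j₁)) hr1'
    have h9 : lam₁ j ∘ g = lam₁ j₁ ∘ (g₁ * Equiv.swap a m) := by
      rw [← h, h8]; rfl
    obtain ⟨rfl, rfl⟩ := rep_unique hc₁ h9
    rw [h7]; rfl

end Pool.TSphD
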