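import Mathlib

/-!
# Closed simplicial 3-manifolds by their facets

Everything is combinatorial: a complex is given by the finite set of its facets.
-/

set_option autoImplicit false

namespace Pool.TSph

open Finset

variable {ι : Type*} [DecidableEq ι]

/-- The vertex set of the complex with the facets `L`. -/
def verts (L : Finset (Finset ι)) : Finset ι := L.biUnion id

/-- The link of the vertex `x` in the complex with the facets `F` (given by its facets). -/
def link (F : Finset (Finset ι)) (x : ι) : Finset (Finset ι) :=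
  (F.filter (fun s => x ∈ s)).image (fun s => s.erase x)

/-- `L` is the set of triangles of a triangulated 2-sphere: all its elements have three vertices,
every edge of a triangle lies in exactly two triangles, any two triangles are joined by a chain of
triangles of `L` in which consecutive ones share an edge, the triangles containing a given vertex
`x` are joined by such a chain with common edges that contain `x` (so the link of `x` is one
cycle), and `V - E + F = 2`, that is `2 V = F + 4` (since `2 E = 3 F`). -/
structure IsSphere2 (L : Finset (Finset ι)) : Prop where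
  card3 : ∀ t ∈ L, t.card = 3
  edge : ∀ t ∈ L, ∀ e ⊆ t, e.card = 2 → (L.filter (fun s => e ⊆ s)).card = 2
  conn : ∀ s ∈ L, ∀ t ∈ L,
    Relation.ReflTransGen (fun a b => b ∈ L ∧ (a ∩ b).card = 2) s t
  star : ∀ x, ∀ s ∈ L, ∀ t ∈ L, x ∈ s → x ∈ t →
    Relation.ReflTransGen (fun a b => b ∈ L ∧ (a ∩ b).card = 2 ∧ x ∈ a ∩ b) s t
  euler : 2 * (verts L).card = L.card + 4

/-- `F` is the set of facets of a closed connected simplicial 3-manifold: all its elements have
four vertices, any two facets are joined by a chain of facets in which consecutive ones share a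
triangle, and the link of every vertex is a triangulated 2-sphere. -/
structure IsMfd3 (F : Finset (Finset ι)) : Prop where
  card4 : ∀ s ∈ F, s.card = 4
  conn : ∀ s ∈ F, ∀ t ∈ F,
    Relation.ReflTransGen (fun a b => b ∈ F ∧ (a ∩ b).card = 3) s t
  sphere : ∀ x ∈ verts F, IsSphere2 (link F x)

/-- `u` and `v` are joined by an edge of the complex `L`. -/
def adj (L : Finset (Finset ι)) (u v : ι) : Prop := u ≠ v ∧ ∃ t ∈ L, u ∈ t ∧ v ∈ t

/-- `u` and `v` are joined by a path inside `S` of the graph with the adjacency `A`. -/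
def cn (A : ι → ι → Prop) (S : Finset ι) (u v : ι) : Prop :=
  Relation.ReflTransGen (fun a b => b ∈ S ∧ A a b) u v

open Classical in
/-- The number of connected components of the graph with the adjacency `A` on the vertex set
`S` (for symmetric `A`). -/
noncomputable def comp (A : ι → ι → Prop) (S : Finset ι) : ℕ :=
  (S.image (fun a => S.filter (fun b => cn A S a b))).card

/-- The average of `f` over the random subsets of `W` (all vertices are kept with the same
probability `p`, and `p` is uniform in `[0,1]`). -/
noncomputable def Phi (W : Finset ι) (f : Finset ι → ℝ) : ℝ :=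
  ∫ p in (0:ℝ)..1, ∑ S ∈ W.powerset, p ^ S.card * (1 - p) ^ (W.card - S.card) * f S

/-- The triangles of the complex with the facets `F`. -/
def tris (F : Finset (Finset ι)) : Finset (Finset ι) := F.biUnion (fun s => s.powersetCard 3)

/-- Certificates: the dual graph with the edges `M` is connected, every other triangle `t` has a
closing edge `e t`, and all the other triangles which contain `e t` are in `M` or have smaller
rank than `t`. -/
structure Cert (F M : Finset (Finset ι)) (rk : Finset ι → ℕ) (e : Finset ι → Finset ι) :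
    Prop where
  sub : M ⊆ tris F
  conn : ∀ s ∈ F, ∀ t ∈ F, Relation.ReflTransGen (fun a b => b ∈ F ∧ a ∩ b ∈ M) s t
  esub : ∀ t ∈ tris F, t ∉ M → e t ⊆ t ∧ (e t).card = 2
  rank : ∀ t ∈ tris F, t ∉ M → ∀ t' ∈ tris F, e t ⊆ t' → t' ≠ t → t' ∈ M ∨ rk t' < rk t

/-- The combinatorial hypotheses which are needed for the encoding. -/
structure PM (F : Finset (Finset ι)) : Prop where
  card4 : ∀ s ∈ F, s.card = 4
  two : ∀ t ∈ tris F, (F.filter (fun s => t ⊆ s)).card = 2
  star : ∀ x, ∀ s ∈ F, ∀ t ∈ F, x ∈ s → x ∈ t →
    Relation.ReflTransGen (fun a b => b ∈ F ∧ (a ∩ b).card = 3 ∧ x ∈ a ∩ b) s t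

theorem mem_verts {L : Finset (Finset ι)} {x : ι} : x ∈ verts L ↔ ∃ s ∈ L, x ∈ s := by
  simp [verts]

theorem mem_link {F : Finset (Finset ι)} {x : ι} {t : Finset ι} :
    t ∈ link F x ↔ ∃ s ∈ F, x ∈ s ∧ s.erase x = t := by
  simp [link, and_assoc]

/-- A set `t` not containing `x` is in the link of `x` iff `insert x t` is a facet. -/
theorem mem_link' {F : Finset (Finset ι)} {x : ι} {t : Finset ι} :
    t ∈ link F x ↔ x ∉ t ∧ insert x t ∈ F := by
  rw [mem_link]
  constructor
  · rintro ⟨s, hs, hx, rfl⟩
    exact ⟨by simp, by rwa [insert_erase hx]⟩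
  · rintro ⟨hx, h⟩
    exact ⟨_, h, mem_insert_self _ _, erase_insert hx⟩

theorem mem_tris {F : Finset (Finset ι)} {t : Finset ι} :
    t ∈ tris F ↔ t.card = 3 ∧ ∃ s ∈ F, t ⊆ s := by
  simp only [tris, mem_biUnion, mem_powersetCard]
  constructor
  · rintro ⟨s, hs, h1, h2⟩; exact ⟨h2, s, hs, h1⟩
  · rintro ⟨h2, s, hs, h1⟩; exact ⟨s, hs, h1, h2⟩

theorem adj_symm {L : Finset (Finset ι)} {u v : ι} (h : adj L u v) : adj L v u := by
  obtain ⟨h1, t, ht, hu, hv⟩ := h
  exact ⟨h1.symm, t, ht, hv, hu⟩

theorem adj_mem_right {L : Finset (Finset ι)} {u v : ι} (h : adj L u v) : v ∈ verts L := by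
  obtain ⟨_, t, ht, _, hv⟩ := h
  exact mem_verts.2 ⟨t, ht, hv⟩

theorem adj_mem_left {L : Finset (Finset ι)} {u v : ι} (h : adj L u v) : u ∈ verts L :=
  adj_mem_right (adj_symm h)

end Pool.TSph
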