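import Pool.Agent.Lib.MP_3de3a3_co.Fam

/-! # Degrees of the vertices in the charts (module Deg9) -/

set_option autoImplicit false

namespace Pool.TSph

open Finset

variable {V : Type*} [DecidableEq V] [Fintype V]

private theorem Deg9_zpow {x : Equiv.Perm V} {deg : V → ℕ → ZMod 9} {i : ℕ}
    (hg : ∀ w, deg (x w) = deg w + Pi.single i 1) (m : ℤ) :
    ∀ w, deg ((x ^ m) w) = deg w + Pi.single i (m : ZMod 9) := by
  induction m using Int.induction_on with
  | zero => intro w; simp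
  | succ n ih =>
    intro w
    rw [zpow_add_one, Equiv.Perm.mul_apply, ih, hg]
    push_cast
    rw [Pi.single_add]
    abel
  | pred n ih =>
    intro w
    have h := hg (x⁻¹ w)
    rw [show x (x⁻¹ w) = w from x.apply_symm_apply w] at h
    rw [zpow_sub_one, Equiv.Perm.mul_apply, ih, h]
    push_cast
    rw [Pi.single_sub]
    abel

theorem deg_chart {r : ℕ} {x : ℕ → Equiv.Perm V} {deg : V → ℕ → ZMod 9}
    (hg : Graded r x deg) {i : ℕ} (hi : i + 1 < r) (w : V) (u : ℤ × ℤ) :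
    deg (chart (x i) (x (i + 1)) w u) =
      deg w + Pi.single i (u.1 : ZMod 9) + Pi.single (i + 1) (u.2 : ZMod 9) := by
  have h1 := hg i (by omega)
  have h2 := hg (i + 1) hi
  unfold chart
  split_ifs with h
  · rw [Deg9_zpow h1, Deg9_zpow h2]
    abel
  · rw [Deg9_zpow h2, Deg9_zpow h1]

/-- All labels have entries between `-4` and `4`. -/
theorem labels_box : ∀ t ∈ trl locC ∪ NLoc, ∀ u ∈ t, -4 ≤ u.1 ∧ u.1 ≤ 4 ∧ -4 ≤ u.2 ∧ u.2 ≤ 4 := by
  decide +kernel

private theorem Deg9_cast {a b : ℤ} (ha : -4 ≤ a) (ha' : a ≤ 4) (hb : -4 ≤ b) (hb' : b ≤ 4)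
    (h : (a : ZMod 9) = (b : ZMod 9)) : a = b := by
  rw [ZMod.intCast_eq_intCast_iff_dvd_sub] at h
  obtain ⟨k, hk⟩ := h
  push_cast at hk
  omega

theorem chart_injOn {r : ℕ} {x : ℕ → Equiv.Perm V} {deg : V → ℕ → ZMod 9}
    (hg : Graded r x deg) {i : ℕ} (hi : i + 1 < r) (w : V) :
    Set.InjOn (chart (x i) (x (i + 1)) w) {u | -4 ≤ u.1 ∧ u.1 ≤ 4 ∧ -4 ≤ u.2 ∧ u.2 ≤ 4} := by
  rintro ⟨a, b⟩ ⟨h1, h2, h3, h4⟩ ⟨a', b'⟩ ⟨h1', h2', h3', h4'⟩ h
  have h5 := congrArg deg h
  rw [deg_chart hg hi, deg_chart hg hi] at h5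
  have e1 := congrFun h5 i
  have e2 := congrFun h5 (i + 1)
  simp [Pi.single_apply] at e1 e2
  have f1 := Deg9_cast h1 h2 h1' h2' e1
  have f2 := Deg9_cast h3 h4 h3' h4' e2
  simp_all

private theorem Deg9_locC : ∀ t ∈ trl locC, ∀ u ∈ t, u.2 = 0 := by
  decide +kernel

private theorem Deg9_locG : ∀ t ∈ trl locG, ∀ u ∈ t, u.2 = 0 := by
  decide +kernel

/-- The vertices of the pods of the lines `0, …, j` have the same degree as `w` in all
coordinates larger than `j`. -/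
theorem deg_starP {r : ℕ} {x : ℕ → Equiv.Perm V} {deg : V → ℕ → ZMod 9}
    (hg : Graded r x deg) {j : ℕ} (hj : j + 1 < r) (w : V) {p : Finset V}
    (hp : p ∈ starP x w j) {v : V} (hv : v ∈ p) : deg v (j + 1) = deg w (j + 1) := by
  unfold starP at hp
  rw [mem_union, mem_image, mem_biUnion] at hp
  rcases hp with ⟨t, ht, rfl⟩ | ⟨i, hi, hp⟩
  · rw [mem_image] at hv
    obtain ⟨u, hu, rfl⟩ := hv
    have h0 := Deg9_locC t ht u hu
    have h1 := deg_chart hg (i := 0) (by omega) w u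
    rw [zero_add] at h1
    rw [h1, h0]
    simp [Pi.single_apply]
  · rw [mem_image] at hp
    obtain ⟨t, ht, rfl⟩ := hp
    rw [mem_image] at hv
    obtain ⟨u, hu, rfl⟩ := hv
    rw [mem_range] at hi
    rw [deg_chart hg (by omega)]
    have e1 : j + 1 ≠ i := by omega
    have e2 : j ≠ i := by omega
    simp [Pi.single_apply, e1, e2]

/-- The same for the inner facets. -/
theorem deg_starG {r : ℕ} {x : ℕ → Equiv.Perm V} {deg : V → ℕ → ZMod 9}
    (hg : Graded r x deg) {j : ℕ} (hj : j + 1 < r) (w : V) {p : Finset V}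
    (hp : p ∈ starG x w j) {v : V} (hv : v ∈ p) : deg v (j + 1) = deg w (j + 1) := by
  unfold starG at hp
  rw [mem_union, mem_image, mem_biUnion] at hp
  rcases hp with ⟨t, ht, rfl⟩ | ⟨i, hi, hp⟩
  · rw [mem_image] at hv
    obtain ⟨u, hu, rfl⟩ := hv
    have h0 := Deg9_locG t ht u hu
    have h1 := deg_chart hg (i := 0) (by omega) w u
    rw [zero_add] at h1
    rw [h1, h0]
    simp [Pi.single_apply]
  · rw [mem_image] at hp
    obtain ⟨t, ht, rfl⟩ := hp
    rw [mem_image] at hv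
    obtain ⟨u, hu, rfl⟩ := hv
    rw [mem_range] at hi
    rw [deg_chart hg (by omega)]
    have e1 : j + 1 ≠ i := by omega
    have e2 : j ≠ i := by omega
    simp [Pi.single_apply, e1, e2]

end Pool.TSph
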