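import Pool.Agent.Lib.MP_3de3a3_co.Transfer
import Pool.Agent.Lib.MP_3de3a3_co.VertexEq

/-! # Complexes with the same code are isomorphic (module Iso) -/

set_option autoImplicit false

namespace Pool.TSph

open Finset

variable {ι : Type*} [DecidableEq ι]

theorem iso_of_code [Fintype ι] {n : ℕ} {F₁ F₂ : Finset (Finset ι)} {c : Code n}
    {lam₁ lam₂ : Fin n → Fin 4 → ι} {M₁ M₂ : Finset (Finset ι)} {rk₁ rk₂ : Finset ι → ℕ}
    {e₁ e₂ : Finset ι → Finset ι} (h₁ : PM F₁) (h₂ : PM F₂)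
    (hc₁ : HasCode F₁ c lam₁ M₁ rk₁ e₁) (hc₂ : HasCode F₂ c lam₂ M₂ rk₂ e₂) :
    ∃ π : Equiv.Perm ι, F₂ = F₁.image (fun σ => σ.image π) := by
  classical
  have t12 := transfer h₁ h₂ hc₁ hc₂
  have t21 := transfer h₂ h₁ hc₂ hc₁
  have v12 := vertex_eq (M₂ := M₂) (rk₂ := rk₂) (e₂ := e₂) h₁ hc₁ t12
  have v21 := vertex_eq (M₂ := M₁) (rk₂ := rk₁) (e₂ := e₁) h₂ hc₂ t21
  let f : ι → ι := fun x => if h : ∃ p : Fin n × Fin 4, lam₁ p.1 p.2 = x
    then lam₂ h.choose.1 h.choose.2 else x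
  have hf : ∀ i a, f (lam₁ i a) = lam₂ i a := by
    intro i a
    have hex : ∃ p : Fin n × Fin 4, lam₁ p.1 p.2 = lam₁ i a := ⟨(i, a), rfl⟩
    have h1 : f (lam₁ i a) = lam₂ hex.choose.1 hex.choose.2 := dif_pos hex
    rw [h1]
    exact v12 _ _ _ _ hex.choose_spec
  have hinj : Set.InjOn f (↑(univ.image (fun p : Fin n × Fin 4 => lam₁ p.1 p.2)) : Set ι) := by
    intro x hx y hy hxy
    obtain ⟨⟨i, a⟩, _, rfl⟩ := mem_image.1 (mem_coe.1 hx)
    obtain ⟨⟨j, b⟩, _, rfl⟩ := mem_image.1 (mem_coe.1 hy)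
    simp only at hxy ⊢
    rw [hf, hf] at hxy
    exact v21 _ _ _ _ hxy
  obtain ⟨g, hg⟩ := Finset.exists_equiv_extend_of_card_eq (t := (univ : Finset ι))
    (s := univ.image (fun p : Fin n × Fin 4 => lam₁ p.1 p.2)) (f := f)
    (by rw [card_univ]) (subset_univ _) hinj
  let π : Equiv.Perm ι := g.trans (Equiv.subtypeUnivEquiv (fun x => mem_univ x))
  have hπ : ∀ i a, π (lam₁ i a) = lam₂ i a := by
    intro i a
    have h1 : π (lam₁ i a) = f (lam₁ i a) :=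
      hg (lam₁ i a) (mem_image.2 ⟨(i, a), mem_univ _, rfl⟩)
    rw [h1, hf]
  have himg : ∀ i, (univ.image (lam₁ i)).image π = univ.image (lam₂ i) := by
    intro i
    rw [image_image]
    refine image_congr ?_
    intro a _
    exact hπ i a
  refine ⟨π, ?_⟩
  ext s
  rw [mem_image]
  constructor
  · intro hs
    obtain ⟨i, hi⟩ := hc₂.surj s hs
    exact ⟨_, (hc₁.lf i).2, by rw [himg, hi]⟩
  · rintro ⟨σ, hσ, rfl⟩
    obtain ⟨i, hi⟩ := hc₁.surj σ hσ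
    rw [← hi, himg]
    exact (hc₂.lf i).2

end Pool.TSph
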