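import Pool.Agent.Lib.MP_3de3a3_co.ExCode
import Pool.Agent.Lib.MP_3de3a3_co.CardCodes
import Pool.Agent.Lib.MP_3de3a3_co.Iso

/-! # The encoding theorem (module Encode) -/

set_option autoImplicit false

namespace Pool.TSph

open Finset

variable {ι : Type*} [DecidableEq ι]

theorem encoding [Fintype ι] (n r : ℕ) (hn : 0 < n) :
    ∃ S : Finset (Finset (Finset ι)),
      S.card ≤ 4 ^ n * 4 ^ n * 5 ^ (4 * n) * (2 ^ (4 * n) * (24 * n) ^ r) ∧
      ∀ F : Finset (Finset ι), F.card = n → PM F →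
        (∃ M rk e, Cert F M rk e ∧ M.card + 1 ≤ n + r) →
        ∃ G ∈ S, ∃ π : Equiv.Perm ι, G = F.image (fun σ => σ.image π) := by
  classical
  let P : Code n → Finset (Finset ι) → Prop := fun c F =>
    PM F ∧ ∃ lam M rk e, HasCode F c lam M rk e
  let rep : Code n → Finset (Finset ι) := fun c => if h : ∃ F, P c F then h.choose else ∅
  refine ⟨(Codes n r).image rep, (card_image_le).trans (card_Codes_le n r hn), ?_⟩
  rintro F hF hPM ⟨M, rk, e, hC, hM⟩
  obtain ⟨c, hc, lam, hlam⟩ := exists_code hPM hn hF hC hM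
  have hex : ∃ F, P c F := ⟨F, hPM, lam, M, rk, e, hlam⟩
  have hrep : P c (rep c) := by
    have : rep c = hex.choose := by simp only [rep]; rw [dif_pos hex]
    rw [this]; exact hex.choose_spec
  obtain ⟨hG, lam', M', rk', e', hlam'⟩ := hrep
  obtain ⟨π, hπ⟩ := iso_of_code hPM hG hlam hlam'
  exact ⟨rep c, mem_image_of_mem _ hc, π, hπ⟩

end Pool.TSph
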