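import Pool.Agent.Lib.MP_3de3a3_co.LocDef

/-! # The family of complexes (definitions, module Fam) -/

set_option autoImplicit false

namespace Pool.TSph

open Finset

variable {V : Type*} [DecidableEq V] [Fintype V]

/-- The vertex `x ^ a`, then `y ^ b`, applied to `β`. -/
def evp (x y : Equiv.Perm V) (β : V) (u : ℤ × ℤ) : V := (y ^ u.2) ((x ^ u.1) β)

/-- The pod (or facet) with template `t` and base `β`. -/
def podT (x y : Equiv.Perm V) (t : Finset (ℤ × ℤ)) (β : V) : Finset V := t.image (evp x y β)

/-- All pods. -/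
def Pods (r : ℕ) (x : ℕ → Equiv.Perm V) : Finset (Finset V) :=
  univ.biUnion (fun β : V =>
    (range r).image (fun i => podT (x i) (x (i + 1)) locC β) ∪
    (range (r - 1)).biUnion (fun i => {podT (x i) (x (i + 1)) locD1 β,
      podT (x i) (x (i + 1)) locD2 β, podT (x i) (x (i + 1)) locD3 β}))

/-- All inner facets. -/
def Gls (r : ℕ) (x : ℕ → Equiv.Perm V) : Finset (Finset V) :=
  univ.biUnion (fun β : V =>
    (range r).image (fun i => podT (x i) (x (i + 1)) locG β) ∪
    (range (r - 1)).biUnion (fun i => {podT (x i) (x (i + 1)) locG1 β,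
      podT (x i) (x (i + 1)) locG2 β, podT (x i) (x (i + 1)) locG3 β,
      podT (x i) (x (i + 1)) locG4 β}))

/-- The complex: the facets of the pods which are not inner facets. -/
def Kx (r : ℕ) (x : ℕ → Equiv.Perm V) : Finset (Finset V) :=
  (Pods r x).biUnion (fun p => p.powersetCard 4) \ Gls r x

/-- The chart at the vertex `w`. -/
def chart (x y : Equiv.Perm V) (w : V) (u : ℤ × ℤ) : V :=
  if u.2 < 0 then (x ^ u.1) ((y ^ u.2) w) else (y ^ u.2) ((x ^ u.1) w)

/-- The pods at `w` of the lines `0, …, j`. -/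
def starP (x : ℕ → Equiv.Perm V) (w : V) (j : ℕ) : Finset (Finset V) :=
  (trl locC).image (fun t => t.image (chart (x 0) (x 1) w)) ∪
  (range j).biUnion (fun i => NLoc.image (fun t => t.image (chart (x i) (x (i + 1)) w)))

/-- The inner facets at `w` of the lines `0, …, j`. -/
def starG (x : ℕ → Equiv.Perm V) (w : V) (j : ℕ) : Finset (Finset V) :=
  (trl locG).image (fun t => t.image (chart (x 0) (x 1) w)) ∪
  (range j).biUnion (fun i => WLoc.image (fun t => t.image (chart (x i) (x (i + 1)) w)))

/-- A grading: the generator `x i` raises the `i`-th coordinate of the degree by one. -/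
def Graded (r : ℕ) (x : ℕ → Equiv.Perm V) (deg : V → ℕ → ZMod 9) : Prop :=
  ∀ i, i < r → ∀ w, deg (x i w) = deg w + Pi.single i 1

/-- The generators act transitively. -/
def Trans (r : ℕ) (x : ℕ → Equiv.Perm V) : Prop :=
  ∀ w w' : V, Relation.ReflTransGen (fun a b => ∃ i, i < r ∧ b = x i a) w w'

end Pool.TSph
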