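import Pool.Agent.Lib.MP_3de3a3_co.Defs

/-! # The 2-2 flip (module Flip) -/

set_option autoImplicit false

namespace Pool.TSph

open Finset

variable {ι : Type*} [DecidableEq ι]

theorem Flip_three {a b c : ι} (h : ({a, b, c} : Finset ι).card = 3) : a ≠ b ∧ a ≠ c ∧ b ≠ c := by
  refine ⟨?_, ?_, ?_⟩
  · rintro rfl
    have h1 : ({a, a, c} : Finset ι) = {a, c} := by simp
    rw [h1] at h
    have := card_le_two (a := a) (b := c)
    omega
  · rintro rfl
    have h1 : ({a, b, a} : Finset ι) = {a, b} := by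
      ext z; simp only [mem_insert, mem_singleton]; tauto
    rw [h1] at h
    have := card_le_two (a := a) (b := b)
    omega
  · rintro rfl
    have h1 : ({a, b, b} : Finset ι) = {a, b} := by simp
    rw [h1] at h
    have := card_le_two (a := a) (b := b)
    omega

/-- two different sets with three elements which have two common elements -/
theorem Flip_inter {a b c : Finset ι} (ha : a.card = 3) (hb : b.card = 3) (hab : a ≠ b) (hc : c.card = 2)
    (h1 : c ⊆ a) (h2 : c ⊆ b) : (a ∩ b).card = 2 := by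
  have h3 : c ⊆ a ∩ b := subset_inter h1 h2
  have h4 : 2 ≤ (a ∩ b).card := by rw [← hc]; exact card_le_card h3
  have h5 : (a ∩ b).card ≤ 3 := by rw [← ha]; exact card_le_card inter_subset_left
  by_contra hne
  have h6 : (a ∩ b).card = 3 := by omega
  have h7 : a ∩ b = a := eq_of_subset_of_card_le inter_subset_left (by omega)
  have h8 : a ∩ b = b := eq_of_subset_of_card_le inter_subset_right (by omega)
  exact hab (h7.symm.trans h8)

theorem Flip_ind {u v x y a b : ι} (huv : u ≠ v) (hux : u ≠ x) (hvx : v ≠ x) (huy : u ≠ y) (hvy : v ≠ y)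
    (hxy : x ≠ y) (hab : a ≠ b) (h1 : ¬ ((a = x ∧ b = y) ∨ (a = y ∧ b = x)))
    (h2 : ¬ ((a = u ∧ b = v) ∨ (a = v ∧ b = u))) :
    (if a ∈ ({u, v, x} : Finset ι) ∧ b ∈ ({u, v, x} : Finset ι) then 1 else 0) +
      (if a ∈ ({u, v, y} : Finset ι) ∧ b ∈ ({u, v, y} : Finset ι) then 1 else 0) =
    (if a ∈ ({x, y, u} : Finset ι) ∧ b ∈ ({x, y, u} : Finset ι) then 1 else 0) +
      (if a ∈ ({x, y, v} : Finset ι) ∧ b ∈ ({x, y, v} : Finset ι) then 1 else 0) := by
  simp only [mem_insert, mem_singleton]
  have e1 := huv.symm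
  have e2 := hux.symm
  have e3 := hvx.symm
  have e4 := huy.symm
  have e5 := hvy.symm
  have e6 := hxy.symm
  have ca : a = u ∨ a = v ∨ a = x ∨ a = y ∨ (a ≠ u ∧ a ≠ v ∧ a ≠ x ∧ a ≠ y) := by tauto
  have cb : b = u ∨ b = v ∨ b = x ∨ b = y ∨ (b ≠ u ∧ b ≠ v ∧ b ≠ x ∧ b ≠ y) := by tauto
  rcases ca with h | h | h | h | ⟨a1, a2, a3, a4⟩ <;>
    rcases cb with k | k | k | k | ⟨b1, b2, b3, b4⟩ <;>
    simp_all

/-- The 2-2 flip of the edge `uv` with the opposite vertices `x, y` (not adjacent). -/
theorem flip {L : Finset (Finset ι)} (hL : IsSphere2 L) {u v x y : ι} (hxy : x ≠ y)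
    (hx : ({u, v, x} : Finset ι) ∈ L) (hy : ({u, v, y} : Finset ι) ∈ L) (hn : ¬ adj L x y) :
    ∃ L' : Finset (Finset ι), L' = (L \ {{u, v, x}, {u, v, y}}) ∪ {{x, y, u}, {x, y, v}} ∧
      IsSphere2 L' ∧ verts L' = verts L ∧
      ∀ a b, adj L' a b ↔ (adj L a b ∧ ¬ (a = u ∧ b = v) ∧ ¬ (a = v ∧ b = u)) ∨
        (a = x ∧ b = y) ∨ (a = y ∧ b = x) := by
  obtain ⟨huv, hux, hvx⟩ := Flip_three (hL.card3 _ hx)
  obtain ⟨-, huy, hvy⟩ := Flip_three (hL.card3 _ hy)
  have hno : ∀ t ∈ L, x ∈ t → y ∈ t → False := fun t ht h1 h2 => hn ⟨hxy, t, ht, h1, h2⟩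
  set T1 : Finset ι := {u, v, x} with hT1
  set T2 : Finset ι := {u, v, y} with hT2
  set T3 : Finset ι := {x, y, u} with hT3
  set T4 : Finset ι := {x, y, v} with hT4
  have hT12 : T1 ≠ T2 := by
    intro h
    have : x ∈ T2 := by rw [← h, hT1]; simp
    rw [hT2] at this
    simp only [mem_insert, mem_singleton] at this
    rcases this with h | h | h
    · exact hux h.symm
    · exact hvx h.symm
    · exact hxy h
  have hT34 : T3 ≠ T4 := by
    intro h
    have : u ∈ T4 := by rw [← h, hT3]; simp
    rw [hT4] at this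
    simp only [mem_insert, mem_singleton] at this
    rcases this with h | h | h
    · exact hux h
    · exact huy h
    · exact huv h
  have h3L : T3 ∉ L := fun h => hno _ h (by rw [hT3]; simp) (by rw [hT3]; simp)
  have h4L : T4 ∉ L := fun h => hno _ h (by rw [hT4]; simp) (by rw [hT4]; simp)
  have c1 : T1.card = 3 := hL.card3 _ hx
  have c2 : T2.card = 3 := hL.card3 _ hy
  have c3 : T3.card = 3 := by rw [hT3]; exact card_eq_three.2 ⟨x, y, u, hxy, hux.symm, huy.symm, rfl⟩
  have c4 : T4.card = 3 := by rw [hT4]; exact card_eq_three.2 ⟨x, y, v, hxy, hvx.symm, hvy.symm, rfl⟩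
  -- triangles with the edge uv
  have huvT : ∀ s ∈ L, u ∈ s → v ∈ s → s = T1 ∨ s = T2 := by
    intro s hs hu hv
    have hc := hL.edge T1 hx {u, v} (by rw [hT1]; intro z hz; simp only [mem_insert, mem_singleton] at hz ⊢; tauto)
      (card_pair huv)
    have hsub : ({T1, T2} : Finset (Finset ι)) ⊆ L.filter (fun s => ({u, v} : Finset ι) ⊆ s) := by
      intro t ht
      rw [mem_insert, mem_singleton] at ht
      rw [mem_filter]
      rcases ht with rfl | rfl
      · exact ⟨hx, by intro z hz; rw [hT1]; simp only [mem_insert, mem_singleton] at hz ⊢; tauto⟩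
      · exact ⟨hy, by intro z hz; rw [hT2]; simp only [mem_insert, mem_singleton] at hz ⊢; tauto⟩
    have heq : ({T1, T2} : Finset (Finset ι)) = L.filter (fun s => ({u, v} : Finset ι) ⊆ s) :=
      eq_of_subset_of_card_le hsub (by rw [hc, card_pair hT12])
    have hmem : s ∈ L.filter (fun s => ({u, v} : Finset ι) ⊆ s) := by
      rw [mem_filter]
      refine ⟨hs, ?_⟩
      intro z hz
      rw [mem_insert, mem_singleton] at hz
      rcases hz with rfl | rfl
      · exact hu
      · exact hv
    rw [← heq, mem_insert, mem_singleton] at hmem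
    exact hmem
  set L' : Finset (Finset ι) := (L \ {T1, T2}) ∪ {T3, T4} with hL'
  have memL' : ∀ s, s ∈ L' ↔ (s ∈ L ∧ s ≠ T1 ∧ s ≠ T2) ∨ s = T3 ∨ s = T4 := by
    intro s
    rw [hL', mem_union, mem_sdiff, mem_insert, mem_singleton, mem_insert, mem_singleton, not_or]
  have m3 : T3 ∈ L' := (memL' _).2 (Or.inr (Or.inl rfl))
  have m4 : T4 ∈ L' := (memL' _).2 (Or.inr (Or.inr rfl))
  -- sums
  have hsum : ∀ f : Finset ι → ℕ, ∑ s ∈ L', f s + f T1 + f T2 = ∑ s ∈ L, f s + f T3 + f T4 := by
    intro f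
    have hd : Disjoint (L \ {T1, T2}) ({T3, T4} : Finset (Finset ι)) := by
      rw [disjoint_left]
      intro s hs hs'
      rw [mem_sdiff] at hs
      rw [mem_insert, mem_singleton] at hs'
      rcases hs' with rfl | rfl
      · exact h3L hs.1
      · exact h4L hs.1
    have hsub : ({T1, T2} : Finset (Finset ι)) ⊆ L := by
      intro s hs
      rw [mem_insert, mem_singleton] at hs
      rcases hs with rfl | rfl
      · exact hx
      · exact hy
    rw [hL', sum_union hd, sum_pair hT34, ← sum_sdiff hsub, sum_pair hT12]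
    ring
  have hcard : L'.card = L.card := by
    have := hsum (fun _ => 1)
    rw [← card_eq_sum_ones, ← card_eq_sum_ones] at this
    omega
  have hcnt : ∀ e : Finset ι, (L'.filter (fun s => e ⊆ s)).card + (if e ⊆ T1 then 1 else 0) +
      (if e ⊆ T2 then 1 else 0) = (L.filter (fun s => e ⊆ s)).card + (if e ⊆ T3 then 1 else 0) +
      (if e ⊆ T4 then 1 else 0) := by
    intro e
    have := hsum (fun s => if e ⊆ s then 1 else 0)
    rw [← card_filter, ← card_filter] at this
    exact this
  have hverts : verts L' = verts L := by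
    ext z
    rw [mem_verts, mem_verts]
    constructor
    · rintro ⟨s, hs, hz⟩
      rcases (memL' s).1 hs with ⟨h, -, -⟩ | rfl | rfl
      · exact ⟨s, h, hz⟩
      · rw [hT3] at hz
        simp only [mem_insert, mem_singleton] at hz
        rcases hz with rfl | rfl | rfl
        · exact ⟨T1, hx, by rw [hT1]; simp⟩
        · exact ⟨T2, hy, by rw [hT2]; simp⟩
        · exact ⟨T1, hx, by rw [hT1]; simp⟩
      · rw [hT4] at hz
        simp only [mem_insert, mem_singleton] at hz
        rcases hz with rfl | rfl | rfl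
        · exact ⟨T1, hx, by rw [hT1]; simp⟩
        · exact ⟨T2, hy, by rw [hT2]; simp⟩
        · exact ⟨T1, hx, by rw [hT1]; simp⟩
    · rintro ⟨s, hs, hz⟩
      by_cases h1 : s = T1
      · subst h1
        rw [hT1] at hz
        simp only [mem_insert, mem_singleton] at hz
        rcases hz with rfl | rfl | rfl
        · exact ⟨T3, m3, by rw [hT3]; simp⟩
        · exact ⟨T4, m4, by rw [hT4]; simp⟩
        · exact ⟨T3, m3, by rw [hT3]; simp⟩
      by_cases h2 : s = T2
      · subst h2
        rw [hT2] at hz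
        simp only [mem_insert, mem_singleton] at hz
        rcases hz with rfl | rfl | rfl
        · exact ⟨T3, m3, by rw [hT3]; simp⟩
        · exact ⟨T4, m4, by rw [hT4]; simp⟩
        · exact ⟨T3, m3, by rw [hT3]; simp⟩
      exact ⟨s, (memL' s).2 (Or.inl ⟨hs, h1, h2⟩), hz⟩
  -- chains
  have path : ∀ Z : Finset ι, Z.card ≤ 1 →
      (∀ s ∈ L, ∀ t ∈ L, Z ⊆ s → Z ⊆ t →
        Relation.ReflTransGen (fun a b => b ∈ L ∧ (a ∩ b).card = 2 ∧ Z ⊆ a ∩ b) s t) →
      ∀ s ∈ L', ∀ t ∈ L', Z ⊆ s → Z ⊆ t →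
        Relation.ReflTransGen (fun a b => b ∈ L' ∧ (a ∩ b).card = 2 ∧ Z ⊆ a ∩ b) s t := by
    intro Z hZ hcon
    set r' : Finset ι → Finset ι → Prop := fun a b => b ∈ L' ∧ (a ∩ b).card = 2 ∧ Z ⊆ a ∩ b with hr'
    obtain ⟨T0, hT0⟩ : ∃ T0 : Finset ι, ∀ W, (W = T3 ∨ W = T4) → Z ⊆ W →
        Relation.ReflTransGen r' W T0 ∧ Relation.ReflTransGen r' T0 W := by
      by_cases hZ3 : Z ⊆ T3
      · refine ⟨T3, ?_⟩
        rintro W (rfl | rfl) hW
        · exact ⟨Relation.ReflTransGen.refl, Relation.ReflTransGen.refl⟩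
        · have h34 : (T3 ∩ T4).card = 2 :=
            Flip_inter c3 c4 hT34 (card_pair hxy)
              (by rw [hT3]; intro z hz; simp only [mem_insert, mem_singleton] at hz ⊢; tauto)
              (by rw [hT4]; intro z hz; simp only [mem_insert, mem_singleton] at hz ⊢; tauto)
          refine ⟨Relation.ReflTransGen.single ⟨m3, ?_, subset_inter hW hZ3⟩,
            Relation.ReflTransGen.single ⟨m4, h34, subset_inter hZ3 hW⟩⟩
          rw [inter_comm]
          exact h34
      · refine ⟨T4, ?_⟩
        rintro W (rfl | rfl) hW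
        · exact absurd hW hZ3
        · exact ⟨Relation.ReflTransGen.refl, Relation.ReflTransGen.refl⟩
    have step1 : ∀ a ∈ L, a ≠ T1 → a ≠ T2 → ∀ W, (W = T1 ∨ W = T2) → (a ∩ W).card = 2 → Z ⊆ a ∩ W →
        Relation.ReflTransGen r' a T0 ∧ Relation.ReflTransGen r' T0 a := by
      intro a ha ha1 ha2 W hW hcW hZW
      have hnuv : ¬ (u ∈ a ∧ v ∈ a) := by
        rintro ⟨h1, h2⟩
        rcases huvT a ha h1 h2 with h | h
        · exact ha1 h
        · exact ha2 h
      have haL' : a ∈ L' := (memL' a).2 (Or.inl ⟨ha, ha1, ha2⟩)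
      obtain ⟨W', hW', hsub⟩ : ∃ W', (W' = T3 ∨ W' = T4) ∧ a ∩ W ⊆ W' := by
        by_cases hu : u ∈ a
        · have hv : v ∉ a := fun h => hnuv ⟨hu, h⟩
          refine ⟨T3, Or.inl rfl, ?_⟩
          intro z hz
          rw [mem_inter] at hz
          have hzv : z ≠ v := by rintro rfl; exact hv hz.1
          have hzW := hz.2
          rcases hW with rfl | rfl
          · rw [hT1] at hzW
            rw [hT3]
            simp only [mem_insert, mem_singleton] at hzW ⊢
            tauto
          · rw [hT2] at hzW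
            rw [hT3]
            simp only [mem_insert, mem_singleton] at hzW ⊢
            tauto
        · refine ⟨T4, Or.inr rfl, ?_⟩
          intro z hz
          rw [mem_inter] at hz
          have hzu : z ≠ u := by rintro rfl; exact hu hz.1
          have hzW := hz.2
          rcases hW with rfl | rfl
          · rw [hT1] at hzW
            rw [hT4]
            simp only [mem_insert, mem_singleton] at hzW ⊢
            tauto
          · rw [hT2] at hzW
            rw [hT4]
            simp only [mem_insert, mem_singleton] at hzW ⊢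
            tauto
      have hW'c : W'.card = 3 := by rcases hW' with rfl | rfl; exacts [c3, c4]
      have hW'm : W' ∈ L' := by rcases hW' with rfl | rfl; exacts [m3, m4]
      have hW'L : W' ∉ L := by rcases hW' with rfl | rfl; exacts [h3L, h4L]
      have hne : a ≠ W' := by rintro rfl; exact hW'L ha
      have hc : (a ∩ W').card = 2 := Flip_inter (hL.card3 a ha) hW'c hne hcW inter_subset_left hsub
      have hZ' : Z ⊆ a ∩ W' := subset_inter (hZW.trans inter_subset_left) (hZW.trans hsub)
      obtain ⟨g1, g2⟩ := hT0 W' hW' (hZ'.trans inter_subset_right)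
      refine ⟨Relation.ReflTransGen.head ⟨hW'm, hc, hZ'⟩ g1, Relation.ReflTransGen.tail g2 ⟨haL', ?_, ?_⟩⟩
      · rw [inter_comm]; exact hc
      · rw [inter_comm]; exact hZ'
    classical
    obtain ⟨φ, hφ1, hφ2⟩ : ∃ φ : Finset ι → Finset ι, (∀ a, (a = T1 ∨ a = T2) → φ a = T0) ∧
        (∀ a, a ≠ T1 → a ≠ T2 → φ a = a) := by
      refine ⟨fun a => if a = T1 ∨ a = T2 then T0 else a, fun a ha => if_pos ha, fun a h1 h2 => if_neg ?_⟩
      rintro (h | h)
      · exact h1 h
      · exact h2 h
    have main : ∀ s ∈ L, ∀ t,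
        Relation.ReflTransGen (fun a b => b ∈ L ∧ (a ∩ b).card = 2 ∧ Z ⊆ a ∩ b) s t →
        t ∈ L ∧ Relation.ReflTransGen r' (φ s) (φ t) := by
      intro s hs t hst
      induction hst with
      | refl => exact ⟨hs, Relation.ReflTransGen.refl⟩
      | @tail b c hsb hbc ih =>
        obtain ⟨hbL, ih⟩ := ih
        obtain ⟨hcL, hbc2, hZbc⟩ := hbc
        refine ⟨hcL, ih.trans ?_⟩
        by_cases hb : b = T1 ∨ b = T2
        · rw [hφ1 b hb]
          by_cases hc : c = T1 ∨ c = T2
          · rw [hφ1 c hc]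
          · push Not at hc
            rw [hφ2 c hc.1 hc.2]
            refine (step1 c hcL hc.1 hc.2 b hb ?_ ?_).2
            · rw [inter_comm]; exact hbc2
            · rw [inter_comm]; exact hZbc
        · push Not at hb
          rw [hφ2 b hb.1 hb.2]
          by_cases hc : c = T1 ∨ c = T2
          · rw [hφ1 c hc]
            exact (step1 b hbL hb.1 hb.2 c hc hbc2 hZbc).1
          · push Not at hc
            rw [hφ2 c hc.1 hc.2]
            exact Relation.ReflTransGen.single ⟨(memL' c).2 (Or.inl ⟨hcL, hc.1, hc.2⟩), hbc2, hZbc⟩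
    have lift : ∀ s ∈ L', Z ⊆ s → ∃ s0 ∈ L, Z ⊆ s0 ∧ Relation.ReflTransGen r' s (φ s0) ∧
        Relation.ReflTransGen r' (φ s0) s := by
      intro s hs hZs
      rcases (memL' s).1 hs with ⟨h, h1, h2⟩ | h
      · refine ⟨s, h, hZs, ?_, ?_⟩ <;> rw [hφ2 s h1 h2]
      · obtain ⟨s0, hs0, hZ0⟩ : ∃ s0, (s0 = T1 ∨ s0 = T2) ∧ Z ⊆ s0 := by
          rcases Z.eq_empty_or_nonempty with hZe | ⟨z, hz⟩
          · exact ⟨T1, Or.inl rfl, by rw [hZe]; exact empty_subset _⟩
          · have hZz : Z = {z} := by
              symm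
              apply eq_of_subset_of_card_le
              · intro w hw
                rw [mem_singleton] at hw
                rw [hw]; exact hz
              · rw [card_singleton]; exact hZ
            have hzs := hZs hz
            have : z = x ∨ z = y ∨ z = u ∨ z = v := by
              rcases h with rfl | rfl
              · rw [hT3] at hzs; simp only [mem_insert, mem_singleton] at hzs; tauto
              · rw [hT4] at hzs; simp only [mem_insert, mem_singleton] at hzs; tauto
            rw [hZz]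
            rcases this with rfl | rfl | rfl | rfl
            · exact ⟨T1, Or.inl rfl, by rw [singleton_subset_iff, hT1]; simp⟩
            · exact ⟨T2, Or.inr rfl, by rw [singleton_subset_iff, hT2]; simp⟩
            · exact ⟨T1, Or.inl rfl, by rw [singleton_subset_iff, hT1]; simp⟩
            · exact ⟨T1, Or.inl rfl, by rw [singleton_subset_iff, hT1]; simp⟩
        have hs0L : s0 ∈ L := by rcases hs0 with rfl | rfl; exacts [hx, hy]
        obtain ⟨g1, g2⟩ := hT0 s h hZs
        refine ⟨s0, hs0L, hZ0, ?_, ?_⟩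
        · rw [hφ1 s0 hs0]; exact g1
        · rw [hφ1 s0 hs0]; exact g2
    intro s hs t ht hZs hZt
    obtain ⟨s0, hs0, hZs0, a1, -⟩ := lift s hs hZs
    obtain ⟨t0, ht0, hZt0, -, b2⟩ := lift t ht hZt
    exact (a1.trans (main s0 hs0 t0 (hcon s0 hs0 t0 ht0 hZs0 hZt0)).2).trans b2
  refine ⟨L', rfl, ⟨?_, ?_, ?_, ?_, ?_⟩, hverts, ?_⟩
  · intro t ht
    rcases (memL' t).1 ht with ⟨h, -, -⟩ | rfl | rfl
    · exact hL.card3 t h
    · exact c3
    · exact c4
  · -- edges
    intro t ht e het he
    obtain ⟨a, b, hab, rfl⟩ := card_eq_two.1 he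
    have hcn := hcnt {a, b}
    have s1 : ∀ T : Finset ι, ({a, b} : Finset ι) ⊆ T ↔ a ∈ T ∧ b ∈ T := by
      intro T
      rw [insert_subset_iff, singleton_subset_iff]
    simp only [s1] at hcn ⊢
    rw [s1] at het
    by_cases hxyab : (a = x ∧ b = y) ∨ (a = y ∧ b = x)
    · have h0 : (L.filter (fun s => a ∈ s ∧ b ∈ s)).card = 0 := by
        rw [card_eq_zero, filter_eq_empty_iff]
        rintro s hs ⟨h1, h2⟩
        rcases hxyab with ⟨rfl, rfl⟩ | ⟨rfl, rfl⟩
        · exact hno s hs h1 h2
        · exact hno s hs h2 h1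
      have i1 : ¬ (a ∈ T1 ∧ b ∈ T1) := by
        rintro ⟨h1, h2⟩
        rcases hxyab with ⟨rfl, rfl⟩ | ⟨rfl, rfl⟩
        · exact hno _ hx h1 h2
        · exact hno _ hx h2 h1
      have i2 : ¬ (a ∈ T2 ∧ b ∈ T2) := by
        rintro ⟨h1, h2⟩
        rcases hxyab with ⟨rfl, rfl⟩ | ⟨rfl, rfl⟩
        · exact hno _ hy h1 h2
        · exact hno _ hy h2 h1
      have i3 : a ∈ T3 ∧ b ∈ T3 := by
        rw [hT3]
        rcases hxyab with ⟨rfl, rfl⟩ | ⟨rfl, rfl⟩ <;> simp
      have i4 : a ∈ T4 ∧ b ∈ T4 := by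
        rw [hT4]
        rcases hxyab with ⟨rfl, rfl⟩ | ⟨rfl, rfl⟩ <;> simp
      rw [h0, if_neg i1, if_neg i2, if_pos i3, if_pos i4] at hcn
      omega
    · have hnuv : ¬ ((a = u ∧ b = v) ∨ (a = v ∧ b = u)) := by
        intro h
        have huv' : u ∈ t ∧ v ∈ t := by
          rcases h with ⟨rfl, rfl⟩ | ⟨rfl, rfl⟩
          · exact het
          · exact ⟨het.2, het.1⟩
        rcases (memL' t).1 ht with ⟨h, h1, h2⟩ | rfl | rfl
        · rcases huvT t h huv'.1 huv'.2 with h | h
          · exact h1 h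
          · exact h2 h
        · have := huv'.2
          rw [hT3] at this
          simp only [mem_insert, mem_singleton] at this
          rcases this with h | h | h
          · exact hvx h
          · exact hvy h
          · exact huv h.symm
        · have := huv'.1
          rw [hT4] at this
          simp only [mem_insert, mem_singleton] at this
          rcases this with h | h | h
          · exact hux h
          · exact huy h
          · exact huv h
      have hind : (if a ∈ T1 ∧ b ∈ T1 then 1 else 0) + (if a ∈ T2 ∧ b ∈ T2 then 1 else 0) =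
          (if a ∈ T3 ∧ b ∈ T3 then 1 else 0) + (if a ∈ T4 ∧ b ∈ T4 then 1 else 0) := by
        exact Flip_ind huv hux hvx huy hvy hxy hab hxyab hnuv
      have hinL : ∃ t0 ∈ L, a ∈ t0 ∧ b ∈ t0 := by
        rcases (memL' t).1 ht with ⟨h, -, -⟩ | h
        · exact ⟨t, h, het⟩
        · have hpos : 1 ≤ (if a ∈ T3 ∧ b ∈ T3 then 1 else 0) + (if a ∈ T4 ∧ b ∈ T4 then 1 else 0) := by
            rcases h with rfl | rfl
            · rw [if_pos het]; omega
            · rw [if_pos het]; omega
          rw [← hind] at hpos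
          by_cases q1 : a ∈ T1 ∧ b ∈ T1
          · exact ⟨T1, hx, q1⟩
          · by_cases q2 : a ∈ T2 ∧ b ∈ T2
            · exact ⟨T2, hy, q2⟩
            · rw [if_neg q1, if_neg q2] at hpos
              omega
      obtain ⟨t0, ht0, hab0⟩ := hinL
      have h2 := hL.edge t0 ht0 {a, b} ((s1 t0).2 hab0) he
      simp only [s1] at h2
      omega
  · -- conn
    intro s hs t ht
    have h0 := path ∅ (by simp) (fun s hs t ht _ _ =>
      Relation.ReflTransGen.mono (fun a b hab => ⟨hab.1, hab.2, empty_subset _⟩) _ _ (hL.conn s hs t ht)) s hs t ht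
      (empty_subset _) (empty_subset _)
    exact Relation.ReflTransGen.mono (fun a b hab => ⟨hab.1, hab.2.1⟩) _ _ h0
  · -- star
    intro z s hs t ht hzs hzt
    have h0 := path {z} (by simp) (fun s hs t ht h1 h2 =>
      Relation.ReflTransGen.mono (fun a b hab => ⟨hab.1, hab.2.1, singleton_subset_iff.2 hab.2.2⟩) _ _
        (hL.star z s hs t ht (singleton_subset_iff.1 h1) (singleton_subset_iff.1 h2))) s hs t ht
      (singleton_subset_iff.2 hzs) (singleton_subset_iff.2 hzt)
    exact Relation.ReflTransGen.mono (fun a b hab => ⟨hab.1, hab.2.1, singleton_subset_iff.1 hab.2.2⟩) _ _ h0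
  · rw [hverts, hcard]
    exact hL.euler
  · -- adjacency
    intro a b
    constructor
    · rintro ⟨hab, t, ht, ha, hb⟩
      rcases (memL' t).1 ht with ⟨h, h1, h2⟩ | rfl | rfl
      · left
        refine ⟨⟨hab, t, h, ha, hb⟩, ?_, ?_⟩
        · rintro ⟨rfl, rfl⟩
          rcases huvT t h ha hb with h | h
          · exact h1 h
          · exact h2 h
        · rintro ⟨rfl, rfl⟩
          rcases huvT t h hb ha with h | h
          · exact h1 h
          · exact h2 h
      · rw [hT3] at ha hb
        simp only [mem_insert, mem_singleton] at ha hb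
        have k1 : u ∈ T1 ∧ x ∈ T1 := by rw [hT1]; simp
        have k2 : u ∈ T2 ∧ y ∈ T2 := by rw [hT2]; simp
        rcases ha with rfl | rfl | rfl <;> rcases hb with rfl | rfl | rfl
        · exact absurd rfl hab
        · right; left; exact ⟨rfl, rfl⟩
        · left
          exact ⟨⟨hab, T1, hx, k1.2, k1.1⟩, fun h => hux h.1.symm, fun h => hvx h.1.symm⟩
        · right; right; exact ⟨rfl, rfl⟩
        · exact absurd rfl hab
        · left
          exact ⟨⟨hab, T2, hy, k2.2, k2.1⟩, fun h => huy h.1.symm, fun h => hvy h.1.symm⟩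
        · left
          exact ⟨⟨hab, T1, hx, k1.1, k1.2⟩, fun h => hvx h.2.symm, fun h => hux h.2.symm⟩
        · left
          exact ⟨⟨hab, T2, hy, k2.1, k2.2⟩, fun h => hvy h.2.symm, fun h => huy h.2.symm⟩
        · exact absurd rfl hab
      · rw [hT4] at ha hb
        simp only [mem_insert, mem_singleton] at ha hb
        have k1 : v ∈ T1 ∧ x ∈ T1 := by rw [hT1]; simp
        have k2 : v ∈ T2 ∧ y ∈ T2 := by rw [hT2]; simp
        rcases ha with rfl | rfl | rfl <;> rcases hb with rfl | rfl | rfl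
        · exact absurd rfl hab
        · right; left; exact ⟨rfl, rfl⟩
        · left
          exact ⟨⟨hab, T1, hx, k1.2, k1.1⟩, fun h => hux h.1.symm, fun h => hvx h.1.symm⟩
        · right; right; exact ⟨rfl, rfl⟩
        · exact absurd rfl hab
        · left
          exact ⟨⟨hab, T2, hy, k2.2, k2.1⟩, fun h => huy h.1.symm, fun h => hvy h.1.symm⟩
        · left
          exact ⟨⟨hab, T1, hx, k1.1, k1.2⟩, fun h => hvx h.2.symm, fun h => hux h.2.symm⟩
        · left
          exact ⟨⟨hab, T2, hy, k2.1, k2.2⟩, fun h => hvy h.2.symm, fun h => huy h.2.symm⟩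
        · exact absurd rfl hab
    · rintro (⟨⟨hab, t, ht, ha, hb⟩, n1, n2⟩ | ⟨rfl, rfl⟩ | ⟨rfl, rfl⟩)
      · by_cases h1 : t = T1
        · subst h1
          rw [hT1] at ha hb
          simp only [mem_insert, mem_singleton] at ha hb
          rcases ha with rfl | rfl | rfl <;> rcases hb with rfl | rfl | rfl
          · exact absurd rfl hab
          · exact absurd ⟨rfl, rfl⟩ n1
          · exact ⟨hab, T3, m3, by rw [hT3]; simp, by rw [hT3]; simp⟩
          · exact absurd ⟨rfl, rfl⟩ n2
          · exact absurd rfl hab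
          · exact ⟨hab, T4, m4, by rw [hT4]; simp, by rw [hT4]; simp⟩
          · exact ⟨hab, T3, m3, by rw [hT3]; simp, by rw [hT3]; simp⟩
          · exact ⟨hab, T4, m4, by rw [hT4]; simp, by rw [hT4]; simp⟩
          · exact absurd rfl hab
        by_cases h2 : t = T2
        · subst h2
          rw [hT2] at ha hb
          simp only [mem_insert, mem_singleton] at ha hb
          rcases ha with rfl | rfl | rfl <;> rcases hb with rfl | rfl | rfl
          · exact absurd rfl hab
          · exact absurd ⟨rfl, rfl⟩ n1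
          · exact ⟨hab, T3, m3, by rw [hT3]; simp, by rw [hT3]; simp⟩
          · exact absurd ⟨rfl, rfl⟩ n2
          · exact absurd rfl hab
          · exact ⟨hab, T4, m4, by rw [hT4]; simp, by rw [hT4]; simp⟩
          · exact ⟨hab, T3, m3, by rw [hT3]; simp, by rw [hT3]; simp⟩
          · exact ⟨hab, T4, m4, by rw [hT4]; simp, by rw [hT4]; simp⟩
          · exact absurd rfl hab
        exact ⟨hab, t, (memL' t).2 (Or.inl ⟨ht, h1, h2⟩), ha, hb⟩
      · exact ⟨hxy, T3, m3, by rw [hT3]; simp, by rw [hT3]; simp⟩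
      · exact ⟨hxy.symm, T3, m3, by rw [hT3]; simp, by rw [hT3]; simp⟩

end Pool.TSph
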