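import Mathlib

/-! # Distance functions (module RankFn) -/

set_option autoImplicit false

namespace Pool.TSph

/-- The target can be reached in `n` steps. -/
private def RankFn_Q {α : Type*} (r : α → α → Prop) (P T : α → Prop) : ℕ → α → Prop
  | 0, t => T t
  | n + 1, t => ∃ t', P t' ∧ r t t' ∧ RankFn_Q r P T n t'

/-- If a target is reachable from everywhere in `P` (staying in `P`) then there is a function
which can be decreased along `r` outside of the targets (the distance to the target). -/
theorem exists_rank {α : Type*} (r : α → α → Prop) (P T : α → Prop)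
    (h : ∀ t, P t → ∃ u, T u ∧ Relation.ReflTransGen (fun a b => P b ∧ r a b) t u) :
    ∃ D : α → ℕ, ∀ t, P t → ¬ T t → ∃ t', P t' ∧ r t t' ∧ D t' < D t := by
  classical
  have hex : ∀ t, P t → ∃ n, RankFn_Q r P T n t := by
    intro t ht
    obtain ⟨u, hu, hc⟩ := h t ht
    clear ht
    induction hc using Relation.ReflTransGen.head_induction_on with
    | refl => exact ⟨0, hu⟩
    | head hab _ ih =>
      obtain ⟨n, hn⟩ := ih
      exact ⟨n + 1, _, hab.1, hab.2, hn⟩
  refine ⟨fun t => if hn : ∃ n, RankFn_Q r P T n t then Nat.find hn else 0, ?_⟩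
  intro t ht hT
  have h1 := hex t ht
  have h2 := Nat.find_spec h1
  have h4 : (if hn : ∃ n, RankFn_Q r P T n t then Nat.find hn else 0) = Nat.find h1 := dif_pos h1
  rcases hm : Nat.find h1 with _ | m
  · rw [hm] at h2
    exact absurd h2 hT
  · rw [hm] at h2
    obtain ⟨t', hP, hr, hq⟩ := h2
    refine ⟨t', hP, hr, ?_⟩
    have h3 : ∃ n, RankFn_Q r P T n t' := ⟨m, hq⟩
    have h5 : (if hn : ∃ n, RankFn_Q r P T n t' then Nat.find hn else 0) = Nat.find h3 :=
      dif_pos h3
    have h6 : Nat.find h3 ≤ m := Nat.find_min' h3 hq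
    show (if hn : ∃ n, RankFn_Q r P T n t' then Nat.find hn else 0) <
      (if hn : ∃ n, RankFn_Q r P T n t then Nat.find hn else 0)
    rw [h4, h5, hm]
    omega

end Pool.TSph
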