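import Pool.Agent.Lib.MP_3de3a3_co.Comp
import Pool.Agent.Lib.MP_3de3a3_co.RankFn

/-! # Spanning forests (module Forest) -/

set_option autoImplicit false

namespace Pool.TSph

open Finset

variable {ι : Type*} [DecidableEq ι]

/-- A spanning forest of a graph on `S`: one root in each component, every other vertex has a
parent with smaller distance from the root. -/
theorem exists_forest {A : ι → ι → Prop} (hA : ∀ u v, A u v → A v u) (S : Finset ι) :
    ∃ (Rt : Finset ι) (dist : ι → ℕ) (par : ι → ι), Rt ⊆ S ∧ Rt.card ≤ comp A S ∧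
      ∀ w ∈ S, w ∉ Rt → par w ∈ S ∧ A w (par w) ∧ dist (par w) < dist w := by
  classical
  rcases S.eq_empty_or_nonempty with rfl | ⟨a0, _⟩
  · exact ⟨∅, fun _ => 0, id, Finset.Subset.refl _, Nat.zero_le _,
      fun w hw => absurd hw (Finset.notMem_empty w)⟩
  have hrep : ∀ C : Finset ι, ∃ c : ι, C.Nonempty → c ∈ C := by
    intro C
    rcases C.eq_empty_or_nonempty with rfl | ⟨c, hc⟩
    · exact ⟨a0, fun hC => absurd hC Finset.not_nonempty_empty⟩
    · exact ⟨c, fun _ => hc⟩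
  choose rp hrp using hrep
  set Rt : Finset ι := (S.image (fun a => S.filter (fun b => cn A S a b))).image rp with hRt
  have hcl : ∀ a ∈ S, a ∈ S.filter (fun b => cn A S a b) := fun a ha =>
    Finset.mem_filter.2 ⟨ha, Relation.ReflTransGen.refl⟩
  have hRS : Rt ⊆ S := by
    intro x hx
    rw [hRt, Finset.mem_image] at hx
    obtain ⟨C, hC, rfl⟩ := hx
    rw [Finset.mem_image] at hC
    obtain ⟨a, ha, rfl⟩ := hC
    exact (Finset.mem_filter.1 (hrp _ ⟨a, hcl a ha⟩)).1
  obtain ⟨dist, hd⟩ := exists_rank A (fun x => x ∈ S) (fun x => x ∈ Rt) (by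
    intro t ht
    refine ⟨rp (S.filter (fun b => cn A S t b)), ?_, ?_⟩
    · rw [hRt]
      exact Finset.mem_image_of_mem _ (Finset.mem_image_of_mem _ ht)
    · exact (Finset.mem_filter.1 (hrp _ ⟨t, hcl t ht⟩)).2)
  have hpar : ∀ w : ι, ∃ w' : ι, w ∈ S → w ∉ Rt → w' ∈ S ∧ A w w' ∧ dist w' < dist w := by
    intro w
    by_cases hw : w ∈ S ∧ w ∉ Rt
    · obtain ⟨t', h1, h2, h3⟩ := hd w hw.1 hw.2
      exact ⟨t', fun _ _ => ⟨h1, h2, h3⟩⟩
    · exact ⟨w, fun h1 h2 => absurd ⟨h1, h2⟩ hw⟩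
  choose par hp using hpar
  refine ⟨Rt, dist, par, hRS, ?_, hp⟩
  rw [hRt]
  refine Finset.card_image_le.trans (le_of_eq ?_)
  unfold comp
  rfl

end Pool.TSph
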