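import Pool.Agent.Lib.MP_3de3a3_co.Comp
import Pool.Agent.Lib.MP_3de3a3_co.RankFn

/-! # Gradient in a vertex link (module Gradient) -/

set_option autoImplicit false

namespace Pool.TSph

open Finset

variable {ι : Type*} [DecidableEq ι]

private theorem Gradient_aux {L : Finset (Finset ι)} (hL : IsSphere2 L)
    (T : Finset ι → Prop) (hT : ∃ t0 ∈ L, T t0) :
    ∃ (D : Finset ι → ℕ) (g : Finset ι → Finset ι),
      ∀ t ∈ L, ¬ T t → g t ⊆ t ∧ (g t).card = 2 ∧
        ∀ t' ∈ L, g t ⊆ t' → t' ≠ t → D t' < D t := by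
  classical
  obtain ⟨t0, ht0, hT0⟩ := hT
  obtain ⟨D, hD⟩ := exists_rank (fun a b : Finset ι => (a ∩ b).card = 2) (fun t => t ∈ L) T
    (fun t ht => ⟨t0, hT0, hL.conn t ht t0 ht0⟩)
  have hg : ∀ t : Finset ι, ∃ g : Finset ι, t ∈ L → ¬ T t → g ⊆ t ∧ g.card = 2 ∧
      ∀ t' ∈ L, g ⊆ t' → t' ≠ t → D t' < D t := by
    intro t
    by_cases ht : t ∈ L ∧ ¬ T t
    · obtain ⟨t', h1, h2, h3⟩ := hD t ht.1 ht.2
      refine ⟨t ∩ t', fun _ _ => ⟨Finset.inter_subset_left, h2, ?_⟩⟩
      intro t'' h4 h5 h6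
      have h7 := hL.edge t ht.1 (t ∩ t') Finset.inter_subset_left h2
      have htt : t ≠ t' := by
        rintro rfl
        rw [Finset.inter_self, hL.card3 t h1] at h2
        omega
      have h8 : t'' = t' := by
        by_contra hne
        have h9 : ({t, t', t''} : Finset (Finset ι)) ⊆ L.filter (fun s => t ∩ t' ⊆ s) := by
          intro z hz
          rw [Finset.mem_insert, Finset.mem_insert, Finset.mem_singleton] at hz
          rw [Finset.mem_filter]
          rcases hz with rfl | rfl | rfl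
          · exact ⟨ht.1, Finset.inter_subset_left⟩
          · exact ⟨h1, Finset.inter_subset_right⟩
          · exact ⟨h4, h5⟩
        have h10 := Finset.card_le_card h9
        have h11 : ({t, t', t''} : Finset (Finset ι)).card = 3 :=
          Finset.card_eq_three.2 ⟨t, t', t'', htt, Ne.symm h6, Ne.symm hne, rfl⟩
        omega
      rw [h8]
      exact h3
    · exact ⟨t, fun h1 h2 => absurd ⟨h1, h2⟩ ht⟩
  choose g hg using hg
  exact ⟨D, g, hg⟩

/-- The gradient: `D t` is the dual distance of `t` to the triangles which are not inside `S`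
(or to one chosen triangle if `S = verts L`), `g t = t ∩ t'` for a neighbour `t'` with smaller
distance. -/
theorem exists_gradient {L : Finset (Finset ι)} (hL : IsSphere2 L) {S : Finset ι}
    (hS : S ⊆ verts L) :
    ∃ (R : Finset (Finset ι)) (D : Finset ι → ℕ) (g : Finset ι → Finset ι),
      R ⊆ L ∧ R.card ≤ (if S = verts L then 1 else 0) ∧
      ∀ t ∈ L, t ⊆ S → t ∉ R → g t ⊆ t ∧ (g t).card = 2 ∧
        ∀ t' ∈ L, g t ⊆ t' → t' ≠ t → D t' < D t := by
  classical
  rcases L.eq_empty_or_nonempty with rfl | ⟨t0, ht0⟩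
  · exact ⟨∅, fun _ => 0, id, Finset.Subset.refl _, Nat.zero_le _,
      fun t ht => absurd ht (Finset.notMem_empty t)⟩
  by_cases hSv : S = verts L
  · obtain ⟨D, g, hg⟩ := Gradient_aux hL (fun t => t = t0) ⟨t0, ht0, rfl⟩
    refine ⟨{t0}, D, g, Finset.singleton_subset_iff.2 ht0, ?_, ?_⟩
    · rw [if_pos hSv, Finset.card_singleton]
    · intro t ht _ htR
      rw [Finset.mem_singleton] at htR
      exact hg t ht htR
  · obtain ⟨x, hx, hxS⟩ : ∃ x ∈ verts L, x ∉ S := by
      by_contra hcon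
      push Not at hcon
      exact hSv (Finset.Subset.antisymm hS hcon)
    obtain ⟨t1, ht1, hx1⟩ := mem_verts.1 hx
    obtain ⟨D, g, hg⟩ := Gradient_aux hL (fun t => ¬ t ⊆ S) ⟨t1, ht1, fun h => hxS (h hx1)⟩
    refine ⟨∅, D, g, Finset.empty_subset _, ?_, ?_⟩
    · rw [if_neg hSv, Finset.card_empty]
    · intro t ht htS _
      exact hg t ht (fun h => h htS)

end Pool.TSph
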