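import Pool.Agent.Lib.MP_3de3a3_co.CycDef

/-! # The link cycle of a vertex of a 2-sphere (module LinkCyc) -/

set_option autoImplicit false

namespace Pool.TSph

open Finset

variable {ι : Type*} [DecidableEq ι]

/-- `u`, `v` form an edge of the link of `w` -/
private def LinkCycE (L : Finset (Finset ι)) (w u v : ι) : Prop :=
  u ≠ v ∧ u ≠ w ∧ v ≠ w ∧ ({w, u, v} : Finset ι) ∈ L

private theorem LinkCycE.symm {L : Finset (Finset ι)} {w u v : ι} (h : LinkCycE L w u v) :
    LinkCycE L w v u := by
  obtain ⟨h1, h2, h3, h4⟩ := h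
  refine ⟨h1.symm, h3, h2, ?_⟩
  rwa [Finset.pair_comm v u]

private theorem LinkCycE.ext {w u x y : ι} (hx1 : u ≠ x) (hx2 : x ≠ w)
    (h : ({w, u, x} : Finset ι) = {w, u, y}) : x = y := by
  have : x ∈ ({w, u, y} : Finset ι) := by
    rw [← h]; simp
  simp only [mem_insert, mem_singleton] at this
  rcases this with h | h | h
  · exact absurd h hx2
  · exact absurd h.symm hx1
  · exact h

private theorem LinkCycE.cards {L : Finset (Finset ι)} (hL : IsSphere2 L) {w u v : ι}
    (h : LinkCycE L w u v) : (L.filter (fun s => ({w, u} : Finset ι) ⊆ s)).card = 2 := by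
  obtain ⟨h1, h2, h3, h4⟩ := h
  refine hL.edge _ h4 _ ?_ (Finset.card_pair h2.symm)
  intro z hz
  simp only [mem_insert, mem_singleton] at hz ⊢
  tauto

private theorem linkCyc_form {L : Finset (Finset ι)} (hL : IsSphere2 L) {w : ι} {t : Finset ι}
    (ht : t ∈ L) (hw : w ∈ t) : ∃ u v, LinkCycE L w u v ∧ t = {w, u, v} := by
  have h3 : (t.erase w).card = 2 := by rw [card_erase_of_mem hw, hL.card3 t ht]
  obtain ⟨u, v, huv, he⟩ := Finset.card_eq_two.1 h3
  have h4 : t = {w, u, v} := by
    rw [← insert_erase hw, he]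
  have hu : u ∈ t.erase w := by rw [he]; simp
  have hv : v ∈ t.erase w := by rw [he]; simp
  refine ⟨u, v, ⟨huv, (mem_erase.1 hu).1, (mem_erase.1 hv).1, h4 ▸ ht⟩, h4⟩

/-- a triangle which contains `w` and `u` -/
private theorem linkCyc_form2 {L : Finset (Finset ι)} (hL : IsSphere2 L) {w u : ι} {t : Finset ι}
    (ht : t ∈ L) (hw : w ∈ t) (hu : u ∈ t) (hwu : u ≠ w) :
    ∃ v, LinkCycE L w u v ∧ t = {w, u, v} := by
  obtain ⟨x, y, hE, rfl⟩ := linkCyc_form hL ht hw
  simp only [mem_insert, mem_singleton] at hu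
  rcases hu with h | h | h
  · exact absurd h hwu
  · subst h; exact ⟨y, hE, rfl⟩
  · subst h
    exact ⟨x, hE.symm, by rw [Finset.pair_comm x u]⟩

private theorem LinkCycE.other {L : Finset (Finset ι)} (hL : IsSphere2 L) {w u v : ι}
    (h : LinkCycE L w u v) : ∃ v', v' ≠ v ∧ LinkCycE L w u v' := by
  have hc := h.cards hL
  have hm : ({w, u, v} : Finset ι) ∈ L.filter (fun s => ({w, u} : Finset ι) ⊆ s) := by
    rw [mem_filter]
    refine ⟨h.2.2.2, ?_⟩
    intro z hz
    simp only [mem_insert, mem_singleton] at hz ⊢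
    tauto
  obtain ⟨s, hs, hne⟩ := Finset.exists_mem_ne (by rw [hc]; norm_num) ({w, u, v} : Finset ι)
  rw [mem_filter] at hs
  obtain ⟨hsL, hsub⟩ := hs
  obtain ⟨v', hE, rfl⟩ := linkCyc_form2 hL hsL (hsub (by simp)) (hsub (by simp : u ∈ _)) h.2.1
  refine ⟨v', ?_, hE⟩
  rintro rfl
  exact hne rfl

private theorem LinkCycE.three {L : Finset (Finset ι)} (hL : IsSphere2 L) {w u x y z : ι}
    (hx : LinkCycE L w u x) (hy : LinkCycE L w u y) (hz : LinkCycE L w u z) (hxy : x ≠ y) :
    z = x ∨ z = y := by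
  by_contra hcon
  push Not at hcon
  obtain ⟨h1, h2⟩ := hcon
  have hc := hx.cards hL
  have hsub : ({({w, u, x} : Finset ι), {w, u, y}, {w, u, z}} : Finset (Finset ι)) ⊆
      L.filter (fun s => ({w, u} : Finset ι) ⊆ s) := by
    intro s hs
    simp only [mem_insert, mem_singleton] at hs
    rw [mem_filter]
    rcases hs with rfl | rfl | rfl
    · refine ⟨hx.2.2.2, ?_⟩
      intro z hz
      simp only [mem_insert, mem_singleton] at hz ⊢
      tauto
    · refine ⟨hy.2.2.2, ?_⟩
      intro z hz
      simp only [mem_insert, mem_singleton] at hz ⊢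
      tauto
    · refine ⟨hz.2.2.2, ?_⟩
      intro z hz
      simp only [mem_insert, mem_singleton] at hz ⊢
      tauto
  have hcard := card_le_card hsub
  rw [hc] at hcard
  have h3 : ({({w, u, x} : Finset ι), {w, u, y}, {w, u, z}} : Finset (Finset ι)).card = 3 := by
    rw [Finset.card_eq_three]
    refine ⟨_, _, _, ?_, ?_, ?_, rfl⟩
    · intro h; exact hxy (LinkCycE.ext hx.1 hx.2.2.1 h)
    · intro h; exact h1 (LinkCycE.ext hx.1 hx.2.2.1 h).symm
    · intro h; exact h2 (LinkCycE.ext hy.1 hy.2.2.1 h).symm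
  omega

private theorem linkCyc_seq {L : Finset (Finset ι)} (hL : IsSphere2 L) {w : ι}
    (hw : w ∈ verts L) : ∃ a : ℕ → ι, ∀ n, LinkCycE L w (a n) (a (n + 1)) ∧ a (n + 2) ≠ a n := by
  classical
  obtain ⟨t, ht, hwt⟩ := mem_verts.1 hw
  obtain ⟨u, v, hE, -⟩ := linkCyc_form hL ht hwt
  let X := {p : ι × ι // LinkCycE L w p.1 p.2}
  have step : ∀ p : X, ∃ q : X, q.1.1 = p.1.2 ∧ q.1.2 ≠ p.1.1 := by
    rintro ⟨⟨x, y⟩, h⟩
    obtain ⟨z, hz, hE⟩ := h.symm.other hL
    exact ⟨⟨(y, z), hE⟩, rfl, hz⟩
  choose f hf1 hf2 using step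
  let b : ℕ → X := fun n => f^[n] ⟨(u, v), hE⟩
  have hb : ∀ n, b (n + 1) = f (b n) := fun n => Function.iterate_succ_apply' f n _
  refine ⟨fun n => (b n).1.1, fun n => ⟨?_, ?_⟩⟩
  · have h1 := (b n).2
    rw [← hf1 (b n), ← hb n] at h1
    exact h1
  · have h1 : (b (n + 2)).1.1 = (b (n + 1)).1.2 := by rw [hb (n + 1), hf1]
    have h2 := hf2 (b n)
    rw [← hb n, ← h1] at h2
    exact h2

/-- The degree of `w` is the number of triangles which contain `w`. The link of `w` is a cycle:
choose a triangle `{w, a 0, a 1}` and go around, `a (i+1) ≠ a (i-1)` is the other vertex with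
`{w, a i, a (i+1)} ∈ L`; the first repetition is `a d = a 0`, by `hL.star` one has met all
triangles at `w`. -/
theorem exists_linkCycle {L : Finset (Finset ι)} (hL : IsSphere2 L) {w : ι}
    (hw : w ∈ verts L) {d : ℕ} [NeZero d] (hd : (L.filter (fun t => w ∈ t)).card = d) :
    ∃ a : Fin d → ι, LinkCycle L w d a := by
  classical
  obtain ⟨a, ha⟩ := linkCyc_seq hL hw
  have hmem : ∀ n, a n ∈ verts L := fun n => mem_verts.2 ⟨_, (ha n).1.2.2.2, by simp⟩
  -- first repetition
  have hrep : ∃ j, ∃ i < j, a i = a j := by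
    by_contra hcon
    push Not at hcon
    have hinj : Function.Injective (fun n : ℕ => (⟨a n, hmem n⟩ : {x // x ∈ verts L})) := by
      intro i j hij
      have h1 : a i = a j := congrArg Subtype.val hij
      rcases lt_trichotomy i j with h | h | h
      · exact absurd h1 (hcon j i h)
      · exact h
      · exact absurd h1.symm (hcon i j h)
    exact not_injective_infinite_finite _ hinj
  obtain ⟨i, hi, hij⟩ := Nat.find_spec hrep
  set j := Nat.find hrep with hj
  have hmin : ∀ k < j, ∀ l < k, a l ≠ a k := by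
    intro k hk l hl he
    exact Nat.find_min hrep hk ⟨l, hl, he⟩
  have hdist : ∀ k < j, ∀ l < j, a k = a l → k = l := by
    intro k hk l hl he
    rcases lt_trichotomy k l with h | h | h
    · exact absurd he (hmin l hl k h)
    · exact h
    · exact absurd he.symm (hmin k hk l h)
  have hj1 : j ≠ i + 1 := by
    intro h
    have := (ha i).1.1
    rw [← h] at this
    exact this hij
  have hj2 : j ≠ i + 2 := by
    intro h
    have := (ha i).2
    rw [← h] at this
    exact this hij.symm
  have hi0 : i = 0 := by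
    by_contra hne
    obtain ⟨m, rfl⟩ : ∃ m, i = m + 1 := ⟨i - 1, by omega⟩
    obtain ⟨n, hn⟩ : ∃ n, j = n + 1 := ⟨j - 1, by omega⟩
    have e1 : LinkCycE L w (a (m + 1)) (a m) := (ha m).1.symm
    have e2 : LinkCycE L w (a (m + 1)) (a (m + 2)) := (ha (m + 1)).1
    have e3 : LinkCycE L w (a (m + 1)) (a n) := by
      have := (ha n).1.symm
      rw [← hn, ← hij] at this
      exact this
    rcases LinkCycE.three hL e1 e2 e3 (ha m).2.symm with h | h
    · have := hdist n (by omega) m (by omega) h
      omega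
    · have := hdist n (by omega) (m + 2) (by omega) h
      omega
  subst hi0
  have hj3 : 3 ≤ j := by omega
  -- the triangles
  have htri : ∀ k < j, ∀ s ∈ L, w ∈ s → a k ∈ s →
      ∃ l < j, s = {w, a l, a (l + 1)} := by
    intro k hk s hs hws hks
    obtain ⟨v, hE, rfl⟩ := linkCyc_form2 hL hs hws hks (ha k).1.2.1
    rcases Nat.eq_zero_or_pos k with rfl | hpos
    · have e1 : LinkCycE L w (a 0) (a 1) := (ha 0).1
      have e2 : LinkCycE L w (a 0) (a (j - 1)) := by
        have := (ha (j - 1)).1.symm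
        rw [show j - 1 + 1 = j by omega, ← hij] at this
        exact this
      have hne : a 1 ≠ a (j - 1) := fun h => by
        have := hdist 1 (by omega) (j - 1) (by omega) h
        omega
      rcases LinkCycE.three hL e1 e2 hE hne with h | h
      · exact ⟨0, by omega, by rw [h]⟩
      · refine ⟨j - 1, by omega, ?_⟩
        rw [h, show j - 1 + 1 = j by omega, ← hij, Finset.pair_comm]
    · obtain ⟨m, rfl⟩ : ∃ m, k = m + 1 := ⟨k - 1, by omega⟩
      rcases LinkCycE.three hL (ha m).1.symm (ha (m + 1)).1 hE (ha m).2.symm with h | h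
      · exact ⟨m, by omega, by rw [h, Finset.pair_comm]⟩
      · exact ⟨m + 1, hk, by rw [h]⟩
  have htri' : ∀ k ≤ j, ∀ s ∈ L, w ∈ s → a k ∈ s →
      ∃ l < j, s = {w, a l, a (l + 1)} := by
    intro k hk s hs hws hks
    rcases Nat.lt_or_ge k j with h | h
    · exact htri k h s hs hws hks
    · have hkj : k = j := le_antisymm hk h
      rw [hkj, ← hij] at hks
      exact htri 0 (by omega) s hs hws hks
  have hall : ∀ s ∈ L, w ∈ s → ∃ l < j, s = {w, a l, a (l + 1)} := by
    intro s hs hws
    have h0 : ({w, a 0, a 1} : Finset ι) ∈ L := (ha 0).1.2.2.2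
    have hstar := hL.star w _ h0 s hs (by simp) hws
    clear hs hws
    induction hstar with
    | refl => exact ⟨0, by omega, rfl⟩
    | @tail b c _ hbc ih =>
      obtain ⟨l, hl, rfl⟩ := ih
      obtain ⟨hcL, hcard, hwc⟩ := hbc
      have hwc' : w ∈ c := (mem_inter.1 hwc).2
      obtain ⟨x, hx, hxw⟩ := Finset.exists_mem_ne (by rw [hcard]; norm_num) w
      rw [mem_inter] at hx
      obtain ⟨hx1, hx2⟩ := hx
      simp only [mem_insert, mem_singleton] at hx1
      rcases hx1 with h | h | h
      · exact absurd h hxw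
      · exact htri' l (by omega) c hcL hwc' (h ▸ hx2)
      · exact htri' (l + 1) (by omega) c hcL hwc' (h ▸ hx2)
  -- the length
  have hjd : j = d := by
    have himg : L.filter (fun t => w ∈ t) =
        (Finset.range j).image (fun l => ({w, a l, a (l + 1)} : Finset ι)) := by
      ext s
      rw [mem_filter, mem_image]
      constructor
      · rintro ⟨hs, hws⟩
        obtain ⟨l, hl, h⟩ := hall s hs hws
        exact ⟨l, mem_range.2 hl, h.symm⟩
      · rintro ⟨l, -, rfl⟩
        exact ⟨(ha l).1.2.2.2, by simp⟩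
    have hinj : Set.InjOn (fun l => ({w, a l, a (l + 1)} : Finset ι)) (Finset.range j : Set ℕ) := by
      have key : ∀ k < j, ∀ l < k, ({w, a k, a (k + 1)} : Finset ι) ≠ {w, a l, a (l + 1)} := by
        intro k hk l hl he
        have h1 : a k ∈ ({w, a l, a (l + 1)} : Finset ι) := by rw [← he]; simp
        have h2 : a (k + 1) ∈ ({w, a l, a (l + 1)} : Finset ι) := by rw [← he]; simp
        simp only [mem_insert, mem_singleton] at h1 h2
        have hk1 : k = l + 1 := by
          rcases h1 with h | h | h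
          · exact absurd h (ha k).1.2.1
          · exact absurd (hdist k hk l (by omega) h) (by omega)
          · exact hdist k hk (l + 1) (by omega) h
        subst hk1
        rcases h2 with h | h | h
        · exact absurd h (ha (l + 1)).1.2.2.1
        · exact absurd h (ha l).2
        · exact absurd h (ha (l + 1)).1.1.symm
      intro k hk l hl he
      rw [Finset.coe_range, Set.mem_Iio] at hk hl
      simp only at he
      rcases lt_trichotomy k l with h | h | h
      · exact absurd he.symm (key l hl k h)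
      · exact h
      · exact absurd he (key k hk l h)
    rw [← hd, himg, card_image_of_injOn hinj, card_range]
  rw [hjd] at hij hdist hall hj3 hmin
  have hval : ∀ i : Fin d, a ((i + 1 : Fin d) : ℕ) = a ((i : ℕ) + 1) := by
    intro i
    have h1 : ((i + 1 : Fin d) : ℕ) = ((i : ℕ) + 1) % d := by
      rw [Fin.val_add]
      have : ((1 : Fin d) : ℕ) = 1 % d := rfl
      rw [this, Nat.add_mod, Nat.mod_mod, ← Nat.add_mod]
    rw [h1]
    rcases Nat.lt_or_ge ((i : ℕ) + 1) d with h | h
    · rw [Nat.mod_eq_of_lt h]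
    · have h2 : (i : ℕ) + 1 = d := by have := i.2; omega
      rw [h2, Nat.mod_self, hij]
  refine ⟨fun i => a (i : ℕ), ?_, ?_, ?_, ?_⟩
  · intro k l hkl
    exact Fin.ext (hdist k k.2 l l.2 hkl)
  · intro i
    exact (ha i).1.2.1
  · intro i
    simp only [hval]
    exact (ha i).1.2.2.2
  · intro v
    constructor
    · rintro ⟨hne, t, ht, hwt, hvt⟩
      obtain ⟨l, hl, rfl⟩ := hall t ht hwt
      simp only [mem_insert, mem_singleton] at hvt
      rcases hvt with h | h | h
      · exact absurd h.symm hne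
      · exact ⟨⟨l, hl⟩, h⟩
      · refine ⟨⟨l, hl⟩ + 1, ?_⟩
        rw [hval]
        exact h
    · rintro ⟨i, rfl⟩
      exact ⟨(ha i).1.2.1.symm, _, (ha i).1.2.2.2, by simp, by simp⟩

end Pool.TSph
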