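import Pool.Agent.Lib.MP_3de3a3_co.Defs

/-! # The 3-1 move (module Move31) -/

set_option autoImplicit false

namespace Pool.TSph

open Finset

variable {ι : Type*} [DecidableEq ι]

theorem Move31_pair {L : Finset (Finset ι)} (hL : IsSphere2 L) {t1 t2 s e : Finset ι}
    (h1 : t1 ∈ L) (h2 : t2 ∈ L) (hne : t1 ≠ t2) (he1 : e ⊆ t1) (he2 : e ⊆ t2) (hc : e.card = 2)
    (hs : s ∈ L) (hes : e ⊆ s) : s = t1 ∨ s = t2 := by
  have hcard := hL.edge t1 h1 e he1 hc
  have hsub : ({t1, t2} : Finset (Finset ι)) ⊆ L.filter (fun s => e ⊆ s) := by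
    intro x hx
    simp only [mem_insert, mem_singleton] at hx
    rw [mem_filter]
    rcases hx with rfl | rfl
    · exact ⟨h1, he1⟩
    · exact ⟨h2, he2⟩
  have heq : ({t1, t2} : Finset (Finset ι)) = L.filter (fun s => e ⊆ s) :=
    eq_of_subset_of_card_le hsub (by rw [hcard, card_pair hne])
  have h3 : s ∈ ({t1, t2} : Finset (Finset ι)) := by
    rw [heq, mem_filter]; exact ⟨hs, hes⟩
  simpa using h3

/-- membership of the three triangles -/
def Move31_T (w a b c : ι) (t : Finset ι) : Prop :=
  t = {w, a, b} ∨ t = {w, b, c} ∨ t = {w, c, a}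

theorem Move31_distinct {L : Finset (Finset ι)} (hL : IsSphere2 L) {w a b c : ι}
    (h1 : ({w, a, b} : Finset ι) ∈ L) (h2 : ({w, b, c} : Finset ι) ∈ L)
    (h3 : ({w, c, a} : Finset ι) ∈ L) :
    w ≠ a ∧ w ≠ b ∧ w ≠ c ∧ a ≠ b ∧ b ≠ c ∧ c ≠ a := by
  have k : ∀ x y z : ι, ({x, y, z} : Finset ι).card = 3 → x ≠ y ∧ x ≠ z ∧ y ≠ z := by
    intro x y z h
    refine ⟨?_, ?_, ?_⟩
    · rintro rfl
      have : ({x, x, z} : Finset ι).card ≤ 2 := by
        rw [insert_eq_of_mem (mem_insert_self x {z})]; exact card_le_two
      omega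
    · rintro rfl
      have : ({x, y, x} : Finset ι).card ≤ 2 := by
        rw [insert_eq_of_mem (by simp)]; exact card_le_two
      omega
    · rintro rfl
      have : ({x, y, y} : Finset ι).card ≤ 2 := by
        rw [insert_eq_of_mem (a := y) (s := {y}) (by simp)]; exact card_le_two
      omega
  obtain ⟨ha, hb, hab⟩ := k _ _ _ (hL.card3 _ h1)
  obtain ⟨_, hc, hbc⟩ := k _ _ _ (hL.card3 _ h2)
  obtain ⟨_, _, hca⟩ := k _ _ _ (hL.card3 _ h3)
  exact ⟨ha, hb, hc, hab, hbc, hca⟩

/-- an edge `{w, x}` lies in exactly two of the three triangles -/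
theorem Move31_star_step {L : Finset (Finset ι)} (hL : IsSphere2 L) {w a b c : ι}
    (h1 : ({w, a, b} : Finset ι) ∈ L) (h2 : ({w, b, c} : Finset ι) ∈ L)
    (h3 : ({w, c, a} : Finset ι) ∈ L) {s t : Finset ι} (hs : Move31_T w a b c s) (ht : t ∈ L)
    (hcard : (s ∩ t).card = 2) (hw : w ∈ s ∩ t) : Move31_T w a b c t := by
  obtain ⟨hwa, hwb, hwc, hab, hbc, hca⟩ := Move31_distinct hL h1 h2 h3
  have n12 : ({w, a, b} : Finset ι) ≠ {w, b, c} := by
    intro h
    have : a ∈ ({w, b, c} : Finset ι) := by rw [← h]; simp
    simp only [mem_insert, mem_singleton] at this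
    rcases this with h | h | h
    · exact hwa h.symm
    · exact hab h
    · exact hca h.symm
  have n13 : ({w, a, b} : Finset ι) ≠ {w, c, a} := by
    intro h
    have : b ∈ ({w, c, a} : Finset ι) := by rw [← h]; simp
    simp only [mem_insert, mem_singleton] at this
    rcases this with h | h | h
    · exact hwb h.symm
    · exact hbc h
    · exact hab h.symm
  have n23 : ({w, b, c} : Finset ι) ≠ {w, c, a} := by
    intro h
    have : b ∈ ({w, c, a} : Finset ι) := by rw [← h]; simp
    simp only [mem_insert, mem_singleton] at this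
    rcases this with h | h | h
    · exact hwb h.symm
    · exact hbc h
    · exact hab h.symm
  -- the second element of the common edge
  have h1' : 1 < (s ∩ t).card := by rw [hcard]; norm_num
  obtain ⟨x, hx, hxw⟩ := Finset.exists_mem_ne h1' w
  rw [mem_inter] at hw hx
  have hsub : ({w, x} : Finset ι) ⊆ t := by
    intro y hy; simp only [mem_insert, mem_singleton] at hy
    rcases hy with rfl | rfl
    · exact hw.2
    · exact hx.2
  have hxs : x = a ∨ x = b ∨ x = c := by
    have hx1 := hx.1
    rcases hs with rfl | rfl | rfl <;> simp only [mem_insert, mem_singleton] at hx1 <;> tauto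
  have hc2 : ({w, x} : Finset ι).card = 2 := card_pair (fun h => hxw h.symm)
  rcases hxs with rfl | rfl | rfl
  · rcases Move31_pair hL h1 h3 n13 (e := {w, x}) (by
      intro y hy; simp only [mem_insert, mem_singleton] at hy ⊢; tauto) (by
      intro y hy; simp only [mem_insert, mem_singleton] at hy ⊢; tauto) hc2 ht hsub with h | h
    · exact Or.inl h
    · exact Or.inr (Or.inr h)
  · rcases Move31_pair hL h1 h2 n12 (e := {w, x}) (by
      intro y hy; simp only [mem_insert, mem_singleton] at hy ⊢; tauto) (by
      intro y hy; simp only [mem_insert, mem_singleton] at hy ⊢; tauto) hc2 ht hsub with h | h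
    · exact Or.inl h
    · exact Or.inr (Or.inl h)
  · rcases Move31_pair hL h2 h3 n23 (e := {w, x}) (by
      intro y hy; simp only [mem_insert, mem_singleton] at hy ⊢; tauto) (by
      intro y hy; simp only [mem_insert, mem_singleton] at hy ⊢; tauto) hc2 ht hsub with h | h
    · exact Or.inr (Or.inl h)
    · exact Or.inr (Or.inr h)

/-- the triangles containing `w` are the three triangles -/
theorem Move31_star {L : Finset (Finset ι)} (hL : IsSphere2 L) {w a b c : ι}
    (h1 : ({w, a, b} : Finset ι) ∈ L) (h2 : ({w, b, c} : Finset ι) ∈ L)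
    (h3 : ({w, c, a} : Finset ι) ∈ L) {t : Finset ι} (ht : t ∈ L) (hw : w ∈ t) :
    Move31_T w a b c t := by
  have hr := hL.star w _ h1 t ht (by simp) hw
  clear hw
  have key : ∀ u, Relation.ReflTransGen (fun a b => b ∈ L ∧ (a ∩ b).card = 2 ∧ w ∈ a ∩ b)
      ({w, a, b} : Finset ι) u → Move31_T w a b c u := by
    intro u hu
    induction hu with
    | refl => exact Or.inl rfl
    | tail _ hbc ih => exact Move31_star_step hL h1 h2 h3 ih hbc.1 hbc.2.1 hbc.2.2
  exact key t hr

/-- If `w` has degree 3 and there are at least 5 vertices then the triangle `abc` of its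
neighbours is not in `L`. -/
theorem not_mem_of_five {L : Finset (Finset ι)} (hL : IsSphere2 L) {w a b c : ι}
    (h1 : ({w, a, b} : Finset ι) ∈ L) (h2 : ({w, b, c} : Finset ι) ∈ L)
    (h3 : ({w, c, a} : Finset ι) ∈ L) (hV : 5 ≤ (verts L).card) :
    ({a, b, c} : Finset ι) ∉ L := by
  intro h4
  obtain ⟨hwa, hwb, hwc, hab, hbc, hca⟩ := Move31_distinct hL h1 h2 h3
  have hwn : w ∉ ({a, b, c} : Finset ι) := by
    simp only [mem_insert, mem_singleton]; tauto
  have m1 : ({w, a, b} : Finset ι) ≠ {a, b, c} := fun h => hwn (by rw [← h]; simp)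
  have m2 : ({w, b, c} : Finset ι) ≠ {a, b, c} := fun h => hwn (by rw [← h]; simp)
  have m3 : ({w, c, a} : Finset ι) ≠ {a, b, c} := fun h => hwn (by rw [← h]; simp)
  -- all triangles are in the four
  have step : ∀ s t : Finset ι, (Move31_T w a b c s ∨ s = {a, b, c}) → t ∈ L →
      (s ∩ t).card = 2 → (Move31_T w a b c t ∨ t = {a, b, c}) := by
    intro s t hs ht hcard
    by_cases hwt : w ∈ t
    · exact Or.inl (Move31_star hL h1 h2 h3 ht hwt)
    · -- the common edge does not contain w, so it is in abc
      have hsub : s ∩ t ⊆ {a, b, c} := by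
        intro x hx
        rw [mem_inter] at hx
        have hxw : x ≠ w := fun h => hwt (h ▸ hx.2)
        have hx1 := hx.1
        rcases hs with (rfl | rfl | rfl) | rfl <;>
          simp only [mem_insert, mem_singleton] at hx1 ⊢ <;> tauto
      have hsubt : s ∩ t ⊆ t := inter_subset_right
      -- abc contains s ∩ t; s ∩ t is one of the three edges
      have hex : ∃ T : Finset ι, Move31_T w a b c T ∧ s ∩ t ⊆ T := by
        have hmiss : ∃ y ∈ ({a, b, c} : Finset ι), y ∉ s ∩ t := by
          by_contra hcon
          push Not at hcon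
          have hle : ({a, b, c} : Finset ι).card ≤ (s ∩ t).card := card_le_card hcon
          rw [hcard, hL.card3 _ h4] at hle
          omega
        obtain ⟨y, hy, hyn⟩ := hmiss
        simp only [mem_insert, mem_singleton] at hy
        rcases hy with rfl | rfl | rfl
        · refine ⟨{w, b, c}, Or.inr (Or.inl rfl), fun x hx => ?_⟩
          have hx2 := hsub hx
          have hxy : x ≠ y := fun h => hyn (h ▸ hx)
          simp only [mem_insert, mem_singleton] at hx2 ⊢; tauto
        · refine ⟨{w, c, a}, Or.inr (Or.inr rfl), fun x hx => ?_⟩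
          have hx2 := hsub hx
          have hxy : x ≠ y := fun h => hyn (h ▸ hx)
          simp only [mem_insert, mem_singleton] at hx2 ⊢; tauto
        · refine ⟨{w, a, b}, Or.inl rfl, fun x hx => ?_⟩
          have hx2 := hsub hx
          have hxy : x ≠ y := fun h => hyn (h ▸ hx)
          simp only [mem_insert, mem_singleton] at hx2 ⊢; tauto
      obtain ⟨T, hT, hsT⟩ := hex
      have hTL : T ∈ L := by rcases hT with rfl | rfl | rfl <;> assumption
      have hTne : T ≠ {a, b, c} := by rcases hT with rfl | rfl | rfl <;> assumption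
      rcases Move31_pair hL hTL h4 hTne hsT hsub hcard ht hsubt with h | h
      · exact Or.inl (h ▸ hT)
      · exact Or.inr h
  have hall : ∀ t ∈ L, Move31_T w a b c t ∨ t = {a, b, c} := by
    intro t ht
    have hr := hL.conn _ h4 t ht
    clear ht
    induction hr with
    | refl => exact Or.inr rfl
    | tail _ hbc ih => exact step _ _ ih hbc.1 hbc.2
  have hv : verts L ⊆ {w, a, b, c} := by
    intro x hx
    obtain ⟨t, ht, hxt⟩ := mem_verts.1 hx
    rcases hall t ht with (rfl | rfl | rfl) | rfl <;>
      simp only [mem_insert, mem_singleton] at hxt ⊢ <;> tauto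
  have := card_le_card hv
  have h4' : ({w, a, b, c} : Finset ι).card ≤ 4 := card_le_four
  omega

/-- The 3-1 move. -/
theorem move31 {L : Finset (Finset ι)} (hL : IsSphere2 L) {w a b c : ι}
    (h1 : ({w, a, b} : Finset ι) ∈ L) (h2 : ({w, b, c} : Finset ι) ∈ L)
    (h3 : ({w, c, a} : Finset ι) ∈ L) (hV : 5 ≤ (verts L).card) (hab : a ≠ b) (hbc : b ≠ c)
    (hca : c ≠ a) :
    ∃ L' : Finset (Finset ι), IsSphere2 L' ∧ verts L' = (verts L).erase w ∧
      ∀ u v, adj L' u v ↔ adj L u v ∧ u ≠ w ∧ v ≠ w := by
  classical
  obtain ⟨hwa, hwb, hwc, -, -, -⟩ := Move31_distinct hL h1 h2 h3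
  have h4 := not_mem_of_five hL h1 h2 h3 hV
  have hwn : w ∉ ({a, b, c} : Finset ι) := by
    simp only [mem_insert, mem_singleton]; tauto
  have habc : ({a, b, c} : Finset ι).card = 3 :=
    card_eq_three.2 ⟨a, b, c, hab, hca.symm, hbc, rfl⟩
  have hst : ∀ t ∈ L, w ∈ t → Move31_T w a b c t := fun t ht hw => Move31_star hL h1 h2 h3 ht hw
  have hTL : ∀ t, Move31_T w a b c t → t ∈ L := by
    intro t ht; rcases ht with rfl | rfl | rfl <;> assumption
  have hTw : ∀ t, Move31_T w a b c t → w ∈ t := by
    intro t ht; rcases ht with rfl | rfl | rfl <;> simp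
  have hTsub : ∀ t, Move31_T w a b c t → ∀ x ∈ t, x ≠ w → x ∈ ({a, b, c} : Finset ι) := by
    intro t ht x hx hxw
    rcases ht with rfl | rfl | rfl <;> simp only [mem_insert, mem_singleton] at hx ⊢ <;> tauto
  -- a subset of abc with two elements is in exactly one of the three triangles
  have hone : ∀ e : Finset ι, e ⊆ {a, b, c} → e.card = 2 → ∃ T, Move31_T w a b c T ∧ e ⊆ T ∧
      ∀ T', Move31_T w a b c T' → e ⊆ T' → T' = T := by
    intro e he hec
    have hmiss : ∃ y ∈ ({a, b, c} : Finset ι), y ∉ e := by
      by_contra hcon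
      push Not at hcon
      have hle : ({a, b, c} : Finset ι).card ≤ e.card := card_le_card hcon
      rw [hec, habc] at hle
      omega
    obtain ⟨y, hy, hyn⟩ := hmiss
    have heq : e = ({a, b, c} : Finset ι).erase y := by
      refine eq_of_subset_of_card_le (fun x hx => mem_erase.2 ⟨fun h => hyn (h ▸ hx), he hx⟩) ?_
      rw [card_erase_of_mem hy, habc, hec]
    simp only [mem_insert, mem_singleton] at hy
    rcases hy with rfl | rfl | rfl
    · refine ⟨{w, b, c}, Or.inr (Or.inl rfl), fun x hx => ?_, fun T' hT' hsub => ?_⟩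
      · have hx2 := he hx
        have hxy : x ≠ y := fun h => hyn (h ▸ hx)
        simp only [mem_insert, mem_singleton] at hx2 ⊢; tauto
      · have hb : b ∈ T' := hsub (by rw [heq]; simp [Ne.symm hab])
        have hc' : c ∈ T' := hsub (by rw [heq]; simp [hca])
        rcases hT' with rfl | rfl | rfl
        · simp only [mem_insert, mem_singleton] at hc'; exfalso
          rcases hc' with h | h | h
          · exact hwc h.symm
          · exact hca h
          · exact hbc h.symm
        · rfl
        · simp only [mem_insert, mem_singleton] at hb; exfalso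
          rcases hb with h | h | h
          · exact hwb h.symm
          · exact hbc h
          · exact hab h.symm
    · refine ⟨{w, c, a}, Or.inr (Or.inr rfl), fun x hx => ?_, fun T' hT' hsub => ?_⟩
      · have hx2 := he hx
        have hxy : x ≠ y := fun h => hyn (h ▸ hx)
        simp only [mem_insert, mem_singleton] at hx2 ⊢; tauto
      · have ha : a ∈ T' := hsub (by rw [heq]; simp [hab])
        have hc' : c ∈ T' := hsub (by rw [heq]; simp [Ne.symm hbc])
        rcases hT' with rfl | rfl | rfl
        · simp only [mem_insert, mem_singleton] at hc'; exfalso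
          rcases hc' with h | h | h
          · exact hwc h.symm
          · exact hca h
          · exact hbc h.symm
        · simp only [mem_insert, mem_singleton] at ha; exfalso
          rcases ha with h | h | h
          · exact hwa h.symm
          · exact hab h
          · exact hca h.symm
        · rfl
    · refine ⟨{w, a, b}, Or.inl rfl, fun x hx => ?_, fun T' hT' hsub => ?_⟩
      · have hx2 := he hx
        have hxy : x ≠ y := fun h => hyn (h ▸ hx)
        simp only [mem_insert, mem_singleton] at hx2 ⊢; tauto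
      · have ha : a ∈ T' := hsub (by rw [heq]; simp [Ne.symm hca])
        have hb : b ∈ T' := hsub (by rw [heq]; simp [hbc])
        rcases hT' with rfl | rfl | rfl
        · rfl
        · simp only [mem_insert, mem_singleton] at ha; exfalso
          rcases ha with h | h | h
          · exact hwa h.symm
          · exact hab h
          · exact hca h.symm
        · simp only [mem_insert, mem_singleton] at hb; exfalso
          rcases hb with h | h | h
          · exact hwb h.symm
          · exact hbc h
          · exact hab h.symm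
  let L' : Finset (Finset ι) := insert {a, b, c} (L.filter (fun t => w ∉ t))
  have mem' : ∀ t, t ∈ L' ↔ t = {a, b, c} ∨ (t ∈ L ∧ w ∉ t) := by
    intro t; simp only [L', mem_insert, mem_filter]
  have hw' : ∀ t ∈ L', w ∉ t := by
    intro t ht
    rcases (mem' t).1 ht with rfl | h
    · exact hwn
    · exact h.2
  -- the map of the triangles
  let φ : Finset ι → Finset ι := fun t => if w ∈ t then {a, b, c} else t
  have φ_pos : ∀ t, w ∈ t → φ t = {a, b, c} := fun t h => if_pos h
  have φ_neg : ∀ t, w ∉ t → φ t = t := fun t h => if_neg h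
  have φ_mem : ∀ t ∈ L, φ t ∈ L' := by
    intro t ht
    by_cases h : w ∈ t
    · rw [φ_pos t h, mem']; exact Or.inl rfl
    · rw [φ_neg t h, mem']; exact Or.inr ⟨ht, h⟩
  have inter_sub : ∀ s t, s ∈ L → w ∈ s → w ∉ t → s ∩ t ⊆ {a, b, c} := by
    intro s t hs hws hwt x hx
    rw [mem_inter] at hx
    exact hTsub s (hst s hs hws) x hx.1 fun h => hwt (h ▸ hx.2)
  have cardle : ∀ t ∈ L, w ∉ t → (({a, b, c} : Finset ι) ∩ t).card ≤ 2 := by
    intro t ht _
    by_contra hcon
    push Not at hcon
    have hle : (({a, b, c} : Finset ι) ∩ t).card ≤ t.card := card_le_card inter_subset_right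
    rw [hL.card3 t ht] at hle
    have he1 : ({a, b, c} : Finset ι) ∩ t = t :=
      eq_of_subset_of_card_le inter_subset_right (by rw [hL.card3 t ht]; omega)
    have he2 : ({a, b, c} : Finset ι) ∩ t = {a, b, c} :=
      eq_of_subset_of_card_le inter_subset_left (by rw [habc]; omega)
    rw [he1] at he2
    exact h4 (he2 ▸ ht)
  -- one step, with a required common vertex
  have stepx : ∀ s t, s ∈ L → t ∈ L → (s ∩ t).card = 2 →
      φ s = φ t ∨ ((φ s ∩ φ t).card = 2 ∧ ∀ x ∈ s ∩ t, x ∈ φ s ∩ φ t) := by
    intro s t hs ht hcard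
    by_cases hws : w ∈ s <;> by_cases hwt : w ∈ t
    · left; rw [φ_pos s hws, φ_pos t hwt]
    · right
      rw [φ_pos s hws, φ_neg t hwt]
      have hsub := inter_sub s t hs hws hwt
      have hsub2 : s ∩ t ⊆ ({a, b, c} : Finset ι) ∩ t :=
        fun x hx => mem_inter.2 ⟨hsub hx, (mem_inter.1 hx).2⟩
      refine ⟨le_antisymm (cardle t ht hwt) (by rw [← hcard]; exact card_le_card hsub2), hsub2⟩
    · right
      rw [φ_neg s hws, φ_pos t hwt]
      have hsub := inter_sub t s ht hwt hws
      have hsub2 : s ∩ t ⊆ s ∩ ({a, b, c} : Finset ι) := by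
        intro x hx
        rw [mem_inter] at hx
        exact mem_inter.2 ⟨hx.1, hsub (mem_inter.2 ⟨hx.2, hx.1⟩)⟩
      refine ⟨le_antisymm ?_ (by rw [← hcard]; exact card_le_card hsub2), hsub2⟩
      rw [inter_comm]; exact cardle s hs hws
    · right
      rw [φ_neg s hws, φ_neg t hwt]
      exact ⟨hcard, fun x hx => hx⟩
  -- lifts of triangles of L'
  have lift : ∀ t ∈ L', ∀ x ∈ t, ∃ s ∈ L, x ∈ s ∧ φ s = t := by
    intro t ht x hx
    rcases (mem' t).1 ht with rfl | ⟨h, hwt⟩
    · simp only [mem_insert, mem_singleton] at hx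
      rcases hx with rfl | rfl | rfl
      · exact ⟨_, h1, by simp, φ_pos _ (by simp)⟩
      · exact ⟨_, h1, by simp, φ_pos _ (by simp)⟩
      · exact ⟨_, h2, by simp, φ_pos _ (by simp)⟩
    · exact ⟨t, h, hx, φ_neg t hwt⟩
  have hverts : verts L' = (verts L).erase w := by
    ext x
    rw [mem_erase, mem_verts, mem_verts]
    constructor
    · rintro ⟨t, ht, hx⟩
      refine ⟨fun h => hw' t ht (h ▸ hx), ?_⟩
      obtain ⟨s, hs, hxs, _⟩ := lift t ht x hx
      exact ⟨s, hs, hxs⟩
    · rintro ⟨hxw, t, ht, hx⟩
      by_cases hwt : w ∈ t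
      · exact ⟨{a, b, c}, (mem' _).2 (Or.inl rfl), hTsub t (hst t ht hwt) x hx hxw⟩
      · exact ⟨t, (mem' t).2 (Or.inr ⟨ht, hwt⟩), hx⟩
  have hL' : IsSphere2 L' := by
    refine ⟨?_, ?_, ?_, ?_, ?_⟩
    · intro t ht
      rcases (mem' t).1 ht with rfl | ⟨h, _⟩
      · exact habc
      · exact hL.card3 t h
    · intro t ht e he hec
      have hwe : w ∉ e := fun h => hw' t ht (he h)
      -- some triangle of L contains e
      have hexL : ∃ s ∈ L, e ⊆ s := by
        rcases (mem' t).1 ht with rfl | ⟨h, _⟩
        · obtain ⟨T, hT, heT, _⟩ := hone e he hec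
          exact ⟨T, hTL T hT, heT⟩
        · exact ⟨t, h, he⟩
      obtain ⟨s0, hs0, hes0⟩ := hexL
      have hc0 := hL.edge s0 hs0 e hes0 hec
      -- split L
      have hsplit : (L.filter (fun s => e ⊆ s)).card =
          ((L.filter (fun s => w ∉ s)).filter (fun s => e ⊆ s)).card +
          ((L.filter (fun s => w ∈ s)).filter (fun s => e ⊆ s)).card := by
        rw [← card_union_of_disjoint]
        · congr 1
          ext s
          simp only [mem_filter, mem_union]
          tauto
        · rw [disjoint_left]
          intro s h1 h2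
          simp only [mem_filter] at h1 h2
          exact h1.1.2 h2.1.2
      have hL'f : (L'.filter (fun s => e ⊆ s)).card =
          ((L.filter (fun s => w ∉ s)).filter (fun s => e ⊆ s)).card +
          (if e ⊆ ({a, b, c} : Finset ι) then 1 else 0) := by
        show ((insert {a, b, c} (L.filter (fun t => w ∉ t))).filter (fun s => e ⊆ s)).card = _
        rw [filter_insert]
        split_ifs with hsub
        · rw [card_insert_of_notMem]
          simp only [mem_filter, not_and]
          intro h _
          exact absurd h.1 h4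
        · rfl
      have hthree : ((L.filter (fun s => w ∈ s)).filter (fun s => e ⊆ s)).card =
          (if e ⊆ ({a, b, c} : Finset ι) then 1 else 0) := by
        split_ifs with hsub
        · obtain ⟨T, hT, heT, huniq⟩ := hone e hsub hec
          rw [card_eq_one]
          refine ⟨T, ?_⟩
          ext s
          simp only [mem_filter, mem_singleton]
          constructor
          · rintro ⟨⟨hs, hws⟩, hes⟩
            exact huniq s (hst s hs hws) hes
          · rintro rfl
            exact ⟨⟨hTL s hT, hTw s hT⟩, heT⟩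
        · rw [card_eq_zero, eq_empty_iff_forall_notMem]
          intro s hs
          simp only [mem_filter] at hs
          refine hsub fun x hx => ?_
          exact hTsub s (hst s hs.1.1 hs.1.2) x (hs.2 hx) fun h => hwe (h ▸ hx)
      rw [hL'f, ← hthree, ← hsplit]
      exact hc0
    · intro s hs t ht
      have hsne : s.Nonempty := by
        rcases (mem' s).1 hs with rfl | ⟨h, _⟩
        · exact ⟨a, by simp⟩
        · exact card_pos.1 (by rw [hL.card3 s h]; norm_num)
      have htne : t.Nonempty := by
        rcases (mem' t).1 ht with rfl | ⟨h, _⟩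
        · exact ⟨a, by simp⟩
        · exact card_pos.1 (by rw [hL.card3 t h]; norm_num)
      obtain ⟨xs, hxs⟩ := hsne
      obtain ⟨xt, hxt⟩ := htne
      obtain ⟨s1, hs1, _, rfl⟩ := lift s hs xs hxs
      obtain ⟨t1, ht1, _, rfl⟩ := lift t ht xt hxt
      have hr := hL.conn s1 hs1 t1 ht1
      have key : ∀ u, Relation.ReflTransGen (fun a b => b ∈ L ∧ (a ∩ b).card = 2) s1 u →
          u ∈ L ∧ Relation.ReflTransGen (fun a b => b ∈ L' ∧ (a ∩ b).card = 2) (φ s1) (φ u) := by
        intro u hu
        induction hu with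
        | refl => exact ⟨hs1, Relation.ReflTransGen.refl⟩
        | @tail y z _ hyz ih =>
          refine ⟨hyz.1, ?_⟩
          rcases stepx y z ih.1 hyz.1 hyz.2 with h | h
          · rw [← h]; exact ih.2
          · exact ih.2.tail ⟨φ_mem z hyz.1, h.1⟩
      exact (key t1 hr).2
    · intro x s hs t ht hxs hxt
      obtain ⟨s1, hs1, hxs1, rfl⟩ := lift s hs x hxs
      obtain ⟨t1, ht1, hxt1, rfl⟩ := lift t ht x hxt
      have hr := hL.star x s1 hs1 t1 ht1 hxs1 hxt1
      have key : ∀ u, Relation.ReflTransGen (fun a b => b ∈ L ∧ (a ∩ b).card = 2 ∧ x ∈ a ∩ b) s1 u →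
          u ∈ L ∧ Relation.ReflTransGen (fun a b => b ∈ L' ∧ (a ∩ b).card = 2 ∧ x ∈ a ∩ b)
            (φ s1) (φ u) := by
        intro u hu
        induction hu with
        | refl => exact ⟨hs1, Relation.ReflTransGen.refl⟩
        | @tail y z _ hyz ih =>
          refine ⟨hyz.1, ?_⟩
          rcases stepx y z ih.1 hyz.1 hyz.2.1 with h | h
          · rw [← h]; exact ih.2
          · exact ih.2.tail ⟨φ_mem z hyz.1, h.1, h.2 x hyz.2.2⟩
      exact (key t1 hr).2
    · have hwv : w ∈ verts L := mem_verts.2 ⟨_, h1, by simp⟩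
      rw [hverts, card_erase_of_mem hwv]
      have he := hL.euler
      have hcardL' : L'.card = (L.filter (fun t => w ∉ t)).card + 1 := by
        show (insert {a, b, c} (L.filter (fun t => w ∉ t))).card = _
        rw [card_insert_of_notMem]
        simp only [mem_filter, not_and]
        intro h; exact absurd h h4
      have hLw : (L.filter (fun t => w ∈ t)).card = 3 := by
        rw [card_eq_three]
        refine ⟨{w, a, b}, {w, b, c}, {w, c, a}, ?_, ?_, ?_, ?_⟩
        · intro h
          have : a ∈ ({w, b, c} : Finset ι) := by rw [← h]; simp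
          simp only [mem_insert, mem_singleton] at this
          rcases this with h | h | h
          · exact hwa h.symm
          · exact hab h
          · exact hca h.symm
        · intro h
          have : b ∈ ({w, c, a} : Finset ι) := by rw [← h]; simp
          simp only [mem_insert, mem_singleton] at this
          rcases this with h | h | h
          · exact hwb h.symm
          · exact hbc h
          · exact hab h.symm
        · intro h
          have : b ∈ ({w, c, a} : Finset ι) := by rw [← h]; simp
          simp only [mem_insert, mem_singleton] at this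
          rcases this with h | h | h
          · exact hwb h.symm
          · exact hbc h
          · exact hab h.symm
        · ext t
          simp only [mem_filter, mem_insert, mem_singleton]
          constructor
          · rintro ⟨ht, hw⟩; exact hst t ht hw
          · intro ht; exact ⟨hTL t ht, hTw t ht⟩
      have hsum := card_filter_add_card_filter_not (s := L) (fun t => w ∈ t)
      omega
  refine ⟨L', hL', hverts, fun u v => ⟨?_, ?_⟩⟩
  · rintro ⟨huv, t, ht, hu, hv⟩
    refine ⟨⟨huv, ?_⟩, fun h => hw' t ht (h ▸ hu), fun h => hw' t ht (h ▸ hv)⟩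
    rcases (mem' t).1 ht with rfl | ⟨h, _⟩
    · obtain ⟨T, hT, heT, _⟩ := hone {u, v} (by
        intro y hy; simp only [mem_insert, mem_singleton] at hy
        rcases hy with rfl | rfl
        · exact hu
        · exact hv) (card_pair huv)
      exact ⟨T, hTL T hT, heT (by simp), heT (by simp)⟩
    · exact ⟨t, h, hu, hv⟩
  · rintro ⟨⟨huv, t, ht, hu, hv⟩, huw, hvw⟩
    refine ⟨huv, ?_⟩
    by_cases hwt : w ∈ t
    · exact ⟨{a, b, c}, (mem' _).2 (Or.inl rfl), hTsub t (hst t ht hwt) u hu huw,
        hTsub t (hst t ht hwt) v hv hvw⟩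
    · exact ⟨t, (mem' t).2 (Or.inr ⟨ht, hwt⟩), hu, hv⟩

end Pool.TSph
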