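import Pool.Agent.Lib.MP_3de3a3_co.BetaInt
import Pool.Agent.Lib.MP_3de3a3_co.BetaDef

/-! # The integrals of the bounds (module Polys) -/

set_option autoImplicit false

namespace Pool.TSph

open Finset

private theorem int1 (c : ℝ) (a b : ℕ) : IntervalIntegrable
    (fun p : ℝ => c * (p ^ a * (1 - p) ^ b)) MeasureTheory.volume 0 1 :=
  (by fun_prop : Continuous _).intervalIntegrable _ _

private theorem int2 (c : ℝ) (a b : ℕ) : ∫ p in (0:ℝ)..1, c * (p ^ a * (1 - p) ^ b) =
    c * ((a.factorial : ℝ) * b.factorial / (a + b + 1).factorial) := by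
  rw [intervalIntegral.integral_const_mul, integral_beta]

theorem beta3_int : ∫ p in (0:ℝ)..1, ∑ B : Finset (Fin 3),
    p ^ B.card * (1 - p) ^ (3 - B.card) * beta3 B p ≤ 1 / 20 := by
  have e : ∀ p : ℝ, ∑ B : Finset (Fin 3), p ^ B.card * (1 - p) ^ (3 - B.card) * beta3 B p =
      1 * (p ^ 1 * (1 - p) ^ 3) := by
    intro p
    simp only [beta3, mul_ite, mul_zero, Finset.sum_ite_eq', Finset.mem_univ, if_true,
      Finset.card_empty]
    ring
  simp only [e]
  rw [int2]
  norm_num [Nat.factorial]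

theorem beta4_int : ∫ p in (0:ℝ)..1, ∑ B : Finset (Fin 4),
    p ^ B.card * (1 - p) ^ (4 - B.card) * beta4 B p ≤ 1 / 20 := by
  have e : ∀ p : ℝ, ∑ B : Finset (Fin 4), p ^ B.card * (1 - p) ^ (4 - B.card) * beta4 B p =
      1 * (p ^ 1 * (1 - p) ^ 4) + 1 * (p ^ 2 * (1 - p) ^ 3) := by
    intro p
    have c1 : ({0, 2} : Finset (Fin 4)).card = 2 := by decide
    simp only [beta4, mul_add, mul_ite, mul_zero, Finset.sum_add_distrib, Finset.sum_ite_eq',
      Finset.mem_univ, if_true, Finset.card_empty, c1]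
    ring
  simp only [e]
  rw [intervalIntegral.integral_add (int1 _ _ _) (int1 _ _ _), int2, int2]
  norm_num [Nat.factorial]

theorem beta5a_int : ∫ p in (0:ℝ)..1, ∑ B : Finset (Fin 5),
    p ^ B.card * (1 - p) ^ (5 - B.card) * beta5a B p ≤ 1 / 20 := by
  have e : ∀ p : ℝ, ∑ B : Finset (Fin 5), p ^ B.card * (1 - p) ^ (5 - B.card) * beta5a B p =
      1 * (p ^ 1 * (1 - p) ^ 5) + (2 * (p ^ 2 * (1 - p) ^ 4) + 1 * (p ^ 3 * (1 - p) ^ 3)) := by
    intro p
    have c1 : ({1, 3} : Finset (Fin 5)).card = 2 := by decide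
    have c2 : ({1, 4} : Finset (Fin 5)).card = 2 := by decide
    have c3 : ({0, 3} : Finset (Fin 5)).card = 2 := by decide
    have c4 : ({1, 3, 4} : Finset (Fin 5)).card = 3 := by decide
    have c5 : ({0, 1, 3} : Finset (Fin 5)).card = 3 := by decide
    simp only [beta5a, mul_add, mul_ite, mul_zero, Finset.sum_add_distrib, Finset.sum_ite_eq',
      Finset.mem_univ, if_true, Finset.card_empty, c1, c2, c3, c4, c5]
    ring
  simp only [e]
  rw [intervalIntegral.integral_add (int1 _ _ _) ((int1 _ _ _).add (int1 _ _ _)),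
    intervalIntegral.integral_add (int1 _ _ _) (int1 _ _ _), int2, int2, int2]
  norm_num [Nat.factorial]

theorem beta5b_int : ∫ p in (0:ℝ)..1, ∑ B : Finset (Fin 5),
    p ^ B.card * (1 - p) ^ (5 - B.card) * beta5b B p ≤ 1 / 20 := by
  have e : ∀ p : ℝ, ∑ B : Finset (Fin 5), p ^ B.card * (1 - p) ^ (5 - B.card) * beta5b B p =
      1 * (p ^ 1 * (1 - p) ^ 5) + (2 * (p ^ 2 * (1 - p) ^ 4) + 1 * (p ^ 3 * (1 - p) ^ 3)) := by
    intro p
    have c1 : ({1, 3} : Finset (Fin 5)).card = 2 := by decide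
    have c2 : ({1, 4} : Finset (Fin 5)).card = 2 := by decide
    have c3 : ({2, 4} : Finset (Fin 5)).card = 2 := by decide
    have c4 : ({1, 3, 4} : Finset (Fin 5)).card = 3 := by decide
    have c5 : ({1, 2, 4} : Finset (Fin 5)).card = 3 := by decide
    simp only [beta5b, mul_add, mul_ite, mul_zero, Finset.sum_add_distrib, Finset.sum_ite_eq',
      Finset.mem_univ, if_true, Finset.card_empty, c1, c2, c3, c4, c5]
    ring
  simp only [e]
  rw [intervalIntegral.integral_add (int1 _ _ _) ((int1 _ _ _).add (int1 _ _ _)),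
    intervalIntegral.integral_add (int1 _ _ _) (int1 _ _ _), int2, int2, int2]
  norm_num [Nat.factorial]

theorem beta5n_int : ∫ p in (0:ℝ)..1, ∑ B : Finset (Fin 5),
    p ^ B.card * (1 - p) ^ (5 - B.card) * beta5n B p ≤ 1 / 20 := by
  have e : ∀ p : ℝ, ∑ B : Finset (Fin 5), p ^ B.card * (1 - p) ^ (5 - B.card) * beta5n B p =
      1 * (p ^ 1 * (1 - p) ^ 5) + (2 * (p ^ 2 * (1 - p) ^ 3) + ((-5) * (p ^ 3 * (1 - p) ^ 3) +
        (25 / 8 * (p ^ 4 * (1 - p) ^ 3) + (3 * (p ^ 3 * (1 - p) ^ 3) +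
          (-2) * (p ^ 4 * (1 - p) ^ 3))))) := by
    intro p
    have c1 : ∀ i : Fin 5, ({i, i + 2} : Finset (Fin 5)).card = 2 := by decide
    have c2 : ∀ i : Fin 5, ({i, i + 2, i + 3} : Finset (Fin 5)).card = 3 := by decide
    simp only [beta5n, mul_add, Finset.sum_add_distrib]
    have h1 : ∑ B : Finset (Fin 5), p ^ B.card * (1 - p) ^ (5 - B.card) *
        (if B = ∅ then p else 0) = p * (1 - p) ^ 5 := by
      simp only [mul_ite, mul_zero, Finset.sum_ite_eq', Finset.mem_univ, if_true,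
        Finset.card_empty]
      ring
    have h2 : ∑ B : Finset (Fin 5), p ^ B.card * (1 - p) ^ (5 - B.card) *
        ∑ i : Fin 5, (if B = {i, i + 2} then 5 / 8 * (4 / 5 - p) ^ 2 else 0) =
          5 * (p ^ 2 * (1 - p) ^ 3 * (5 / 8 * (4 / 5 - p) ^ 2)) := by
      simp only [Finset.mul_sum]
      rw [Finset.sum_comm]
      simp only [mul_ite, mul_zero, Finset.sum_ite_eq', Finset.mem_univ, if_true, c1,
        Finset.sum_const, Finset.card_univ, Fintype.card_fin, nsmul_eq_mul]
      norm_num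
    have h3 : ∑ B : Finset (Fin 5), p ^ B.card * (1 - p) ^ (5 - B.card) *
        ∑ m : Fin 5, (if B = {m, m + 2, m + 3} then (1 - p) * (3 - 2 * p) / 5 else 0) =
          5 * (p ^ 3 * (1 - p) ^ 2 * ((1 - p) * (3 - 2 * p) / 5)) := by
      simp only [Finset.mul_sum]
      rw [Finset.sum_comm]
      simp only [mul_ite, mul_zero, Finset.sum_ite_eq', Finset.mem_univ, if_true, c2,
        Finset.sum_const, Finset.card_univ, Fintype.card_fin, nsmul_eq_mul]
      norm_num
    rw [h1, h2, h3]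
    ring
  simp only [e]
  rw [intervalIntegral.integral_add (int1 _ _ _) ((int1 _ _ _).add ((int1 _ _ _).add
      ((int1 _ _ _).add ((int1 _ _ _).add (int1 _ _ _))))),
    intervalIntegral.integral_add (int1 _ _ _) ((int1 _ _ _).add
      ((int1 _ _ _).add ((int1 _ _ _).add (int1 _ _ _)))),
    intervalIntegral.integral_add (int1 _ _ _) ((int1 _ _ _).add ((int1 _ _ _).add
      (int1 _ _ _))),
    intervalIntegral.integral_add (int1 _ _ _) ((int1 _ _ _).add (int1 _ _ _)),
    intervalIntegral.integral_add (int1 _ _ _) (int1 _ _ _), int2, int2, int2, int2, int2, int2]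
  norm_num [Nat.factorial]

end Pool.TSph
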