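import Pool.Agent.Lib.MP_3de3a3_co.Step5Of
import Pool.Agent.Lib.MP_3de3a3_co.Sep
import Pool.Agent.Lib.MP_3de3a3_co.Polys

/-! # Removing a vertex of degree 5, second case (module Step5B) -/

set_option autoImplicit false

namespace Pool.TSph

open Finset

variable {ι : Type*} [DecidableEq ι]

private theorem Step5B_le (L : Finset (Finset ι)) (S : Finset ι) (u v : ι) {p : ℝ} (hp : p ≤ 1) :
    sepd L S u v * (1 - p) ≤ 1 - p := by
  unfold sepd
  split_ifs
  · rw [zero_mul]; linarith
  · rw [one_mul]

private theorem Step5B_zero {L : Finset (Finset ι)} {S : Finset ι} {u v : ι}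
    (h : cn (adj L) S u v) : sepd L S u v = 0 := by
  unfold sepd
  exact if_pos h

private theorem Step5B_one {L : Finset (Finset ι)} {S : Finset ι} {u v : ι}
    (h : ¬ cn (adj L) S u v) : sepd L S u v = 1 := by
  unfold sepd
  exact if_neg h

private theorem Step5B_single {L : Finset (Finset ι)} {S : Finset ι} {u v : ι} (hv : v ∈ S)
    (h : adj L u v) : cn (adj L) S u v := Relation.ReflTransGen.single ⟨hv, h⟩

private theorem Step5B_pair (B : Finset (Fin 5)) (h : ∃ i, B = {i, i + 2}) :
    B = {0, 2} ∨ B = {1, 3} ∨ B = {2, 4} ∨ B = {3, 0} ∨ B = {4, 1} := by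
  obtain ⟨i, rfl⟩ := h
  revert i
  decide

private theorem Step5B_triple (B : Finset (Fin 5)) (h : ∃ m, B = {m, m + 2, m + 3}) :
    B = {0, 2, 3} ∨ B = {1, 3, 4} ∨ B = {2, 4, 0} ∨ B = {3, 0, 1} ∨ B = {4, 1, 2} := by
  obtain ⟨i, rfl⟩ := h
  revert i
  decide

/-- `a 0, a 2` and `a 0, a 3` adjacent: `J = {1}`, `beta5b`. By `sep5` for `i = 0` the vertices
`a 1` and `a 3`, `a 4` are not adjacent. Pairs: `{0,2}`, `{3,0}` : 0. `{1,3}` : `≤ 1-p`. `{4,1}` :
`≤ 1-p`. `{2,4}` : separation 1 by `sep5` for `i = 3`, value `-p`. Triples: `m = 0` : 0;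
`m = 1` : `≤ 1-p`; `m = 2` : 0; `m = 3` : 0; `m = 4` : `≤ 1-p`. -/
theorem step5b {L : Finset (Finset ι)} (hL : IsSphere2 L) (hV : 5 ≤ (verts L).card) {w : ι}
    {a : Fin 5 → ι} (hw : w ∈ verts L) (hc : LinkCycle L w 5 a)
    (h02 : adj L (a 0) (a 2)) (h03 : adj L (a 0) (a 3)) :
    ∃ L' : Finset (Finset ι), IsSphere2 L' ∧ verts L' = (verts L).erase w ∧
      phi L ≤ phi L' + 1 / 20 := by
  have hne : ∀ i j : Fin 5, i ≠ j → a i ≠ a j := fun i j h e => h (hc.inj e)
  have hsep : ∀ S : Finset ι, w ∉ S → a 0 ∉ S → a 2 ∉ S → a 1 ∈ S →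
      ¬ cn (adj L) S (a 1) (a 3) ∧ ¬ cn (adj L) S (a 1) (a 4) := fun S h1 h2 h3 h4 =>
    sep5 hL hc 0 h02 h1 h2 h3 h4
  have h13 : ¬ adj L (a 1) (a 3) := by
    intro h
    refine (hsep {a 1, a 3} ?_ ?_ ?_ (by simp)).1 (Step5B_single (by simp) h)
    · simp only [mem_insert, mem_singleton, not_or]
      exact ⟨(hc.ne 1).symm, (hc.ne 3).symm⟩
    · simp only [mem_insert, mem_singleton, not_or]
      exact ⟨hne 0 1 (by decide), hne 0 3 (by decide)⟩
    · simp only [mem_insert, mem_singleton, not_or]
      exact ⟨hne 2 1 (by decide), hne 2 3 (by decide)⟩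
  have h14 : ¬ adj L (a 1) (a 4) := by
    intro h
    refine (hsep {a 1, a 4} ?_ ?_ ?_ (by simp)).2 (Step5B_single (by simp) h)
    · simp only [mem_insert, mem_singleton, not_or]
      exact ⟨(hc.ne 1).symm, (hc.ne 4).symm⟩
    · simp only [mem_insert, mem_singleton, not_or]
      exact ⟨hne 0 1 (by decide), hne 0 4 (by decide)⟩
    · simp only [mem_insert, mem_singleton, not_or]
      exact ⟨hne 2 1 (by decide), hne 2 4 (by decide)⟩
  have h40 : adj L (a 0) (a 4) := by
    have h1 := hc.tri 4
    have h2 : (4 : Fin 5) + 1 = 0 := by decide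
    rw [h2] at h1
    exact ⟨hne 0 4 (by decide), _, h1, by simp, by simp⟩
  refine step5_of hL hV hw hc {1} (singleton_nonempty 1) ?_ ?_ beta5b beta5b_cont beta5b_int ?_
  · intro j hj
    rw [mem_singleton.1 hj]
    exact h13
  · intro j hj
    rw [mem_singleton.1 hj]
    exact h14
  · intro S hS p hp0 hp1
    rw [Finset.sum_singleton, Finset.card_singleton, Nat.cast_one, one_mul]
    have hwS : w ∉ S := fun h => (mem_erase.1 (hS h)).1 rfl
    set B : Finset (Fin 5) := univ.filter (fun i => a i ∈ S) with hB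
    have mB : ∀ i, i ∈ B ↔ a i ∈ S := fun i => by rw [hB, mem_filter]; simp
    by_cases hb0 : B = ∅
    · rw [K5_empty hc 1 hS (hB ▸ hb0) p, hb0]
      unfold beta5b
      rw [if_pos rfl, if_neg (by decide), if_neg (by decide), if_neg (by decide),
        if_neg (by decide), if_neg (by decide)]
      linarith
    by_cases hb2 : ∃ i, B = {i, i + 2}
    · rcases Step5B_pair B hb2 with hi | hi | hi | hi | hi
      · have h1 := K5_pair hc 1 hS 0 (hB ▸ hi) p
        have h2 : a 2 ∈ S := (mB 2).1 (by rw [hi]; decide)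
        have h3 : sepd L S (a 0) (a (0 + 2)) = 0 := Step5B_zero (Step5B_single h2 h02)
        rw [h1, h3, zero_mul, hi]
        unfold beta5b
        rw [if_neg (by decide : ¬ ({0, 2} : Finset (Fin 5)) = ∅), if_neg (by decide), if_neg (by decide),
          if_neg (by decide), if_neg (by decide), if_neg (by decide)]
        linarith
      · have h1 := K5_pair hc 1 hS 1 (hB ▸ hi) p
        rw [h1, hi, if_pos (by decide)]
        have h3 := Step5B_le L S (a 1) (a (1 + 2)) hp1
        unfold beta5b
        rw [if_neg (by decide : ¬ ({1, 3} : Finset (Fin 5)) = ∅), if_pos rfl, if_neg (by decide),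
          if_neg (by decide), if_neg (by decide), if_neg (by decide)]
        linarith
      · have h1 := K5_pair hc 1 hS 2 (hB ▸ hi) p
        have h2 : a 4 ∈ S := (mB 4).1 (by rw [hi]; decide)
        have h2' : a 2 ∈ S := (mB 2).1 (by rw [hi]; decide)
        have h0' : a 0 ∉ S := fun h => absurd ((mB 0).2 h) (by rw [hi]; decide)
        have h3' : a 3 ∉ S := fun h => absurd ((mB 3).2 h) (by rw [hi]; decide)
        have h3 : sepd L S (a 2) (a (2 + 2)) = 1 := by
          refine Step5B_one fun h => ?_
          have h4 := (sep5 hL hc 3 (S := S) (adj_symm h03) hwS h3' h0' h2).2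
          exact h4 (cn_symm (fun u v h => adj_symm h) h2' h)
        rw [h1, h3, hi, if_neg (by decide)]
        unfold beta5b
        rw [if_neg (by decide : ¬ ({2, 4} : Finset (Fin 5)) = ∅), if_neg (by decide), if_neg (by decide),
          if_pos rfl, if_neg (by decide), if_neg (by decide)]
        linarith
      · have h1 := K5_pair hc 1 hS 3 (hB ▸ hi) p
        have h2 : a 0 ∈ S := (mB 0).1 (by rw [hi]; decide)
        have h3 : sepd L S (a 3) (a (3 + 2)) = 0 := Step5B_zero (Step5B_single h2 (adj_symm h03))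
        rw [h1, h3, zero_mul, hi]
        unfold beta5b
        rw [if_neg (by decide : ¬ ({3, 0} : Finset (Fin 5)) = ∅), if_neg (by decide), if_neg (by decide),
          if_neg (by decide), if_neg (by decide), if_neg (by decide)]
        linarith
      · have h1 := K5_pair hc 1 hS 4 (hB ▸ hi) p
        rw [h1, hi, if_pos (by decide)]
        have h3 := Step5B_le L S (a 4) (a (4 + 2)) hp1
        unfold beta5b
        rw [if_neg (by decide : ¬ ({4, 1} : Finset (Fin 5)) = ∅), if_neg (by decide), if_pos (by decide),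
          if_neg (by decide), if_neg (by decide), if_neg (by decide)]
        linarith
    by_cases hb3 : ∃ m, B = {m, m + 2, m + 3}
    · rcases Step5B_triple B hb3 with hi | hi | hi | hi | hi
      · have h1 := K5_triple hc 1 hS 0 (hB ▸ hi) p
        have h2 : a 2 ∈ S := (mB 2).1 (by rw [hi]; decide)
        have h3 : sepd L S (a 0) (a (0 + 2)) = 0 := Step5B_zero (Step5B_single h2 h02)
        rw [h1, h3, zero_mul, hi]
        unfold beta5b
        rw [if_neg (by decide : ¬ ({0, 2, 3} : Finset (Fin 5)) = ∅), if_neg (by decide), if_neg (by decide),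
          if_neg (by decide), if_neg (by decide), if_neg (by decide)]
        linarith
      · have h1 := K5_triple hc 1 hS 1 (hB ▸ hi) p
        rw [h1, hi, if_pos (by decide)]
        have h3 := Step5B_le L S (a 1) (a (1 + 2)) hp1
        unfold beta5b
        rw [if_neg (by decide : ¬ ({1, 3, 4} : Finset (Fin 5)) = ∅), if_neg (by decide), if_neg (by decide),
          if_neg (by decide), if_pos rfl, if_neg (by decide)]
        linarith
      · have h1 := K5_triple hc 1 hS 2 (hB ▸ hi) p
        have h2 : a 4 ∈ S := (mB 4).1 (by rw [hi]; decide)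
        have h2' : a 0 ∈ S := (mB 0).1 (by rw [hi]; decide)
        have h3 : sepd L S (a 2) (a (2 + 2)) = 0 := by
          refine Step5B_zero ?_
          have h4 : cn (adj L) S (a 2) (a 0) := Step5B_single h2' (adj_symm h02)
          have h5 : cn (adj L) S (a 0) (a 4) := Step5B_single h2 h40
          exact h4.trans h5
        rw [h1, h3, zero_mul, hi]
        unfold beta5b
        rw [if_neg (by decide : ¬ ({2, 4, 0} : Finset (Fin 5)) = ∅), if_neg (by decide), if_neg (by decide),
          if_neg (by decide), if_neg (by decide), if_neg (by decide)]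
        linarith
      · have h1 := K5_triple hc 1 hS 3 (hB ▸ hi) p
        have h2 : a 0 ∈ S := (mB 0).1 (by rw [hi]; decide)
        have h3 : sepd L S (a 3) (a (3 + 2)) = 0 := Step5B_zero (Step5B_single h2 (adj_symm h03))
        rw [h1, h3, zero_mul, hi]
        unfold beta5b
        rw [if_neg (by decide : ¬ ({3, 0, 1} : Finset (Fin 5)) = ∅), if_neg (by decide), if_neg (by decide),
          if_neg (by decide), if_neg (by decide), if_neg (by decide)]
        linarith
      · have h1 := K5_triple hc 1 hS 4 (hB ▸ hi) p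
        rw [h1, hi, if_pos (by decide)]
        have h3 := Step5B_le L S (a 4) (a (4 + 2)) hp1
        unfold beta5b
        rw [if_neg (by decide : ¬ ({4, 1, 2} : Finset (Fin 5)) = ∅), if_neg (by decide), if_neg (by decide),
          if_neg (by decide), if_neg (by decide), if_pos (by decide)]
        linarith
    · push Not at hb2 hb3
      rw [K5_arc hc 1 hS (hB ▸ hb0) (fun i => hB ▸ hb2 i) (fun m => hB ▸ hb3 m) p]
      unfold beta5b
      rw [if_neg hb0, if_neg (fun h => hb2 1 (by rw [h]; decide)),
        if_neg (fun h => hb2 4 (by rw [h]; decide)), if_neg (fun h => hb2 2 (by rw [h]; decide)),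
        if_neg (fun h => hb3 1 (by rw [h]; decide)), if_neg (fun h => hb3 4 (by rw [h]; decide))]
      linarith

end Pool.TSph
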