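import Pool.Agent.Lib.MP_3de3a3_co.Step5A
import Pool.Agent.Lib.MP_3de3a3_co.Step5B
import Pool.Agent.Lib.MP_3de3a3_co.Step5N

/-! # Removing a vertex of degree 5 (module Step5) -/

set_option autoImplicit false

namespace Pool.TSph

open Finset

variable {ι : Type*} [DecidableEq ι]

/-- Rotate the cycle. -/
theorem rotate5 {L : Finset (Finset ι)} {w : ι} {a : Fin 5 → ι} (hc : LinkCycle L w 5 a)
    (k : Fin 5) : LinkCycle L w 5 (fun i => a (i + k)) := by
  refine ⟨fun i j h => ?_, fun i => hc.ne _, fun i => ?_, fun v => ?_⟩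
  · exact add_right_cancel (hc.inj h)
  · have h := hc.tri (i + k)
    have e : i + k + 1 = i + 1 + k := by abel
    rw [e] at h
    exact h
  · rw [hc.all v]
    constructor
    · rintro ⟨i, rfl⟩
      exact ⟨i - k, by rw [sub_add_cancel]⟩
    · rintro ⟨i, rfl⟩
      exact ⟨i + k, rfl⟩

theorem step5 {L : Finset (Finset ι)} (hL : IsSphere2 L) (hV : 5 ≤ (verts L).card) {w : ι}
    {a : Fin 5 → ι} (hw : w ∈ verts L) (hc : LinkCycle L w 5 a) :
    ∃ L' : Finset (Finset ι), IsSphere2 L' ∧ verts L' = (verts L).erase w ∧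
      phi L ≤ phi L' + 1 / 20 := by
  by_cases hno : ∀ i, ¬ adj L (a i) (a (i + 2))
  · exact step5n hL hV hw hc hno
  · push Not at hno
    obtain ⟨k, hk⟩ := hno
    have hr := rotate5 hc k
    have h02 : adj L ((fun i => a (i + k)) 0) ((fun i => a (i + k)) 2) := by
      simpa [add_comm] using hk
    by_cases h03 : adj L ((fun i => a (i + k)) 0) ((fun i => a (i + k)) 3)
    · exact step5b hL hV hw hr h02 h03
    · exact step5a hL hV hw hr h02 h03

end Pool.TSph
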