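import Pool.Agent.Lib.MP_3de3a3_co.KLink
import Pool.Agent.Lib.MP_3de3a3_co.MfdCount

/-! # The complexes Kx are closed 3-manifolds (module KMfd) -/

set_option autoImplicit false

namespace Pool.TSph

open Finset

variable {V : Type*} [DecidableEq V] [Fintype V]

omit [Fintype V] in
theorem KMfd_star {F : Finset (Finset V)} {x : V} (hS : IsSphere2 (link F x))
    {s t : Finset V} (hs : s ∈ F) (ht : t ∈ F) (hxs : x ∈ s) (hxt : x ∈ t) :
    Relation.ReflTransGen (fun a b => b ∈ F ∧ (a ∩ b).card = 3) s t := by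
  have hsl : s.erase x ∈ link F x := mem_link.2 ⟨s, hs, hxs, rfl⟩
  have htl : t.erase x ∈ link F x := mem_link.2 ⟨t, ht, hxt, rfl⟩
  have hc := hS.conn _ hsl _ htl
  have key : ∀ a b : Finset V, a ∈ link F x →
      Relation.ReflTransGen (fun a b => b ∈ link F x ∧ (a ∩ b).card = 2) a b →
      b ∈ link F x ∧ Relation.ReflTransGen (fun a b => b ∈ F ∧ (a ∩ b).card = 3)
        (insert x a) (insert x b) := by
    intro a b ha hab
    induction hab with
    | refl => exact ⟨ha, Relation.ReflTransGen.refl⟩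
    | @tail b c _ hbc ih =>
      refine ⟨hbc.1, ih.2.tail ?_⟩
      have hb := mem_link'.1 ih.1
      have hc' := mem_link'.1 hbc.1
      have hi : insert x b ∩ insert x c = insert x (b ∩ c) :=
        (Finset.insert_inter_distrib b c x).symm
      have hn : x ∉ b ∩ c := fun h => hb.1 (mem_inter.1 h).1
      refine ⟨hc'.2, ?_⟩
      rw [hi, card_insert_of_notMem hn, hbc.2]
  have h := (key _ _ hsl hc).2
  rwa [insert_erase hxs, insert_erase hxt] at h

/-- Strong connectivity: all facets which contain `w` are connected (the link is connected);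
`w` and `x i w` are in a common facet; the generators act transitively. The number of facets:
`sum_link_card`. -/
theorem kx_mfd {r : ℕ} (hr : 2 ≤ r) {x : ℕ → Equiv.Perm V} {deg : V → ℕ → ZMod 9}
    (hg : Graded r x deg) (ht : Trans r x) :
    IsMfd3 (Kx r x) ∧ (Kx r x).card = (10 * r - 7) * Fintype.card V := by
  have h4 : ∀ s ∈ Kx r x, s.card = 4 := by
    intro s hs
    simp only [Kx, mem_sdiff, mem_biUnion, mem_powersetCard] at hs
    obtain ⟨⟨p, _, _, h⟩, _⟩ := hs
    exact h
  have hsph : ∀ w, IsSphere2 (link (Kx r x) w) := fun w => (link_Kx hr hg w).1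
  have key : ∀ w w' : V, Relation.ReflTransGen (fun a b => ∃ i, i < r ∧ b = x i a) w w' →
      ∀ s ∈ Kx r x, w ∈ s → ∀ t ∈ Kx r x, w' ∈ t →
        Relation.ReflTransGen (fun a b => b ∈ Kx r x ∧ (a ∩ b).card = 3) s t := by
    intro w w' hww
    induction hww with
    | refl =>
      intro s hs hws t ht' hwt
      exact KMfd_star (hsph w) hs ht' hws hwt
    | @tail b c _ hbc ih =>
      obtain ⟨i, hi, rfl⟩ := hbc
      intro s hs hws t ht' hwt
      obtain ⟨_, u, hu, hbu, hcu⟩ := mem_verts_link.1 ((link_Kx hr hg b).2.2.2 i hi)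
      exact (ih s hs hws u hu hbu).trans (KMfd_star (hsph _) hu ht' hcu hwt)
  constructor
  · refine ⟨h4, ?_, fun w _ => hsph w⟩
    intro s hs t ht'
    have h1 : s.Nonempty := by rw [← card_pos, h4 s hs]; norm_num
    have h2 : t.Nonempty := by rw [← card_pos, h4 t ht']; norm_num
    obtain ⟨w, hw⟩ := h1
    obtain ⟨w', hw'⟩ := h2
    exact key w w' (ht w w') s hs hw t ht' hw'
  · have hv : verts (Kx r x) = univ := by
      ext w
      simp only [mem_univ, iff_true]
      obtain ⟨_, u, hu, hbu, _⟩ := mem_verts_link.1 ((link_Kx hr hg w).2.2.2 0 (by omega))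
      exact mem_verts.2 ⟨u, hu, hbu⟩
    have h5 := sum_link_card h4
    rw [hv, Finset.sum_congr rfl (fun w _ => (link_Kx hr hg w).2.1), Finset.sum_const,
      card_univ, smul_eq_mul] at h5
    have h6 : 4 * (Kx r x).card = 4 * ((10 * r - 7) * Fintype.card V) := by
      rw [← h5]; ring
    exact Nat.eq_of_mul_eq_mul_left (by norm_num) h6

end Pool.TSph
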