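import Pool.Agent.Lib.MP_3de3a3_co.Defs

/-! # Closed 3-manifolds satisfy PM (module MfdPM) -/

set_option autoImplicit false

namespace Pool.TSph

open Finset

variable {ι : Type*} [DecidableEq ι]

/-- Adjacency in a link. -/
theorem mem_verts_link {F : Finset (Finset ι)} {x y : ι} :
    y ∈ verts (link F x) ↔ x ≠ y ∧ ∃ s ∈ F, x ∈ s ∧ y ∈ s := by
  rw [mem_verts]
  constructor
  · rintro ⟨t, ht, hy⟩
    obtain ⟨s, hs, hx, rfl⟩ := mem_link.1 ht
    rw [mem_erase] at hy
    exact ⟨fun h => hy.1 h.symm, s, hs, hx, hy.2⟩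
  · rintro ⟨hxy, s, hs, hx, hy⟩
    exact ⟨s.erase x, mem_link.2 ⟨s, hs, hx, rfl⟩, mem_erase.2 ⟨fun h => hxy h.symm, hy⟩⟩

theorem MfdPM_two {F : Finset (Finset ι)} (hF : IsMfd3 F) (t : Finset ι) (ht : t ∈ tris F) :
    (F.filter (fun s => t ⊆ s)).card = 2 := by
  obtain ⟨ht3, s, hs, hts⟩ := mem_tris.1 ht
  have hne : t.Nonempty := by
    rw [← Finset.card_pos, ht3]
    norm_num
  obtain ⟨x, hx⟩ := hne
  have hxF : x ∈ verts F := mem_verts.2 ⟨s, hs, hts hx⟩
  have hsl : s.erase x ∈ link F x := mem_link.2 ⟨s, hs, hts hx, rfl⟩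
  have hes : t.erase x ⊆ s.erase x := Finset.erase_subset_erase x hts
  have hec : (t.erase x).card = 2 := by
    rw [card_erase_of_mem hx, ht3]
  have h := (hF.sphere x hxF).edge (s.erase x) hsl (t.erase x) hes hec
  have himg : (link F x).filter (fun s => t.erase x ⊆ s) =
      (F.filter (fun s => t ⊆ s)).image (fun s => s.erase x) := by
    ext u
    simp only [mem_filter, mem_image]
    constructor
    · rintro ⟨hu, htu⟩
      obtain ⟨w, hw, hxw, rfl⟩ := mem_link.1 hu
      refine ⟨w, ⟨hw, ?_⟩, rfl⟩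
      intro y hy
      by_cases hyx : y = x
      · rw [hyx]; exact hxw
      · exact (mem_erase.1 (htu (mem_erase.2 ⟨hyx, hy⟩))).2
    · rintro ⟨w, ⟨hw, htw⟩, rfl⟩
      exact ⟨mem_link.2 ⟨w, hw, htw hx, rfl⟩, Finset.erase_subset_erase x htw⟩
  rw [himg, Finset.card_image_of_injOn] at h
  · exact h
  · intro a ha b hb hab
    simp only [coe_filter, Set.mem_ofPred_eq] at ha hb
    have h1 : insert x (a.erase x) = insert x (b.erase x) := by
      simp only at hab
      rw [hab]
    rwa [insert_erase (ha.2 hx), insert_erase (hb.2 hx)] at h1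

theorem mfd_pm {F : Finset (Finset ι)} (hF : IsMfd3 F) : PM F := by
  refine ⟨hF.card4, MfdPM_two hF, ?_⟩
  intro x s hs t ht hxs hxt
  have hxF : x ∈ verts F := mem_verts.2 ⟨s, hs, hxs⟩
  have hsl : s.erase x ∈ link F x := mem_link.2 ⟨s, hs, hxs, rfl⟩
  have htl : t.erase x ∈ link F x := mem_link.2 ⟨t, ht, hxt, rfl⟩
  have hc := (hF.sphere x hxF).conn _ hsl _ htl
  have key : ∀ a b : Finset ι, a ∈ link F x →
      Relation.ReflTransGen (fun a b => b ∈ link F x ∧ (a ∩ b).card = 2) a b →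
      b ∈ link F x ∧ Relation.ReflTransGen (fun a b => b ∈ F ∧ (a ∩ b).card = 3 ∧ x ∈ a ∩ b)
        (insert x a) (insert x b) := by
    intro a b ha hab
    induction hab with
    | refl => exact ⟨ha, Relation.ReflTransGen.refl⟩
    | @tail b c _ hbc ih =>
      refine ⟨hbc.1, ih.2.tail ?_⟩
      have hb := mem_link'.1 ih.1
      have hc' := mem_link'.1 hbc.1
      have hi : insert x b ∩ insert x c = insert x (b ∩ c) :=
        (Finset.insert_inter_distrib b c x).symm
      have hn : x ∉ b ∩ c := fun h => hb.1 (mem_inter.1 h).1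
      refine ⟨hc'.2, ?_, ?_⟩
      · rw [hi, card_insert_of_notMem hn, hbc.2]
      · rw [hi]
        exact mem_insert_self _ _
  have h := (key _ _ hsl hc).2
  rwa [insert_erase hxs, insert_erase hxt] at h

end Pool.TSph
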