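import Pool.Agent.Lib.MP_3de3a3_co.Defs

/-! # The average number of components (module PhiDef) -/

set_option autoImplicit false

namespace Pool.TSph

open Finset

variable {ι : Type*} [DecidableEq ι]

/-- The average number of components. -/
noncomputable def phi (L : Finset (Finset ι)) : ℝ :=
  Phi (verts L) (fun S => (comp (adj L) S : ℝ))

end Pool.TSph
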