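import Pool.Agent.Lib.MP_3de3a3_co.Defs

/-! # Basic facts on Phi (module PhiBasic) -/

set_option autoImplicit false

namespace Pool.TSph

open Finset

variable {ι : Type*} [DecidableEq ι]

/-- The integrand of `Phi` is continuous. -/
theorem PhiBasic_cont (W : Finset ι) (f : Finset ι → ℝ) : Continuous
    (fun p : ℝ => ∑ S ∈ W.powerset, p ^ S.card * (1 - p) ^ (W.card - S.card) * f S) := by
  refine continuous_finsetSum _ fun S _ => ?_
  fun_prop

/-- Two functions which agree on the subsets of `W` have the same average. -/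
theorem Phi_congr {W : Finset ι} {f g : Finset ι → ℝ} (h : ∀ S ⊆ W, f S = g S) :
    Phi W f = Phi W g := by
  unfold Phi
  congr 1
  funext p
  refine Finset.sum_congr rfl fun S hS => ?_
  rw [h S (Finset.mem_powerset.1 hS)]

/-- The function which is `1` on nonempty subsets. -/
theorem Phi_one {W : Finset ι} {f : Finset ι → ℝ} (h0 : f ∅ = 0)
    (h : ∀ S ⊆ W, S.Nonempty → f S = 1) : Phi W f = 1 - 1 / (W.card + 1) := by
  have hint : ∀ p : ℝ, ∑ S ∈ W.powerset, p ^ S.card * (1 - p) ^ (W.card - S.card) * f S =
      1 - (1 - p) ^ W.card := by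
    intro p
    have h1 : ∑ S ∈ W.powerset, p ^ S.card * (1 - p) ^ (W.card - S.card) = 1 := by
      rw [Finset.sum_pow_mul_eq_add_pow]
      rw [show p + (1 - p) = 1 by ring, one_pow]
    have h2 : ∑ S ∈ W.powerset, p ^ S.card * (1 - p) ^ (W.card - S.card) * f S +
        ∑ S ∈ W.powerset, (if S = ∅ then (1 - p) ^ W.card else 0) =
        ∑ S ∈ W.powerset, p ^ S.card * (1 - p) ^ (W.card - S.card) := by
      rw [← Finset.sum_add_distrib]
      refine Finset.sum_congr rfl fun S hS => ?_
      by_cases hS0 : S = ∅
      · subst hS0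
        rw [h0, if_pos rfl]
        simp
      · rw [h S (Finset.mem_powerset.1 hS) (Finset.nonempty_iff_ne_empty.2 hS0), if_neg hS0]
        ring
    rw [Finset.sum_ite_eq' W.powerset ∅, if_pos (Finset.empty_mem_powerset W), h1] at h2
    linarith
  unfold Phi
  simp only [hint]
  rw [intervalIntegral.integral_sub (by simp) (Continuous.intervalIntegrable (by fun_prop) _ _),
    intervalIntegral.integral_comp_sub_left (fun x : ℝ => x ^ W.card) 1]
  simp

theorem Phi_add (W : Finset ι) (f g : Finset ι → ℝ) :
    Phi W (fun S => f S + g S) = Phi W f + Phi W g := by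
  unfold Phi
  rw [← intervalIntegral.integral_add ((PhiBasic_cont W f).intervalIntegrable _ _)
    ((PhiBasic_cont W g).intervalIntegrable _ _)]
  congr 1
  funext p
  rw [← Finset.sum_add_distrib]
  refine Finset.sum_congr rfl fun S _ => ?_
  ring

/-- The probability that all elements of `W` are chosen. -/
theorem Phi_top (W : Finset ι) :
    Phi W (fun S => if S = W then (1:ℝ) else 0) = 1 / (W.card + 1) := by
  have hint : ∀ p : ℝ, ∑ S ∈ W.powerset, p ^ S.card * (1 - p) ^ (W.card - S.card) *
      (if S = W then (1:ℝ) else 0) = p ^ W.card := by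
    intro p
    rw [Finset.sum_eq_single W]
    · simp
    · intro S _ hS
      rw [if_neg hS, mul_zero]
    · intro hW
      exact absurd (Finset.mem_powerset_self W) hW
  unfold Phi
  simp only [hint]
  rw [integral_pow]
  simp

end Pool.TSph
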