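import Pool.Agent.Lib.MP_3de3a3_co.Marg
import Pool.Agent.Lib.MP_3de3a3_co.PhiBasic

/-! # The local step for Phi (module PhiStep) -/

set_option autoImplicit false

namespace Pool.TSph

open Finset

variable {ι : Type*} [DecidableEq ι]

/-- The local step: if the average over `j ∈ J` of the differences is pointwise bounded by a
function of the trace on `a_1, …, a_d`, then for one `j` the functional changes by at most the
integral of the bound. -/
theorem Phi_step {W : Finset ι} {w : ι} (hw : w ∈ W) (f : Finset ι → ℝ) {κ : Type*}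
    (J : Finset κ) (hJ : J.Nonempty) (f' : κ → Finset ι → ℝ) {d : ℕ} (a : Fin d → ι)
    (ha : Function.Injective a) (haW : ∀ i, a i ∈ W.erase w) (β : Finset (Fin d) → ℝ → ℝ)
    (hβ : ∀ B, Continuous (β B)) (c : ℝ)
    (hpt : ∀ S ⊆ W.erase w, ∀ p : ℝ, 0 ≤ p → p ≤ 1 →
      ∑ j ∈ J, (p * f (insert w S) + (1 - p) * f S - f' j S) ≤
        J.card * β (univ.filter (fun i => a i ∈ S)) p)
    (hint : ∫ p in (0:ℝ)..1, ∑ B : Finset (Fin d), p ^ B.card * (1 - p) ^ (d - B.card) * β B p
      ≤ c) :
    ∃ j ∈ J, Phi W f ≤ Phi (W.erase w) (f' j) + c := by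
  by_contra hcon
  push Not at hcon
  have hJpos : (0:ℝ) < J.card := by exact_mod_cast hJ.card_pos
  have hsum : ∑ j ∈ J, (Phi (W.erase w) (f' j) + c) < ∑ _j ∈ J, Phi W f :=
    Finset.sum_lt_sum_of_nonempty hJ (fun j hj => hcon j hj)
  -- the integrals
  have e1 : ∑ j ∈ J, (Phi W f - Phi (W.erase w) (f' j)) =
      ∫ p in (0:ℝ)..1, ∑ S ∈ (W.erase w).powerset,
        p ^ S.card * (1 - p) ^ ((W.erase w).card - S.card) *
          ∑ j ∈ J, (p * f (insert w S) + (1 - p) * f S - f' j S) := by
    have h1 : ∀ j ∈ J, Phi W f - Phi (W.erase w) (f' j) =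
        ∫ p in (0:ℝ)..1, ∑ S ∈ (W.erase w).powerset,
          p ^ S.card * (1 - p) ^ ((W.erase w).card - S.card) *
            (p * f (insert w S) + (1 - p) * f S - f' j S) := by
      intro j _
      unfold Phi
      rw [← intervalIntegral.integral_sub ((PhiBasic_cont W f).intervalIntegrable _ _)
        ((PhiBasic_cont (W.erase w) (f' j)).intervalIntegrable _ _)]
      congr 1
      funext p
      rw [sum_split W hw f p, ← Finset.sum_sub_distrib]
      refine Finset.sum_congr rfl fun S _ => ?_
      ring
    rw [Finset.sum_congr rfl h1, ← intervalIntegral.integral_finsetSum]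
    · congr 1
      funext p
      rw [Finset.sum_comm]
      refine Finset.sum_congr rfl fun S _ => ?_
      rw [Finset.mul_sum]
    · intro j _
      refine Continuous.intervalIntegrable ?_ _ _
      refine continuous_finsetSum _ fun S _ => ?_
      fun_prop
  have e2 : ∫ p in (0:ℝ)..1, ∑ S ∈ (W.erase w).powerset,
        p ^ S.card * (1 - p) ^ ((W.erase w).card - S.card) *
          ∑ j ∈ J, (p * f (insert w S) + (1 - p) * f S - f' j S) ≤
      ∫ p in (0:ℝ)..1, (J.card : ℝ) *
        ∑ B : Finset (Fin d), p ^ B.card * (1 - p) ^ (d - B.card) * β B p := by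
    refine intervalIntegral.integral_mono_on (by norm_num) ?_ ?_ ?_
    · refine Continuous.intervalIntegrable ?_ _ _
      refine continuous_finsetSum _ fun S _ => ?_
      fun_prop
    · refine Continuous.intervalIntegrable ?_ _ _
      refine Continuous.mul continuous_const (continuous_finsetSum _ fun B _ => ?_)
      have := hβ B
      fun_prop
    · intro p hp
      rw [← sum_marginal_fin (W.erase w) a ha haW (fun B => β B p) p, Finset.mul_sum]
      refine Finset.sum_le_sum fun S hS => ?_
      have hw0 : (0:ℝ) ≤ p ^ S.card * (1 - p) ^ ((W.erase w).card - S.card) :=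
        mul_nonneg (pow_nonneg hp.1 _) (pow_nonneg (by linarith [hp.2]) _)
      calc _ ≤ p ^ S.card * (1 - p) ^ ((W.erase w).card - S.card) *
            (J.card * β (univ.filter (fun i => a i ∈ S)) p) :=
            mul_le_mul_of_nonneg_left (hpt S (Finset.mem_powerset.1 hS) p hp.1 hp.2) hw0
        _ = _ := by ring
  rw [intervalIntegral.integral_const_mul] at e2
  have e3 : ∑ j ∈ J, (Phi W f - Phi (W.erase w) (f' j)) ≤ J.card * c := by
    rw [e1]
    exact e2.trans (mul_le_mul_of_nonneg_left hint hJpos.le)
  rw [Finset.sum_sub_distrib] at e3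
  rw [Finset.sum_add_distrib, Finset.sum_const (s := J) c, nsmul_eq_mul] at hsum
  linarith

end Pool.TSph
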