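import Pool.Agent.Lib.MP_3de3a3_co.Defs

/-! # The 1-3 move (module Move13) -/

set_option autoImplicit false

namespace Pool.TSph

open Finset

variable {ι : Type*} [DecidableEq ι]

/-- two different sets with three elements which have two common elements -/
theorem Move13_inter {a b c : Finset ι} (ha : a.card = 3) (hb : b.card = 3) (hab : a ≠ b) (hc : c.card = 2)
    (h1 : c ⊆ a) (h2 : c ⊆ b) : (a ∩ b).card = 2 := by
  have h3 : c ⊆ a ∩ b := subset_inter h1 h2
  have h4 : 2 ≤ (a ∩ b).card := by rw [← hc]; exact card_le_card h3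
  have h5 : (a ∩ b).card ≤ 3 := by rw [← ha]; exact card_le_card inter_subset_left
  by_contra hne
  have h6 : (a ∩ b).card = 3 := by omega
  have h7 : a ∩ b = a := eq_of_subset_of_card_le inter_subset_left (by omega)
  have h8 : a ∩ b = b := eq_of_subset_of_card_le inter_subset_right (by omega)
  exact hab (h7.symm.trans h8)

/-- Stellar subdivision of the triangle `τ` with the new vertex `z` (compare module Move31, the
inverse move; the proof is of the same kind). -/
theorem move13 {L : Finset (Finset ι)} (hL : IsSphere2 L) {τ : Finset ι} (hτ : τ ∈ L) {z : ι}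
    (hz : z ∉ verts L) :
    IsSphere2 (L.erase τ ∪ τ.image (fun a => insert z (τ.erase a))) ∧
      verts (L.erase τ ∪ τ.image (fun a => insert z (τ.erase a))) = insert z (verts L) ∧
      (L.erase τ ∪ τ.image (fun a => insert z (τ.erase a))).card = L.card + 2 := by
  have hτc : τ.card = 3 := hL.card3 τ hτ
  have hzL : ∀ s ∈ L, z ∉ s := fun s hs h => hz (mem_verts.2 ⟨s, hs, h⟩)
  have hzτ : z ∉ τ := hzL τ hτ
  set f : ι → Finset ι := fun a => insert z (τ.erase a) with hf
  have hze : ∀ a, z ∉ τ.erase a := fun a h => hzτ (mem_of_mem_erase h)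
  have hfz : ∀ a, z ∈ f a := fun a => mem_insert_self _ _
  have hfL : ∀ a, f a ∉ L := fun a h => hzL _ h (hfz a)
  have hmf : ∀ a y, y ∈ f a ↔ y = z ∨ (y ≠ a ∧ y ∈ τ) := by
    intro a y
    rw [hf]
    simp only [mem_insert, mem_erase]
  have hfc : ∀ a ∈ τ, (f a).card = 3 := by
    intro a ha
    rw [hf]
    simp only
    rw [card_insert_of_notMem (hze a), card_erase_of_mem ha, hτc]
  have hinj : Set.InjOn f τ := by
    intro a ha b hb hab
    by_contra hne
    have h1 : a ∈ f b := (hmf b a).2 (Or.inr ⟨hne, ha⟩)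
    rw [← hab, hmf] at h1
    rcases h1 with h | h
    · exact hzτ (h ▸ ha)
    · exact h.1 rfl
  set L' : Finset (Finset ι) := L.erase τ ∪ τ.image f with hL'
  have memL' : ∀ s, s ∈ L' ↔ (s ∈ L ∧ s ≠ τ) ∨ ∃ a ∈ τ, f a = s := by
    intro s
    rw [hL', mem_union, mem_erase, mem_image, and_comm]
  have hdis : Disjoint (L.erase τ) (τ.image f) := by
    rw [disjoint_left]
    intro s hs hs'
    rw [mem_image] at hs'
    obtain ⟨a, -, rfl⟩ := hs'
    exact hfL a (mem_of_mem_erase hs)
  have hsum : ∀ g : Finset ι → ℕ, ∑ s ∈ L', g s + g τ = ∑ s ∈ L, g s + ∑ a ∈ τ, g (f a) := by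
    intro g
    rw [hL', sum_union hdis, sum_image hinj, ← add_sum_erase L g hτ]
    ring
  have hcard : L'.card = L.card + 2 := by
    have h := hsum (fun _ => 1)
    rw [← card_eq_sum_ones, ← card_eq_sum_ones, ← card_eq_sum_ones, hτc] at h
    omega
  have hverts : verts L' = insert z (verts L) := by
    ext y
    rw [mem_verts, mem_insert, mem_verts]
    constructor
    · rintro ⟨s, hs, hy⟩
      rcases (memL' s).1 hs with ⟨h, -⟩ | ⟨a, ha, rfl⟩
      · exact Or.inr ⟨s, h, hy⟩
      · rcases (hmf a y).1 hy with h | h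
        · exact Or.inl h
        · exact Or.inr ⟨τ, hτ, h.2⟩
    · have hne : τ.Nonempty := card_pos.1 (by omega)
      rintro (rfl | ⟨s, hs, hy⟩)
      · obtain ⟨a, ha⟩ := hne
        exact ⟨f a, (memL' _).2 (Or.inr ⟨a, ha, rfl⟩), hfz a⟩
      · by_cases h : s = τ
        · subst h
          have h1 : (s.erase y).Nonempty := by
            apply card_pos.1
            rw [card_erase_of_mem hy, hτc]
            norm_num
          obtain ⟨a, ha⟩ := h1
          rw [mem_erase] at ha
          exact ⟨f a, (memL' _).2 (Or.inr ⟨a, ha.2, rfl⟩), (hmf a y).2 (Or.inr ⟨fun h => ha.1 h.symm, hy⟩)⟩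
        · exact ⟨s, (memL' _).2 (Or.inl ⟨hs, h⟩), hy⟩
  have hcnt : ∀ e : Finset ι, (L'.filter (fun s => e ⊆ s)).card + (if e ⊆ τ then 1 else 0) =
      (L.filter (fun s => e ⊆ s)).card + (τ.filter (fun a => e ⊆ f a)).card := by
    intro e
    have h := hsum (fun s => if e ⊆ s then 1 else 0)
    rw [← card_filter, ← card_filter, ← card_filter] at h
    exact h
  have path : ∀ Z : Finset ι, Z.card ≤ 1 →
      (∀ s ∈ L, ∀ t ∈ L, Z ⊆ s → Z ⊆ t →
        Relation.ReflTransGen (fun a b => b ∈ L ∧ (a ∩ b).card = 2 ∧ Z ⊆ a ∩ b) s t) →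
      ∀ s ∈ L', ∀ t ∈ L', Z ⊆ s → Z ⊆ t →
        Relation.ReflTransGen (fun a b => b ∈ L' ∧ (a ∩ b).card = 2 ∧ Z ⊆ a ∩ b) s t := by
    intro Z hZ hcon
    set r' : Finset ι → Finset ι → Prop := fun a b => b ∈ L' ∧ (a ∩ b).card = 2 ∧ Z ⊆ a ∩ b with hr'
    have hnew : ∀ p ∈ τ, ∀ q ∈ τ, Z ⊆ f p → Z ⊆ f q → Relation.ReflTransGen r' (f p) (f q) := by
      intro p hp q hq hZp hZq
      by_cases hpq : p = q
      · rw [hpq]
      · apply Relation.ReflTransGen.single
        refine ⟨(memL' _).2 (Or.inr ⟨q, hq, rfl⟩), ?_, subset_inter hZp hZq⟩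
        have h1 : ((τ.erase p).erase q).card = 1 := by
          rw [card_erase_of_mem (mem_erase.2 ⟨fun h => hpq h.symm, hq⟩), card_erase_of_mem hp, hτc]
        have h2 : z ∉ (τ.erase p).erase q := fun h => hze p (mem_of_mem_erase h)
        refine Move13_inter (c := insert z ((τ.erase p).erase q)) (hfc p hp) (hfc q hq)
          (fun h => hpq (hinj hp hq h)) (by rw [card_insert_of_notMem h2, h1]) ?_ ?_
        · intro y hy
          rw [mem_insert, mem_erase, mem_erase] at hy
          rw [hmf]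
          tauto
        · intro y hy
          rw [mem_insert, mem_erase, mem_erase] at hy
          rw [hmf]
          tauto
    obtain ⟨T0, hT0⟩ : ∃ T0 : Finset ι, ∀ p ∈ τ, Z ⊆ f p →
        Relation.ReflTransGen r' (f p) T0 ∧ Relation.ReflTransGen r' T0 (f p) := by
      by_cases h : ∃ p ∈ τ, Z ⊆ f p
      · obtain ⟨p, hp, hZp⟩ := h
        exact ⟨f p, fun q hq hZq => ⟨hnew q hq p hp hZq hZp, hnew p hp q hq hZp hZq⟩⟩
      · exact ⟨∅, fun p hp hZp => absurd ⟨p, hp, hZp⟩ h⟩
    have step1 : ∀ a ∈ L, a ≠ τ → (a ∩ τ).card = 2 → Z ⊆ a ∩ τ →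
        Relation.ReflTransGen r' a T0 ∧ Relation.ReflTransGen r' T0 a := by
      intro a ha haτ hcW hZW
      have haL' : a ∈ L' := (memL' a).2 (Or.inl ⟨ha, haτ⟩)
      obtain ⟨p, hp, hpa⟩ : ∃ p ∈ τ, p ∉ a := by
        by_contra hcon
        push Not at hcon
        have h1 : a ∩ τ = τ := inter_eq_right.2 hcon
        rw [h1, hτc] at hcW
        omega
      have hsub : a ∩ τ ⊆ f p := by
        intro y hy
        rw [mem_inter] at hy
        rw [hmf]
        exact Or.inr ⟨by rintro rfl; exact hpa hy.1, hy.2⟩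
      have hne : a ≠ f p := by rintro rfl; exact hfL p ha
      have hc : (a ∩ f p).card = 2 :=
        Move13_inter (hL.card3 a ha) (hfc p hp) hne hcW inter_subset_left hsub
      have hZ' : Z ⊆ a ∩ f p := subset_inter (hZW.trans inter_subset_left) (hZW.trans hsub)
      obtain ⟨g1, g2⟩ := hT0 p hp (hZ'.trans inter_subset_right)
      refine ⟨Relation.ReflTransGen.head ⟨(memL' _).2 (Or.inr ⟨p, hp, rfl⟩), hc, hZ'⟩ g1,
        Relation.ReflTransGen.tail g2 ⟨haL', ?_, ?_⟩⟩
      · rw [inter_comm]; exact hc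
      · rw [inter_comm]; exact hZ'
    classical
    obtain ⟨φ, hφ1, hφ2⟩ : ∃ φ : Finset ι → Finset ι, φ τ = T0 ∧ (∀ a, a ≠ τ → φ a = a) :=
      ⟨fun a => if a = τ then T0 else a, if_pos rfl, fun a h => if_neg h⟩
    have main : ∀ s ∈ L, ∀ t,
        Relation.ReflTransGen (fun a b => b ∈ L ∧ (a ∩ b).card = 2 ∧ Z ⊆ a ∩ b) s t →
        t ∈ L ∧ Relation.ReflTransGen r' (φ s) (φ t) := by
      intro s hs t hst
      induction hst with
      | refl => exact ⟨hs, Relation.ReflTransGen.refl⟩
      | @tail b c hsb hbc ih =>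
        obtain ⟨hbL, ih⟩ := ih
        obtain ⟨hcL, hbc2, hZbc⟩ := hbc
        refine ⟨hcL, ih.trans ?_⟩
        by_cases hb : b = τ
        · rw [hb, hφ1]
          rw [hb] at hbc2 hZbc
          by_cases hc : c = τ
          · rw [hc, hφ1]
          · rw [hφ2 c hc]
            refine (step1 c hcL hc ?_ ?_).2
            · rw [inter_comm]; exact hbc2
            · rw [inter_comm]; exact hZbc
        · rw [hφ2 b hb]
          by_cases hc : c = τ
          · rw [hc] at hbc2 hZbc
            rw [hc, hφ1]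
            exact (step1 b hbL hb hbc2 hZbc).1
          · rw [hφ2 c hc]
            exact Relation.ReflTransGen.single ⟨(memL' c).2 (Or.inl ⟨hcL, hc⟩), hbc2, hZbc⟩
    intro s hs t ht hZs hZt
    by_cases hzZ : z ∈ Z
    · have key : ∀ s ∈ L', Z ⊆ s → ∃ a ∈ τ, f a = s := by
        intro s hs hZs
        rcases (memL' s).1 hs with ⟨h, -⟩ | h
        · exact absurd (hZs hzZ) (hzL s h)
        · exact h
      obtain ⟨p, hp, rfl⟩ := key s hs hZs
      obtain ⟨q, hq, rfl⟩ := key t ht hZt
      exact hnew p hp q hq hZs hZt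
    · have lift : ∀ s ∈ L', Z ⊆ s → ∃ s0 ∈ L, Z ⊆ s0 ∧ Relation.ReflTransGen r' s (φ s0) ∧
          Relation.ReflTransGen r' (φ s0) s := by
        intro s hs hZs
        rcases (memL' s).1 hs with ⟨h, h1⟩ | ⟨p, hp, rfl⟩
        · refine ⟨s, h, hZs, ?_, ?_⟩ <;> rw [hφ2 s h1]
        · refine ⟨τ, hτ, ?_, ?_⟩
          · intro y hy
            rcases (hmf p y).1 (hZs hy) with h | h
            · exact absurd (h ▸ hy) hzZ
            · exact h.2
          · rw [hφ1]
            exact hT0 p hp hZs
      obtain ⟨s0, hs0, hZs0, a1, -⟩ := lift s hs hZs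
      obtain ⟨t0, ht0, hZt0, -, b2⟩ := lift t ht hZt
      exact (a1.trans (main s0 hs0 t0 (hcon s0 hs0 t0 ht0 hZs0 hZt0)).2).trans b2
  refine ⟨⟨?_, ?_, ?_, ?_, ?_⟩, hverts, hcard⟩
  · intro t ht
    rcases (memL' t).1 ht with ⟨h, -⟩ | ⟨a, ha, rfl⟩
    · exact hL.card3 t h
    · exact hfc a ha
  · -- edges
    intro t ht e het he
    have h1 := hcnt e
    by_cases hze' : z ∈ e
    · have c0 : (L.filter (fun s => e ⊆ s)).card = 0 := by
        rw [card_eq_zero, filter_eq_empty_iff]
        intro s hs h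
        exact hzL s hs (h hze')
      have c1 : ¬ e ⊆ τ := fun h => hzτ (h hze')
      rw [c0, if_neg c1] at h1
      rcases (memL' t).1 ht with ⟨h, -⟩ | ⟨a, ha, rfl⟩
      · exact absurd (het hze') (hzL t h)
      · have hx1 : (e.erase z).card = 1 := by rw [card_erase_of_mem hze', he]
        obtain ⟨x, hx⟩ := card_eq_one.1 hx1
        have hxe : x ∈ e.erase z := by rw [hx]; exact mem_singleton_self x
        have he' : e = insert z {x} := by rw [← hx, insert_erase hze']
        rw [mem_erase] at hxe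
        have hxτ : x ∈ τ := by
          rcases (hmf a x).1 (het hxe.2) with h | h
          · exact absurd h hxe.1
          · exact h.2
        have c2 : (τ.filter (fun a => e ⊆ f a)) = τ.erase x := by
          ext b
          rw [mem_filter, mem_erase, he', insert_subset_iff, singleton_subset_iff, hmf b x]
          constructor
          · rintro ⟨h1, -, h2 | h2⟩
            · exact absurd h2 hxe.1
            · exact ⟨fun h => h2.1 h.symm, h1⟩
          · rintro ⟨h1, h2⟩
            exact ⟨h2, hfz b, Or.inr ⟨fun h => h1 h.symm, hxτ⟩⟩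
        rw [c2, card_erase_of_mem hxτ, hτc] at h1
        omega
    · have hsub : ∀ b, e ⊆ f b ↔ e ⊆ τ.erase b := by
        intro b
        rw [hf]
        simp only
        rw [subset_insert_iff_of_notMem hze']
      by_cases heτ : e ⊆ τ
      · have h2 := hL.edge τ hτ e heτ he
        rw [if_pos heτ] at h1
        have h3 : (τ \ e).card = 1 := by rw [card_sdiff_of_subset heτ, hτc, he]
        have c2 : (τ.filter (fun a => e ⊆ f a)) = τ \ e := by
          ext b
          rw [mem_filter, mem_sdiff, hsub b]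
          constructor
          · rintro ⟨h1, h2⟩
            exact ⟨h1, fun h => (mem_erase.1 (h2 h)).1 rfl⟩
          · rintro ⟨h1, h2⟩
            exact ⟨h1, fun y hy => mem_erase.2 ⟨by rintro rfl; exact h2 hy, heτ hy⟩⟩
        rw [c2, h3] at h1
        omega
      · rw [if_neg heτ] at h1
        have c2 : (τ.filter (fun a => e ⊆ f a)).card = 0 := by
          rw [card_eq_zero, filter_eq_empty_iff]
          intro b _ h
          rw [hsub b] at h
          exact heτ (h.trans (erase_subset _ _))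
        rw [c2] at h1
        have htL : t ∈ L := by
          rcases (memL' t).1 ht with ⟨h, -⟩ | ⟨a, ha, rfl⟩
          · exact h
          · rw [hsub a] at het
            exact absurd (het.trans (erase_subset _ _)) heτ
        have h2 := hL.edge t htL e het he
        omega
  · intro s hs t ht
    have h0 := path ∅ (by simp) (fun s hs t ht _ _ =>
      Relation.ReflTransGen.mono (fun a b hab => ⟨hab.1, hab.2, empty_subset _⟩) _ _ (hL.conn s hs t ht)) s hs t ht
      (empty_subset _) (empty_subset _)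
    exact Relation.ReflTransGen.mono (fun a b hab => ⟨hab.1, hab.2.1⟩) _ _ h0
  · intro y s hs t ht hys hyt
    have h0 := path {y} (by simp) (fun s hs t ht h1 h2 =>
      Relation.ReflTransGen.mono (fun a b hab => ⟨hab.1, hab.2.1, singleton_subset_iff.2 hab.2.2⟩) _ _
        (hL.star y s hs t ht (singleton_subset_iff.1 h1) (singleton_subset_iff.1 h2))) s hs t ht
      (singleton_subset_iff.2 hys) (singleton_subset_iff.2 hyt)
    exact Relation.ReflTransGen.mono (fun a b hab => ⟨hab.1, hab.2.1, singleton_subset_iff.1 hab.2.2⟩) _ _ h0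
  · have h1 := hL.euler
    rw [hverts, card_insert_of_notMem hz, hcard]
    omega

end Pool.TSph
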