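import Pool.Agent.Lib.MP_3de3a3_co.Defs

/-! # The boundary of a tetrahedron (module Tetra) -/

set_option autoImplicit false

namespace Pool.TSph

open Finset

variable {ι : Type*} [DecidableEq ι]

theorem Tetra_mem {p : Finset ι} (hp : p.card = 4) {t : Finset ι} :
    t ∈ p.powersetCard 3 ↔ ∃ a ∈ p, t = p.erase a := by
  rw [mem_powersetCard]
  constructor
  · rintro ⟨h1, h2⟩
    have h3 : (p \ t).card = 1 := by rw [card_sdiff_of_subset h1, hp, h2]
    obtain ⟨a, ha⟩ := card_eq_one.1 h3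
    have ha' : a ∈ p \ t := by rw [ha]; simp
    refine ⟨a, (mem_sdiff.1 ha').1, ?_⟩
    apply eq_of_subset_of_card_le
    · intro x hx
      refine mem_erase.2 ⟨?_, h1 hx⟩
      rintro rfl
      exact (mem_sdiff.1 ha').2 hx
    · rw [card_erase_of_mem (mem_sdiff.1 ha').1, hp, h2]
  · rintro ⟨a, ha, rfl⟩
    exact ⟨erase_subset _ _, by rw [card_erase_of_mem ha, hp]⟩

theorem Tetra_inter {p : Finset ι} (hp : p.card = 4) {a b : ι} (ha : a ∈ p) (hb : b ∈ p)
    (hab : a ≠ b) : (p.erase a ∩ p.erase b).card = 2 := by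
  have h : p.erase a ∩ p.erase b = (p.erase a).erase b := by
    ext x; simp only [mem_inter, mem_erase]; tauto
  rw [h, card_erase_of_mem (mem_erase.2 ⟨hab.symm, hb⟩), card_erase_of_mem ha, hp]

theorem tetra {p : Finset ι} (hp : p.card = 4) :
    IsSphere2 (p.powersetCard 3) ∧ verts (p.powersetCard 3) = p ∧
      (p.powersetCard 3).card = 4 := by
  have hv : verts (p.powersetCard 3) = p := by
    ext x
    rw [mem_verts]
    constructor
    · rintro ⟨s, hs, hx⟩
      exact (mem_powersetCard.1 hs).1 hx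
    · intro hx
      have h1 : 0 < (p.erase x).card := by rw [card_erase_of_mem hx, hp]; norm_num
      obtain ⟨y, hy⟩ := card_pos.1 h1
      exact ⟨p.erase y, (Tetra_mem hp).2 ⟨y, (mem_erase.1 hy).2, rfl⟩,
        mem_erase.2 ⟨(mem_erase.1 hy).1.symm, hx⟩⟩
  have hc : (p.powersetCard 3).card = 4 := by
    rw [card_powersetCard, hp]; decide
  refine ⟨⟨?_, ?_, ?_, ?_, ?_⟩, hv, hc⟩
  · intro t ht
    exact (mem_powersetCard.1 ht).2
  · intro t ht e he hec
    have hep : e ⊆ p := he.trans (mem_powersetCard.1 ht).1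
    have h1 : (p.powersetCard 3).filter (fun s => e ⊆ s) = (p \ e).image (fun a => p.erase a) := by
      ext s
      rw [mem_filter, Tetra_mem hp, mem_image]
      constructor
      · rintro ⟨⟨a, ha, rfl⟩, h⟩
        refine ⟨a, mem_sdiff.2 ⟨ha, ?_⟩, rfl⟩
        intro h2
        exact (mem_erase.1 (h h2)).1 rfl
      · rintro ⟨a, ha, rfl⟩
        refine ⟨⟨a, (mem_sdiff.1 ha).1, rfl⟩, ?_⟩
        intro x hx
        refine mem_erase.2 ⟨?_, hep hx⟩
        rintro rfl
        exact (mem_sdiff.1 ha).2 hx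
    rw [h1, card_image_of_injOn, card_sdiff_of_subset hep, hp, hec]
    intro a ha b hb hab
    by_contra hne
    have ha' : a ∈ p := (mem_sdiff.1 (mem_coe.1 ha)).1
    have h2 : a ∈ p.erase b := mem_erase.2 ⟨hne, ha'⟩
    have h3 : p.erase a = p.erase b := hab
    rw [← h3] at h2
    exact (mem_erase.1 h2).1 rfl
  · intro s hs t ht
    obtain ⟨a, ha, rfl⟩ := (Tetra_mem hp).1 hs
    obtain ⟨b, hb, rfl⟩ := (Tetra_mem hp).1 ht
    by_cases hab : a = b
    · rw [hab]
    · exact Relation.ReflTransGen.single ⟨ht, Tetra_inter hp ha hb hab⟩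
  · intro x s hs t ht hxs hxt
    obtain ⟨a, ha, rfl⟩ := (Tetra_mem hp).1 hs
    obtain ⟨b, hb, rfl⟩ := (Tetra_mem hp).1 ht
    by_cases hab : a = b
    · rw [hab]
    · exact Relation.ReflTransGen.single ⟨ht, Tetra_inter hp ha hb hab,
        mem_inter.2 ⟨hxs, hxt⟩⟩
  · rw [hv, hc, hp]

end Pool.TSph
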