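import Pool.Agent.Lib.MP_3de3a3_co.Defs

/-! # Relabelling a manifold (module MfdMap) -/

set_option autoImplicit false

namespace Pool.TSph

open Finset

section

variable {V U : Type*} [DecidableEq V] [DecidableEq U]

theorem MfdMap_verts {F : Finset (Finset V)} {f : V → U} :
    verts (F.image (fun s => s.image f)) = (verts F).image f := by
  ext y
  simp only [mem_verts, mem_image]
  constructor
  · rintro ⟨_, ⟨s, hs, rfl⟩, hy⟩
    obtain ⟨x, hx, rfl⟩ := mem_image.1 hy
    exact ⟨x, ⟨s, hs, hx⟩, rfl⟩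
  · rintro ⟨x, ⟨s, hs, hx⟩, rfl⟩
    exact ⟨_, ⟨s, hs, rfl⟩, mem_image_of_mem _ hx⟩

theorem MfdMap_mem {s : Finset V} {f : V → U} (hf : Function.Injective f) {x : V} :
    f x ∈ s.image f ↔ x ∈ s := by
  rw [mem_image]
  constructor
  · rintro ⟨y, hy, h⟩
    rwa [← hf h]
  · intro h
    exact ⟨x, h, rfl⟩

theorem MfdMap_link {F : Finset (Finset V)} {f : V → U} (hf : Function.Injective f) (x : V) :
    link (F.image (fun s => s.image f)) (f x) = (link F x).image (fun s => s.image f) := by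
  ext t
  rw [mem_link, mem_image]
  constructor
  · rintro ⟨s', hs', hx, rfl⟩
    obtain ⟨s, hs, rfl⟩ := mem_image.1 hs'
    exact ⟨s.erase x, mem_link.2 ⟨s, hs, (MfdMap_mem hf).1 hx, rfl⟩, image_erase hf _ _⟩
  · rintro ⟨a, ha, rfl⟩
    obtain ⟨s, hs, hx, rfl⟩ := mem_link.1 ha
    exact ⟨_, mem_image_of_mem _ hs, (MfdMap_mem hf).2 hx, (image_erase hf _ _).symm⟩

theorem MfdMap_card {f : V → U} (hf : Function.Injective f) (s : Finset V) :
    (s.image f).card = s.card := card_image_of_injective _ hf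

theorem MfdMap_cardF {f : V → U} (hf : Function.Injective f) (F : Finset (Finset V)) :
    (F.image (fun s => s.image f)).card = F.card :=
  card_image_of_injective _ (image_injective hf)

theorem MfdMap_inter {f : V → U} (hf : Function.Injective f) (a b : Finset V) :
    a.image f ∩ b.image f = (a ∩ b).image f := (image_inter _ _ hf).symm

theorem MfdMap_sphere {L : Finset (Finset V)} (hL : IsSphere2 L) {f : V → U}
    (hf : Function.Injective f) : IsSphere2 (L.image (fun s => s.image f)) := by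
  refine ⟨?_, ?_, ?_, ?_, ?_⟩
  · intro t ht
    obtain ⟨s, hs, rfl⟩ := mem_image.1 ht
    show (s.image f).card = 3
    rw [MfdMap_card hf]; exact hL.card3 s hs
  · intro t ht e he hec
    obtain ⟨s, hs, rfl⟩ := mem_image.1 ht
    obtain ⟨e', he', rfl⟩ := subset_image_iff.1 he
    have he'' : e' ⊆ s := by exact_mod_cast he'
    rw [MfdMap_card hf] at hec
    have h1 : (L.image (fun s => s.image f)).filter (fun s => e'.image f ⊆ s) =
        (L.filter (fun s => e' ⊆ s)).image (fun s => s.image f) := by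
      ext r
      rw [mem_filter, mem_image, mem_image]
      constructor
      · rintro ⟨⟨r', hr', rfl⟩, h⟩
        exact ⟨r', mem_filter.2 ⟨hr', (image_subset_image_iff hf).1 h⟩, rfl⟩
      · rintro ⟨r', hr', rfl⟩
        exact ⟨⟨r', (mem_filter.1 hr').1, rfl⟩, image_subset_image (mem_filter.1 hr').2⟩
    rw [h1, MfdMap_cardF hf]
    exact hL.edge s hs e' he'' hec
  · intro s' hs' t' ht'
    obtain ⟨s, hs, rfl⟩ := mem_image.1 hs'
    obtain ⟨t, ht, rfl⟩ := mem_image.1 ht'
    refine Relation.ReflTransGen.lift (fun s : Finset V => s.image f) ?_ _ _ (hL.conn s hs t ht)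
    rintro a b ⟨hb, hab⟩
    exact ⟨mem_image_of_mem _ hb, by rw [MfdMap_inter hf, MfdMap_card hf, hab]⟩
  · intro x' s' hs' t' ht' hxs hxt
    obtain ⟨s, hs, rfl⟩ := mem_image.1 hs'
    obtain ⟨t, ht, rfl⟩ := mem_image.1 ht'
    obtain ⟨x, hx, rfl⟩ := mem_image.1 hxs
    have hx2 : x ∈ t := (MfdMap_mem hf).1 hxt
    refine Relation.ReflTransGen.lift (fun s : Finset V => s.image f) ?_ _ _
      (hL.star x s hs t ht hx hx2)
    rintro a b ⟨hb, hab, hxab⟩
    exact ⟨mem_image_of_mem _ hb, by rw [MfdMap_inter hf, MfdMap_card hf, hab],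
      by rw [MfdMap_inter hf]; exact mem_image_of_mem _ hxab⟩
  · rw [MfdMap_verts, MfdMap_card hf, MfdMap_cardF hf]
    exact hL.euler

end

theorem mfd_map {V U : Type*} [DecidableEq V] [DecidableEq U] {F : Finset (Finset V)}
    (hF : IsMfd3 F) {f : V → U} (hf : Function.Injective f) :
    IsMfd3 (F.image (fun s => s.image f)) ∧ (F.image (fun s => s.image f)).card = F.card := by
  refine ⟨⟨?_, ?_, ?_⟩, MfdMap_cardF hf F⟩
  · intro t ht
    obtain ⟨s, hs, rfl⟩ := mem_image.1 ht
    show (s.image f).card = 4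
    rw [MfdMap_card hf]; exact hF.card4 s hs
  · intro s' hs' t' ht'
    obtain ⟨s, hs, rfl⟩ := mem_image.1 hs'
    obtain ⟨t, ht, rfl⟩ := mem_image.1 ht'
    refine Relation.ReflTransGen.lift (fun s : Finset V => s.image f) ?_ _ _ (hF.conn s hs t ht)
    rintro a b ⟨hb, hab⟩
    exact ⟨mem_image_of_mem _ hb, by rw [MfdMap_inter hf, MfdMap_card hf, hab]⟩
  · intro y hy
    rw [MfdMap_verts] at hy
    obtain ⟨x, hx, rfl⟩ := mem_image.1 hy
    rw [MfdMap_link hf]
    exact MfdMap_sphere (hF.sphere x hx) hf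

end Pool.TSph
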