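import Pool.Agent.Lib.MP_3de3a3_co.Fam

/-! # The pods at a vertex (module StarEq) -/

set_option autoImplicit false

namespace Pool.TSph

open Finset

variable {V : Type*} [DecidableEq V] [Fintype V]

omit [DecidableEq V] [Fintype V] in
/-- the chart is the evaluation at the translated base -/
theorem StarEq_chart (x y : Equiv.Perm V) {u v : ℤ × ℤ} (hu : u.2 = 0 ∨ u.1 = 0) (hv : v.2 = 0 ∨ v.1 = 0)
    (hu2 : 0 ≤ u.2) (hv2 : 0 ≤ v.2) {w β : V} (h : evp x y β u = w) :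
    evp x y β v = chart x y w (v - u) := by
  obtain ⟨u1, u2⟩ := u
  obtain ⟨v1, v2⟩ := v
  simp only at hu hv hu2 hv2
  subst h
  simp only [evp, chart, Prod.mk_sub_mk]
  have hx : ∀ (g : Equiv.Perm V) (a b : ℤ) (c : V), (g ^ a) ((g ^ b) c) = (g ^ (a + b)) c := by
    intro g a b c
    rw [zpow_add]
    rfl
  have h0 : ∀ (g : Equiv.Perm V) (c : V), (g ^ (0 : ℤ)) c = c := by
    intro g c
    rw [zpow_zero]
    rfl
  rcases hu with rfl | rfl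
  · rw [h0 y, sub_zero, if_neg (not_lt.2 hv2), hx]
    rw [sub_add_cancel]
  · rw [h0 x, sub_zero]
    split_ifs with hlt
    · rw [hx, sub_add_cancel]
      rcases hv with rfl | rfl
      · rw [h0 y, h0 y]
      · rw [h0 x, h0 x]
    · have hle : u2 ≤ v2 := by omega
      rcases hv with rfl | rfl
      · have hu0 : u2 = 0 := by omega
        subst hu0
        rw [h0 y, sub_zero, h0 y, h0 y]
      · rw [h0 x, h0 x, hx, sub_add_cancel]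

/-- membership version of `star_template` -/
theorem StarEq_mem (x y : Equiv.Perm V) (t : Finset (ℤ × ℤ))
    (ht : ∀ u ∈ t, (u.2 = 0 ∨ u.1 = 0) ∧ 0 ≤ u.1 ∧ 0 ≤ u.2) (w : V) (p : Finset V) :
    (w ∈ p ∧ ∃ β, podT x y t β = p) ↔ p ∈ (trl t).image (fun s => s.image (chart x y w)) := by
  have key : ∀ (β : V) (u : ℤ × ℤ), u ∈ t → evp x y β u = w →
      (t.image (fun v => v - u)).image (chart x y w) = podT x y t β := by
    intro β u hu hw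
    unfold podT
    rw [image_image]
    apply image_congr
    intro v hv
    exact (StarEq_chart x y (ht u hu).1 (ht v hv).1 (ht u hu).2.2 (ht v hv).2.2 hw).symm
  rw [mem_image]
  constructor
  · rintro ⟨hw, β, rfl⟩
    unfold podT at hw
    rw [mem_image] at hw
    obtain ⟨u, hu, hw⟩ := hw
    refine ⟨t.image (fun v => v - u), ?_, key β u hu hw⟩
    unfold trl
    exact mem_image.2 ⟨u, hu, rfl⟩
  · rintro ⟨s, hs, rfl⟩
    unfold trl at hs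
    rw [mem_image] at hs
    obtain ⟨u, hu, rfl⟩ := hs
    have hev : evp x y ((x ^ (-u.1)) ((y ^ (-u.2)) w)) u = w := by
      unfold evp
      have hx : ∀ (g : Equiv.Perm V) (a : ℤ) (c : V), (g ^ a) ((g ^ (-a)) c) = c := by
        intro g a c
        rw [zpow_neg]
        exact Equiv.apply_symm_apply (g ^ a) c
      rw [hx, hx]
    refine ⟨?_, _, (key _ u hu hev).symm⟩
    rw [key _ u hu hev]
    unfold podT
    exact mem_image.2 ⟨u, hu, hev⟩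

/-- For a template whose labels are `(a, 0)` or `(0, b)` with `a, b ≥ 0`: the pods with this
template which contain `w` are the images of the translates under the chart (the base is
`x ^ (-a) w` or `y ^ (-b) w`). -/
theorem star_template (x y : Equiv.Perm V) (t : Finset (ℤ × ℤ))
    (ht : ∀ u ∈ t, (u.2 = 0 ∨ u.1 = 0) ∧ 0 ≤ u.1 ∧ 0 ≤ u.2) (w : V) :
    (univ.image (podT x y t)).filter (fun p => w ∈ p) =
      (trl t).image (fun s => s.image (chart x y w)) := by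
  ext p
  rw [mem_filter, mem_image, ← StarEq_mem x y t ht w p]
  constructor
  · rintro ⟨⟨β, -, h⟩, hw⟩
    exact ⟨hw, β, h⟩
  · rintro ⟨hw, β, h⟩
    exact ⟨⟨β, mem_univ _, h⟩, hw⟩

/-- The pods of the line `i + 1` in two descriptions. -/
theorem podT_y (x y z : Equiv.Perm V) (β : V) :
    podT x y locCy β = podT y z locC β ∧ podT x y locGy β = podT y z locG β := by
  constructor
  · simp [podT, locCy, locC, evp]
  · simp [podT, locGy, locG, evp]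

theorem StarEq_ht : (∀ u ∈ locC, (u.2 = 0 ∨ u.1 = 0) ∧ 0 ≤ u.1 ∧ 0 ≤ u.2) ∧
    (∀ u ∈ locCy, (u.2 = 0 ∨ u.1 = 0) ∧ 0 ≤ u.1 ∧ 0 ≤ u.2) ∧
    (∀ u ∈ locD1, (u.2 = 0 ∨ u.1 = 0) ∧ 0 ≤ u.1 ∧ 0 ≤ u.2) ∧
    (∀ u ∈ locD2, (u.2 = 0 ∨ u.1 = 0) ∧ 0 ≤ u.1 ∧ 0 ≤ u.2) ∧
    (∀ u ∈ locD3, (u.2 = 0 ∨ u.1 = 0) ∧ 0 ≤ u.1 ∧ 0 ≤ u.2) := by
  unfold locC locCy locD1 locD2 locD3
  decide

theorem StarEq_ht' : (∀ u ∈ locG, (u.2 = 0 ∨ u.1 = 0) ∧ 0 ≤ u.1 ∧ 0 ≤ u.2) ∧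
    (∀ u ∈ locGy, (u.2 = 0 ∨ u.1 = 0) ∧ 0 ≤ u.1 ∧ 0 ≤ u.2) ∧
    (∀ u ∈ locG1, (u.2 = 0 ∨ u.1 = 0) ∧ 0 ≤ u.1 ∧ 0 ≤ u.2) ∧
    (∀ u ∈ locG2, (u.2 = 0 ∨ u.1 = 0) ∧ 0 ≤ u.1 ∧ 0 ≤ u.2) ∧
    (∀ u ∈ locG3, (u.2 = 0 ∨ u.1 = 0) ∧ 0 ≤ u.1 ∧ 0 ≤ u.2) ∧
    (∀ u ∈ locG4, (u.2 = 0 ∨ u.1 = 0) ∧ 0 ≤ u.1 ∧ 0 ≤ u.2) := by
  unfold locG locGy locG1 locG2 locG3 locG4
  decide

theorem pods_filter {r : ℕ} (hr : 2 ≤ r) (x : ℕ → Equiv.Perm V) (w : V) :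
    (Pods r x).filter (fun p => w ∈ p) = starP x w (r - 1) := by
  obtain ⟨hC, hCy, h1, h2, h3⟩ := StarEq_ht
  ext p
  have hN : ∀ i, p ∈ NLoc.image (fun t => t.image (chart (x i) (x (i + 1)) w)) ↔
      (((w ∈ p ∧ ∃ β, podT (x i) (x (i + 1)) locD1 β = p) ∨ (w ∈ p ∧ ∃ β, podT (x i) (x (i + 1)) locD2 β = p)) ∨
        (w ∈ p ∧ ∃ β, podT (x i) (x (i + 1)) locD3 β = p)) ∨ (w ∈ p ∧ ∃ β, podT (x i) (x (i + 1)) locCy β = p) := by
    intro i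
    rw [StarEq_mem _ _ _ h1, StarEq_mem _ _ _ h2, StarEq_mem _ _ _ h3, StarEq_mem _ _ _ hCy]
    unfold NLoc
    rw [image_union, image_union, image_union, mem_union, mem_union, mem_union]
  rw [mem_filter]
  unfold Pods starP
  simp only [mem_union, mem_biUnion, mem_univ, true_and, mem_range, hN]
  rw [← StarEq_mem _ _ _ hC]
  constructor
  · rintro ⟨⟨β, h | ⟨i, hi, h⟩⟩, hw⟩
    · rw [mem_image] at h
      obtain ⟨i, hi, h⟩ := h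
      rw [mem_range] at hi
      rcases i with _ | j
      · exact Or.inl ⟨hw, β, h⟩
      · refine Or.inr ⟨j, by omega, Or.inr ⟨hw, β, ?_⟩⟩
        rw [(podT_y (x j) (x (j + 1)) (x (j + 1 + 1)) β).1]
        exact h
    · rw [mem_insert, mem_insert, mem_singleton] at h
      rcases h with h | h | h
      · exact Or.inr ⟨i, hi, Or.inl (Or.inl (Or.inl ⟨hw, β, h.symm⟩))⟩
      · exact Or.inr ⟨i, hi, Or.inl (Or.inl (Or.inr ⟨hw, β, h.symm⟩))⟩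
      · exact Or.inr ⟨i, hi, Or.inl (Or.inr ⟨hw, β, h.symm⟩)⟩
  · rintro (⟨hw, β, h⟩ | ⟨i, hi, ((⟨hw, β, h⟩ | ⟨hw, β, h⟩) | ⟨hw, β, h⟩) | ⟨hw, β, h⟩⟩)
    · exact ⟨⟨β, Or.inl (mem_image.2 ⟨0, mem_range.2 (by omega), h⟩)⟩, hw⟩
    · exact ⟨⟨β, Or.inr ⟨i, hi, by rw [mem_insert]; exact Or.inl h.symm⟩⟩, hw⟩
    · exact ⟨⟨β, Or.inr ⟨i, hi, by rw [mem_insert, mem_insert]; exact Or.inr (Or.inl h.symm)⟩⟩, hw⟩
    · exact ⟨⟨β, Or.inr ⟨i, hi, by rw [mem_insert, mem_insert, mem_singleton]; exact Or.inr (Or.inr h.symm)⟩⟩, hw⟩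
    · refine ⟨⟨β, Or.inl (mem_image.2 ⟨i + 1, mem_range.2 (by omega), ?_⟩)⟩, hw⟩
      rw [← (podT_y (x i) (x (i + 1)) (x (i + 1 + 1)) β).1]
      exact h

theorem gls_filter {r : ℕ} (hr : 2 ≤ r) (x : ℕ → Equiv.Perm V) (w : V) :
    (Gls r x).filter (fun p => w ∈ p) = starG x w (r - 1) := by
  obtain ⟨hC, hCy, h1, h2, h3, h4⟩ := StarEq_ht'
  ext p
  have hN : ∀ i, p ∈ WLoc.image (fun t => t.image (chart (x i) (x (i + 1)) w)) ↔
      ((((w ∈ p ∧ ∃ β, podT (x i) (x (i + 1)) locG1 β = p) ∨ (w ∈ p ∧ ∃ β, podT (x i) (x (i + 1)) locG2 β = p)) ∨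
        (w ∈ p ∧ ∃ β, podT (x i) (x (i + 1)) locG3 β = p)) ∨ (w ∈ p ∧ ∃ β, podT (x i) (x (i + 1)) locG4 β = p)) ∨
        (w ∈ p ∧ ∃ β, podT (x i) (x (i + 1)) locGy β = p) := by
    intro i
    rw [StarEq_mem _ _ _ h1, StarEq_mem _ _ _ h2, StarEq_mem _ _ _ h3, StarEq_mem _ _ _ h4, StarEq_mem _ _ _ hCy]
    unfold WLoc
    rw [image_union, image_union, image_union, image_union, mem_union, mem_union, mem_union, mem_union]
  rw [mem_filter]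
  unfold Gls starG
  simp only [mem_union, mem_biUnion, mem_univ, true_and, mem_range, hN]
  rw [← StarEq_mem _ _ _ hC]
  constructor
  · rintro ⟨⟨β, h | ⟨i, hi, h⟩⟩, hw⟩
    · rw [mem_image] at h
      obtain ⟨i, hi, h⟩ := h
      rw [mem_range] at hi
      rcases i with _ | j
      · exact Or.inl ⟨hw, β, h⟩
      · refine Or.inr ⟨j, by omega, Or.inr ⟨hw, β, ?_⟩⟩
        rw [(podT_y (x j) (x (j + 1)) (x (j + 1 + 1)) β).2]
        exact h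
    · rw [mem_insert, mem_insert, mem_insert, mem_singleton] at h
      rcases h with h | h | h | h
      · exact Or.inr ⟨i, hi, Or.inl (Or.inl (Or.inl (Or.inl ⟨hw, β, h.symm⟩)))⟩
      · exact Or.inr ⟨i, hi, Or.inl (Or.inl (Or.inl (Or.inr ⟨hw, β, h.symm⟩)))⟩
      · exact Or.inr ⟨i, hi, Or.inl (Or.inl (Or.inr ⟨hw, β, h.symm⟩))⟩
      · exact Or.inr ⟨i, hi, Or.inl (Or.inr ⟨hw, β, h.symm⟩)⟩
  · rintro (⟨hw, β, h⟩ | ⟨i, hi, (((⟨hw, β, h⟩ | ⟨hw, β, h⟩) | ⟨hw, β, h⟩) | ⟨hw, β, h⟩) | ⟨hw, β, h⟩⟩)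
    · exact ⟨⟨β, Or.inl (mem_image.2 ⟨0, mem_range.2 (by omega), h⟩)⟩, hw⟩
    · exact ⟨⟨β, Or.inr ⟨i, hi, by rw [mem_insert]; exact Or.inl h.symm⟩⟩, hw⟩
    · exact ⟨⟨β, Or.inr ⟨i, hi, by rw [mem_insert, mem_insert]; exact Or.inr (Or.inl h.symm)⟩⟩, hw⟩
    · exact ⟨⟨β, Or.inr ⟨i, hi, by
        rw [mem_insert, mem_insert, mem_insert]; exact Or.inr (Or.inr (Or.inl h.symm))⟩⟩, hw⟩
    · exact ⟨⟨β, Or.inr ⟨i, hi, by
        rw [mem_insert, mem_insert, mem_insert, mem_singleton]; exact Or.inr (Or.inr (Or.inr h.symm))⟩⟩, hw⟩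
    · refine ⟨⟨β, Or.inl (mem_image.2 ⟨i + 1, mem_range.2 (by omega), ?_⟩)⟩, hw⟩
      rw [← (podT_y (x i) (x (i + 1)) (x (i + 1 + 1)) β).2]
      exact h

end Pool.TSph
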