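import Pool.Agent.Lib.MP_3de3a3_co.StkDef
import Pool.Agent.Lib.MP_3de3a3_co.Move13
import Pool.Agent.Lib.MP_3de3a3_co.Tetra

/-! # The boundary of a stacking is a 2-sphere (module StkSphere) -/

set_option autoImplicit false

namespace Pool.TSph

open Finset

theorem StkSphere_inv {V : Type*} [DecidableEq V] {o : V} {p : Finset V}
    (ho : o ∈ p) {k : ℕ} {U W : Finset (Finset V)} (h : RStk {p} ∅ o k U W) :
    (∀ q ∈ U, o ∈ q) ∧ (∀ w ∈ W, ∃ q ∈ U, w ⊆ q) := by
  induction h with
  | refl => exact ⟨by intro q hq; rw [mem_singleton.1 hq]; exact ho, by simp⟩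
  | @step k U W A q z hk hq hA hc hoA hAW hz ih =>
    refine ⟨?_, ?_⟩
    · intro r hr
      rcases mem_insert.1 hr with rfl | hr
      · exact mem_insert_of_mem hoA
      · exact ih.1 r hr
    · intro w hw
      rcases mem_insert.1 hw with rfl | hw
      · exact ⟨q, mem_insert_of_mem hq, hA⟩
      · obtain ⟨r, hr, hwr⟩ := ih.2 w hw
        exact ⟨r, mem_insert_of_mem hr, hwr⟩

theorem StkSphere_step {V : Type*} [DecidableEq V] {o : V} {U W : Finset (Finset V)}
    (hU : ∀ q ∈ U, o ∈ q) (hW : ∀ w ∈ W, ∃ q ∈ U, w ⊆ q) {A p : Finset V} {z : V}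
    (hp : p ∈ U) (hA : A ⊆ p) (hc : A.card = 4) (ho : o ∈ A) (hz : ∀ q ∈ U, z ∉ q) :
    bd o (insert (insert z A) U) (insert A W) =
      (bd o U W).erase (A.erase o) ∪
        (A.erase o).image (fun a => insert z ((A.erase o).erase a)) := by
  have hzA : z ∉ A := fun h => hz p hp (hA h)
  have hzo : z ≠ o := by rintro rfl; exact hzA ho
  ext t
  rw [mem_bd, mem_union, mem_erase, mem_bd, mem_image]
  constructor
  · rintro ⟨h1, h2, ⟨q, hq, hoq⟩, h3⟩
    have h3a : insert o t ≠ A := fun h => h3 (h ▸ mem_insert_self _ _)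
    have h3b : insert o t ∉ W := fun h => h3 (mem_insert_of_mem h)
    rcases mem_insert.1 hq with rfl | hq
    · right
      have hzt : z ∈ t := by
        by_contra hzt
        apply h3a
        apply eq_of_subset_of_card_le
        · intro x hx
          rcases mem_insert.1 (hoq hx) with rfl | h
          · rcases mem_insert.1 hx with h | h
            · exact absurd h hzo
            · exact absurd h hzt
          · exact h
        · rw [card_insert_of_notMem h1, h2, hc]
      have hsub : t.erase z ⊆ A.erase o := by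
        intro x hx
        obtain ⟨hx1, hx2⟩ := mem_erase.1 hx
        refine mem_erase.2 ⟨fun h => h1 (h ▸ hx2), ?_⟩
        rcases mem_insert.1 (hoq (mem_insert_of_mem hx2)) with h | h
        · exact absurd h hx1
        · exact h
      have hcd : ((A.erase o) \ (t.erase z)).card = 1 := by
        rw [card_sdiff_of_subset hsub, card_erase_of_mem ho, hc, card_erase_of_mem hzt, h2]
      obtain ⟨a, ha⟩ := card_eq_one.1 hcd
      have ha' : a ∈ (A.erase o) \ (t.erase z) := by rw [ha]; simp
      have h4 : t.erase z = (A.erase o).erase a := by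
        apply eq_of_subset_of_card_le
        · intro x hx
          refine mem_erase.2 ⟨?_, hsub hx⟩
          rintro rfl
          exact (mem_sdiff.1 ha').2 hx
        · rw [card_erase_of_mem (mem_sdiff.1 ha').1, card_erase_of_mem ho, hc,
            card_erase_of_mem hzt, h2]
      exact ⟨a, (mem_sdiff.1 ha').1, by rw [← h4, insert_erase hzt]⟩
    · left
      refine ⟨?_, h1, h2, ⟨q, hq, hoq⟩, h3b⟩
      rintro rfl
      exact h3a (insert_erase ho)
  · rintro (⟨h0, h1, h2, ⟨q, hq, hoq⟩, h3⟩ | ⟨a, ha, rfl⟩)
    · refine ⟨h1, h2, ⟨q, mem_insert_of_mem hq, hoq⟩, ?_⟩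
      intro h
      rcases mem_insert.1 h with h | h
      · apply h0
        rw [← h, erase_insert h1]
      · exact h3 h
    · have hza : z ∉ (A.erase o).erase a := fun h => hzA (mem_of_mem_erase (mem_of_mem_erase h))
      refine ⟨?_, ?_, ⟨insert z A, mem_insert_self _ _, ?_⟩, ?_⟩
      · intro h
        rcases mem_insert.1 h with h | h
        · exact hzo h.symm
        · exact (mem_erase.1 (mem_of_mem_erase h)).1 rfl
      · rw [card_insert_of_notMem hza, card_erase_of_mem ha, card_erase_of_mem ho, hc]
      · intro x hx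
        rcases mem_insert.1 hx with rfl | hx
        · exact mem_insert_of_mem ho
        · rcases mem_insert.1 hx with rfl | hx
          · exact mem_insert_self _ _
          · exact mem_insert_of_mem (mem_of_mem_erase (mem_of_mem_erase hx))
      · intro h
        have hzm : z ∈ insert o (insert z ((A.erase o).erase a)) :=
          mem_insert_of_mem (mem_insert_self _ _)
        rcases mem_insert.1 h with h | h
        · rw [h] at hzm
          exact hzA hzm
        · obtain ⟨q, hq, hwq⟩ := hW _ h
          exact hz q hq (hwq hzm)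

/-- Induction on the stacking. Start: `tetra` for `p.erase o`. Step: the boundary of
`insert (insert z A) U, insert A W` is obtained from the boundary of `U, W` by the 1-3 move at the
triangle `A.erase o` (which is in the boundary since `A ⊆ p ∈ U`, `A ∉ W`): the new 4-subsets of
`insert z A` which contain `o` and are different from `A` contain `z`, so they are neither in `W`
nor facets of old pods; for this one needs also that all members of `W` are subsets of pods of
`U` (part of the induction). -/
theorem stk_sphere {V : Type*} [DecidableEq V] {o : V} {p : Finset V} (hp : p.card = 5)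
    (ho : o ∈ p) {k : ℕ} {U W : Finset (Finset V)} (h : RStk {p} ∅ o k U W) :
    IsSphere2 (bd o U W) ∧ verts (bd o U W) = (U.biUnion id).erase o ∧
      (bd o U W).card = 2 * k + 4 := by
  induction h with
  | refl =>
    have h4 : (p.erase o).card = 4 := by rw [card_erase_of_mem ho, hp]
    have hb : bd o {p} (∅ : Finset (Finset V)) = (p.erase o).powersetCard 3 := by
      ext t
      rw [mem_bd, mem_powersetCard]
      constructor
      · rintro ⟨h1, h2, ⟨q, hq, hoq⟩, _⟩
        rw [mem_singleton.1 hq] at hoq
        refine ⟨?_, h2⟩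
        intro x hx
        exact mem_erase.2 ⟨fun h => h1 (h ▸ hx), hoq (mem_insert_of_mem hx)⟩
      · rintro ⟨h1, h2⟩
        refine ⟨fun h => (mem_erase.1 (h1 h)).1 rfl, h2, ⟨p, mem_singleton_self _, ?_⟩, by simp⟩
        intro x hx
        rcases mem_insert.1 hx with rfl | hx
        · exact ho
        · exact mem_of_mem_erase (h1 hx)
    rw [hb]
    obtain ⟨t1, t2, t3⟩ := tetra h4
    refine ⟨t1, ?_, ?_⟩
    · rw [t2]; simp
    · rw [t3]
  | @step k U W A q z hk hq hA hc hoA hAW hz ih =>
    obtain ⟨i1, i2, i3⟩ := ih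
    obtain ⟨hU, hW⟩ := StkSphere_inv ho hk
    rw [StkSphere_step hU hW hq hA hc hoA hz]
    have hτ : A.erase o ∈ bd o U W := by
      rw [mem_bd, insert_erase hoA]
      exact ⟨by simp, by rw [card_erase_of_mem hoA, hc], ⟨q, hq, hA⟩, hAW⟩
    have hzv : z ∉ verts (bd o U W) := by
      rw [i2]
      intro h
      obtain ⟨r, hr, hzr⟩ := mem_biUnion.1 (mem_of_mem_erase h)
      exact hz r hr hzr
    obtain ⟨m1, m2, m3⟩ := move13 i1 hτ hzv
    refine ⟨m1, ?_, ?_⟩
    · rw [m2, i2]
      have hzo : z ≠ o := by rintro rfl; exact hz q hq (hA hoA)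
      ext x
      simp only [mem_insert, mem_erase, mem_biUnion, id]
      constructor
      · rintro (rfl | ⟨h1, r, hr, hx⟩)
        · exact ⟨hzo, insert x A, Or.inl rfl, mem_insert_self _ _⟩
        · exact ⟨h1, r, Or.inr hr, hx⟩
      · rintro ⟨h1, r, hr | hr, hx⟩
        · subst hr
          rcases mem_insert.1 hx with h | h
          · exact Or.inl h
          · exact Or.inr ⟨h1, q, hq, hA h⟩
        · exact Or.inr ⟨h1, r, hr, hx⟩
    · rw [m3, i3]; ring

end Pool.TSph
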