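import Pool.Agent.Lib.MP_3de3a3_co.StarStk
import Pool.Agent.Lib.MP_3de3a3_co.StarEq
import Pool.Agent.Lib.MP_3de3a3_co.StkSphere

/-! # The links of the complexes Kx (module KLink) -/

set_option autoImplicit false

namespace Pool.TSph

open Finset

variable {V : Type*} [DecidableEq V] [Fintype V]

theorem link_eq_bd {r : ℕ} (x : ℕ → Equiv.Perm V) (w : V) :
    link (Kx r x) w = bd w ((Pods r x).filter (fun p => w ∈ p))
      ((Gls r x).filter (fun p => w ∈ p)) := by
  ext t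
  rw [mem_link', mem_bd]
  simp only [Kx, mem_sdiff, mem_biUnion, mem_powersetCard, mem_filter, mem_insert, true_or,
    and_true]
  constructor
  · rintro ⟨hw, ⟨p, hp, hsub, hcard⟩, hG⟩
    refine ⟨hw, ?_, ⟨p, ⟨hp, hsub (mem_insert_self _ _)⟩, hsub⟩, hG⟩
    rw [card_insert_of_notMem hw] at hcard
    omega
  · rintro ⟨hw, hcard, ⟨p, ⟨hp, _⟩, hsub⟩, hG⟩
    refine ⟨hw, ⟨p, hp, hsub, ?_⟩, hG⟩
    rw [card_insert_of_notMem hw, hcard]

omit [DecidableEq V] [Fintype V] in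
theorem KLink_ne {r : ℕ} {x : ℕ → Equiv.Perm V} {deg : V → ℕ → ZMod 9}
    (hg : Graded r x deg) (w : V) {i : ℕ} (hi : i < r) : x i w ≠ w := by
  intro h
  have h1 := hg i hi w
  rw [h] at h1
  have h2 := congrFun h1 i
  rw [Pi.add_apply, Pi.single_eq_same] at h2
  have h3 : (1 : ZMod 9) = 0 := by
    have h4 : deg w i + 0 = deg w i + 1 := by rw [add_zero]; exact h2
    exact (add_left_cancel h4).symm
  exact absurd h3 (by decide)

theorem link_Kx {r : ℕ} (hr : 2 ≤ r) {x : ℕ → Equiv.Perm V} {deg : V → ℕ → ZMod 9}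
    (hg : Graded r x deg) (w : V) :
    IsSphere2 (link (Kx r x) w) ∧ (link (Kx r x) w).card = 4 * (10 * r - 7) ∧
      (verts (link (Kx r x) w)).card ≤ 20 * r ∧
      ∀ i, i < r → x i w ∈ verts (link (Kx r x) w) := by
  have hstk := star_stk hg w (j := r - 1) (by omega) hr
  have hbox : ∀ u ∈ locC, -4 ≤ u.1 ∧ u.1 ≤ 4 ∧ -4 ≤ u.2 ∧ u.2 ≤ 4 := by decide
  have hinj := chart_injOn hg (i := 0) (by omega) w
  have hp : (locC.image (chart (x 0) (x 1) w)).card = 5 := by
    rw [card_image_of_injOn (hinj.mono fun u hu => hbox u (mem_coe.1 hu))]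
    decide
  have ho : w ∈ locC.image (chart (x 0) (x 1) w) := by
    refine mem_image.2 ⟨(0, 0), by decide, ?_⟩
    simp [chart]
  obtain ⟨h1, h2, h3⟩ := stk_sphere hp ho hstk
  have heq : link (Kx r x) w = bd w (starP x w (r - 1)) (starG x w (r - 1)) := by
    rw [link_eq_bd, pods_filter hr, gls_filter hr]
  rw [heq]
  refine ⟨h1, ?_, ?_, ?_⟩
  · rw [h3]; omega
  · have h4 := h1.euler
    rw [h3] at h4
    omega
  · intro i hi
    rw [h2, mem_erase]
    refine ⟨KLink_ne hg w hi, ?_⟩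
    rw [← pods_filter hr, mem_biUnion]
    refine ⟨podT (x i) (x (i + 1)) locC w, mem_filter.2 ⟨?_, ?_⟩, ?_⟩
    · simp only [Pods, mem_biUnion, mem_univ, true_and, mem_union, mem_image, mem_range]
      exact ⟨w, Or.inl ⟨i, hi, rfl⟩⟩
    · exact mem_image.2 ⟨(0, 0), by decide, by simp [evp]⟩
    · exact mem_image.2 ⟨(1, 0), by decide, by simp [evp]⟩

end Pool.TSph
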