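import Pool.Agent.Lib.MP_3de3a3_co.Defs

/-! # Labelled facets, neighbouring labelled facets, codes (definitions) -/

set_option autoImplicit false

namespace Pool.TSph

open Finset

variable {ι : Type*} [DecidableEq ι]

/-- The triangle of the labelled facet `f` opposite to the position `a`. -/
def side (f : Fin 4 → ι) (a : Fin 4) : Finset ι := (univ.erase a).image f

/-- `f` is a labelling of a facet. -/
def IsLF (F : Finset (Finset ι)) (f : Fin 4 → ι) : Prop :=
  Function.Injective f ∧ univ.image f ∈ F

open Classical in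
/-- The vertex of the facet on the other side of `side f a` which is not in this triangle. -/
noncomputable def opp (F : Finset (Finset ι)) (f : Fin 4 → ι) (a : Fin 4) : ι :=
  if h : ∃ y, y ∉ univ.image f ∧ insert y (side f a) ∈ F then h.choose else f a

/-- Replace the vertex at position `a` by the vertex on the other side of `side f a`. -/
noncomputable def mv (F : Finset (Finset ι)) (a : Fin 4) (f : Fin 4 → ι) : Fin 4 → ι :=
  Function.update f a (opp F f a)

/-- Codes: parent function, sides of the tree edges, labels of all sides, gluings of the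
remaining known sides. -/
abbrev Code (n : ℕ) : Type :=
  (Fin n → Fin n) × (Fin n → Fin 4) × (Fin n → Fin 4 → Option (Fin 4)) ×
    (Fin n → Fin 4 → Option (Fin n × Equiv.Perm (Fin 4)))

/-- The codes with monotone parent function and at most `r` gluings. -/
def Codes (n r : ℕ) : Finset (Code n) :=
  univ.filter (fun c => Monotone c.1 ∧
    (univ.filter (fun q : Fin n × Fin 4 => c.2.2.2 q.1 q.2 ≠ none)).card ≤ r)

/-- `c` is the code of `F` with respect to the labelled facets `lam` and the certificate
`(M, rk, e)`. -/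
structure HasCode {n : ℕ} (F : Finset (Finset ι)) (c : Code n) (lam : Fin n → Fin 4 → ι)
    (M : Finset (Finset ι)) (rk : Finset ι → ℕ) (e : Finset ι → Finset ι) : Prop where
  cert : Cert F M rk e
  lf : ∀ i, IsLF F (lam i)
  surj : ∀ s ∈ F, ∃ i, univ.image (lam i) = s
  inj : ∀ i j, univ.image (lam i) = univ.image (lam j) → i = j
  tree : ∀ i : Fin n, 0 < (i : ℕ) → lam i = mv F (c.2.1 i) (lam (c.1 i))
  lab_none : ∀ i a, c.2.2.1 i a = none ↔ side (lam i) a ∈ M
  lab_some : ∀ i a m, c.2.2.1 i a = some m →
    m ≠ a ∧ e (side (lam i) a) = (side (lam i) a).erase (lam i m)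
  dat : ∀ i a j g, c.2.2.2 i a = some (j, g) → mv F a (lam i) = lam j ∘ g
  cover : ∀ i a, side (lam i) a ∈ M →
    (∃ i' : Fin n, 0 < (i' : ℕ) ∧ c.1 i' = i ∧ c.2.1 i' = a) ∨
    (0 < (i : ℕ) ∧ c.2.1 i = a) ∨ c.2.2.2 i a ≠ none ∨
    (∃ j, ∃ g : Equiv.Perm (Fin 4), mv F a (lam i) = lam j ∘ g ∧ c.2.2.2 j (g a) ≠ none)

end Pool.TSph
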