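import Pool.Agent.Lib.MP_3de3a3_co.Comp

/-! # Removing the gradient edges does not change the components (module NoGrad) -/

set_option autoImplicit false

namespace Pool.TSph

open Finset

variable {ι : Type*} [DecidableEq ι]

private theorem NoGrad_aux {L : Finset (Finset ι)} (hL : IsSphere2 L) {S : Finset ι}
    {R : Finset (Finset ι)} {D : Finset ι → ℕ} {g : Finset ι → Finset ι}
    (h : ∀ t ∈ L, t ⊆ S → t ∉ R → g t ⊆ t ∧ (g t).card = 2 ∧
        ∀ t' ∈ L, g t ⊆ t' → t' ≠ t → D t' < D t) (k : ℕ) :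
    ∀ t ∈ L, t ⊆ S → t ∉ R → L.sup D - D t ≤ k → ∀ x ∈ t, ∀ y ∈ t,
      cn (fun a b => adj L a b ∧
        ({a, b} : Finset ι) ∉ (L.filter (fun t => t ⊆ S ∧ t ∉ R)).image g) S x y := by
  classical
  induction k using Nat.strong_induction_on with
  | _ k ih =>
  intro t ht htS htR hk
  obtain ⟨h1, h2, h3⟩ := h t ht htS htR
  -- the edges different from `g t`
  have key : ∀ x ∈ t, ∀ y ∈ t, x ≠ y → ({x, y} : Finset ι) ≠ g t →
      cn (fun a b => adj L a b ∧
        ({a, b} : Finset ι) ∉ (L.filter (fun t => t ⊆ S ∧ t ∉ R)).image g) S x y := by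
    intro x hx y hy hxy hne
    by_cases hG : ({x, y} : Finset ι) ∈ (L.filter (fun t => t ⊆ S ∧ t ∉ R)).image g
    · obtain ⟨t', ht', hgt⟩ := Finset.mem_image.1 hG
      rw [Finset.mem_filter] at ht'
      obtain ⟨e1, e2, e3⟩ := h t' ht'.1 ht'.2.1 ht'.2.2
      have e4 : t ≠ t' := by
        rintro rfl
        exact hne hgt.symm
      have e5 : g t' ⊆ t := by
        rw [hgt]
        intro z hz
        rw [Finset.mem_insert, Finset.mem_singleton] at hz
        rcases hz with rfl | rfl
        · exact hx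
        · exact hy
      have e6 : D t < D t' := e3 t ht e5 e4
      have e7 : D t' ≤ L.sup D := Finset.le_sup (f := D) ht'.1
      rw [hgt] at e1
      exact ih (L.sup D - D t') (by omega) t' ht'.1 ht'.2.1 ht'.2.2 le_rfl x
        (e1 (Finset.mem_insert_self _ _)) y (e1 (by simp))
    · exact Relation.ReflTransGen.single ⟨htS hy, ⟨hxy, t, ht, hx, hy⟩, hG⟩
  intro x hx y hy
  by_cases hxy : x = y
  · rw [hxy]
    exact Relation.ReflTransGen.refl
  by_cases hne : ({x, y} : Finset ι) = g t
  · obtain ⟨z, hz, hzn⟩ : ∃ z ∈ t, z ∉ g t := by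
      by_contra hcon
      push Not at hcon
      have h4 : t ⊆ g t := hcon
      have := Finset.card_le_card h4
      rw [hL.card3 t ht, h2] at this
      omega
    rw [← hne, Finset.mem_insert, Finset.mem_singleton, not_or] at hzn
    have e1 := key x hx z hz (Ne.symm hzn.1) (fun e => by
      have h5 : z ∈ g t := e ▸ (by simp)
      rw [← hne, Finset.mem_insert, Finset.mem_singleton] at h5
      rcases h5 with h5 | h5
      · exact hzn.1 h5
      · exact hzn.2 h5)
    have e2 := key z hz y hy hzn.2 (fun e => by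
      have h5 : z ∈ g t := e ▸ (by simp)
      rw [← hne, Finset.mem_insert, Finset.mem_singleton] at h5
      rcases h5 with h5 | h5
      · exact hzn.1 h5
      · exact hzn.2 h5)
    exact e1.trans e2
  · exact key x hx y hy hxy hne

/-- Without the gradient edges the graph on `S` has the same components. Proof: the end points
of `g t` are connected by the other two edges of `t`: such an edge is not a gradient edge, or it
is `g t'` with `D t < D t'` (as `t ≠ t'` contains `g t'`), induction on `- D t`. -/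
theorem cn_without_gradient {L : Finset (Finset ι)} (hL : IsSphere2 L) {S : Finset ι}
    {R : Finset (Finset ι)} {D : Finset ι → ℕ} {g : Finset ι → Finset ι}
    (h : ∀ t ∈ L, t ⊆ S → t ∉ R → g t ⊆ t ∧ (g t).card = 2 ∧
        ∀ t' ∈ L, g t ⊆ t' → t' ≠ t → D t' < D t)
    {u v : ι} (hu : u ∈ S) (hc : cn (adj L) S u v) :
    cn (fun a b => adj L a b ∧
      ({a, b} : Finset ι) ∉ (L.filter (fun t => t ⊆ S ∧ t ∉ R)).image g) S u v := by
  classical
  have hstep : ∀ a ∈ S, ∀ b ∈ S, adj L a b → cn (fun a b => adj L a b ∧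
      ({a, b} : Finset ι) ∉ (L.filter (fun t => t ⊆ S ∧ t ∉ R)).image g) S a b := by
    intro a ha b hb hab
    by_cases hG : ({a, b} : Finset ι) ∈ (L.filter (fun t => t ⊆ S ∧ t ∉ R)).image g
    · obtain ⟨t, ht, hgt⟩ := Finset.mem_image.1 hG
      rw [Finset.mem_filter] at ht
      have h1 := (h t ht.1 ht.2.1 ht.2.2).1
      rw [hgt] at h1
      exact NoGrad_aux hL h (L.sup D - D t) t ht.1 ht.2.1 ht.2.2 le_rfl a
        (h1 (Finset.mem_insert_self _ _)) b (h1 (by simp))
    · exact Relation.ReflTransGen.single ⟨hb, hab, hG⟩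
  have hmain : v ∈ S ∧ cn (fun a b => adj L a b ∧
      ({a, b} : Finset ι) ∉ (L.filter (fun t => t ⊆ S ∧ t ∉ R)).image g) S u v := by
    induction hc with
    | refl => exact ⟨hu, Relation.ReflTransGen.refl⟩
    | tail _ hbc ih => exact ⟨hbc.1, ih.2.trans (hstep _ ih.1 _ hbc.1 hbc.2)⟩
  exact hmain.2

end Pool.TSph
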