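import Pool.Agent.Lib.MP_3de3a3_co.Gradient
import Pool.Agent.Lib.MP_3de3a3_co.NoGrad
import Pool.Agent.Lib.MP_3de3a3_co.Forest

/-! # The data in a vertex link (module LinkCert) -/

set_option autoImplicit false

namespace Pool.TSph

open Finset

variable {ι : Type*} [DecidableEq ι]

/-- The data which we need in the link of a vertex. -/
theorem link_cert {L : Finset (Finset ι)} (hL : IsSphere2 L) {S : Finset ι}
    (hS : S ⊆ verts L) :
    ∃ (R G : Finset (Finset ι)) (D : Finset ι → ℕ) (Rt : Finset ι) (dist : ι → ℕ) (par : ι → ι),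
      R ⊆ L ∧ R.card ≤ (if S = verts L then 1 else 0) ∧
      (∀ t ∈ L, t ⊆ S → t ∉ R → ∃ t' ∈ L, (t ∩ t').card = 2 ∧ t ∩ t' ∈ G ∧ D t' < D t) ∧
      Rt ⊆ S ∧ Rt.card ≤ comp (adj L) S ∧
      (∀ w ∈ S, w ∉ Rt → par w ∈ S ∧ adj L w (par w) ∧ ({w, par w} : Finset ι) ∉ G ∧
        dist (par w) < dist w) := by
  classical
  obtain ⟨R, D, g, hR, hRc, hg⟩ := exists_gradient hL hS
  have hsymA : ∀ u v, (adj L u v ∧ ({u, v} : Finset ι) ∉
      (L.filter (fun t => t ⊆ S ∧ t ∉ R)).image g) → (adj L v u ∧ ({v, u} : Finset ι) ∉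
      (L.filter (fun t => t ⊆ S ∧ t ∉ R)).image g) := by
    rintro u v ⟨h1, h2⟩
    exact ⟨adj_symm h1, by rwa [Finset.pair_comm v u]⟩
  obtain ⟨Rt, dist, par, hRt, hRtc, hf⟩ := exists_forest (A := fun u v => adj L u v ∧
    ({u, v} : Finset ι) ∉ (L.filter (fun t => t ⊆ S ∧ t ∉ R)).image g) hsymA S
  have hcomp : comp (adj L) S = comp (fun u v => adj L u v ∧
      ({u, v} : Finset ι) ∉ (L.filter (fun t => t ⊆ S ∧ t ∉ R)).image g) S := by
    refine comp_same hsymA (fun u v h => adj_symm h) (fun u _ v _ h => h.1) ?_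
    intro u hu v hv huv
    exact cn_without_gradient hL hg hu (Relation.ReflTransGen.single ⟨hv, huv⟩)
  refine ⟨R, (L.filter (fun t => t ⊆ S ∧ t ∉ R)).image g, D, Rt, dist, par, hR, hRc, ?_, hRt,
    hRtc.trans hcomp.ge, ?_⟩
  · intro t ht htS htR
    obtain ⟨h1, h2, h3⟩ := hg t ht htS htR
    have h4 := hL.edge t ht (g t) h1 h2
    obtain ⟨t', ht', hne⟩ : ∃ t' ∈ L.filter (fun s => g t ⊆ s), t' ≠ t := by
      by_contra hcon
      push Not at hcon
      have : L.filter (fun s => g t ⊆ s) ⊆ {t} := fun z hz => by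
        rw [Finset.mem_singleton]
        exact hcon z hz
      have := Finset.card_le_card this
      rw [Finset.card_singleton] at this
      omega
    rw [Finset.mem_filter] at ht'
    have h5 : g t ⊆ t ∩ t' := Finset.subset_inter h1 ht'.2
    have h6 : (t ∩ t').card < 3 := by
      by_contra hcon
      push Not at hcon
      have e1 : t ∩ t' = t := Finset.eq_of_subset_of_card_le Finset.inter_subset_left
        (by rw [hL.card3 t ht]; exact hcon)
      have e2 : t ∩ t' = t' := Finset.eq_of_subset_of_card_le Finset.inter_subset_right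
        (by rw [hL.card3 t' ht'.1]; exact hcon)
      exact hne (e2.symm.trans e1)
    have h7 : g t = t ∩ t' := Finset.eq_of_subset_of_card_le h5 (by omega)
    refine ⟨t', ht'.1, ?_, ?_, h3 t' ht'.1 ht'.2 hne⟩
    · rw [← h7]
      exact h2
    · rw [← h7]
      exact Finset.mem_image.2 ⟨t, Finset.mem_filter.2 ⟨ht, htS, htR⟩, rfl⟩
  · intro w hw hwR
    obtain ⟨h1, h2, h3⟩ := hf w hw hwR
    exact ⟨h1, h2.1, h2.2, h3⟩

end Pool.TSph
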