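import Pool.Agent.Lib.MP_3de3a3_co.StkDef

/-! # The local model (definitions, module LocDef)

Labels are pairs of integers; `(a, b)` stands for `x ^ a` and `y ^ b` applied to a vertex. -/

set_option autoImplicit false

namespace Pool.TSph

open Finset

def locC : Finset (ℤ × ℤ) := {(0,0), (1,0), (2,0), (3,0), (4,0)}
def locCy : Finset (ℤ × ℤ) := {(0,0), (0,1), (0,2), (0,3), (0,4)}
def locD1 : Finset (ℤ × ℤ) := {(0,0), (1,0), (2,0), (4,0), (0,4)}
def locD2 : Finset (ℤ × ℤ) := {(0,0), (1,0), (2,0), (0,4), (0,3)}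
def locD3 : Finset (ℤ × ℤ) := {(0,0), (1,0), (0,4), (0,3), (0,2)}
def locG : Finset (ℤ × ℤ) := {(1,0), (2,0), (3,0), (4,0)}
def locGy : Finset (ℤ × ℤ) := {(0,1), (0,2), (0,3), (0,4)}
def locG1 : Finset (ℤ × ℤ) := {(0,0), (1,0), (2,0), (4,0)}
def locG2 : Finset (ℤ × ℤ) := {(0,0), (1,0), (2,0), (0,4)}
def locG3 : Finset (ℤ × ℤ) := {(0,0), (1,0), (0,4), (0,3)}
def locG4 : Finset (ℤ × ℤ) := {(0,0), (0,4), (0,3), (0,2)}

/-- All translates of `t` which contain the origin. -/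
def trl (t : Finset (ℤ × ℤ)) : Finset (Finset (ℤ × ℤ)) :=
  t.image (fun u => t.image (fun v => v - u))

/-- The new pods and the new inner facets at a vertex. -/
def NLoc : Finset (Finset (ℤ × ℤ)) := trl locD1 ∪ trl locD2 ∪ trl locD3 ∪ trl locCy
def WLoc : Finset (Finset (ℤ × ℤ)) :=
  trl locG1 ∪ trl locG2 ∪ trl locG3 ∪ trl locG4 ∪ trl locGy

end Pool.TSph
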