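import Pool.Agent.Lib.MP_3de3a3_co.LocDef

/-! # The local stackings (module LocStk) -/

set_option autoImplicit false

namespace Pool.TSph

open Finset

/-- the side conditions of a list of stacking steps -/
def locOk (o : ℤ × ℤ) : List (Finset (ℤ × ℤ) × (ℤ × ℤ)) → Finset (Finset (ℤ × ℤ)) →
    Finset (Finset (ℤ × ℤ)) → Bool
  | [], _, _ => true
  | s :: l, U, W => decide (∃ p ∈ U, s.1 ⊆ p) && decide (s.1.card = 4) && decide (o ∈ s.1) &&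
      decide (s.1 ∉ W) && decide (∀ q ∈ U, s.2 ∉ q) &&
      locOk o l (insert (insert s.2 s.1) U) (insert s.1 W)

def locU : List (Finset (ℤ × ℤ) × (ℤ × ℤ)) → Finset (Finset (ℤ × ℤ)) →
    Finset (Finset (ℤ × ℤ))
  | [], U => U
  | s :: l, U => locU l (insert (insert s.2 s.1) U)

def locW : List (Finset (ℤ × ℤ) × (ℤ × ℤ)) → Finset (Finset (ℤ × ℤ)) →
    Finset (Finset (ℤ × ℤ))
  | [], W => W
  | s :: l, W => locW l (insert s.1 W)

theorem locOk_sound {U₀ W₀ : Finset (Finset (ℤ × ℤ))} {o : ℤ × ℤ} :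
    ∀ (l : List (Finset (ℤ × ℤ) × (ℤ × ℤ))) (k : ℕ) (U W : Finset (Finset (ℤ × ℤ))),
      RStk U₀ W₀ o k U W → locOk o l U W = true →
      RStk U₀ W₀ o (k + l.length) (locU l U) (locW l W)
  | [], k, U, W, h, _ => h
  | s :: l, k, U, W, h, hc => by
    simp only [locOk, Bool.and_eq_true, decide_eq_true_eq] at hc
    obtain ⟨⟨⟨⟨⟨⟨p, hp, hA⟩, h4⟩, ho⟩, hW⟩, hz⟩, hl⟩ := hc
    have h1 := RStk.step h hp hA h4 ho hW hz
    have h2 := locOk_sound l (k + 1) _ _ h1 hl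
    have e : k + (s :: l).length = k + 1 + l.length := by
      simp only [List.length_cons]
      omega
    rw [e]
    exact h2

def locL1 : List (Finset (ℤ × ℤ) × (ℤ × ℤ)) :=
  [({(0,0), (1,0), (2,0), (3,0)}, (-1,0)), ({(-1,0), (0,0), (1,0), (2,0)}, (-2,0)),
   ({(-2,0), (-1,0), (0,0), (1,0)}, (-3,0)), ({(-3,0), (-2,0), (-1,0), (0,0)}, (-4,0))]

def locL2 : List (Finset (ℤ × ℤ) × (ℤ × ℤ)) :=
  [({(-4,0),(-3,0),(-2,0),(0,0)}, (-4,4)), ({(-2,0),(-1,0),(0,0),(2,0)}, (-2,4)),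
   ({(-2,0),(-2,4),(-1,0),(0,0)}, (-2,3)), ({(-1,0),(0,0),(1,0),(3,0)}, (-1,4)),
   ({(-1,0),(-1,4),(0,0),(1,0)}, (-1,3)), ({(-1,0),(-1,3),(-1,4),(0,0)}, (-1,2)),
   ({(0,0),(1,0),(2,0),(4,0)}, (0,4)), ({(0,0),(0,4),(1,0),(2,0)}, (0,3)),
   ({(0,0),(0,3),(0,4),(1,0)}, (0,2)), ({(0,0),(0,2),(0,3),(0,4)}, (0,1)),
   ({(0,0),(0,1),(0,2),(0,3)}, (0,-1)), ({(0,-1),(0,0),(0,1),(0,2)}, (0,-2)),
   ({(0,-2),(0,-1),(0,0),(0,1)}, (0,-3)), ({(0,-3),(0,-2),(0,-1),(0,0)}, (0,-4)),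
   ({(0,-4),(0,-2),(0,-1),(0,0)}, (1,-4)), ({(0,-4),(0,-1),(0,0),(1,-4)}, (2,-4)),
   ({(0,-4),(0,0),(1,-4),(2,-4)}, (4,-4)), ({(0,-3),(0,-1),(0,0),(0,1)}, (1,-3)),
   ({(0,-3),(0,0),(0,1),(1,-3)}, (2,-3)), ({(0,-2),(0,0),(0,1),(0,2)}, (1,-2))]

/-- 4 steps; the pods of the line, `{0..4}`, then new vertices `-1, -2, -3, -4`. -/
theorem loc_line : RStk {locC} ∅ (0, 0) 4 (trl locC) (trl locG) := by
  have h := locOk_sound (U₀ := {locC}) (W₀ := ∅) (o := (0, 0)) locL1 0 _ _ RStk.refl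
    (by decide +kernel)
  have e1 : locU locL1 {locC} = trl locC := by decide +kernel
  have e2 : locW locL1 ∅ = trl locG := by decide +kernel
  rw [e1, e2] at h
  exact h

/-- 20 steps, see `locL2`. -/
theorem loc_bridge :
    RStk (trl locC) ∅ (0, 0) 20 (trl locC ∪ NLoc) WLoc := by
  have h := locOk_sound (U₀ := trl locC) (W₀ := ∅) (o := (0, 0)) locL2 0 _ _ RStk.refl
    (by decide +kernel)
  have e1 : locU locL2 (trl locC) = trl locC ∪ NLoc := by decide +kernel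
  have e2 : locW locL2 ∅ = WLoc := by decide +kernel
  rw [e1, e2] at h
  exact h

end Pool.TSph
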