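import Pool.Agent.Lib.MP_3de3a3_co.Sys
import Pool.Agent.Lib.MP_3de3a3_co.KMfd
import Pool.Agent.Lib.MP_3de3a3_co.MfdMap

/-! # Counting the complexes (module LowCount) -/

set_option autoImplicit false

namespace Pool.TSph

open Finset

/-- The parameters: permutations `π i c` for `0 < i < r` (`r = s + 1`). -/
abbrev Par (s N : ℕ) : Type := Fin s → (Fin (s + 1) → ZMod 9) → Equiv.Perm (Fin N)

/-- The system of the parameter. -/
def parX {s N : ℕ} (π : Par s N) : ℕ → Equiv.Perm (VV (s + 1) N) :=
  sysX (fun i c => if h : i = 0 then 1 else π (i.pred h) c)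

theorem card_par (s N : ℕ) :
    Fintype.card (Par s N) = N.factorial ^ (s * 9 ^ (s + 1)) := by
  rw [Fintype.card_fun, Fintype.card_fun, Fintype.card_perm, Fintype.card_fun, Fintype.card_fin,
    Fintype.card_fin, Fintype.card_fin, ZMod.card, ← pow_mul, mul_comm]

theorem LowCount_cardV (s N : ℕ) : Fintype.card (VV (s + 1) N) = 9 ^ (s + 1) * N := by
  rw [Fintype.card_prod, Fintype.card_fun, Fintype.card_fin, Fintype.card_fin, ZMod.card]

/-- For a given labelled complex there are at most `(20 r) ^ (s |V|)` parameters: `x i w` is a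
neighbour of `w`. -/
theorem fiber_le {s N : ℕ} (hs : 1 ≤ s) (hN : 0 < N) (K : Finset (Finset (VV (s + 1) N))) :
    (univ.filter (fun π : Par s N => Kx (s + 1) (parX π) = K)).card ≤
      (20 * (s + 1)) ^ (s * Fintype.card (VV (s + 1) N)) := by
  classical
  rcases (univ.filter (fun π : Par s N => Kx (s + 1) (parX π) = K)).eq_empty_or_nonempty with
    h0 | h0
  · rw [h0, card_empty]; exact Nat.zero_le _
  · obtain ⟨π₀, hπ₀⟩ := h0
    have hK0 := (mem_filter.1 hπ₀).2
    have hlink : ∀ w, (verts (link K w)).card ≤ 20 * (s + 1) := by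
      intro w
      rw [← hK0]
      exact (link_Kx (by omega) (sys_graded _) w).2.2.1
    have h1 : (univ.filter (fun π : Par s N => Kx (s + 1) (parX π) = K)).card ≤
        (Fintype.piFinset (fun p : Fin s × VV (s + 1) N => verts (link K p.2))).card := by
      refine card_le_card_of_injOn
        (fun π => fun p : Fin s × VV (s + 1) N => parX π ((p.1 : ℕ) + 1) p.2) ?_ ?_
      · intro π hπ
        have hK := (mem_filter.1 (mem_coe.1 hπ)).2
        refine mem_coe.2 (Fintype.mem_piFinset.2 ?_)
        intro p
        rw [← hK]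
        exact (link_Kx (by omega) (sys_graded _) p.2).2.2.2 _ (by have := p.1.2; omega)
      · intro π _ π' _ h
        have h2 : ∀ i : ℕ, 0 < i → i < s + 1 → parX π i = parX π' i := by
          intro i hi hi'
          apply Equiv.ext
          intro w
          have h3 := congrFun h (⟨i - 1, by omega⟩, w)
          simp only at h3
          have h4 : i - 1 + 1 = i := by omega
          rw [h4] at h3
          exact h3
        funext i
        have h3 := sys_inj h2 i.succ (by simp)
        funext c
        have h4 := congrFun h3 c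
        rw [dif_neg (Fin.succ_ne_zero i), dif_neg (Fin.succ_ne_zero i), Fin.pred_succ] at h4
        exact h4
    refine h1.trans ?_
    rw [Fintype.card_piFinset]
    refine (prod_le_pow_card _ _ _ (fun p _ => hlink p.2)).trans ?_
    rw [card_univ, Fintype.card_prod, Fintype.card_fin]

/-- The main inequality: `n = (10 r - 7) |V|`, `r = s + 1`. For every parameter choose
`G ∈ S` and a permutation `σ` of `Fin (4 n)`; the pair `(G, σ ∘ emb)` determines the labelled
complex. -/
theorem low_count {s N : ℕ} (hs : 1 ≤ s) (hN : 0 < N) (n : ℕ)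
    (hn : n = (10 * s + 3) * (9 ^ (s + 1) * N))
    (S : Finset (Finset (Finset (Fin (4 * n)))))
    (hS : ∀ F : Finset (Finset (Fin (4 * n))), F.card = n → IsMfd3 F →
      ∃ G ∈ S, ∃ π : Equiv.Perm (Fin (4 * n)), G = F.image (fun σ => σ.image π)) :
    N.factorial ^ (s * 9 ^ (s + 1)) ≤
      S.card * (4 * n) ^ (9 ^ (s + 1) * N) * (20 * (s + 1)) ^ (s * (9 ^ (s + 1) * N)) := by
  classical
  have hV := LowCount_cardV s N
  have hle : Fintype.card (VV (s + 1) N) ≤ Fintype.card (Fin (4 * n)) := by
    rw [Fintype.card_fin, hV, hn]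
    nlinarith [Nat.zero_le (s * (9 ^ (s + 1) * N)), Nat.zero_le (9 ^ (s + 1) * N)]
  obtain ⟨emb⟩ := Function.Embedding.nonempty_of_card_le hle
  have hex : ∀ π : Par s N, ∃ q : Finset (Finset (Fin (4 * n))) × (VV (s + 1) N → Fin (4 * n)),
      q.1 ∈ S ∧ Function.Injective q.2 ∧
        q.1 = (Kx (s + 1) (parX π)).image (fun t => t.image q.2) := by
    intro π
    obtain ⟨hm, hc⟩ := kx_mfd (r := s + 1) (by omega) (x := parX π) (sys_graded _)
      (sys_trans hN _)
    obtain ⟨hm', hc'⟩ := mfd_map hm emb.injective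
    obtain ⟨G, hG, σ, hσ⟩ := hS _ (by
      rw [hc', hc, hn, hV]
      have h10 : 10 * (s + 1) - 7 = 10 * s + 3 := by omega
      rw [h10]) hm'
    refine ⟨(G, σ ∘ emb), hG, σ.injective.comp emb.injective, ?_⟩
    simp only
    rw [hσ, image_image]
    refine image_congr ?_
    intro t _
    simp only [Function.comp_apply]
    rw [image_image]
  choose q hq1 hq2 hq3 using hex
  have hmaps : ∀ π ∈ (univ : Finset (Par s N)),
      q π ∈ S ×ˢ (univ : Finset (VV (s + 1) N → Fin (4 * n))) := by
    intro π _
    exact mem_product.2 ⟨hq1 π, mem_univ _⟩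
  have hfib : ∀ p ∈ S ×ˢ (univ : Finset (VV (s + 1) N → Fin (4 * n))),
      ((univ : Finset (Par s N)).filter (fun π => q π = p)).card ≤
        (20 * (s + 1)) ^ (s * Fintype.card (VV (s + 1) N)) := by
    intro p _
    rcases ((univ : Finset (Par s N)).filter (fun π => q π = p)).eq_empty_or_nonempty with
      h0 | h0
    · rw [h0, card_empty]; exact Nat.zero_le _
    · obtain ⟨π₀, hπ₀⟩ := h0
      have hp0 := (mem_filter.1 hπ₀).2
      refine le_trans (card_le_card ?_) (fiber_le hs hN (Kx (s + 1) (parX π₀)))
      intro π hπ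
      have hp := (mem_filter.1 hπ).2
      refine mem_filter.2 ⟨mem_univ _, ?_⟩
      have h1 := hq3 π
      have h2 := hq3 π₀
      rw [hp] at h1
      rw [hp0] at h2
      rw [h1] at h2
      have hinj : Function.Injective p.2 := by rw [← hp]; exact hq2 π
      exact image_injective (image_injective hinj) h2
  have hmain := card_le_mul_card_image_of_maps_to hmaps _ hfib
  rw [card_univ, card_par, card_product, card_univ, Fintype.card_fun, Fintype.card_fin, hV]
    at hmain
  calc N.factorial ^ (s * 9 ^ (s + 1)) ≤ _ := hmain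
    _ = _ := by ring

end Pool.TSph
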