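import Pool.Agent.Lib.MP_3de3a3_co.LowCount
import Pool.Agent.Lib.MP_3de3a3_co.Asymp

/-! # The lower bound (module Lower) -/

set_option autoImplicit false

namespace Pool.TSph

open Finset

/-- For every `ε > 0` there are arbitrarily large `n` such that the closed connected simplicial
3-manifolds with `n` facets form at least `n ^ ((1/10 - ε) n)` isomorphism classes. -/
theorem lower (ε : ℝ) (hε : 0 < ε) (m : ℕ) :
    ∃ n : ℕ, m ≤ n ∧ ∀ S : Finset (Finset (Finset (Fin (4 * n)))),
      (∀ F : Finset (Finset (Fin (4 * n))), F.card = n → IsMfd3 F →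
        ∃ G ∈ S, ∃ π : Equiv.Perm (Fin (4 * n)), G = F.image (fun σ => σ.image π)) →
      (n : ℝ) ^ ((1 / 10 - ε) * n) ≤ S.card := by
  obtain ⟨s, hs, N₀, h⟩ := asymp ε hε
  let N := N₀ + m + 1
  refine ⟨(10 * s + 3) * (9 ^ (s + 1) * N), ?_, fun S hS => ?_⟩
  · have h1 : 1 ≤ (10 * s + 3) * 9 ^ (s + 1) := Nat.mul_pos (by omega) (by positivity)
    calc m ≤ N := by omega
      _ = 1 * N := (one_mul N).symm
      _ ≤ (10 * s + 3) * 9 ^ (s + 1) * N := Nat.mul_le_mul_right _ h1
      _ = _ := by ring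
  · exact h N (by omega) (by omega) _ rfl S.card
      (low_count hs (by omega) _ rfl S hS)

end Pool.TSph
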