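import Pool.Agent.Lib.MP_3de3a3_co.AvgPred

/-! # There is an order below the average (module Order) -/

set_option autoImplicit false

namespace Pool.TSph

open Finset

variable {ι : Type*} [DecidableEq ι] [Fintype ι]

/-- There is an order for which the sum is at most the average. -/
theorem exists_order (W : Finset ι) (N : ι → Finset ι) (hN : ∀ x ∈ W, x ∉ N x)
    (f : ι → Finset ι → ℝ) :
    ∃ pos : ι → ℕ, Function.Injective pos ∧
      ∑ x ∈ W, f x ((N x).filter (fun y => pos y < pos x)) ≤ ∑ x ∈ W, Phi (N x) (f x) := by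
  have hcard : Fintype.card (Numbering ι) = (Fintype.card ι).factorial :=
    Fintype.card_numbering
  have hne : (univ : Finset (Numbering ι)).Nonempty := by
    rw [← card_pos, card_univ, hcard]
    exact Nat.factorial_pos _
  have htot : ∑ σ : Numbering ι, ∑ x ∈ W, f x ((N x).filter (fun y => (σ y : ℕ) < σ x)) ≤
      ∑ _σ : Numbering ι, ∑ x ∈ W, Phi (N x) (f x) := by
    rw [sum_comm, sum_const, card_univ, hcard, nsmul_eq_mul, mul_sum]
    refine le_of_eq (sum_congr rfl fun x hx => ?_)
    exact average_pred x (N x) (hN x hx) (f x)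
  obtain ⟨σ, -, hσ⟩ := exists_le_of_sum_le hne htot
  refine ⟨fun y => (σ y : ℕ), ?_, hσ⟩
  intro a b hab
  exact σ.injective (Fin.ext hab)

end Pool.TSph
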