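import Pool.Agent.Lib.MP_3de3a3_co.Encode
import Pool.Agent.Lib.MP_3de3a3_co.TheoremA
import Pool.Agent.Lib.MP_3de3a3_co.CertOrder
import Pool.Agent.Lib.MP_3de3a3_co.Order

/-! # The main theorem (module Main) -/

set_option autoImplicit false

namespace Pool.TSph

open Finset

variable {ι : Type*} [DecidableEq ι] [Fintype ι]

/-- Every closed 3-manifold with `n` facets has a certificate with at most
`n - 1 + n / 10` triangles. -/
theorem exists_small_cert {F : Finset (Finset ι)} (hF : IsMfd3 F) (hne : F.Nonempty) :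
    ∃ M rk e, Cert F M rk e ∧ M.card + 1 ≤ F.card + F.card / 10 := by
  classical
  obtain ⟨pos, hpos, hle⟩ := exists_order (verts F) (fun x => verts (link F x))
    (fun x _ h => (mem_verts_link.1 h).1 rfl)
    (fun x S => (comp (adj (link F x)) S : ℝ) + (if S = verts (link F x) then (1:ℝ) else 0))
  obtain ⟨M, rk, e, hC, hM⟩ := exists_cert hF hne hpos
  refine ⟨M, rk, e, hC, ?_⟩
  have h1 : ∑ x ∈ verts F, Phi (verts (link F x))
      (fun S => (comp (adj (link F x)) S : ℝ) + (if S = verts (link F x) then (1:ℝ) else 0)) ≤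
      ∑ x ∈ verts F, ((((verts (link F x)).card : ℝ) + 12) / 20 + 1 / 5) := by
    refine Finset.sum_le_sum fun x hx => ?_
    rw [Phi_add, Phi_top]
    have h4 : (4:ℝ) ≤ (verts (link F x)).card := by
      exact_mod_cast four_le_verts (hF.sphere x hx)
    have h5 : (1:ℝ) / ((verts (link F x)).card + 1) ≤ 1 / 5 :=
      one_div_le_one_div_of_le (by norm_num) (by linarith)
    have h6 : phi (link F x) ≤ (((verts (link F x)).card : ℝ) + 12) / 20 :=
      phi_le (hF.sphere x hx)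
    exact add_le_add h6 h5
  have h2 : ∑ x ∈ verts F, ((((verts (link F x)).card : ℝ) + 12) / 20 + 1 / 5) =
      (F.card : ℝ) / 10 + 9 / 10 * (verts F).card := by
    have h3 : (∑ x ∈ verts F, ((verts (link F x)).card : ℝ)) =
        2 * F.card + 2 * (verts F).card := by
      exact_mod_cast mfd_sum_verts_link hF
    rw [Finset.sum_add_distrib, ← Finset.sum_div, Finset.sum_add_distrib, h3, Finset.sum_const,
      Finset.sum_const, nsmul_eq_mul, nsmul_eq_mul]
    ring
  have h7 : ((∑ x ∈ verts F, (comp (adj (link F x)) (Lo F pos x) +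
        (if Lo F pos x = verts (link F x) then 1 else 0)) : ℕ) : ℝ) ≤
      (F.card : ℝ) / 10 + 9 / 10 * (verts F).card := by
    push_cast
    exact (hle.trans h1).trans h2.le
  have h8 : ((M.card + 1 + (verts F).card : ℕ) : ℝ) ≤
      F.card + ((∑ x ∈ verts F, (comp (adj (link F x)) (Lo F pos x) +
        (if Lo F pos x = verts (link F x) then 1 else 0)) : ℕ) : ℝ) := by
    exact_mod_cast hM
  have h9 : (10 * (M.card + 1) : ℕ) ≤ 11 * F.card := by
    have : (10 * ((M.card : ℝ) + 1)) ≤ 11 * F.card := by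
      push_cast at h8
      have h10 : (0:ℝ) ≤ (verts F).card := by positivity
      push_cast at h7
      linarith
    exact_mod_cast this
  omega

/-- For every `n` the closed connected simplicial 3-manifolds with `n` facets fall into at most
`C ^ n * n ^ (n / 10)` isomorphism classes. -/
theorem main :
    ∃ C : ℕ, ∀ n : ℕ, ∃ S : Finset (Finset (Finset (Fin (4 * n)))),
      S.card ^ 10 ≤ C ^ n * n ^ n ∧
      ∀ F : Finset (Finset (Fin (4 * n))), F.card = n → IsMfd3 F →
        ∃ G ∈ S, ∃ π : Equiv.Perm (Fin (4 * n)), G = F.image (fun σ => σ.image π) := by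
  refine ⟨(4 * 4 * 5 ^ 4 * 2 ^ 4) ^ 10 * 24, fun n => ?_⟩
  rcases Nat.eq_zero_or_pos n with rfl | hn
  · refine ⟨{∅}, by simp, fun F hF _ => ⟨∅, by simp, 1, ?_⟩⟩
    rw [card_eq_zero] at hF
    simp [hF]
  · obtain ⟨S, hS, h⟩ := encoding (ι := Fin (4 * n)) n (n / 10) hn
    refine ⟨S, ?_, fun F hF hM => ?_⟩
    · have h1 : 4 ^ n * 4 ^ n * 5 ^ (4 * n) * (2 ^ (4 * n) * (24 * n) ^ (n / 10)) =
          (4 * 4 * 5 ^ 4 * 2 ^ 4) ^ n * (24 * n) ^ (n / 10) := by
        rw [pow_mul 5 4 n, pow_mul 2 4 n, mul_pow (4 * 4 * 5 ^ 4) (2 ^ 4) n,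
          mul_pow (4 * 4) (5 ^ 4) n, mul_pow 4 4 n]
        generalize (24 * n) ^ (n / 10) = z
        generalize ((5:ℕ) ^ 4) ^ n = z5
        generalize ((2:ℕ) ^ 4) ^ n = z2
        generalize (4:ℕ) ^ n = z4
        ring
      rw [h1] at hS
      calc S.card ^ 10 ≤ ((4 * 4 * 5 ^ 4 * 2 ^ 4) ^ n * (24 * n) ^ (n / 10)) ^ 10 :=
            Nat.pow_le_pow_left hS 10
        _ = ((4 * 4 * 5 ^ 4 * 2 ^ 4) ^ 10) ^ n * (24 * n) ^ (n / 10 * 10) := by
            rw [mul_pow, ← pow_mul, ← pow_mul, ← pow_mul, mul_comm n 10]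
        _ ≤ ((4 * 4 * 5 ^ 4 * 2 ^ 4) ^ 10) ^ n * (24 * n) ^ n := by
            refine Nat.mul_le_mul_left _ (Nat.pow_le_pow_right (by omega) ?_)
            omega
        _ = ((4 * 4 * 5 ^ 4 * 2 ^ 4) ^ 10 * 24) ^ n * n ^ n := by
            rw [mul_pow 24 n n, mul_pow ((4 * 4 * 5 ^ 4 * 2 ^ 4) ^ 10) 24 n]
            exact (mul_assoc _ _ _).symm
    · have hne : F.Nonempty := card_pos.1 (by omega)
      obtain ⟨M, rk, e, hC, hc⟩ := exists_small_cert hM hne
      rw [hF] at hc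
      exact h F hF (mfd_pm hM) ⟨M, rk, e, hC, hc⟩

end Pool.TSph
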