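import Pool.Agent.Lib.MP_3de3a3_co.Lower

/-!
# Closed simplicial 3-manifolds with `n` facets: at least `n ^ ((1 / 10 - ε) n)` types

The definitions `Pool.TSph.verts`, `Pool.TSph.link`, `Pool.TSph.IsSphere2`, `Pool.TSph.IsMfd3` are in
`Pool/Agent/Lib/MP_3de3a3_co/Defs.lean`.
-/

set_option autoImplicit false

/-- For every `ε > 0` there are arbitrarily large `n` such that the closed connected simplicial
3-manifolds with `n` facets form at least `n ^ ((1 / 10 - ε) n)` isomorphism classes: every set `S`
of complexes which contains an isomorphic copy of each of them has at least so many elements. -/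
theorem Pool.TSph.manifold_lower_bound (ε : ℝ) (hε : 0 < ε) (m : ℕ) :
    ∃ n : ℕ, m ≤ n ∧ ∀ S : Finset (Finset (Finset (Fin (4 * n)))),
      (∀ F : Finset (Finset (Fin (4 * n))), F.card = n → Pool.TSph.IsMfd3 F →
        ∃ G ∈ S, ∃ π : Equiv.Perm (Fin (4 * n)), G = F.image (fun σ => σ.image π)) →
      (n : ℝ) ^ ((1 / 10 - ε) * n) ≤ S.card :=
  Pool.TSph.lower ε hε m
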