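import Pool.Agent.Lib.MP_3de3a3_co.Deg9

/-! # The new inner facets are new (module NewG) -/

set_option autoImplicit false

namespace Pool.TSph

open Finset

variable {V : Type*} [DecidableEq V] [Fintype V]

private theorem deg_at {r : ℕ} {x : ℕ → Equiv.Perm V} {deg : V → ℕ → ZMod 9}
    (hg : Graded r x deg) {i : ℕ} (hi : i + 1 < r) (w : V) (u : ℤ × ℤ) (c : ℕ) :
    deg (chart (x i) (x (i + 1)) w u) c =
      deg w c + (if c = i then (u.1 : ZMod 9) else 0) +
        (if c = i + 1 then (u.2 : ZMod 9) else 0) := by
  rw [deg_chart hg hi, Pi.add_apply, Pi.add_apply, Pi.single_apply, Pi.single_apply]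

private theorem dA : ∀ A ∈ WLoc, (∃ u ∈ A, ((u.2 : ℤ) : ZMod 9) ≠ 0) ∨
    (A ∈ trl locG1 ∧ ∀ u ∈ A, u.2 = 0) := by
  decide +kernel

private theorem dB : ∀ A ∈ WLoc, (∃ u ∈ A, ((u.1 : ℤ) : ZMod 9) ≠ 0) ∨
    (A ∈ trl locG4 ∪ trl locGy) := by
  decide +kernel

private theorem dC : ∀ A ∈ WLoc, ∃ u ∈ A, ((u.1 : ℤ) : ZMod 9) ≠ 0 ∨ ((u.2 : ℤ) : ZMod 9) ≠ 0 := by
  decide +kernel

private theorem dD : ∀ A ∈ trl locG1, ∀ B ∈ trl locG,
    A.image (fun u => ((u.1 : ℤ) : ZMod 9)) ≠ B.image (fun u => ((u.1 : ℤ) : ZMod 9)) := by
  decide +kernel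

private theorem dE : ∀ A ∈ trl locG1, ∀ B ∈ trl locG4 ∪ trl locGy,
    A.image (fun u => ((u.1 : ℤ) : ZMod 9)) ≠ B.image (fun u => ((u.2 : ℤ) : ZMod 9)) := by
  decide +kernel

private theorem dF : ∀ B ∈ trl locG, ∃ u ∈ B, ((u.1 : ℤ) : ZMod 9) ≠ 0 := by
  decide +kernel

/-- The inner facets of the bridge from line `j` to line `j + 1` are not among the previous ones.
A facet `A ∈ WLoc` with a label with nonzero second entry has a vertex of degree different from
that of `w` in the coordinate `j + 1` (`deg_chart`, `deg_starG`). The four others are the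
translates of `locG1`, `{0,1,2,4} - u` in the direction `j`. If such a facet is equal to one of
the previous ones then (look at the degrees in the coordinates `j - 1` and `j`, at least three of
its vertices differ from `w` in the coordinate `j` and none in any other coordinate) the previous
one is, for `j = 0`, in `trl locG`, i.e. `{1,2,3,4} - u`, and for `j > 0` in the bridge from
`j - 1` to `j` with all first entries zero, i.e. a translate of `{0,2,3,4}` or `{1,2,3,4}`; modulo
9 all these sets are different (decide). -/
theorem new_inner {r : ℕ} {x : ℕ → Equiv.Perm V} {deg : V → ℕ → ZMod 9}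
    (hg : Graded r x deg) {j : ℕ} (hj : j + 1 < r) (w : V) {A : Finset (ℤ × ℤ)}
    (hA : A ∈ WLoc) : A.image (chart (x j) (x (j + 1)) w) ∉ starG x w j := by
  intro hmem
  rcases dA A hA with ⟨u, hu, hu2⟩ | ⟨hA1, hA2⟩
  · have h1 := deg_starG hg hj w hmem (mem_image_of_mem _ hu)
    rw [deg_at hg hj, if_neg (by omega), if_pos rfl, add_zero] at h1
    exact hu2 (left_eq_add.1 h1.symm)
  · -- the vertices of the facet differ from `w` only in the coordinate `j`
    have key : ∀ v ∈ A.image (chart (x j) (x (j + 1)) w), ∀ c, c ≠ j → deg v c = deg w c := by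
      intro v hv c hc
      obtain ⟨u, hu, rfl⟩ := mem_image.1 hv
      rw [deg_at hg hj, if_neg hc, add_zero]
      by_cases h : c = j + 1
      · rw [if_pos h, hA2 u hu]
        simp
      · rw [if_neg h, add_zero]
    have key2 : (A.image (chart (x j) (x (j + 1)) w)).image (fun v => deg v j - deg w j) =
        A.image (fun u => ((u.1 : ℤ) : ZMod 9)) := by
      rw [image_image]
      refine image_congr ?_
      intro u _
      simp only [Function.comp]
      rw [deg_at hg hj, if_pos rfl, if_neg (by omega)]
      ring
    rw [starG, mem_union] at hmem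
    rcases hmem with hmem | hmem
    · obtain ⟨B, hB, hBA⟩ := mem_image.1 hmem
      have h0 : 0 + 1 < r := by omega
      by_cases hj0 : j = 0
      · subst hj0
        have h3 : (B.image (chart (x 0) (x 1) w)).image (fun v => deg v 0 - deg w 0) =
            B.image (fun u => ((u.1 : ℤ) : ZMod 9)) := by
          rw [image_image]
          refine image_congr ?_
          intro u _
          simp only [Function.comp]
          rw [deg_at hg h0, if_pos rfl, if_neg (by omega)]
          ring
        have h4 : B.image (chart (x 0) (x 1) w) = A.image (chart (x 0) (x (0 + 1)) w) := hBA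
        rw [h4, key2] at h3
        exact dD A hA1 B hB h3
      · obtain ⟨u, hu, hu1⟩ := dF B hB
        have hv : chart (x 0) (x 1) w u ∈ A.image (chart (x j) (x (j + 1)) w) := by
          rw [← hBA]
          exact mem_image_of_mem _ hu
        have h3 := key _ hv 0 (Ne.symm hj0)
        have h4 := deg_at hg h0 w u 0
        rw [if_pos rfl, if_neg (by omega), add_zero] at h4
        have h5 : chart (x 0) (x 1) w u = chart (x 0) (x (0 + 1)) w u := rfl
        rw [h5, h4] at h3
        exact hu1 (left_eq_add.1 h3.symm)
    · obtain ⟨i, hi, hmem⟩ := mem_biUnion.1 hmem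
      obtain ⟨B, hB, hBA⟩ := mem_image.1 hmem
      have hij := mem_range.1 hi
      have hi1 : i + 1 < r := by omega
      -- a label of `B` whose degree differs in a coordinate different from `j` is impossible
      have hno : ∀ u ∈ B, ((u.1 : ℤ) : ZMod 9) = 0 := by
        intro u hu
        have hv : chart (x i) (x (i + 1)) w u ∈ A.image (chart (x j) (x (j + 1)) w) := by
          rw [← hBA]
          exact mem_image_of_mem _ hu
        have h3 := key _ hv i (by omega)
        rw [deg_at hg hi1, if_pos rfl, if_neg (by omega), add_zero] at h3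
        exact left_eq_add.1 h3.symm
      by_cases hij1 : i + 1 = j
      · rcases dB B hB with ⟨u, hu, hu1⟩ | hB2
        · exact hu1 (hno u hu)
        · have h3 : (B.image (chart (x i) (x (i + 1)) w)).image (fun v => deg v j - deg w j) =
              B.image (fun u => ((u.2 : ℤ) : ZMod 9)) := by
            rw [image_image]
            refine image_congr ?_
            intro u _
            simp only [Function.comp]
            rw [deg_at hg hi1, if_neg (by omega), if_pos hij1.symm]
            ring
          rw [hBA, key2] at h3
          exact dE A hA1 B hB2 h3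
      · obtain ⟨u, hu, hu12⟩ := dC B hB
        rcases hu12 with hu1 | hu2
        · exact hu1 (hno u hu)
        · have hv : chart (x i) (x (i + 1)) w u ∈ A.image (chart (x j) (x (j + 1)) w) := by
            rw [← hBA]
            exact mem_image_of_mem _ hu
          have h3 := key _ hv (i + 1) hij1
          rw [deg_at hg hi1, if_neg (by omega), if_pos rfl, add_zero] at h3
          exact hu2 (left_eq_add.1 h3.symm)

end Pool.TSph
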