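import Pool.Agent.Lib.MP_3de3a3_co.Moves
import Pool.Agent.Lib.MP_3de3a3_co.CycDef

/-! # Removing a vertex of degree 3, 4 (module Reduce34) -/

set_option autoImplicit false

namespace Pool.TSph

open Finset

variable {ι : Type*} [DecidableEq ι]

theorem reduce3 {L : Finset (Finset ι)} (hL : IsSphere2 L) (hV : 5 ≤ (verts L).card) {w : ι}
    {a : Fin 3 → ι} (hc : LinkCycle L w 3 a) :
    ∃ L' : Finset (Finset ι), IsSphere2 L' ∧ verts L' = (verts L).erase w ∧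
      ∀ u v, u ≠ w → v ≠ w → (adj L' u v ↔ adj L u v) := by
  have h1 := hc.tri 0
  have h2 := hc.tri 1
  have h3 := hc.tri 2
  have e1 : (0 : Fin 3) + 1 = 1 := by decide
  have e2 : (1 : Fin 3) + 1 = 2 := by decide
  have e3 : (2 : Fin 3) + 1 = 0 := by decide
  rw [e1] at h1
  rw [e2] at h2
  rw [e3] at h3
  obtain ⟨L', hL', hv, hadj⟩ := move31 hL h1 h2 h3 hV (hc.inj.ne (by decide))
    (hc.inj.ne (by decide)) (hc.inj.ne (by decide))
  refine ⟨L', hL', hv, fun u v hu hv' => ?_⟩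
  rw [hadj]
  exact ⟨fun h => h.1, fun h => ⟨h, hu, hv'⟩⟩

/-- Flip the edge `w, a (i+1)`, then remove `w`. -/
theorem reduce4 {L : Finset (Finset ι)} (hL : IsSphere2 L) (hV : 5 ≤ (verts L).card) {w : ι}
    {a : Fin 4 → ι} (hc : LinkCycle L w 4 a) (i : Fin 4) (hn : ¬ adj L (a i) (a (i + 2))) :
    ∃ L' : Finset (Finset ι), IsSphere2 L' ∧ verts L' = (verts L).erase w ∧
      ∀ u v, u ≠ w → v ≠ w → (adj L' u v ↔ adj L u v ∨
        (u = a i ∧ v = a (i + 2)) ∨ (u = a (i + 2) ∧ v = a i)) := by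
  have e1 : ∀ i : Fin 4, i + 1 + 1 = i + 2 := by decide
  have e2 : ∀ i : Fin 4, i + 2 + 1 = i + 3 := by decide
  have e3 : ∀ i : Fin 4, i + 3 + 1 = i := by decide
  have n02 : ∀ i : Fin 4, i ≠ i + 2 := by decide
  have n12 : ∀ i : Fin 4, i + 1 ≠ i + 2 := by decide
  have n13 : ∀ i : Fin 4, i + 1 ≠ i + 3 := by decide
  have n01 : ∀ i : Fin 4, i + 1 ≠ i := by decide
  have n23 : ∀ i : Fin 4, i + 2 ≠ i + 3 := by decide
  have n30 : ∀ i : Fin 4, i + 3 ≠ i := by decide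
  have t0 := hc.tri i
  have t1 := hc.tri (i + 1)
  have t2 := hc.tri (i + 2)
  have t3 := hc.tri (i + 3)
  rw [e1] at t1
  rw [e2] at t2
  rw [e3] at t3
  have hx : ({w, a (i + 1), a i} : Finset ι) ∈ L := by
    rw [Finset.pair_comm (a (i + 1)) (a i)]; exact t0
  obtain ⟨L1, hL1, hS1, hv1, hadj1⟩ := flip hL (hc.inj.ne (n02 i)) hx t1 hn
  -- the three triangles at `w` after the flip
  have h1 : ({w, a i, a (i + 2)} : Finset ι) ∈ L1 := by
    rw [hL1]
    refine mem_union_right _ ?_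
    rw [mem_insert]
    left
    ext z
    simp only [mem_insert, mem_singleton]
    tauto
  have hmem : ∀ t ∈ L, a (i + 1) ∉ t → t ∈ L1 := by
    intro t ht hat
    rw [hL1]
    refine mem_union_left _ (mem_sdiff.2 ⟨ht, ?_⟩)
    intro hmem
    rw [mem_insert, mem_singleton] at hmem
    rcases hmem with h | h
    · apply hat; rw [h]; simp
    · apply hat; rw [h]; simp
  have h2 : ({w, a (i + 2), a (i + 3)} : Finset ι) ∈ L1 := by
    refine hmem _ t2 ?_
    simp only [mem_insert, mem_singleton, not_or]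
    exact ⟨hc.ne _, hc.inj.ne (n12 i), hc.inj.ne (n13 i)⟩
  have h3 : ({w, a (i + 3), a i} : Finset ι) ∈ L1 := by
    refine hmem _ t3 ?_
    simp only [mem_insert, mem_singleton, not_or]
    exact ⟨hc.ne _, hc.inj.ne (n13 i), hc.inj.ne (n01 i)⟩
  obtain ⟨L', hL', hv, hadj⟩ := move31 hS1 h1 h2 h3 (by rw [hv1]; exact hV)
    (hc.inj.ne (n02 i)) (hc.inj.ne (n23 i)) (hc.inj.ne (n30 i))
  refine ⟨L', hL', by rw [hv, hv1], fun u v hu hv' => ?_⟩
  rw [hadj, hadj1]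
  constructor
  · rintro ⟨h | h | h, -, -⟩
    · exact Or.inl h.1
    · exact Or.inr (Or.inl h)
    · exact Or.inr (Or.inr h)
  · rintro (h | h | h)
    · exact ⟨Or.inl ⟨h, fun h' => hu h'.1, fun h' => hv' h'.2⟩, hu, hv'⟩
    · exact ⟨Or.inr (Or.inl h), hu, hv'⟩
    · exact ⟨Or.inr (Or.inr h), hu, hv'⟩

end Pool.TSph
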