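import Pool.Agent.Lib.MP_3de3a3_co.Mv

/-! # Rotation around an edge (module Rot) -/

set_option autoImplicit false

namespace Pool.TSph

open Finset

variable {ι : Type*} [DecidableEq ι]

/-- Rotation around the edge at the positions different from `a` and `m`: leave the facet
through the triangle opposite to `m`, then exchange the labels `a` and `m`; so the triangle
through which one has entered is opposite to `a`. -/
noncomputable def rot (F : Finset (Finset ι)) (a m : Fin 4) (f : Fin 4 → ι) : Fin 4 → ι :=
  mv F m f ∘ Equiv.swap a m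

theorem side_rot (F : Finset (Finset ι)) (a m : Fin 4) (f : Fin 4 → ι) :
    side (rot F a m f) a = side f m := by
  rw [rot, side_comp, Equiv.swap_apply_left, side_mv]

theorem rot_isLF {F : Finset (Finset ι)} (hF : PM F) {a m : Fin 4} {f : Fin 4 → ι}
    (hf : IsLF F f) (s : ℕ) : IsLF F ((rot F a m)^[s] f) := by
  induction s with
  | zero => exact hf
  | succ s ih =>
    rw [Function.iterate_succ_apply']
    exact isLF_comp (mv_isLF hF ih m) _

theorem rot_off {F : Finset (Finset ι)} {a m : Fin 4} {f : Fin 4 → ι} (s : ℕ)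
    {b : Fin 4} (h1 : b ≠ a) (h2 : b ≠ m) : (rot F a m)^[s] f b = f b := by
  induction s with
  | zero => rfl
  | succ s ih =>
    rw [Function.iterate_succ_apply']
    change mv F m _ (Equiv.swap a m b) = f b
    rw [Equiv.swap_apply_of_ne_of_ne h1 h2, mv_off F _ h2, ih]

omit [DecidableEq ι] in
theorem Rot_swap2 (f : Fin 4 → ι) (a m : Fin 4) :
    (f ∘ Equiv.swap a m) ∘ Equiv.swap a m = f := by
  funext b
  simp only [Function.comp_apply, Equiv.swap_apply_self]

theorem Rot_inj {F : Finset (Finset ι)} (hF : PM F) {a m : Fin 4} {f g : Fin 4 → ι}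
    (hf : IsLF F f) (hg : IsLF F g) (h : rot F a m f = rot F a m g) : f = g := by
  have h1 : mv F m f = mv F m g := by
    rw [← Rot_swap2 (mv F m f) a m, ← Rot_swap2 (mv F m g) a m]
    change rot F a m f ∘ _ = rot F a m g ∘ _
    rw [h]
  rw [← mv_mv hF hf m, h1, mv_mv hF hg m]

theorem Rot_injs {F : Finset (Finset ι)} (hF : PM F) {a m : Fin 4} (s : ℕ) :
    ∀ {f g : Fin 4 → ι}, IsLF F f → IsLF F g → (rot F a m)^[s] f = (rot F a m)^[s] g → f = g := by
  induction s with
  | zero => intro f g _ _ h; exact h
  | succ s ih =>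
    intro f g hf hg h
    rw [Function.iterate_succ_apply', Function.iterate_succ_apply'] at h
    exact ih hf hg (Rot_inj hF (rot_isLF hF hf s) (rot_isLF hF hg s) h)

theorem Rot_cycle {F : Finset (Finset ι)} (hF : PM F) {a m : Fin 4} {f : Fin 4 → ι}
    (hf : IsLF F f) : ∃ d, 0 < d ∧ (rot F a m)^[d] f = f := by
  classical
  have hmem : ∀ s, (rot F a m)^[s] f ∈ Fintype.piFinset (fun _ : Fin 4 => verts F) := by
    intro s
    rw [Fintype.mem_piFinset]
    intro b
    exact mem_verts.2 ⟨_, (rot_isLF hF hf s).2, mem_image_of_mem _ (mem_univ b)⟩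
  obtain ⟨s, _, t, _, hst, heq⟩ := Finset.exists_ne_map_eq_of_card_lt_of_maps_to
    (s := range ((Fintype.piFinset (fun _ : Fin 4 => verts F)).card + 1))
    (t := Fintype.piFinset (fun _ : Fin 4 => verts F)) (by rw [card_range]; omega)
    (f := fun s => (rot F a m)^[s] f) (fun s _ => hmem s)
  have key : ∀ s t : ℕ, s < t → (rot F a m)^[s] f = (rot F a m)^[t] f →
      ∃ d, 0 < d ∧ (rot F a m)^[d] f = f := by
    intro s t hlt h
    refine ⟨t - s, by omega, ?_⟩
    have h2 : (rot F a m)^[t] f = (rot F a m)^[s] ((rot F a m)^[t - s] f) := by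
      rw [← Function.iterate_add_apply]
      congr 1
      have : s + (t - s) = t := by omega
      rw [this]
    rw [h2] at h
    exact (Rot_injs hF s hf (rot_isLF hF hf _) h).symm
  rcases Nat.lt_or_gt_of_ne hst with h | h
  · exact key s t h heq
  · exact key t s h heq.symm

theorem Rot_sw {F : Finset (Finset ι)} (hF : PM F) {a m : Fin 4} {g : Fin 4 → ι}
    (hg : IsLF F g) : rot F a m (rot F a m g ∘ Equiv.swap a m) = g ∘ Equiv.swap a m := by
  have h1 : rot F a m g ∘ Equiv.swap a m = mv F m g := Rot_swap2 (mv F m g) a m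
  rw [h1]
  change mv F m (mv F m g) ∘ _ = _
  rw [mv_mv hF hg m]

theorem Rot_refl {F : Finset (Finset ι)} (hF : PM F) {a m : Fin 4} {f : Fin 4 → ι}
    (hf : IsLF F f) {q : ℕ} (hq : (rot F a m)^[q] f = f ∘ Equiv.swap a m) :
    ∀ j, j ≤ q → (rot F a m)^[q - j] f = (rot F a m)^[j] f ∘ Equiv.swap a m := by
  intro j
  induction j with
  | zero => intro _; exact hq
  | succ j ih =>
    intro hj
    have h1 := ih (by omega)
    have h2 : (rot F a m)^[q - j] f = rot F a m ((rot F a m)^[q - (j + 1)] f) := by
      rw [← Function.iterate_succ_apply' (rot F a m)]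
      have : q - j = (q - (j + 1)).succ := by omega
      rw [this]
    have h3 := Rot_sw hF (a := a) (m := m) (rot_isLF hF hf j (a := a) (m := m))
    rw [← Function.iterate_succ_apply' (rot F a m)] at h3
    rw [h2, ← h3] at h1
    exact Rot_inj hF (rot_isLF hF hf _) (isLF_comp (rot_isLF hF hf _) _) h1

/-- The rotation returns to `f`, and before this the triangle `side f a` is not crossed.
Proof. `rot` is a bijection of the finite set of labelled facets, take the smallest `d`. Suppose
`side (rot^s f) a = side f a` with `0 < s < d`. As the positions different from `a, m` are the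
same, `rot^s f` and `f` agree except at position `a`, so `rot^s f = f` (contradiction to the
minimality of `d`) or `rot^s f = mv F a f`. In the second case `rot^(s-1) f = f ∘ swap a m`
(apply the inverse `g ↦ mv F m (g ∘ swap a m)` of `rot`). Since
`rot (g ∘ swap a m) = rot⁻¹ g ∘ swap a m`, the identity `rot^q f = f ∘ swap a m` gives
`rot^(q-j) f = rot^j f ∘ swap a m` for `j ≤ q`; for `q = 2 j` this contradicts injectivity of the
labelling, for `q = 2 j + 1` it gives `rot (rot^j f) = rot^j f ∘ swap a m`, so
`mv F m (rot^j f) = rot^j f`, which is impossible by `mv_ne`. -/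
theorem rot_return {F : Finset (Finset ι)} (hF : PM F) {a m : Fin 4} (ham : a ≠ m)
    {f : Fin 4 → ι} (hf : IsLF F f) :
    ∃ d, 0 < d ∧ (rot F a m)^[d] f = f ∧
      ∀ s, 0 < s → s < d → side ((rot F a m)^[s] f) a ≠ side f a := by
  classical
  have hex := Rot_cycle hF (a := a) (m := m) hf
  refine ⟨Nat.find hex, (Nat.find_spec hex).1, (Nat.find_spec hex).2, ?_⟩
  intro s hs0 hsd hside
  have hLF := rot_isLF hF hf s (a := a) (m := m)
  -- the position `m`
  have hm : (rot F a m)^[s] f m = f m := by
    have h1 : (rot F a m)^[s] f m ∈ side ((rot F a m)^[s] f) a :=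
      mem_image_of_mem _ (mem_erase.2 ⟨ham.symm, mem_univ m⟩)
    rw [hside] at h1
    obtain ⟨b, hb, hbm⟩ := mem_image.1 h1
    have hba := (mem_erase.1 hb).1
    by_cases hbm' : b = m
    · rw [hbm'] at hbm; exact hbm.symm
    · exfalso
      rw [← rot_off (F := F) (a := a) (m := m) (f := f) s hba hbm'] at hbm
      exact hbm' (hLF.1 hbm)
  have hoff : ∀ b, b ≠ a → (rot F a m)^[s] f b = f b := by
    intro b hb
    by_cases hbm : b = m
    · rw [hbm]; exact hm
    · exact rot_off s hb hbm
  rcases mv_unique hF hf hLF a hoff with h | h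
  · exact Nat.find_min hex hsd ⟨hs0, h⟩
  · obtain ⟨q, rfl⟩ : ∃ q, s = q + 1 := ⟨s - 1, by omega⟩
    have hq : (rot F a m)^[q] f = f ∘ Equiv.swap a m := by
      refine Rot_inj hF (a := a) (m := m) (rot_isLF hF hf _) (isLF_comp hf _) ?_
      rw [← Function.iterate_succ_apply' (rot F a m), h]
      change _ = mv F m (f ∘ Equiv.swap a m) ∘ Equiv.swap a m
      rw [mv_comp hF hf, Equiv.swap_apply_right, Rot_swap2]
    rcases Nat.even_or_odd' q with ⟨j, hj | hj⟩
    · have h1 := Rot_refl hF hf hq j (by omega)
      have h2 : q - j = j := by omega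
      rw [h2] at h1
      have h3 := congrFun h1 a
      rw [Function.comp_apply, Equiv.swap_apply_left] at h3
      exact ham ((rot_isLF hF hf j).1 h3)
    · have h1 := Rot_refl hF hf hq j (by omega)
      have h2 : q - j = j + 1 := by omega
      rw [h2, Function.iterate_succ_apply'] at h1
      have h3 : mv F m ((rot F a m)^[j] f) = (rot F a m)^[j] f := by
        rw [← Rot_swap2 (mv F m ((rot F a m)^[j] f)) a m]
        change rot F a m ((rot F a m)^[j] f) ∘ _ = _
        rw [h1, Rot_swap2]
      apply mv_ne hF (rot_isLF hF hf j (a := a) (m := m)) m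
      rw [h3]
      exact mem_image_of_mem _ (mem_univ m)

end Pool.TSph
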