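import Pool.Agent.Lib.MP_3de3a3_co.StkDef

/-! # Transporting a relative stacking (module StkMap) -/

set_option autoImplicit false

namespace Pool.TSph

open Finset

private theorem stkMap_sub {V : Type*} [DecidableEq V] {U₀ : Finset (Finset V)} {o : V}
    {k : ℕ} {U W : Finset (Finset V)} (h : RStk U₀ ∅ o k U W) :
    (∀ B ∈ W, ∃ q ∈ U, B ⊆ q) ∧ U₀ ⊆ U := by
  induction h with
  | refl => exact ⟨fun B hB => absurd hB (notMem_empty B), subset_refl _⟩
  | step h hp hA hc ho hW hz ih =>
    refine ⟨fun B hB => ?_, ih.2.trans (subset_insert _ _)⟩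
    rcases mem_insert.1 hB with rfl | hB
    · exact ⟨_, mem_insert_of_mem hp, hA⟩
    · obtain ⟨q, hq, hs⟩ := ih.1 B hB
      exact ⟨q, mem_insert_of_mem hq, hs⟩

/-- A stacking of label sets relative to `U₀` can be transported by a map which is injective on
the labels, on top of a given configuration `P, Q` which contains the images of the members of
`U₀`, provided that the inner facets are new and the new labels are mapped to new vertices.
Induction on the stacking. -/
theorem stk_map {Λ V : Type*} [DecidableEq Λ] [DecidableEq V] {U₀ : Finset (Finset Λ)} {o : Λ}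
    {k : ℕ} {U W : Finset (Finset Λ)} (h : RStk U₀ ∅ o k U W) (f : Λ → V)
    (hf : Set.InjOn f (U.biUnion id : Finset Λ)) (P Q : Finset (Finset V))
    (hP : ∀ p ∈ U₀, p.image f ∈ P) (hQ : ∀ A ∈ W, A.image f ∉ Q)
    (hz : ∀ z ∈ U.biUnion id, z ∉ U₀.biUnion id → ∀ q ∈ P, f z ∉ q) :
    RStk P Q (f o) k (P ∪ U.image (fun p => p.image f)) (Q ∪ W.image (fun A => A.image f)) := by
  induction h with
  | refl =>
    have h1 : P ∪ U₀.image (fun p => p.image f) = P := by
      rw [union_eq_left]
      intro x hx
      obtain ⟨p, hp, rfl⟩ := mem_image.1 hx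
      exact hP p hp
    rw [h1, image_empty, union_empty]
    exact RStk.refl
  | @step k U W A p z h hp hA hc ho hW hz' ih =>
    have hsub := stkMap_sub h
    have hUU : (U.biUnion id : Finset Λ) ⊆ (insert (insert z A) U).biUnion id :=
      biUnion_subset_biUnion_of_subset_left _ (subset_insert _ _)
    have hmemU : ∀ q ∈ U, ∀ y ∈ q, y ∈ (insert (insert z A) U).biUnion id :=
      fun q hq y hy => mem_biUnion.2 ⟨q, mem_insert_of_mem hq, hy⟩
    have hzU : z ∈ (insert (insert z A) U).biUnion id :=
      mem_biUnion.2 ⟨insert z A, mem_insert_self _ _, mem_insert_self _ _⟩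
    have hz0 : z ∉ U₀.biUnion id := by
      intro h0
      obtain ⟨q, hq, hzq⟩ := mem_biUnion.1 h0
      exact hz' q (hsub.2 hq) hzq
    have ih' := ih (hf.mono (by exact_mod_cast hUU))
      (fun B hB => hQ B (mem_insert_of_mem hB))
      (fun y hy hy0 q hq => hz y (hUU hy) hy0 q hq)
    have hstep := RStk.step (A := A.image f) (p := p.image f) (z := f z) ih'
      (mem_union_right _ (mem_image_of_mem _ hp)) (image_subset_image hA)
      (by
        rw [card_image_of_injOn, hc]
        intro x hx y hy hxy
        exact hf (by exact_mod_cast hmemU p hp x (hA hx))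
          (by exact_mod_cast hmemU p hp y (hA hy)) hxy)
      (mem_image_of_mem f ho)
      (by
        intro hmem
        rcases mem_union.1 hmem with h1 | h1
        · exact hQ A (mem_insert_self _ _) h1
        · obtain ⟨B, hB, hBA⟩ := mem_image.1 h1
          obtain ⟨q, hq, hBq⟩ := hsub.1 B hB
          have hBA' : B = A := by
            apply subset_antisymm
            · intro y hy
              have h2 : f y ∈ A.image f := by
                rw [← hBA]
                exact mem_image_of_mem f hy
              obtain ⟨x, hx, hxy⟩ := mem_image.1 h2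
              have h3 : x = y := hf (by exact_mod_cast hmemU p hp x (hA hx))
                (by exact_mod_cast hmemU q hq y (hBq hy)) hxy
              rw [← h3]
              exact hx
            · intro y hy
              have h2 : f y ∈ B.image f := by
                rw [hBA]
                exact mem_image_of_mem f hy
              obtain ⟨x, hx, hxy⟩ := mem_image.1 h2
              have h3 : x = y := hf (by exact_mod_cast hmemU q hq x (hBq hx))
                (by exact_mod_cast hmemU p hp y (hA hy)) hxy
              rw [← h3]
              exact hx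
          exact hW (hBA' ▸ hB))
      (by
        intro q' hq' hmem
        rcases mem_union.1 hq' with h1 | h1
        · exact hz z hzU hz0 q' h1 hmem
        · obtain ⟨q, hq, rfl⟩ := mem_image.1 h1
          obtain ⟨y, hy, hyz⟩ := mem_image.1 hmem
          have h3 : y = z := hf (by exact_mod_cast hmemU q hq y hy)
            (by exact_mod_cast hzU) hyz
          exact hz' q hq (h3 ▸ hy))
    rw [image_insert, image_insert, image_insert, union_insert, union_insert]
    exact hstep

theorem stk_trans {V : Type*} [DecidableEq V] {U₀ W₀ U₁ W₁ U₂ W₂ : Finset (Finset V)} {o : V}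
    {k l : ℕ} (h1 : RStk U₀ W₀ o k U₁ W₁) (h2 : RStk U₁ W₁ o l U₂ W₂) :
    RStk U₀ W₀ o (k + l) U₂ W₂ := by
  induction h2 with
  | refl => exact h1
  | step _ hp hA hc ho hW hz ih => exact RStk.step ih hp hA hc ho hW hz

end Pool.TSph
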