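import Pool.Agent.Lib.MP_3de3a3_co.NewG
import Pool.Agent.Lib.MP_3de3a3_co.StkMap
import Pool.Agent.Lib.MP_3de3a3_co.LocStk

/-! # The star of a vertex is stacked (module StarStk) -/

set_option autoImplicit false

namespace Pool.TSph

open Finset

variable {V : Type*} [DecidableEq V] [Fintype V]

theorem locC_snd : ∀ p ∈ trl locC, ∀ u ∈ p, u.2 = 0 := by decide

theorem locC_swap : ∀ p ∈ trl locC, p.image Prod.swap ∈ trl locCy := by decide

theorem locC_new : ∀ t ∈ trl locC ∪ NLoc, ∀ z ∈ t, z.2 = 0 → ∃ s ∈ trl locC, z ∈ s := by decide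

omit [DecidableEq V] [Fintype V] in
theorem chart_zero (x y : Equiv.Perm V) (w : V) : chart x y w (0, 0) = w := by
  simp [chart]

omit [Fintype V] in
/-- The pods of the line `j` at `w` are in `starP x w j`. -/
theorem line_mem (x : ℕ → Equiv.Perm V) (w : V) (j : ℕ) {p : Finset (ℤ × ℤ)}
    (hp : p ∈ trl locC) : p.image (chart (x j) (x (j + 1)) w) ∈ starP x w j := by
  rcases j with _ | i
  · exact mem_union_left _ (mem_image_of_mem _ hp)
  · refine mem_union_right _ (mem_biUnion.2 ⟨i, mem_range.2 (Nat.lt_succ_self i), ?_⟩)
    refine mem_image.2 ⟨p.image Prod.swap, ?_, ?_⟩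
    · exact mem_union_right _ (locC_swap p hp)
    · rw [image_image]
      refine image_congr ?_
      intro u hu
      have h2 := locC_snd p hp u hu
      simp only [Function.comp, chart, Prod.fst_swap, Prod.snd_swap, h2, lt_irrefl, if_false,
        zpow_zero, Equiv.Perm.coe_one, id_eq]
      split_ifs <;> rfl

omit [Fintype V] in
theorem union_aux {Λ : Type*} [DecidableEq Λ] (f : Finset Λ → Finset V)
    (P : Finset (Finset V)) (A N : Finset (Finset Λ)) (h : ∀ p ∈ A, f p ∈ P) :
    P ∪ (A ∪ N).image f = P ∪ N.image f := by
  ext q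
  simp only [mem_union, mem_image]
  constructor
  · rintro (h1 | ⟨p, hp | hp, rfl⟩)
    · exact Or.inl h1
    · exact Or.inl (h p hp)
    · exact Or.inr ⟨p, hp, rfl⟩
  · rintro (h1 | ⟨p, hp, rfl⟩)
    · exact Or.inl h1
    · exact Or.inr ⟨p, Or.inr hp, rfl⟩

omit [Fintype V] in
theorem range_aux (F : ℕ → Finset (Finset V)) (P : Finset (Finset V)) (j : ℕ) :
    P ∪ (range j).biUnion F ∪ F j = P ∪ (range (j + 1)).biUnion F := by
  rw [range_add_one, biUnion_insert, union_assoc]
  rw [union_comm (F j)]

omit [Fintype V] in
theorem starG_succ (x : ℕ → Equiv.Perm V) (w : V) (j : ℕ) :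
    starG x w j ∪ WLoc.image (fun A => A.image (chart (x j) (x (j + 1)) w)) =
      starG x w (j + 1) := by
  unfold starG
  generalize WLoc = W
  generalize trl locG = P
  rw [range_aux (fun i => W.image (fun t => t.image (chart (x i) (x (i + 1)) w)))]

omit [Fintype V] in
theorem starP_succ (x : ℕ → Equiv.Perm V) (w : V) (j : ℕ)
    (hl : ∀ p ∈ trl locC, p.image (chart (x j) (x (j + 1)) w) ∈ starP x w j) :
    starP x w j ∪ (trl locC ∪ NLoc).image (fun p => p.image (chart (x j) (x (j + 1)) w)) =
      starP x w (j + 1) := by
  rw [union_aux _ _ _ _ hl]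
  unfold starP
  generalize NLoc = W
  generalize trl locC = P
  rw [range_aux (fun i => W.image (fun t => t.image (chart (x i) (x (i + 1)) w)))]

/-- Induction on `j`. Start: `loc_line` and `stk_map` (with `P = {locC.image chart}`, `Q = ∅`).
Step: `loc_bridge`, `stk_map` with `P = starP x w j`, `Q = starG x w j`, `stk_trans`. The images
of the members of `trl locC` under the chart of `(x j, x (j+1))` are in `starP x w j`: for `j = 0`
by definition, for `j > 0` they are the images of the members of `trl locCy` under the chart of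
`(x (j-1), x j)`. New labels have nonzero second entry, use `deg_chart` and `deg_starP`. -/
theorem star_stk {r : ℕ} {x : ℕ → Equiv.Perm V} {deg : V → ℕ → ZMod 9}
    (hg : Graded r x deg) (w : V) {j : ℕ} (hj : j < r) (hr : 2 ≤ r) :
    RStk {locC.image (chart (x 0) (x 1) w)} ∅ w (4 + 20 * j) (starP x w j) (starG x w j) := by
  induction j with
  | zero =>
    have hinj : Set.InjOn (chart (x 0) (x 1) w) ((trl locC).biUnion id : Finset (ℤ × ℤ)) := by
      refine (chart_injOn hg (by omega : 0 + 1 < r) w).mono ?_
      intro u hu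
      rw [mem_coe, mem_biUnion] at hu
      obtain ⟨t, ht, hu⟩ := hu
      exact labels_box t (mem_union_left _ ht) u hu
    have hC : locC ∈ trl locC := by decide
    have h := stk_map loc_line (chart (x 0) (x 1) w) hinj {locC.image (chart (x 0) (x 1) w)} ∅
      (by
        intro p hp
        rw [mem_singleton] at hp ⊢
        rw [hp])
      (by
        intro A _
        exact notMem_empty _)
      (by
        intro z hz hz' q hq hzq
        rw [mem_singleton] at hq
        rw [hq, mem_image] at hzq
        obtain ⟨u, hu, huz⟩ := hzq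
        apply hz'
        rw [singleton_biUnion]
        have : u = z := hinj (mem_coe.2 (mem_biUnion.2 ⟨locC, hC, hu⟩)) (mem_coe.2 hz) huz
        rw [← this]
        exact hu)
    rw [chart_zero] at h
    have e1 : {locC.image (chart (x 0) (x 1) w)} ∪
        (trl locC).image (fun p => p.image (chart (x 0) (x 1) w)) = starP x w 0 := by
      rw [starP, range_zero, biUnion_empty, union_empty]
      apply union_eq_right.2
      rw [singleton_subset_iff]
      exact mem_image_of_mem _ hC
    have e2 : ∅ ∪ (trl locG).image (fun A => A.image (chart (x 0) (x 1) w)) = starG x w 0 := by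
      rw [starG, range_zero, biUnion_empty, union_empty, empty_union]
    rw [e1, e2] at h
    exact h
  | succ j ih =>
    have ih' := ih (by omega)
    have hinj : Set.InjOn (chart (x j) (x (j + 1)) w)
        ((trl locC ∪ NLoc).biUnion id : Finset (ℤ × ℤ)) := by
      refine (chart_injOn hg hj w).mono ?_
      intro u hu
      rw [mem_coe, mem_biUnion] at hu
      obtain ⟨t, ht, hu⟩ := hu
      exact labels_box t ht u hu
    have h := stk_map loc_bridge (chart (x j) (x (j + 1)) w) hinj (starP x w j) (starG x w j)
      (fun p hp => line_mem x w j hp)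
      (fun A hA => new_inner hg hj w hA)
      (by
        intro z hz hz' q hq hzq
        rw [mem_biUnion] at hz
        obtain ⟨t, ht, hz⟩ := hz
        have h1 := deg_starP hg hj w hq hzq
        rw [deg_chart hg hj w z] at h1
        simp only [Pi.add_apply, Pi.single_eq_same,
          Pi.single_eq_of_ne (show j + 1 ≠ j by omega), add_zero] at h1
        have h2 : ((z.2 : ℤ) : ZMod 9) = 0 := by
          have h3 : deg w (j + 1) + ((z.2 : ℤ) : ZMod 9) = deg w (j + 1) + 0 := by
            rw [add_zero]; exact h1
          exact add_left_cancel h3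
        have h4 : (9 : ℤ) ∣ z.2 := by
          have := (ZMod.intCast_zmod_eq_zero_iff_dvd z.2 9).1 h2
          exact_mod_cast this
        have h5 := labels_box t ht z hz
        have h6 : z.2 = 0 := by omega
        obtain ⟨s, hs, hzs⟩ := locC_new t ht z hz h6
        exact hz' (mem_biUnion.2 ⟨s, hs, hzs⟩))
    rw [chart_zero] at h
    rw [starP_succ x w j (fun p hp => line_mem x w j hp), starG_succ x w j] at h
    have e3 : 4 + 20 * (j + 1) = (4 + 20 * j) + 20 := by ring
    rw [e3]
    exact stk_trans ih' h

end Pool.TSph
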