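import Pool.Agent.Lib.MP_3de3a3_co.Contrib5
import Pool.Agent.Lib.MP_3de3a3_co.PhiStep
import Pool.Agent.Lib.MP_3de3a3_co.PhiDef
import Pool.Agent.Lib.MP_3de3a3_co.Reduce

/-! # Removing a vertex of degree 5, general step (module Step5Of) -/

set_option autoImplicit false

namespace Pool.TSph

open Finset

variable {ι : Type*} [DecidableEq ι]

/-- `Phi_step` for a set `J` of admissible fans. -/
theorem step5_of {L : Finset (Finset ι)} (hL : IsSphere2 L) (hV : 5 ≤ (verts L).card) {w : ι}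
    {a : Fin 5 → ι} (hw : w ∈ verts L) (hc : LinkCycle L w 5 a) (J : Finset (Fin 5))
    (hJ : J.Nonempty) (h2 : ∀ j ∈ J, ¬ adj L (a j) (a (j + 2)))
    (h3 : ∀ j ∈ J, ¬ adj L (a j) (a (j + 3))) (β : Finset (Fin 5) → ℝ → ℝ)
    (hβ : ∀ B, Continuous (β B))
    (hint : ∫ p in (0:ℝ)..1, ∑ B : Finset (Fin 5), p ^ B.card * (1 - p) ^ (5 - B.card) * β B p
      ≤ 1 / 20)
    (hpt : ∀ S ⊆ (verts L).erase w, ∀ p : ℝ, 0 ≤ p → p ≤ 1 →
      ∑ j ∈ J, K5 L w a j S p ≤ J.card * β (univ.filter (fun i => a i ∈ S)) p) :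
    ∃ L' : Finset (Finset ι), IsSphere2 L' ∧ verts L' = (verts L).erase w ∧
      phi L ≤ phi L' + 1 / 20 := by
  have haW : ∀ i, a i ∈ (verts L).erase w := by
    intro i
    rw [mem_erase]
    refine ⟨hc.ne i, mem_verts.2 ⟨_, hc.tri i, ?_⟩⟩
    simp
  obtain ⟨j, hj, hphi⟩ := Phi_step hw (fun S => (comp (adj L) S : ℝ)) J hJ
    (fun j S => (comp (fan L a j) S : ℝ)) a hc.inj haW β hβ (1 / 20)
    (fun S hS p hp0 hp1 => hpt S hS p hp0 hp1) hint
  obtain ⟨L', hL', hV', hadj⟩ := reduce5 hL hV hc j (h2 j hj) (h3 j hj)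
  refine ⟨L', hL', hV', ?_⟩
  have heq : phi L' = Phi ((verts L).erase w) (fun S => (comp (fan L a j) S : ℝ)) := by
    unfold phi
    rw [hV']
    refine Phi_congr fun S hS => ?_
    congr 1
    refine comp_congr fun u hu v hv => ?_
    have hu' : u ≠ w := (mem_erase.1 (hS hu)).1
    have hv' : v ≠ w := (mem_erase.1 (hS hv)).1
    exact hadj u v hu' hv'
  rw [heq]
  exact hphi

end Pool.TSph
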