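import Pool.Agent.Lib.MP_3de3a3_co.Defs

/-! # Stacking at a vertex (definitions, module StkDef) -/

set_option autoImplicit false

namespace Pool.TSph

open Finset

/-- `RStk U₀ W₀ o k U W` : starting with the set `U₀` of pods and the set `W₀` of inner facets,
`k` times a new pod `insert z A` is glued along a facet `A ∋ o` of an old pod which has not been
used before, and `z` is a new vertex; the result are the pods `U` and the inner facets `W`. -/
inductive RStk {V : Type*} [DecidableEq V] (U₀ W₀ : Finset (Finset V)) (o : V) :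
    ℕ → Finset (Finset V) → Finset (Finset V) → Prop
  | refl : RStk U₀ W₀ o 0 U₀ W₀
  | step {k : ℕ} {U W : Finset (Finset V)} {A p : Finset V} {z : V} :
      RStk U₀ W₀ o k U W → p ∈ U → A ⊆ p → A.card = 4 → o ∈ A → A ∉ W →
      (∀ q ∈ U, z ∉ q) → RStk U₀ W₀ o (k + 1) (insert (insert z A) U) (insert A W)

/-- The boundary at `o`: the triangles `t` for which `insert o t` is a facet of a pod and not an
inner facet. -/
def bd {V : Type*} [DecidableEq V] (o : V) (U W : Finset (Finset V)) : Finset (Finset V) :=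
  ((U.biUnion (fun p => p.powersetCard 4)).filter (fun A => o ∈ A ∧ A ∉ W)).image
    (fun A => A.erase o)

theorem mem_bd {V : Type*} [DecidableEq V] {o : V} {U W : Finset (Finset V)} {t : Finset V} :
    t ∈ bd o U W ↔ o ∉ t ∧ t.card = 3 ∧ (∃ p ∈ U, insert o t ⊆ p) ∧ insert o t ∉ W := by
  simp only [bd, mem_image, mem_filter, mem_biUnion, mem_powersetCard]
  constructor
  · rintro ⟨A, ⟨⟨p, hp, hA, hc⟩, ho, hW⟩, rfl⟩
    refine ⟨by simp, by rw [card_erase_of_mem ho, hc], ⟨p, hp, ?_⟩, ?_⟩
    · rwa [insert_erase ho]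
    · rwa [insert_erase ho]
  · rintro ⟨h1, h2, ⟨p, hp, h3⟩, h4⟩
    exact ⟨insert o t, ⟨⟨p, hp, h3, by rw [card_insert_of_notMem h1, h2]⟩,
      mem_insert_self _ _, h4⟩, erase_insert h1⟩

end Pool.TSph
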