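import Pool.Agent.Lib.MP_3de3a3_co.Fam

/-! # The systems of generators (module Sys) -/

set_option autoImplicit false

namespace Pool.TSph

open Finset

/-- The vertex set. -/
abbrev VV (r N : ℕ) : Type := (Fin r → ZMod 9) × Fin N

/-- The permutation `(c, j) ↦ (c + e_i, π c j)`. -/
def genP {r N : ℕ} (i : Fin r) (π : (Fin r → ZMod 9) → Equiv.Perm (Fin N)) :
    Equiv.Perm (VV r N) where
  toFun w := (w.1 + Pi.single i 1, π w.1 w.2)
  invFun w := (w.1 - Pi.single i 1, (π (w.1 - Pi.single i 1)).symm w.2)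
  left_inv w := by simp
  right_inv w := by simp

/-- The first generator moves the second coordinate by the cycle when the first coordinate of the
degree is `0`. -/
def pi0 {r N : ℕ} [NeZero r] (c : Fin r → ZMod 9) : Equiv.Perm (Fin N) :=
  if c 0 = 0 then finRotate N else 1

/-- The system with the permutations `π i c` for `0 < i < r`. -/
def sysX {r N : ℕ} [NeZero r] (π : Fin r → (Fin r → ZMod 9) → Equiv.Perm (Fin N)) :
    ℕ → Equiv.Perm (VV r N) := fun i =>
  if h : i < r then (if i = 0 then genP ⟨i, h⟩ pi0 else genP ⟨i, h⟩ (π ⟨i, h⟩)) else 1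

theorem Sys_apply {r N : ℕ} [NeZero r] (π : Fin r → (Fin r → ZMod 9) → Equiv.Perm (Fin N))
    {i : ℕ} (hi : i < r) (w : VV r N) :
    (sysX π i w).1 = w.1 + Pi.single ⟨i, hi⟩ 1 := by
  unfold sysX
  rw [dif_pos hi]
  split_ifs <;> rfl

theorem Sys_pow {r N : ℕ} [NeZero r] (π : Fin r → (Fin r → ZMod 9) → Equiv.Perm (Fin N))
    {i : ℕ} (hi : i < r) (k : ℕ) (w : VV r N) :
    ((sysX π i ^ k) w).1 = w.1 + Pi.single ⟨i, hi⟩ (k : ZMod 9) := by
  induction k with
  | zero => simp
  | succ k ih =>
    rw [pow_succ', Equiv.Perm.mul_apply, Sys_apply π hi, ih, add_assoc, ← Pi.single_add]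
    push_cast
    rfl

theorem sys_graded {r N : ℕ} [NeZero r] (π : Fin r → (Fin r → ZMod 9) → Equiv.Perm (Fin N)) :
    Graded r (sysX π) (fun w i => if h : i < r then w.1 ⟨i, h⟩ else 0) := by
  intro i hi w
  have h1 := Sys_apply π hi w
  funext j
  by_cases hj : j < r
  · simp only [dif_pos hj, Pi.add_apply, h1]
    by_cases hij : j = i
    · subst hij
      simp
    · rw [Pi.single_eq_of_ne hij, Pi.single_eq_of_ne (by simpa using hij)]
  · have hij : j ≠ i := fun h => hj (h ▸ hi)
    simp only [dif_neg hj, Pi.add_apply, Pi.single_eq_of_ne hij, add_zero]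

theorem Sys_zero {r n : ℕ} [NeZero r]
    (π : Fin r → (Fin r → ZMod 9) → Equiv.Perm (Fin (n + 1))) (w : VV r (n + 1)) :
    (sysX π 0 w).2 = if w.1 0 = 0 then w.2 + 1 else w.2 := by
  unfold sysX
  rw [dif_pos (Nat.pos_of_ne_zero (NeZero.ne r)), if_pos rfl]
  change (pi0 w.1) w.2 = _
  unfold pi0
  split_ifs with h
  · exact finRotate_apply _
  · rfl

/-- From `(c, j)` one reaches `(0, j')` for some `j'`, and `x 0 ^ 9` maps `(c, j)` to
`(c, j + 1)`. (Powers of permutations of a finite set give the inverses.) -/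
theorem sys_trans {r N : ℕ} [NeZero r] (hN : 0 < N)
    (π : Fin r → (Fin r → ZMod 9) → Equiv.Perm (Fin N)) : Trans r (sysX π) := by
  obtain ⟨n, rfl⟩ : ∃ n, N = n + 1 := ⟨N - 1, by omega⟩
  have hr : 0 < r := Nat.pos_of_ne_zero (NeZero.ne r)
  obtain ⟨R, hR⟩ : ∃ R : VV r (n + 1) → VV r (n + 1) → Prop,
    R = Relation.ReflTransGen (fun a b => ∃ i, i < r ∧ b = sysX π i a) := ⟨_, rfl⟩
  have hrefl : ∀ a, R a a := fun a => by rw [hR]
  have htrans : ∀ a b c, R a b → R b c → R a c := by
    intro a b c hab hbc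
    rw [hR] at *
    exact hab.trans hbc
  have hstep : ∀ i, i < r → ∀ a, R a (sysX π i a) := by
    intro i hi a
    rw [hR]
    exact Relation.ReflTransGen.single ⟨i, hi, rfl⟩
  have hpow : ∀ i, i < r → ∀ k : ℕ, ∀ a, R a ((sysX π i ^ k) a) := by
    intro i hi k
    induction k with
    | zero => intro a; exact hrefl a
    | succ k ih =>
      intro a
      rw [pow_succ', Equiv.Perm.mul_apply]
      exact htrans _ _ _ (ih a) (hstep i hi _)
  have hsymm1 : ∀ i, i < r → ∀ a, R (sysX π i a) a := by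
    intro i hi a
    have h1 : (sysX π i ^ (orderOf (sysX π i) - 1)) (sysX π i a) = a := by
      rw [← Equiv.Perm.mul_apply, ← pow_succ, Nat.sub_add_cancel (orderOf_pos _),
        pow_orderOf_eq_one]
      rfl
    have h := hpow i hi (orderOf (sysX π i) - 1) (sysX π i a)
    rwa [h1] at h
  have hsymm : ∀ a b, R a b → R b a := by
    intro a b h
    rw [hR] at h
    induction h with
    | refl => exact hrefl a
    | tail _ hbc ih =>
      obtain ⟨i, hi, rfl⟩ := hbc
      exact htrans _ _ _ (hsymm1 i hi _) ih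
  have hdown : ∀ s : Finset (Fin r), ∀ w, ∃ w', R w w' ∧ ∀ i ∈ s, w'.1 i = 0 := by
    intro s
    induction s using Finset.induction_on with
    | empty => exact fun w => ⟨w, hrefl w, by simp⟩
    | insert i s _ ih =>
      intro w
      obtain ⟨w', h1, h2⟩ := ih w
      refine ⟨(sysX π i ^ (-(w'.1 i)).val) w', htrans _ _ _ h1 (hpow i i.2 _ _), ?_⟩
      have h3 := Sys_pow π i.2 (-(w'.1 i)).val w'
      intro j hj
      rw [h3, ZMod.natCast_zmod_val, Pi.add_apply]
      by_cases hji : j = i
      · subst hji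
        simp
      · rw [Pi.single_eq_of_ne (by simpa using hji), add_zero]
        rcases mem_insert.mp hj with h | h
        · exact absurd h hji
        · exact h2 j h
  have hnine : ∀ (j : Fin (n + 1)) (k : ℕ), k ≤ 8 →
      (sysX π 0 ^ (k + 1)) (0, j) = (Pi.single 0 ((k + 1 : ℕ) : ZMod 9), j + 1) := by
    intro j k
    induction k with
    | zero =>
      intro _
      apply Prod.ext
      · rw [Sys_pow π hr]
        simp
      · rw [zero_add, pow_one, Sys_zero]
        simp
    | succ k ih =>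
      intro hk
      apply Prod.ext
      · rw [Sys_pow π hr]
        simp
      · rw [pow_succ', Equiv.Perm.mul_apply, ih (by omega), Sys_zero, if_neg]
        change ¬ (Pi.single 0 ((k + 1 : ℕ) : ZMod 9) : Fin r → ZMod 9) 0 = 0
        rw [Pi.single_eq_same]
        intro h
        rw [ZMod.natCast_eq_zero_iff] at h
        have := Nat.le_of_dvd (by omega) h
        omega
  have hrot : ∀ j : Fin (n + 1), R (0, j) (0, j + 1) := by
    intro j
    have h1 := hpow 0 hr (8 + 1) ((0 : Fin r → ZMod 9), j)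
    rw [hnine j 8 le_rfl] at h1
    have h2 : ((8 + 1 : ℕ) : ZMod 9) = 0 := by decide
    rw [h2, Pi.single_zero] at h1
    exact h1
  have hall : ∀ m : ℕ, R (0, 0) (0, Fin.ofNat (n + 1) m) := by
    intro m
    induction m with
    | zero => exact hrefl _
    | succ m ih =>
      have h1 : Fin.ofNat (n + 1) (m + 1) = Fin.ofNat (n + 1) m + 1 := by
        apply Fin.ext
        rw [Fin.val_add]
        simp [Fin.ofNat]
      rw [h1]
      exact htrans _ _ _ ih (hrot _)
  have hbase : ∀ w, R w (0, 0) := by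
    intro w
    obtain ⟨w', h1, h2⟩ := hdown univ w
    have h3 : w' = (0, w'.2) := by
      apply Prod.ext
      · funext i
        exact h2 i (mem_univ i)
      · rfl
    refine htrans _ _ _ h1 (hsymm _ _ ?_)
    have h4 := hall (w'.2 : ℕ)
    have h5 : Fin.ofNat (n + 1) (w'.2 : ℕ) = w'.2 := by
      apply Fin.ext
      simp [Fin.ofNat, Nat.mod_eq_of_lt w'.2.2]
    rw [h5] at h4
    rw [h3]
    exact h4
  intro w w'
  have h := htrans _ _ _ (hbase w) (hsymm _ _ (hbase w'))
  rwa [hR] at h

/-- The system is determined by the permutations `x i`, `0 < i < r`, and determines `π i c` for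
`0 < i`. -/
theorem sys_inj {r N : ℕ} [NeZero r] {π π' : Fin r → (Fin r → ZMod 9) → Equiv.Perm (Fin N)}
    (h : ∀ i : ℕ, 0 < i → i < r → sysX π i = sysX π' i) (i : Fin r) (hi : 0 < (i : ℕ)) :
    π i = π' i := by
  have h1 : ∀ ρ : Fin r → (Fin r → ZMod 9) → Equiv.Perm (Fin N),
      sysX ρ i = genP i (ρ i) := by
    intro ρ
    unfold sysX
    rw [dif_pos i.2, if_neg (by omega)]
  have h2 := h i hi i.2
  rw [h1, h1] at h2
  funext c
  apply Equiv.ext
  intro j
  exact congrArg Prod.snd (congrArg (fun σ : Equiv.Perm (VV r N) => σ (c, j)) h2)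

end Pool.TSph
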