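import Pool.Agent.Lib.MP_3de3a3_co.Mv

/-! # Decoding, first part (module TransM) -/

set_option autoImplicit false

namespace Pool.TSph

open Finset

variable {ι : Type*} [DecidableEq ι]

theorem TransM_image (f : Fin 4 → ι) (σ : Equiv.Perm (Fin 4)) :
    univ.image (f ∘ σ) = univ.image f := by
  ext x
  simp only [mem_image, mem_univ, true_and, Function.comp_apply]
  constructor
  · rintro ⟨b, rfl⟩; exact ⟨σ b, rfl⟩
  · rintro ⟨b, rfl⟩; exact ⟨σ.symm b, by rw [Equiv.apply_symm_apply]⟩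

/-- In a complex with code, every labelled facet is `lam j ∘ g` for exactly one pair. -/
theorem rep_unique {n : ℕ} {F : Finset (Finset ι)} {c : Code n} {lam : Fin n → Fin 4 → ι}
    {M : Finset (Finset ι)} {rk : Finset ι → ℕ} {e : Finset ι → Finset ι}
    (hc : HasCode F c lam M rk e) {j j' : Fin n} {g g' : Equiv.Perm (Fin 4)}
    (h : lam j ∘ g = lam j' ∘ g') : j = j' ∧ g = g' := by
  have hj : j = j' := hc.inj j j' (by
    rw [← TransM_image (lam j) g, h, TransM_image (lam j') g'])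
  subst hj
  exact ⟨rfl, Equiv.ext fun x => (hc.lf j).1 (congrFun h x)⟩

theorem rep_exists {n : ℕ} {F : Finset (Finset ι)} {c : Code n} {lam : Fin n → Fin 4 → ι}
    {M : Finset (Finset ι)} {rk : Finset ι → ℕ} {e : Finset ι → Finset ι}
    (hc : HasCode F c lam M rk e) {f : Fin 4 → ι} (hf : IsLF F f) :
    ∃ j, ∃ g : Equiv.Perm (Fin 4), f = lam j ∘ g := by
  obtain ⟨j, hj⟩ := hc.surj _ hf.2
  obtain ⟨σ, hσ⟩ := exists_perm (hc.lf j).1 hf.1 hj.symm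
  exact ⟨j, σ, hσ⟩

omit [DecidableEq ι] in
theorem TransM_one (f : Fin 4 → ι) : f ∘ (1 : Equiv.Perm (Fin 4)) = f := rfl

/-- The sides with labels `none` (triangles in `M`) are glued in the same way. -/
theorem transfer_M {n : ℕ} {F₁ F₂ : Finset (Finset ι)} {c : Code n}
    {lam₁ lam₂ : Fin n → Fin 4 → ι} {M₁ M₂ : Finset (Finset ι)} {rk₁ rk₂ : Finset ι → ℕ}
    {e₁ e₂ : Finset ι → Finset ι} (h₁ : PM F₁) (h₂ : PM F₂)
    (hc₁ : HasCode F₁ c lam₁ M₁ rk₁ e₁) (hc₂ : HasCode F₂ c lam₂ M₂ rk₂ e₂)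
    (i : Fin n) (a : Fin 4) (hM : side (lam₁ i) a ∈ M₁) (j : Fin n) (g : Equiv.Perm (Fin 4))
    (h : mv F₁ a (lam₁ i) = lam₁ j ∘ g) : mv F₂ a (lam₂ i) = lam₂ j ∘ g := by
  rcases hc₁.cover i a hM with ⟨i', hi', hci, hca⟩ | ⟨hi, hca⟩ | hne | ⟨j', g', hj', hne⟩
  · have h3 := hc₁.tree i' hi'
    have h4 := hc₂.tree i' hi'
    rw [hci, hca] at h3 h4
    rw [h, ← TransM_one (lam₁ i')] at h3
    obtain ⟨hj, hg⟩ := rep_unique hc₁ h3
    rw [← hj, ← hg, TransM_one, ← h4]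
  · have h3 := hc₁.tree i hi
    have h4 := hc₂.tree i hi
    rw [hca] at h3 h4
    have h5 : mv F₁ a (lam₁ i) = lam₁ (c.1 i) := by
      rw [h3, mv_mv h₁ (hc₁.lf _)]
    have h6 : mv F₂ a (lam₂ i) = lam₂ (c.1 i) := by
      rw [h4, mv_mv h₂ (hc₂.lf _)]
    rw [h5, ← TransM_one (lam₁ (c.1 i))] at h
    obtain ⟨hj, hg⟩ := rep_unique hc₁ h
    rw [h6, ← hj, ← hg, TransM_one]
  · obtain ⟨p, hp⟩ := Option.ne_none_iff_exists'.1 hne
    obtain ⟨j', g'⟩ := p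
    have h3 := hc₁.dat i a j' g' hp
    have h4 := hc₂.dat i a j' g' hp
    rw [h] at h3
    obtain ⟨hj, hg⟩ := rep_unique hc₁ h3
    rw [h4, hj, hg]
  · rw [h] at hj'
    obtain ⟨hj, hg⟩ := rep_unique hc₁ hj'
    rw [← hj, ← hg] at hne
    obtain ⟨p, hp⟩ := Option.ne_none_iff_exists'.1 hne
    obtain ⟨k, g''⟩ := p
    have h3 := hc₁.dat j (g a) k g'' hp
    have h4 := hc₂.dat j (g a) k g'' hp
    have h5 : lam₁ i ∘ (1 : Equiv.Perm (Fin 4)) = lam₁ k ∘ (g'' * g : Equiv.Perm (Fin 4)) := by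
      rw [TransM_one, ← mv_mv h₁ (hc₁.lf i) a, h, mv_comp h₁ (hc₁.lf j), h3]
      rfl
    obtain ⟨hk, hg1⟩ := rep_unique hc₁ h5
    have h6 : mv F₂ a (lam₂ j ∘ g) = lam₂ i := by
      rw [mv_comp h₂ (hc₂.lf j), h4, hk]
      change lam₂ k ∘ (g'' * g : Equiv.Perm (Fin 4)) = lam₂ k
      rw [← hg1, TransM_one]
    rw [← h6, mv_mv h₂ (isLF_comp (hc₂.lf j) g)]

end Pool.TSph
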