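import Pool.Agent.Lib.MP_3de3a3_co.TransStep

/-! # Decoding (module Transfer) -/

set_option autoImplicit false

namespace Pool.TSph

open Finset

variable {ι : Type*} [DecidableEq ι]

theorem transfer {n : ℕ} {F₁ F₂ : Finset (Finset ι)} {c : Code n}
    {lam₁ lam₂ : Fin n → Fin 4 → ι} {M₁ M₂ : Finset (Finset ι)} {rk₁ rk₂ : Finset ι → ℕ}
    {e₁ e₂ : Finset ι → Finset ι} (h₁ : PM F₁) (h₂ : PM F₂)
    (hc₁ : HasCode F₁ c lam₁ M₁ rk₁ e₁) (hc₂ : HasCode F₂ c lam₂ M₂ rk₂ e₂) :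
    ∀ (i : Fin n) (a : Fin 4) (j : Fin n) (g : Equiv.Perm (Fin 4)),
      mv F₁ a (lam₁ i) = lam₁ j ∘ g → mv F₂ a (lam₂ i) = lam₂ j ∘ g := by
  have key : ∀ (N : ℕ) (i : Fin n) (a : Fin 4), rk₁ (side (lam₁ i) a) < N →
      ∀ (j : Fin n) (g : Equiv.Perm (Fin 4)),
      mv F₁ a (lam₁ i) = lam₁ j ∘ g → mv F₂ a (lam₂ i) = lam₂ j ∘ g := by
    intro N
    induction N with
    | zero => intro i a h; omega
    | succ N ih =>
      intro i a hr j g h
      by_cases hM : side (lam₁ i) a ∈ M₁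
      · exact transfer_M h₁ h₂ hc₁ hc₂ i a hM j g h
      · refine transfer_step h₁ h₂ hc₁ hc₂ i a hM ?_ j g h
        intro i' a' h' j' g' hh
        rcases h' with h' | h'
        · exact transfer_M h₁ h₂ hc₁ hc₂ i' a' h' j' g' hh
        · exact ih i' a' (by omega) j' g' hh
  intro i a j g h
  exact key _ i a (Nat.lt_succ_self _) j g h

end Pool.TSph
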